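import Pool.Agent.H37.ATR.Spec

/-!
# ASM: assembly of the middle range
-/

set_option autoImplicit false

open MeasureTheory Filter Complex Polynomial
open scoped Topology Real

namespace Pool.Agent.H37.ATR

/-- Local moments. -/
noncomputable def asmG (r n : ℕ) (x : ℝ) (p j : ℕ) : ℂ :=
  ∫ y in (-(1 / 8) : ℝ)..(1 / 8), A r n x y * (cexp (I * y) - 1) ^ p * (cexp (-(I * y)) - 1) ^ j

theorem asm_cont_W (r n : ℕ) (x : ℝ) (i : ℕ) : Continuous (fun y : ℝ => W r n x i y) := by
  unfold W fc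
  refine Continuous.mul continuous_const ?_
  refine continuous_finsetSum _ (fun l _ => ?_)
  refine Continuous.mul continuous_const ?_
  refine Continuous.div_const ?_ _
  refine Continuous.mul (by fun_prop) ?_
  exact (Polynomial.continuous_aeval _).comp (by fun_prop)

theorem asm_norm1 (y : ℝ) : ‖cexp (I * y) - 1‖ ≤ |y| := Real.norm_exp_I_mul_ofReal_sub_one_le

theorem asm_norm2 (y : ℝ) : ‖cexp (-(I * y)) - 1‖ ≤ |y| := by
  have h := asm_norm1 (-y)
  rw [abs_neg] at h
  have e : -(I * (y : ℂ)) = I * ((-y : ℝ) : ℂ) := by push_cast; ring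
  rw [e]
  exact h

theorem asm_norm3 (y : ℝ) : ‖cexp (-(I * y)) - 1‖ ≤ 2 := by
  have e : -(I * (y : ℂ)) = I * ((-y : ℝ) : ℂ) := by push_cast; ring
  have h : ‖cexp (-(I * y))‖ = 1 := by rw [e]; exact norm_exp_I_mul_ofReal _
  calc ‖cexp (-(I * y)) - 1‖ ≤ ‖cexp (-(I * y))‖ + ‖(1 : ℂ)‖ := norm_sub_le _ _
    _ = 2 := by rw [h, norm_one]; norm_num

/-- One entry of the matrix, near and far. -/
theorem asm_entry (hphi : PhiSt) (habs : AbsSt) (hfar : FarSt) (r m : ℕ) (hr : 2 ≤ r) :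
    ∃ C c : ℝ, 0 < C ∧ 0 < c ∧ ∀ (n : ℕ) (x : ℝ), 0 < x → 1 ≤ V r n x → 0 < R r n x →
      0 < D r n x → ∃ T : Fin m → Fin m → ℂ, (∀ i l, ‖T i l‖ ≤ C) ∧
      (∀ i l, l ≤ i → ‖T i l - (if l = i then 1 else 0)‖ ≤ C * (1 / V r n x + 1 / (n + 1))) ∧
      ∀ i j : Fin m,
        ‖(2 * π : ℝ) * H r n x i j - ∑ l : Fin m, T i l * asmG r n x l j‖ ≤
          C * (1 / √(V r n x) ^ (m + (j : ℕ) + 1)) +
            C * ((R r n x / D r n x) ^ (i : ℕ) * Real.exp (-(c * V r n x))) := by
  obtain ⟨C1, hC1, hT⟩ := hphi r m hr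
  choose C2 hC2 hA using habs
  obtain ⟨C3, c, hC3, hc, hF⟩ := hfar r m hr
  have hr1 : 1 ≤ r := by omega
  -- a common constant
  set Cs : ℝ := ∑ j ∈ Finset.range m, C2 (m + j) with hCs
  have hCs0 : 0 ≤ Cs := Finset.sum_nonneg (fun j _ => (hC2 _).le)
  have hCsj : ∀ j < m, C2 (m + j) ≤ Cs := fun j hj =>
    Finset.single_le_sum (f := fun j => C2 (m + j)) (fun j _ => (hC2 _).le)
      (Finset.mem_range.mpr hj)
  set C : ℝ := C1 + C1 * Cs + 8 * C3 * 2 ^ m with hC
  have hCpos : 0 < C := by positivity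
  refine ⟨C, c, hCpos, hc, ?_⟩
  intro n x hx hV hR hD
  have hVpos : 0 < V r n x := by linarith
  have hsq : 0 < √(V r n x) := Real.sqrt_pos.mpr hVpos
  choose T ρ hT1 hT2 hT3 using fun i : Fin m => hT n x hx hV i i.2
  refine ⟨fun i l => T i l, ?_, ?_, ?_⟩
  · intro i l
    refine (hT1 i l).trans ?_
    have : 0 ≤ C1 * Cs + 8 * C3 * 2 ^ m := by positivity
    rw [hC]; linarith
  · intro i l hl
    have h := hT2 i l (by exact_mod_cast hl)
    have e : (if (l : ℕ) = (i : ℕ) then (1 : ℂ) else 0) = if l = i then 1 else 0 := by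
      simp only [Fin.ext_iff]
    rw [e] at h
    refine h.trans ?_
    have h0 : 0 ≤ 1 / V r n x + 1 / ((n : ℝ) + 1) := by positivity
    refine mul_le_mul_of_nonneg_right ?_ h0
    have : 0 ≤ C1 * Cs + 8 * C3 * 2 ^ m := by positivity
    rw [hC]; linarith
  · intro i j
    have hAc : Continuous (fun y : ℝ => A r n x y) := (hA 0 r n x hr1 hx hVpos).1
    have hWc := asm_cont_W r n x i
    -- splitting of the integral
    set w : ℝ → ℂ := fun y => W r n x i y * (cexp (-(I * y)) - 1) ^ (j : ℕ) with hw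
    have hwc : Continuous w := by
      rw [hw]
      exact hWc.mul (by fun_prop)
    have hsplit : (2 * π : ℝ) * H r n x i j =
        (∫ y in (-π)..(-(1 / 8)), w y) + (∫ y in (-(1 / 8) : ℝ)..(1 / 8), w y) +
          ∫ y in (1 / 8 : ℝ)..π, w y := by
      rw [intervalIntegral.integral_add_adjacent_intervals (hwc.intervalIntegrable _ _)
        (hwc.intervalIntegrable _ _), intervalIntegral.integral_add_adjacent_intervals
        (hwc.intervalIntegrable _ _) (hwc.intervalIntegrable _ _)]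
      unfold H
      rw [← mul_assoc]
      have hpi : ((2 * π : ℝ) : ℂ) * ((1 / (2 * π) : ℝ) : ℂ) = 1 := by
        rw [← Complex.ofReal_mul]
        rw [mul_one_div_cancel (by positivity)]
        simp
      rw [hpi, one_mul]
    -- near part
    set g : ℝ → ℂ := fun y => A r n x y * (∑ l : Fin m, T i l * (cexp (I * y) - 1) ^ (l : ℕ)) *
      (cexp (-(I * y)) - 1) ^ (j : ℕ) with hg
    have hgc : Continuous g := by
      rw [hg]
      refine (hAc.mul ?_).mul (by fun_prop)
      exact continuous_finsetSum _ (fun l _ => by fun_prop)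
    have hgint : (∫ y in (-(1 / 8) : ℝ)..(1 / 8), g y) = ∑ l : Fin m, T i l * asmG r n x l j := by
      have e : ∀ y : ℝ, g y = ∑ l : Fin m, T i l * (A r n x y * (cexp (I * y) - 1) ^ (l : ℕ) *
          (cexp (-(I * y)) - 1) ^ (j : ℕ)) := by
        intro y
        simp only [hg, Finset.mul_sum, Finset.sum_mul]
        exact Finset.sum_congr rfl (fun l _ => by ring)
      simp only [e]
      rw [intervalIntegral.integral_finsetSum]
      · refine Finset.sum_congr rfl (fun l _ => ?_)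
        rw [intervalIntegral.integral_const_mul]
        rfl
      · intro l _
        refine Continuous.intervalIntegrable ?_ _ _
        exact continuous_const.mul ((hAc.mul (by fun_prop)).mul (by fun_prop))
    have hnear : ‖(∫ y in (-(1 / 8) : ℝ)..(1 / 8), w y) - ∑ l : Fin m, T i l * asmG r n x l j‖ ≤
        C1 * Cs * (1 / √(V r n x) ^ (m + (j : ℕ) + 1)) := by
      rw [← hgint, ← intervalIntegral.integral_sub (hwc.intervalIntegrable _ _)
        (hgc.intervalIntegrable _ _)]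
      have hb : ∀ y ∈ Set.Ioc (-(1 / 8) : ℝ) (1 / 8), ‖w y - g y‖ ≤
          C1 * (‖A r n x y‖ * |y| ^ (m + (j : ℕ))) := by
        intro y hy
        have hy8 : |y| ≤ 1 / 8 := abs_le.mpr ⟨hy.1.le, hy.2⟩
        obtain ⟨hρ, hWy⟩ := hT3 i y hy8
        have e : w y - g y = A r n x y * (cexp (I * y) - 1) ^ m * ρ i y *
            (cexp (-(I * y)) - 1) ^ (j : ℕ) := by
          simp only [hw, hg]
          rw [hWy, Finset.sum_range]
          ring
        rw [e, norm_mul, norm_mul, norm_mul, norm_pow, norm_pow, pow_add]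
        have h1 := pow_le_pow_left₀ (norm_nonneg _) (asm_norm1 y) m
        have h2 := pow_le_pow_left₀ (norm_nonneg _) (asm_norm2 y) (j : ℕ)
        calc ‖A r n x y‖ * ‖cexp (I * y) - 1‖ ^ m * ‖ρ i y‖ * ‖cexp (-(I * y)) - 1‖ ^ (j : ℕ)
            ≤ ‖A r n x y‖ * |y| ^ m * C1 * |y| ^ (j : ℕ) := by gcongr
          _ = C1 * (‖A r n x y‖ * (|y| ^ m * |y| ^ (j : ℕ))) := by ring
      have hint : IntervalIntegrable (fun y : ℝ => C1 * (‖A r n x y‖ * |y| ^ (m + (j : ℕ))))
          volume (-(1 / 8) : ℝ) (1 / 8) := by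
        refine Continuous.intervalIntegrable ?_ _ _
        exact continuous_const.mul (hAc.norm.mul (by fun_prop))
      have h1 := intervalIntegral.norm_integral_le_of_norm_le (by norm_num)
        (Filter.Eventually.of_forall hb) hint
      refine h1.trans ?_
      rw [intervalIntegral.integral_const_mul, mul_assoc]
      refine mul_le_mul_of_nonneg_left ?_ hC1.le
      have h2 := (hA (m + j) r n x hr1 hx hVpos).2.2
      have h3 : 0 < √(V r n x) ^ (m + (j : ℕ) + 1) := by positivity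
      rw [mul_one_div, le_div_iff₀ h3, mul_comm]
      exact h2.trans (hCsj j j.2)
    -- far parts
    have hfarb : ∀ y : ℝ, 1 / 8 ≤ |y| → |y| ≤ π →
        ‖w y‖ ≤ C3 * 2 ^ m * ((R r n x / D r n x) ^ (i : ℕ) * Real.exp (-(c * V r n x))) := by
      intro y h1 h2
      have h3 := hF n x hx hV i i.2 y h1 h2
      simp only [hw]
      rw [norm_mul, norm_pow]
      have h4 : ‖cexp (-(I * y)) - 1‖ ^ (j : ℕ) ≤ 2 ^ m :=
        (pow_le_pow_left₀ (norm_nonneg _) (asm_norm3 y) _).trans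
          (pow_le_pow_right₀ (by norm_num) j.2.le)
      have hRD : 0 < R r n x / D r n x := div_pos hR hD
      calc ‖W r n x i y‖ * ‖cexp (-(I * y)) - 1‖ ^ (j : ℕ)
          ≤ (C3 * (R r n x / D r n x) ^ (i : ℕ) * Real.exp (-(c * V r n x))) * 2 ^ m := by
            gcongr
        _ = C3 * 2 ^ m * ((R r n x / D r n x) ^ (i : ℕ) * Real.exp (-(c * V r n x))) := by ring
    have hpi4 : π ≤ 4 := by linarith [Real.pi_lt_d2]
    have hpi8 : (1 : ℝ) / 8 ≤ π := by linarith [Real.pi_gt_three]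
    set Q : ℝ := C3 * 2 ^ m * ((R r n x / D r n x) ^ (i : ℕ) * Real.exp (-(c * V r n x))) with hQ
    have hQ0 : 0 ≤ Q := by
      have hRD : 0 < R r n x / D r n x := div_pos hR hD
      positivity
    have hf1 : ‖∫ y in (-π)..(-(1 / 8)), w y‖ ≤ 4 * Q := by
      have h := intervalIntegral.norm_integral_le_of_norm_le_const (a := -π) (b := -(1 / 8))
        (f := w) (C := Q) (by
          intro y hy
          rw [Set.uIoc_of_le (by linarith)] at hy
          have hyn : y ≤ 0 := by linarith [hy.2]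
          refine hfarb y ?_ ?_
          · rw [abs_of_nonpos hyn]; linarith [hy.2]
          · rw [abs_of_nonpos hyn]; linarith [hy.1])
      refine h.trans ?_
      have h2 : |-(1 / 8) - -π| ≤ 4 := by
        rw [abs_of_nonneg (by linarith)]; linarith
      nlinarith
    have hf2 : ‖∫ y in (1 / 8 : ℝ)..π, w y‖ ≤ 4 * Q := by
      have h := intervalIntegral.norm_integral_le_of_norm_le_const (a := 1 / 8) (b := π)
        (f := w) (C := Q) (by
          intro y hy
          rw [Set.uIoc_of_le (by linarith)] at hy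
          have hyn : 0 ≤ y := by linarith [hy.1]
          refine hfarb y ?_ ?_
          · rw [abs_of_nonneg hyn]; linarith [hy.1]
          · rw [abs_of_nonneg hyn]; linarith [hy.2])
      refine h.trans ?_
      have h2 : |π - 1 / 8| ≤ 4 := by
        rw [abs_of_nonneg (by linarith)]; linarith
      nlinarith
    have e : (2 * π : ℝ) * H r n x i j - ∑ l : Fin m, T i l * asmG r n x l j =
        ((∫ y in (-(1 / 8) : ℝ)..(1 / 8), w y) - ∑ l : Fin m, T i l * asmG r n x l j) +
          (∫ y in (-π)..(-(1 / 8)), w y) + ∫ y in (1 / 8 : ℝ)..π, w y := by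
      rw [hsplit]; ring
    rw [e]
    refine (norm_add₃_le).trans ?_
    have hs0 : 0 ≤ 1 / √(V r n x) ^ (m + (j : ℕ) + 1) := by positivity
    have hexp0 : 0 ≤ (R r n x / D r n x) ^ (i : ℕ) * Real.exp (-(c * V r n x)) := by
      have hRD : 0 < R r n x / D r n x := div_pos hR hD
      positivity
    have k1 : C1 * Cs ≤ C := by
      rw [hC]
      have : 0 ≤ 8 * C3 * 2 ^ m := by positivity
      linarith
    have k2 : 8 * C3 * 2 ^ m ≤ C := by
      rw [hC]
      have : 0 ≤ C1 * Cs := by positivity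
      linarith
    calc _ ≤ C1 * Cs * (1 / √(V r n x) ^ (m + (j : ℕ) + 1)) + 4 * Q + 4 * Q := by
            gcongr
      _ = C1 * Cs * (1 / √(V r n x) ^ (m + (j : ℕ) + 1)) + 8 * C3 * 2 ^ m *
            ((R r n x / D r n x) ^ (i : ℕ) * Real.exp (-(c * V r n x))) := by
            rw [hQ]; ring
      _ ≤ _ := by gcongr

/-- Scaling of rows and columns. -/
theorem asm_scale (m : ℕ) (a b : Fin m → ℝ) (X : Fin m → Fin m → ℂ) :
    Matrix.det (Matrix.of fun i j : Fin m => ((a i * b j : ℝ) : ℂ) * X i j) =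
      ((∏ i, (a i * b i) : ℝ) : ℂ) * Matrix.det (Matrix.of fun i j : Fin m => X i j) := by
  have h1 : (Matrix.of fun i j : Fin m => ((a i * b j : ℝ) : ℂ) * X i j) =
      Matrix.of fun i j : Fin m => (a i : ℂ) * (Matrix.of fun i j : Fin m => (b j : ℂ) *
        (Matrix.of fun i j : Fin m => X i j) i j) i j := by
    ext i j
    simp only [Matrix.of_apply]
    push_cast
    ring
  rw [h1, Matrix.det_mul_column, Matrix.det_mul_row]
  push_cast
  rw [Finset.prod_mul_distrib]
  ring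

/-- The determinant of the limit. -/
theorem asm_detlim (m : ℕ) (h : Fin m → Fin m → ℝ) :
    Matrix.det (Matrix.of fun i j : Fin m => I ^ (i : ℕ) * (-I) ^ (j : ℕ) * (h i j : ℂ)) =
      ((Matrix.det (Matrix.of fun i j : Fin m => h i j) : ℝ) : ℂ) := by
  have e1 : (Matrix.of fun i j : Fin m => I ^ (i : ℕ) * (-I) ^ (j : ℕ) * (h i j : ℂ)) =
      Matrix.of fun i j : Fin m => I ^ (i : ℕ) *
        (Matrix.of fun i j : Fin m => (-I) ^ (j : ℕ) *
          (Matrix.of fun i j : Fin m => (h i j : ℂ)) i j) i j := by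
    ext i j
    simp only [Matrix.of_apply]
    ring
  rw [e1, Matrix.det_mul_column, Matrix.det_mul_row, ← mul_assoc, ← Finset.prod_mul_distrib]
  have e2 : ∀ i : Fin m, I ^ (i : ℕ) * (-I) ^ (i : ℕ) = 1 := by
    intro i
    rw [← mul_pow]
    simp
  simp only [e2, Finset.prod_const_one, one_mul]
  have e3 := RingHom.map_det Complex.ofRealHom (Matrix.of fun i j : Fin m => h i j)
  rw [show ((Matrix.det (Matrix.of fun i j : Fin m => h i j) : ℝ) : ℂ) =
    Complex.ofRealHom (Matrix.det (Matrix.of fun i j : Fin m => h i j)) from rfl, e3]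
  congr 1

/-- Algebra: `2 pi H = T (G + E)`. -/
theorem asm_alg {m : ℕ} (T G K : Matrix (Fin m) (Fin m) ℂ) (hT : T.det ≠ 0) :
    T.det * (G + (T.det)⁻¹ • (T.adjugate * (K - T * G))).det = K.det := by
  rw [← Matrix.det_mul]
  congr 1
  rw [mul_add, Matrix.mul_smul, ← Matrix.mul_assoc, Matrix.mul_adjugate, Matrix.smul_mul,
    Matrix.one_mul, smul_smul, inv_mul_cancel₀ hT, one_smul]
  abel

/-- Bound of the scaled errors. -/
theorem asm_small (C c a : ℝ) (hC : 0 < C) (hc : 0 < c) (ha : 1 ≤ a) (m : ℕ) {v q : ℕ → ℝ}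
    (hv1 : ∀ t, 1 ≤ v t) (hv : Tendsto v atTop atTop) (hq0 : ∀ t, 0 ≤ q t)
    (hq : ∀ t, q t ≤ a * v t ^ 2) (i j l : Fin m) :
    Tendsto (fun t => √(v t) ^ ((l : ℕ) + (j : ℕ) + 1) *
      (C * (1 / √(v t) ^ (m + (j : ℕ) + 1)) + C * (q t ^ (i : ℕ) * Real.exp (-(c * v t)))))
      atTop (𝓝 0) := by
  have hs1 : ∀ t, 1 ≤ √(v t) := fun t => Real.one_le_sqrt.mpr (hv1 t)
  have hst : Tendsto (fun t => √(v t)) atTop atTop := Real.tendsto_sqrt_atTop.comp hv
  have hA : Tendsto (fun t => C * (1 / √(v t))) atTop (𝓝 0) := by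
    have h := (tendsto_inv_atTop_zero.comp hst).const_mul C
    simp only [mul_zero] at h
    refine h.congr (fun t => ?_)
    simp [one_div]
  have hB : Tendsto (fun t => C * a ^ m * (v t ^ (3 * m) * Real.exp (-(c * v t)))) atTop (𝓝 0) := by
    have h1 : Tendsto (fun t => c * v t) atTop atTop := hv.const_mul_atTop hc
    have h2 := (Real.tendsto_pow_mul_exp_neg_atTop_nhds_zero (3 * m)).comp h1
    have h3 := h2.const_mul (C * a ^ m * (c ^ (3 * m))⁻¹)
    simp only [mul_zero] at h3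
    refine h3.congr (fun t => ?_)
    simp only [Function.comp, mul_pow]
    field_simp
  have hAB := hA.add hB
  rw [add_zero] at hAB
  refine squeeze_zero (fun t => ?_) (fun t => ?_) hAB
  · have := hq0 t
    have := hs1 t
    positivity
  · have hs := hs1 t
    have hs0 : 0 < √(v t) := by linarith
    have hv0 : 0 < v t := by linarith [hv1 t]
    rw [mul_add]
    refine add_le_add ?_ ?_
    · have h1 : √(v t) ^ ((l : ℕ) + (j : ℕ) + 1) * √(v t) ≤ √(v t) ^ (m + (j : ℕ) + 1) := by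
        rw [← pow_succ]
        exact pow_le_pow_right₀ hs (by have := l.2; omega)
      have h2 : √(v t) ^ ((l : ℕ) + (j : ℕ) + 1) * (1 / √(v t) ^ (m + (j : ℕ) + 1)) ≤
          1 / √(v t) := by
        rw [mul_one_div, div_le_div_iff₀ (by positivity) hs0, one_mul]
        exact h1
      calc √(v t) ^ ((l : ℕ) + (j : ℕ) + 1) * (C * (1 / √(v t) ^ (m + (j : ℕ) + 1)))
          = C * (√(v t) ^ ((l : ℕ) + (j : ℕ) + 1) * (1 / √(v t) ^ (m + (j : ℕ) + 1))) := by ring
        _ ≤ C * (1 / √(v t)) := by gcongr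
    · have h1 : √(v t) ^ ((l : ℕ) + (j : ℕ) + 1) ≤ v t ^ m := by
        calc √(v t) ^ ((l : ℕ) + (j : ℕ) + 1) ≤ √(v t) ^ (2 * m) :=
              pow_le_pow_right₀ hs (by have := l.2; have := j.2; omega)
          _ = v t ^ m := by rw [pow_mul, Real.sq_sqrt hv0.le]
      have h2 : q t ^ (i : ℕ) ≤ a ^ m * v t ^ (2 * m) := by
        have hav : 1 ≤ a * v t ^ 2 := by
          have h3 : 1 ≤ v t ^ 2 := one_le_pow₀ (hv1 t)
          nlinarith
        calc q t ^ (i : ℕ) ≤ (a * v t ^ 2) ^ (i : ℕ) := pow_le_pow_left₀ (hq0 t) (hq t) _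
          _ ≤ (a * v t ^ 2) ^ m := pow_le_pow_right₀ hav i.2.le
          _ = a ^ m * v t ^ (2 * m) := by rw [mul_pow, ← pow_mul]
      have hqn : 0 ≤ q t ^ (i : ℕ) := pow_nonneg (hq0 t) _
      calc √(v t) ^ ((l : ℕ) + (j : ℕ) + 1) * (C * (q t ^ (i : ℕ) * Real.exp (-(c * v t))))
          ≤ v t ^ m * (C * (a ^ m * v t ^ (2 * m) * Real.exp (-(c * v t)))) := by gcongr
        _ = C * a ^ m * (v t ^ (3 * m) * Real.exp (-(c * v t))) := by
            rw [show 3 * m = m + 2 * m by ring, pow_add]; ring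

theorem asm (hdel : DelSt) (hbas : BasSt) (hdet : DetSt) (hphi : PhiSt) (hmom : MomSt)
    (habs : AbsSt) (hfar : FarSt) (hhan : Pool.Agent.H53.ATP.HanSt) : MidSt := by
  intro r m hr
  by_contra hcon
  push Not at hcon
  have hcon' : ∀ t : ℕ, ∃ n : ℕ, t ≤ n ∧ ∃ k : ℕ, k ≤ n ∧ ∃ x : ℝ, 0 < x ∧ L r n x = k ∧
      (t : ℝ) + 1 ≤ V r n x ∧ (1 / 2 ≤ x ∨ √(n : ℝ) ≤ V r n x) ∧ sol r m n k ≤ 0 := by
    intro t
    obtain ⟨n, hn, k, hk, x, hx, hL, hV, hor, hs⟩ := hcon ((t : ℝ) + 1) t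
    exact ⟨n, hn, k, hk, x, hx, hL, hV, hor, hs⟩
  choose n hn k hk x hx hL hV hor hsol using hcon'
  have hr1 : 1 ≤ r := by omega
  obtain ⟨C, c, hC, hc, hent⟩ := asm_entry hphi habs hfar r m hr
  have hV1 : ∀ t, 1 ≤ V r (n t) (x t) := fun t => by
    have := hV t
    have : (0 : ℝ) ≤ t := Nat.cast_nonneg t
    linarith
  have hdel' := fun t => hdel r (n t) (x t) hr (hx t) (hV1 t)
  choose T hT1 hT2 hT3 using fun t => hent (n t) (x t) (hx t) (hV1 t) (hdel' t).1 (hdel' t).2.1
  -- a convergent subsequence of `T`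
  obtain ⟨T0, -, φ, hφ, hTlim⟩ := tendsto_subseq_of_bounded
    (Metric.isBounded_closedBall (x := (0 : Fin m → Fin m → ℂ)) (r := C)) (x := T) (fun t => by
      rw [mem_closedBall_zero_iff, pi_norm_le_iff_of_nonneg hC.le]
      intro i
      rw [pi_norm_le_iff_of_nonneg hC.le]
      exact fun l => hT1 t i l)
  have hφt : Tendsto φ atTop atTop := hφ.tendsto_atTop
  have hTent : ∀ i l, Tendsto (fun t => T (φ t) i l) atTop (𝓝 (T0 i l)) := fun i l =>
    (tendsto_pi_nhds.mp ((tendsto_pi_nhds.mp hTlim) i)) l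
  have hVt : Tendsto (fun t => V r (n t) (x t)) atTop atTop := by
    refine tendsto_atTop_mono hV ?_
    exact tendsto_atTop_add_const_right _ _ tendsto_natCast_atTop_atTop
  have hVφ : Tendsto (fun t => V r (n (φ t)) (x (φ t))) atTop atTop := hVt.comp hφt
  have hnt : Tendsto (fun t => (n t : ℝ) + 1) atTop atTop := by
    refine tendsto_atTop_add_const_right _ _ ?_
    refine tendsto_natCast_atTop_atTop.comp ?_
    exact tendsto_atTop_mono hn tendsto_id
  have hT0 : ∀ i l, l ≤ i → T0 i l = if l = i then 1 else 0 := by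
    intro i l hli
    refine tendsto_nhds_unique (hTent i l) ?_
    rw [tendsto_iff_norm_sub_tendsto_zero]
    have h1 : Tendsto (fun t => C * (1 / V r (n (φ t)) (x (φ t)) + 1 / ((n (φ t) : ℝ) + 1))) atTop
        (𝓝 0) := by
      have ha : Tendsto (fun t => 1 / V r (n (φ t)) (x (φ t))) atTop (𝓝 0) := by
        simp only [one_div]
        exact tendsto_inv_atTop_zero.comp hVφ
      have hb : Tendsto (fun t => 1 / ((n (φ t) : ℝ) + 1)) atTop (𝓝 0) := by
        simp only [one_div]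
        exact tendsto_inv_atTop_zero.comp (hnt.comp hφt)
      have := (ha.add hb).const_mul C
      simpa using this
    exact squeeze_zero (fun t => norm_nonneg _) (fun t => hT2 (φ t) i l hli) h1
  -- determinant of the limit
  have hdet0 : Matrix.det (Matrix.of T0) = 1 := by
    have hup : (Matrix.of T0).BlockTriangular id := by
      intro i l hli
      have hli' : l < i := hli
      have h := hT0 i l hli'.le
      rw [if_neg hli'.ne] at h
      exact h
    rw [Matrix.det_of_upperTriangular hup]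
    refine Finset.prod_eq_one (fun i _ => ?_)
    have h := hT0 i i le_rfl
    rw [if_pos rfl] at h
    exact h
  set Tm : ℕ → Matrix (Fin m) (Fin m) ℂ := fun t => Matrix.of (T (φ t)) with hTm
  have hTmlim : Tendsto Tm atTop (𝓝 (Matrix.of T0)) := by
    refine tendsto_pi_nhds.mpr (fun i => ?_)
    exact tendsto_pi_nhds.mpr (fun l => hTent i l)
  have hdetlim : Tendsto (fun t => (Tm t).det) atTop (𝓝 1) := by
    have hcont : Continuous fun B : Matrix (Fin m) (Fin m) ℂ => B.det := continuous_id.matrix_det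
    rw [← hdet0]
    exact (hcont.tendsto _).comp hTmlim
  have hadjlim : Tendsto (fun t => (Tm t).adjugate) atTop (𝓝 (Matrix.of T0).adjugate) := by
    have hcont : Continuous fun B : Matrix (Fin m) (Fin m) ℂ => B.adjugate :=
      continuous_id.matrix_adjugate
    exact (hcont.tendsto _).comp hTmlim
  -- matrices
  set G : ℕ → Matrix (Fin m) (Fin m) ℂ := fun t =>
    Matrix.of fun l j : Fin m => asmG r (n (φ t)) (x (φ t)) l j with hG
  set K : ℕ → Matrix (Fin m) (Fin m) ℂ := fun t =>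
    Matrix.of fun i j : Fin m => ((2 * π : ℝ) : ℂ) * H r (n (φ t)) (x (φ t)) i j with hK
  set E : ℕ → Matrix (Fin m) (Fin m) ℂ := fun t =>
    ((Tm t).det)⁻¹ • ((Tm t).adjugate * (K t - Tm t * G t)) with hE
  set s : ℕ → ℝ := fun t => √(V r (n (φ t)) (x (φ t))) with hs
  set X : ℕ → Fin m → Fin m → ℂ := fun t l j =>
    ((s t ^ ((l : ℕ) + 1) * s t ^ (j : ℕ) : ℝ) : ℂ) * (G t + E t) l j with hX
  set h : Fin m → Fin m → ℝ := fun i j =>
    (∫ v : ℝ, v ^ ((i : ℕ) + (j : ℕ)) * Real.exp (-(v ^ 2 / 2)) : ℝ) with hhdef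
  -- scaled errors
  have hq : ∀ t, 0 ≤ R r (n (φ t)) (x (φ t)) / D r (n (φ t)) (x (φ t)) ∧
      R r (n (φ t)) (x (φ t)) / D r (n (φ t)) (x (φ t)) ≤
        (4 * ((r : ℝ) + 1)) * V r (n (φ t)) (x (φ t)) ^ 2 := by
    intro t
    obtain ⟨h1, h2, -, -, -, h6, h7⟩ := hdel' (φ t)
    refine ⟨(div_pos h1 h2).le, ?_⟩
    have hv := hV1 (φ t)
    set v := V r (n (φ t)) (x (φ t)) with hvdef
    have hr0 : (0 : ℝ) ≤ r := Nat.cast_nonneg r
    have hv2 : 1 ≤ v ^ 2 := one_le_pow₀ hv
    rcases hor (φ t) with ho | ho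
    · refine (h6 ho).trans ?_
      nlinarith
    · refine h7.trans ?_
      have hn0 : (0 : ℝ) ≤ n (φ t) := Nat.cast_nonneg _
      have hnv : (n (φ t) : ℝ) ≤ v ^ 2 := by
        calc (n (φ t) : ℝ) = √(n (φ t) : ℝ) ^ 2 := (Real.sq_sqrt hn0).symm
          _ ≤ v ^ 2 := pow_le_pow_left₀ (Real.sqrt_nonneg _) ho 2
      nlinarith
  have hFlim : ∀ i j l : Fin m, Tendsto (fun t =>
      ((s t ^ ((l : ℕ) + 1) * s t ^ (j : ℕ) : ℝ) : ℂ) * (K t - Tm t * G t) i j) atTop (𝓝 0) := by
    intro i j l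
    rw [tendsto_zero_iff_norm_tendsto_zero]
    have h1 := asm_small C c (4 * ((r : ℝ) + 1)) hC hc (by
      have : (0 : ℝ) ≤ r := Nat.cast_nonneg r
      linarith) m (fun t => hV1 (φ t)) hVφ (fun t => (hq t).1) (fun t => (hq t).2) i j l
    refine squeeze_zero (fun t => norm_nonneg _) (fun t => ?_) h1
    have hs0 : 0 ≤ s t := Real.sqrt_nonneg _
    rw [norm_mul, Complex.norm_real, Real.norm_of_nonneg (by positivity)]
    have e1 : s t ^ ((l : ℕ) + 1) * s t ^ (j : ℕ) =
        √(V r (n (φ t)) (x (φ t))) ^ ((l : ℕ) + (j : ℕ) + 1) := by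
      rw [← pow_add]
      congr 1
      ring
    rw [e1]
    refine mul_le_mul_of_nonneg_left ?_ (by positivity)
    have h2 := hT3 (φ t) i j
    have e2 : (K t - Tm t * G t) i j = (2 * π : ℝ) * H r (n (φ t)) (x (φ t)) i j -
        ∑ l : Fin m, T (φ t) i l * asmG r (n (φ t)) (x (φ t)) l j := by
      simp only [hK, hTm, hG, Matrix.sub_apply, Matrix.mul_apply, Matrix.of_apply]
    rw [e2]
    exact h2
  have hElim : ∀ l j : Fin m, Tendsto (fun t =>
      ((s t ^ ((l : ℕ) + 1) * s t ^ (j : ℕ) : ℝ) : ℂ) * E t l j) atTop (𝓝 0) := by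
    intro l j
    have e : ∀ t, ((s t ^ ((l : ℕ) + 1) * s t ^ (j : ℕ) : ℝ) : ℂ) * E t l j =
        ((Tm t).det)⁻¹ * ∑ i : Fin m, (Tm t).adjugate l i *
          (((s t ^ ((l : ℕ) + 1) * s t ^ (j : ℕ) : ℝ) : ℂ) * (K t - Tm t * G t) i j) := by
      intro t
      simp only [hE, Matrix.smul_apply, Matrix.mul_apply, smul_eq_mul]
      rw [mul_left_comm]
      congr 1
      rw [Finset.mul_sum]
      exact Finset.sum_congr rfl (fun i _ => by ring)
    simp only [e]
    have h1 : Tendsto (fun t => ∑ i : Fin m, (Tm t).adjugate l i *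
        (((s t ^ ((l : ℕ) + 1) * s t ^ (j : ℕ) : ℝ) : ℂ) * (K t - Tm t * G t) i j)) atTop
        (𝓝 (∑ i : Fin m, (Matrix.of T0).adjugate l i * 0)) := by
      refine tendsto_finsetSum _ (fun i _ => ?_)
      refine Tendsto.mul ?_ (hFlim i j l)
      exact (tendsto_pi_nhds.mp ((tendsto_pi_nhds.mp hadjlim) l)) i
    have h2 : Tendsto (fun t => ((Tm t).det)⁻¹) atTop (𝓝 (1 : ℂ)⁻¹) :=
      hdetlim.inv₀ one_ne_zero
    have h3 := h2.mul h1
    simpa using h3
  have hXent : ∀ l j : Fin m, Tendsto (fun t => X t l j) atTop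
      (𝓝 (I ^ (l : ℕ) * (-I) ^ (j : ℕ) * (h l j : ℂ))) := by
    intro l j
    have h1 := hmom r hr1 (fun t => n (φ t)) (fun t => x (φ t)) (fun t => hx (φ t)) hVφ l j
    have h2 := h1.add (hElim l j)
    rw [add_zero] at h2
    refine h2.congr (fun t => ?_)
    simp only [hX, Matrix.add_apply, mul_add]
    congr 1
    simp only [hG, Matrix.of_apply, asmG, hs]
    congr 2
    rw [← pow_add]
    congr 1
    ring
  have hlim : Tendsto (fun t => Matrix.det (Matrix.of fun i j : Fin m => X t i j)) atTop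
      (𝓝 (Matrix.det (Matrix.of fun i j : Fin m =>
        I ^ (i : ℕ) * (-I) ^ (j : ℕ) * (h i j : ℂ)))) := by
    have hcont : Continuous fun B : Matrix (Fin m) (Fin m) ℂ => B.det := continuous_id.matrix_det
    refine (hcont.tendsto _).comp ?_
    refine tendsto_pi_nhds.mpr (fun i => ?_)
    exact tendsto_pi_nhds.mpr (fun j => hXent i j)
  rw [asm_detlim] at hlim
  have hY := hdetlim.mul hlim
  rw [one_mul] at hY
  have hre := (Complex.continuous_re.tendsto _).comp hY
  rw [Complex.ofReal_re] at hre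
  have hfin : Matrix.det (Matrix.of fun i j : Fin m => h i j) ≤ 0 := by
    refine le_of_tendsto hre ?_
    filter_upwards [hdetlim.eventually_ne one_ne_zero] with t ht
    simp only [Function.comp]
    have e1 : Matrix.det (Matrix.of fun i j : Fin m => X t i j) =
        ((∏ i : Fin m, (s t ^ ((i : ℕ) + 1) * s t ^ (i : ℕ)) : ℝ) : ℂ) *
          (G t + E t).det := by
      simp only [hX]
      rw [asm_scale m (fun i => s t ^ ((i : ℕ) + 1)) (fun j => s t ^ (j : ℕ))
        (fun i j => (G t + E t) i j)]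
      rfl
    have e2 : (Tm t).det * (G t + E t).det = (K t).det := asm_alg (Tm t) (G t) (K t) ht
    have e3 : (K t).det = (((2 * π) ^ m : ℝ) : ℂ) *
        Matrix.det (Matrix.of fun i j : Fin m => H r (n (φ t)) (x (φ t)) i j) := by
      have : K t = ((2 * π : ℝ) : ℂ) •
          Matrix.of (fun i j : Fin m => H r (n (φ t)) (x (φ t)) i j) := by
        ext i j
        simp [hK, Matrix.smul_apply]
      rw [this, Matrix.det_smul, Fintype.card_fin]
      push_cast
      ring
    obtain ⟨h1, h2, -⟩ := hdel' (φ t)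
    have h3 := (hbas r (n (φ t)) (x (φ t)) hr1 (hx (φ t))).2.1
    have e4 := hdet r m (n (φ t)) (k (φ t)) (x (φ t)) hr1 (hx (φ t)) (hL (φ t)) h1 h2 h3
    set P1 : ℝ := ∏ i : Fin m, (s t ^ ((i : ℕ) + 1) * s t ^ (i : ℕ)) with hP1
    set P2 : ℝ := ∏ i : Fin m, x (φ t) ^ (k (φ t) + (i : ℕ)) /
      (fr r (n (φ t)) (x (φ t)) * D r (n (φ t)) (x (φ t)) ^ (i : ℕ)) with hP2
    have hs0 : 0 ≤ s t := Real.sqrt_nonneg _
    have hP1' : 0 ≤ P1 := Finset.prod_nonneg (fun i _ => by positivity)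
    have hx0 := hx (φ t)
    have hP2' : 0 ≤ P2 := Finset.prod_nonneg (fun i _ => by positivity)
    have e5 : (Tm t).det * Matrix.det (Matrix.of fun i j : Fin m => X t i j) =
        ((P1 * ((2 * π) ^ m * (P2 * sol r m (n (φ t)) (k (φ t)))) : ℝ) : ℂ) := by
      rw [e1, mul_left_comm, e2, e3, e4]
      push_cast
      ring
    rw [e5, Complex.ofReal_re]
    refine mul_nonpos_of_nonneg_of_nonpos hP1' ?_
    refine mul_nonpos_of_nonneg_of_nonpos (by positivity) ?_
    exact mul_nonpos_of_nonneg_of_nonpos hP2' (hsol (φ t))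
  exact absurd (hhan m) (not_lt.mpr hfin)

end Pool.Agent.H37.ATR
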