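import Pool.Agent.H37.ATR.Spec

/-!
# Asymptotic total positivity of the `r`-th order Eulerian triangles: recursions
-/

set_option autoImplicit false

open MeasureTheory Filter Polynomial
open scoped Topology Real

namespace Pool.Agent.H37.ATR

open Pool.Agent.H73.TP

theorem bas_den_pos (r n : ℕ) {x : ℝ} (hx : 0 < x) (i : Fin n) : 0 < 1 + yy r n i * x := by
  have := mul_pos (yy_pos r n i) hx
  linarith

theorem pp_pos (r n : ℕ) {x : ℝ} (hx : 0 < x) (i : Fin n) : 0 < pp r n x i :=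
  div_pos (mul_pos (yy_pos r n i) hx) (bas_den_pos r n hx i)

theorem pp_lt_one (r n : ℕ) {x : ℝ} (hx : 0 < x) (i : Fin n) : pp r n x i < 1 := by
  unfold pp
  rw [div_lt_one (bas_den_pos r n hx i)]
  linarith

theorem one_sub_pp (r n : ℕ) {x : ℝ} (hx : 0 < x) (i : Fin n) :
    1 - pp r n x i = 1 / (1 + yy r n i * x) := by
  have := (bas_den_pos r n hx i).ne'
  unfold pp
  field_simp
  ring

theorem L_nonneg (r n : ℕ) {x : ℝ} (hx : 0 < x) : 0 ≤ L r n x :=
  Finset.sum_nonneg fun i _ => (pp_pos r n hx i).le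

theorem V_nonneg (r n : ℕ) {x : ℝ} (hx : 0 < x) : 0 ≤ V r n x :=
  Finset.sum_nonneg fun i _ => mul_nonneg (pp_pos r n hx i).le
    (by linarith [pp_lt_one r n hx i])

theorem L_le (r n : ℕ) {x : ℝ} (hx : 0 < x) : L r n x ≤ n := by
  unfold L
  calc ∑ i, pp r n x i ≤ ∑ _i : Fin n, (1 : ℝ) :=
        Finset.sum_le_sum fun i _ => (pp_lt_one r n hx i).le
    _ = n := by simp

theorem n_sub_L (r n : ℕ) (x : ℝ) : (n : ℝ) - L r n x = ∑ i, (1 - pp r n x i) := by
  unfold L
  rw [Finset.sum_sub_distrib]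
  simp

theorem n_sub_L_sub_V (r n : ℕ) (x : ℝ) :
    (n : ℝ) - L r n x - V r n x = ∑ i, (1 - pp r n x i) ^ 2 := by
  rw [n_sub_L]
  unfold V
  rw [← Finset.sum_sub_distrib]
  exact Finset.sum_congr rfl fun i _ => by ring

theorem V_le_L (r n : ℕ) {x : ℝ} (hx : 0 < x) : V r n x ≤ L r n x := by
  unfold V L
  refine Finset.sum_le_sum fun i _ => ?_
  nlinarith [pp_pos r n hx i, pp_lt_one r n hx i]

theorem L_add_V_le (r n : ℕ) (x : ℝ) : L r n x + V r n x ≤ n := by
  have h := n_sub_L_sub_V r n x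
  have h2 : 0 ≤ ∑ i, (1 - pp r n x i) ^ 2 := Finset.sum_nonneg fun i _ => sq_nonneg _
  linarith

theorem V_le_quarter (r n : ℕ) (x : ℝ) : V r n x ≤ n / 4 := by
  unfold V
  calc ∑ i, pp r n x i * (1 - pp r n x i) ≤ ∑ _i : Fin n, (1 / 4 : ℝ) :=
        Finset.sum_le_sum fun i _ => by nlinarith [sq_nonneg (2 * pp r n x i - 1)]
    _ = n / 4 := by simp; ring

theorem abs_Ka_le (r n : ℕ) {x : ℝ} (hx : 0 < x) : |Ka r n x| ≤ V r n x := by
  unfold Ka V
  refine (Finset.abs_sum_le_sum_abs _ _).trans (Finset.sum_le_sum fun i _ => ?_)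
  have h0 := pp_pos r n hx i
  have h1 := pp_lt_one r n hx i
  rw [abs_mul, abs_of_nonneg (mul_nonneg h0.le (by linarith))]
  have : |1 - 2 * pp r n x i| ≤ 1 := by
    rw [abs_le]; constructor <;> linarith
  exact mul_le_of_le_one_right (mul_nonneg h0.le (by linarith)) this

theorem fr_eq {r : ℕ} (hr : 1 ≤ r) (n : ℕ) (x : ℝ) : fr r n x = ∏ i, (1 + yy r n i * x) := by
  unfold fr
  rw [yy_prod hr n]
  unfold pr
  rw [eval_prod]
  simp

theorem fr_pos {r : ℕ} (hr : 1 ≤ r) (n : ℕ) {x : ℝ} (hx : 0 < x) : 0 < fr r n x := by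
  rw [fr_eq hr]
  exact Finset.prod_pos fun i _ => bas_den_pos r n hx i

theorem bas_pp_deriv (r n : ℕ) {x : ℝ} (hx : 0 < x) (i : Fin n) :
    HasDerivAt (fun t => pp r n t i) (pp r n x i * (1 - pp r n x i) / x) x := by
  have hd := (bas_den_pos r n hx i).ne'
  have h1 : HasDerivAt (fun t : ℝ => yy r n i * t) (yy r n i) x := by
    simpa using (hasDerivAt_id x).const_mul (yy r n i)
  have h2 : HasDerivAt (fun t : ℝ => 1 + yy r n i * t) (yy r n i) x := by
    simpa using h1.const_add 1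
  have h3 := h1.div h2 hd
  refine h3.congr_deriv ?_
  rw [one_sub_pp r n hx i]
  unfold pp
  field_simp
  ring

theorem L_hasDerivAt (r n : ℕ) {x : ℝ} (hx : 0 < x) :
    HasDerivAt (L r n) (V r n x / x) x := by
  have h : HasDerivAt (fun t => ∑ i, pp r n t i) (∑ i, pp r n x i * (1 - pp r n x i) / x) x :=
    HasDerivAt.fun_sum fun i _ => bas_pp_deriv r n hx i
  rw [← Finset.sum_div] at h
  exact h

theorem V_hasDerivAt (r n : ℕ) {x : ℝ} (hx : 0 < x) :
    HasDerivAt (V r n) (Ka r n x / x) x := by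
  have h : HasDerivAt (fun t => ∑ i, pp r n t i * (1 - pp r n t i))
      (∑ i, pp r n x i * (1 - pp r n x i) * (1 - 2 * pp r n x i) / x) x := by
    refine HasDerivAt.fun_sum fun i _ => ?_
    have h1 := bas_pp_deriv r n hx i
    have h2 := h1.mul (h1.const_sub 1)
    refine h2.congr_deriv ?_
    ring
  rw [← Finset.sum_div] at h
  exact h

theorem R_hasDerivAt (r n : ℕ) {x : ℝ} (hx : 0 < x) :
    HasDerivAt (R r n) (D r n x / x) x := by
  have h1 := L_hasDerivAt r n hx
  have h2 : HasDerivAt (fun t : ℝ => 1 - t) (-1) x := by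
    simpa using (hasDerivAt_id x).const_sub 1
  have h3 : HasDerivAt (fun t : ℝ => 1 + NN r n * t) (NN r n) x := by
    simpa using ((hasDerivAt_id x).const_mul (NN r n)).const_add 1
  refine (h3.add (h2.mul h1)).congr_deriv ?_
  unfold D
  field_simp
  ring

theorem D_hasDerivAt (r n : ℕ) {x : ℝ} (hx : 0 < x) :
    HasDerivAt (D r n)
      ((x * (NN r n - L r n x) - 2 * x * V r n x + (1 - x) * Ka r n x) / x) x := by
  have h1 := L_hasDerivAt r n hx
  have h4 := V_hasDerivAt r n hx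
  have h2 : HasDerivAt (fun t : ℝ => 1 - t) (-1) x := by
    simpa using (hasDerivAt_id x).const_sub 1
  have h5 : HasDerivAt (fun t : ℝ => NN r n - L r n t) (-(V r n x / x)) x :=
    h1.const_sub (NN r n)
  refine (((hasDerivAt_id x).mul h5).add (h2.mul h4)).congr_deriv ?_
  simp only [id]
  field_simp
  ring

theorem fr_hasDerivAt {r : ℕ} (hr : 1 ≤ r) (n : ℕ) {x : ℝ} (hx : 0 < x) :
    HasDerivAt (fr r n) (fr r n x * L r n x / x) x := by
  have h1 : HasDerivAt (fr r n) ((derivative (rowP r n)).eval x) x :=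
    (rowP r n).hasDerivAt x
  refine h1.congr_deriv ?_
  rw [yy_prod hr n, pr_deriv, eval_finsetSum]
  unfold L
  rw [Finset.mul_sum, Finset.sum_div]
  refine Finset.sum_congr rfl fun i hi => ?_
  have h2 : fr r n x = (1 + yy r n i * x) * (pr (yy r n) (Finset.univ.erase i)).eval x := by
    unfold fr
    rw [yy_prod hr n, pr_erase (yy r n) hi]
    simp
  rw [h2]
  have hd := (bas_den_pos r n hx i).ne'
  unfold pp
  simp only [eval_mul, eval_C]
  field_simp

theorem fr_succ {r : ℕ} (hr : 1 ≤ r) (n : ℕ) {x : ℝ} (hx : 0 < x) :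
    fr r (n + 1) x = fr r n x * R r n x := by
  have h1 : HasDerivAt (fr r n) ((derivative (rowP r n)).eval x) x :=
    (rowP r n).hasDerivAt x
  have h2 := h1.unique (fr_hasDerivAt hr n hx)
  have h3 : fr r (n + 1) x = (1 + NN r n * x) * fr r n x
      + (x - x ^ 2) * (derivative (rowP r n)).eval x := by
    unfold fr NN
    rw [rowP]
    unfold opA
    simp
  rw [h3, h2]
  unfold R
  field_simp

theorem NN_sub_L_pos {r : ℕ} (hr : 1 ≤ r) (n : ℕ) (x : ℝ) :
    1 ≤ NN r n - L r n x - V r n x := by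
  have h := L_add_V_le r n x
  have hr' : (1 : ℝ) ≤ r := by exact_mod_cast hr
  unfold NN
  nlinarith [Nat.cast_nonneg (α := ℝ) n]

theorem D_pos {r : ℕ} (hr : 1 ≤ r) (n : ℕ) {x : ℝ} (hx : 0 < x) : 0 < D r n x := by
  have h1 := NN_sub_L_pos hr n x
  have h2 := V_nonneg r n hx
  have h3 : D r n x = x * (NN r n - L r n x - V r n x) + V r n x := by
    unfold D; ring
  rw [h3]
  nlinarith

theorem R_pos {r : ℕ} (hr : 1 ≤ r) (n : ℕ) {x : ℝ} (hx : 0 < x) : 0 < R r n x := by
  have h := fr_succ hr n hx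
  have h1 := fr_pos hr n hx
  have h2 := fr_pos hr (n + 1) hx
  rw [h] at h2
  exact pos_of_mul_pos_right h2 h1.le

theorem L_succ {r : ℕ} (hr : 1 ≤ r) (n : ℕ) {x : ℝ} (hx : 0 < x) :
    L r (n + 1) x = L r n x + D r n x / R r n x := by
  have h1 := fr_hasDerivAt hr (n + 1) hx
  have h2 := (fr_hasDerivAt hr n hx).mul (R_hasDerivAt r n hx)
  have h3 : (fr r n * R r n) =ᶠ[𝓝 x] fr r (n + 1) := by
    filter_upwards [lt_mem_nhds hx] with t ht
    exact (fr_succ hr n ht).symm
  have h4 := h1.unique (h2.congr_of_eventuallyEq h3.symm)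
  have hR := (R_pos hr n hx).ne'
  have hf := (fr_pos hr n hx).ne'
  rw [fr_succ hr n hx] at h4
  have hx' := hx.ne'
  field_simp at h4 ⊢
  linarith

theorem V_succ {r : ℕ} (hr : 1 ≤ r) (n : ℕ) {x : ℝ} (hx : 0 < x) :
    V r (n + 1) x = V r n x
      + (x * (NN r n - L r n x) - 2 * x * V r n x + (1 - x) * Ka r n x) / R r n x
      - (D r n x / R r n x) ^ 2 := by
  have hR := (R_pos hr n hx).ne'
  have h1 := L_hasDerivAt r (n + 1) hx
  have h2 := (L_hasDerivAt r n hx).add ((D_hasDerivAt r n hx).div (R_hasDerivAt r n hx) hR)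
  have h3 : (L r n + fun t => D r n t / R r n t) =ᶠ[𝓝 x] L r (n + 1) := by
    filter_upwards [lt_mem_nhds hx] with t ht
    exact (L_succ hr n ht).symm
  have h4 := h1.unique (h2.congr_of_eventuallyEq h3.symm)
  have hx' := hx.ne'
  field_simp at h4 ⊢
  linarith

theorem bas : BasSt := fun r n x hr hx =>
  ⟨fr_succ hr n hx, fr_pos hr n hx, R_pos hr n hx, D_pos hr n hx, L_succ hr n hx,
    V_succ hr n hx⟩

end Pool.Agent.H37.ATR
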