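import Pool.Agent.H37.ATR.Spec

/-!
# Part DET: Cauchy's formula and binomial row and column operations
-/

set_option autoImplicit false

open MeasureTheory Filter Complex Polynomial
open scoped Topology Real

namespace Pool.Agent.H37.ATR

open Pool.Agent.H73.TP

/-- orthogonality -/
theorem det_orth (a b : ℕ) :
    ∫ y in (-π)..π, cexp ((I * (a : ℂ) - I * (b : ℂ)) * y) = if a = b then ((2 * π : ℝ) : ℂ) else 0 := by
  split_ifs with h
  · subst h
    simp only [sub_self, zero_mul, Complex.exp_zero]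
    rw [intervalIntegral.integral_const]
    push_cast
    rw [show ((π : ℝ) - -π) = 2 * π by ring]
    simp
  · have hc : (I * (a : ℂ) - I * (b : ℂ)) ≠ 0 := by
      rw [← mul_sub]
      apply mul_ne_zero I_ne_zero
      rw [sub_ne_zero]
      exact_mod_cast h
    rw [integral_exp_mul_complex hc]
    have e : cexp ((I * (a : ℂ) - I * (b : ℂ)) * (π : ℝ)) =
        cexp ((I * (a : ℂ) - I * (b : ℂ)) * ((-π : ℝ) : ℂ)) := by
      have h1 : (I * (a : ℂ) - I * (b : ℂ)) * (π : ℝ) =
          (I * (a : ℂ) - I * (b : ℂ)) * ((-π : ℝ) : ℂ) + (((a : ℤ) - (b : ℤ) : ℤ) : ℂ) * (2 * π * I) := by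
        push_cast
        ring
      rw [h1, Complex.exp_add, Complex.exp_int_mul_two_pi_mul_I, mul_one]
    rw [e, sub_self, zero_div]

/-- Cauchy's formula -/
theorem det_coef (P : ℝ[X]) (x : ℝ) (c : ℕ) :
    ∫ y in (-π)..π, cexp (-(I * (c : ℂ) * y)) * Polynomial.aeval ((x : ℂ) * cexp (I * y)) P =
      ((2 * π : ℝ) : ℂ) * (((P.coeff c * x ^ c : ℝ)) : ℂ) := by
  have h1 : ∀ y : ℝ, cexp (-(I * (c : ℂ) * y)) * Polynomial.aeval ((x : ℂ) * cexp (I * y)) P =
      ∑ e ∈ Finset.range (P.natDegree + 1),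
        ((P.coeff e * x ^ e : ℝ) : ℂ) * cexp ((I * (e : ℂ) - I * (c : ℂ)) * y) := by
    intro y
    rw [Polynomial.aeval_eq_sum_range, Finset.mul_sum]
    refine Finset.sum_congr rfl fun e _ => ?_
    rw [Algebra.smul_def, mul_pow, ← Complex.exp_nat_mul]
    have h2 : cexp ((I * (e : ℂ) - I * (c : ℂ)) * y) =
        cexp ((e : ℂ) * (I * y)) * cexp (-(I * (c : ℂ) * y)) := by
      rw [← Complex.exp_add]
      congr 1
      ring
    rw [h2]
    simp only [Complex.coe_algebraMap]
    push_cast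
    ring
  simp_rw [h1]
  rw [intervalIntegral.integral_finsetSum]
  · simp_rw [intervalIntegral.integral_const_mul, det_orth]
    simp only [mul_ite, mul_zero]
    rw [Finset.sum_ite_eq' (Finset.range (P.natDegree + 1)) c]
    split_ifs with h
    · ring
    · rw [Finset.mem_range, not_lt] at h
      rw [Polynomial.coeff_eq_zero_of_natDegree_lt (by omega)]
      simp
  · intro e _
    apply Continuous.intervalIntegrable
    fun_prop

/-- the signed binomial matrix -/
noncomputable def det_P (m : ℕ) : Matrix (Fin m) (Fin m) ℂ :=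
  Matrix.of fun i a => (-1) ^ ((i : ℕ) - (a : ℕ)) * (((i : ℕ).choose (a : ℕ) : ℕ) : ℂ)

theorem det_det_P (m : ℕ) : (det_P m).det = 1 := by
  rw [Matrix.det_of_isLowerTriangular]
  · simp [det_P]
  · intro i j hij
    have hij' : (i : ℕ) < (j : ℕ) := by
      have : OrderDual.toDual j < OrderDual.toDual i := hij
      exact_mod_cast (OrderDual.toDual_lt_toDual.mp this)
    simp [det_P, Nat.choose_eq_zero_of_lt hij']

theorem det_sum_fin (m : ℕ) (i : Fin m) (f : ℕ → ℂ) :
    ∑ a ∈ Finset.range ((i : ℕ) + 1), (-1) ^ ((i : ℕ) - a) * ((i : ℕ).choose a : ℂ) * f a =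
      ∑ a : Fin m, (-1) ^ ((i : ℕ) - (a : ℕ)) * ((i : ℕ).choose (a : ℕ) : ℂ) * f a := by
  rw [Fin.sum_univ_eq_sum_range
    (fun a => (-1) ^ ((i : ℕ) - a) * (((i : ℕ).choose a : ℕ) : ℂ) * f a) m]
  apply Finset.sum_subset
  · intro a ha
    rw [Finset.mem_range] at ha ⊢
    have := i.2
    omega
  · intro a _ ha
    rw [Finset.mem_range] at ha
    rw [Nat.choose_eq_zero_of_lt (by omega)]
    simp

/-- the integrals without the binomial operations -/
noncomputable def det_J (r n : ℕ) (x : ℝ) (k l b : ℕ) : ℂ :=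
  ((ar r (n + l) (k + b) * x ^ (k + b) / (fr r n x * R r n x ^ l) : ℝ) : ℂ)

theorem det_J_eq (r n : ℕ) (x : ℝ) (k l b : ℕ) (hL : L r n x = k) :
    (1 / (2 * π) : ℝ) * ∫ y in (-π)..π, cexp (-(I * L r n x * y)) *
      fc r (n + l) (x * cexp (I * y)) / ((fr r n x * R r n x ^ l : ℝ) : ℂ) *
        cexp (-(I * y)) ^ b = det_J r n x k l b := by
  have h1 : ∀ y : ℝ, cexp (-(I * L r n x * y)) *
      fc r (n + l) (x * cexp (I * y)) / ((fr r n x * R r n x ^ l : ℝ) : ℂ) *
        cexp (-(I * y)) ^ b =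
      (((fr r n x * R r n x ^ l : ℝ) : ℂ))⁻¹ * (cexp (-(I * ((k + b : ℕ) : ℂ) * y)) *
        Polynomial.aeval ((x : ℂ) * cexp (I * y)) (rowP r (n + l))) := by
    intro y
    have h2 : cexp (-(I * ((k + b : ℕ) : ℂ) * y)) =
        cexp (-(I * L r n x * y)) * cexp (-(I * y)) ^ b := by
      rw [← Complex.exp_nat_mul, ← Complex.exp_add, hL]
      congr 1
      push_cast
      ring
    rw [h2]
    unfold fc
    ring
  simp_rw [h1]
  rw [intervalIntegral.integral_const_mul, det_coef]
  unfold det_J ar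
  have hpi : (2 * π : ℝ) ≠ 0 := by positivity
  rw [← Complex.ofReal_inv, ← Complex.ofReal_mul, ← Complex.ofReal_mul, ← Complex.ofReal_mul]
  congr 1
  field_simp

theorem det_H_eq (r n : ℕ) (x : ℝ) (k i j : ℕ) (hL : L r n x = k) :
    H r n x i j = ((R r n x / D r n x : ℝ) : ℂ) ^ i *
      ∑ l ∈ Finset.range (i + 1), (-1) ^ (i - l) * (i.choose l : ℂ) *
        ∑ b ∈ Finset.range (j + 1), (-1) ^ (j - b) * (j.choose b : ℂ) * det_J r n x k l b := by
  unfold H
  have h1 : ∀ y : ℝ, W r n x i y * (cexp (-(I * y)) - 1) ^ j =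
      ∑ l ∈ Finset.range (i + 1), ∑ b ∈ Finset.range (j + 1),
        (((R r n x / D r n x : ℝ) : ℂ) ^ i * ((-1) ^ (i - l) * (i.choose l : ℂ)) *
          ((-1) ^ (j - b) * (j.choose b : ℂ))) * (cexp (-(I * L r n x * y)) *
          fc r (n + l) (x * cexp (I * y)) / ((fr r n x * R r n x ^ l : ℝ) : ℂ) *
          cexp (-(I * y)) ^ b) := by
    intro y
    have h2 : (cexp (-(I * y)) - 1) ^ j =
        ∑ b ∈ Finset.range (j + 1), cexp (-(I * y)) ^ b * (-1) ^ (j - b) * (j.choose b : ℂ) := by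
      rw [sub_eq_add_neg, add_pow]
    unfold W
    rw [h2, mul_assoc, Finset.sum_mul_sum, Finset.mul_sum]
    refine Finset.sum_congr rfl fun l _ => ?_
    rw [Finset.mul_sum]
    refine Finset.sum_congr rfl fun b _ => ?_
    ring
  have hcont : ∀ l b : ℕ, Continuous fun y : ℝ => cexp (-(I * L r n x * y)) *
      fc r (n + l) (x * cexp (I * y)) / ((fr r n x * R r n x ^ l : ℝ) : ℂ) *
          cexp (-(I * y)) ^ b := by
    intro l b
    have hf : Continuous fun y : ℝ => fc r (n + l) (x * cexp (I * y)) := by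
      unfold fc
      have : Continuous fun z : ℂ => Polynomial.aeval z (rowP r (n + l)) :=
        (rowP r (n + l)).continuous_aeval
      exact this.comp (by fun_prop)
    simp_rw [div_eq_mul_inv]
    exact (((by fun_prop : Continuous fun y : ℝ => cexp (-(I * L r n x * y))).mul hf).mul
      continuous_const).mul (by fun_prop)
  simp_rw [h1]
  rw [intervalIntegral.integral_finsetSum, Finset.mul_sum, Finset.mul_sum]
  · refine Finset.sum_congr rfl fun l _ => ?_
    rw [intervalIntegral.integral_finsetSum, Finset.mul_sum, Finset.mul_sum, Finset.mul_sum]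
    · refine Finset.sum_congr rfl fun b _ => ?_
      rw [intervalIntegral.integral_const_mul, ← det_J_eq r n x k l b hL]
      ring
    · intro b _
      exact ((hcont l b).intervalIntegrable _ _).const_mul _
  · intro l _
    apply Continuous.intervalIntegrable
    apply continuous_finsetSum
    intro b _
    exact continuous_const.mul (hcont l b)

theorem det : DetSt := by
  intro r m n k x hr hx hL hR hD hf
  have h1 : (Matrix.of fun i j : Fin m => H r n x i j) =
      Matrix.diagonal (fun i : Fin m => ((R r n x / D r n x : ℝ) : ℂ) ^ (i : ℕ)) *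
        (det_P m * (Matrix.of fun i j : Fin m => det_J r n x k i j) * (det_P m).transpose) := by
    ext i j
    rw [Matrix.diagonal_mul, Matrix.of_apply, det_H_eq r n x k i j hL]
    congr 1
    have h3 : ∀ a, ∑ b ∈ Finset.range ((j : ℕ) + 1),
        (-1) ^ ((j : ℕ) - b) * ((j : ℕ).choose b : ℂ) * det_J r n x k a b =
        ∑ b : Fin m, (-1) ^ ((j : ℕ) - (b : ℕ)) * ((j : ℕ).choose (b : ℕ) : ℂ) *
          det_J r n x k a b := fun a => det_sum_fin m j (fun b => det_J r n x k a b)
    simp_rw [h3]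
    rw [det_sum_fin m i (fun a => ∑ b : Fin m, (-1) ^ ((j : ℕ) - (b : ℕ)) *
      ((j : ℕ).choose (b : ℕ) : ℂ) * det_J r n x k a b)]
    rw [Matrix.mul_assoc, Matrix.mul_apply]
    refine Finset.sum_congr rfl fun a _ => ?_
    rw [Matrix.mul_apply]
    simp only [det_P, Matrix.of_apply, Matrix.transpose_apply]
    congr 1
    refine Finset.sum_congr rfl fun b _ => ?_
    ring
  have h2 : (Matrix.of fun i j : Fin m => det_J r n x k i j) =
      Matrix.diagonal (fun i : Fin m => ((1 / (fr r n x * R r n x ^ (i : ℕ)) : ℝ) : ℂ)) *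
        ((Matrix.of fun i j : Fin m => ar r (n + i) (k + j)).map (Complex.ofRealHom)) *
        Matrix.diagonal (fun j : Fin m => ((x ^ (k + (j : ℕ)) : ℝ) : ℂ)) := by
    ext i j
    rw [Matrix.mul_diagonal, Matrix.diagonal_mul, Matrix.of_apply, Matrix.map_apply,
      Matrix.of_apply]
    unfold det_J
    simp only [Complex.ofRealHom_eq_coe]
    rw [← Complex.ofReal_mul, ← Complex.ofReal_mul]
    congr 1
    ring
  have h3 : ((Matrix.of fun i j : Fin m => ar r (n + i) (k + j)).map (Complex.ofRealHom)).det =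
      ((sol r m n k : ℝ) : ℂ) := by
    unfold sol
    rw [← RingHom.mapMatrix_apply, ← RingHom.map_det]
    rfl
  rw [h1, Matrix.det_mul, Matrix.det_mul, Matrix.det_mul, Matrix.det_transpose, det_det_P, h2,
    Matrix.det_mul, Matrix.det_mul, h3, Matrix.det_diagonal, Matrix.det_diagonal,
    Matrix.det_diagonal, one_mul, mul_one]
  have h4 : ((∏ i : Fin m, x ^ (k + (i : ℕ)) / (fr r n x * D r n x ^ (i : ℕ)) : ℝ) : ℂ) =
      (∏ i : Fin m, ((R r n x / D r n x : ℝ) : ℂ) ^ (i : ℕ)) *
        (∏ i : Fin m, ((1 / (fr r n x * R r n x ^ (i : ℕ)) : ℝ) : ℂ)) *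
          ∏ i : Fin m, ((x ^ (k + (i : ℕ)) : ℝ) : ℂ) := by
    rw [← Finset.prod_mul_distrib, ← Finset.prod_mul_distrib, Complex.ofReal_prod]
    refine Finset.prod_congr rfl fun i _ => ?_
    rw [← Complex.ofReal_pow, ← Complex.ofReal_mul, ← Complex.ofReal_mul]
    congr 1
    rw [div_pow]
    field_simp
  rw [h4]
  ring

end Pool.Agent.H37.ATR
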