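import Pool.Agent.H37.ATR.Bas

/-!
# Asymptotic total positivity of the `r`-th order Eulerian triangles: away from `y = 0`
-/

set_option autoImplicit false

open MeasureTheory Filter Complex Polynomial
open scoped Topology Real

namespace Pool.Agent.H37.ATR

open Pool.Agent.H73.TP

theorem far_factor {a : ℝ} (ha : 0 < a) (t : ℝ) : ‖(1 : ℂ) + a * cexp (I * t)‖ ≤
    (1 + a) * Real.exp (-(a / (1 + a) * (1 - a / (1 + a)) * (1 - Real.cos t))) := by
  have h1 : 0 < 1 + a := by linarith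
  refine abs_le_of_sq_le_sq' ?_ (by positivity) |>.2
  rw [mul_pow, ← Real.exp_nat_mul, Complex.sq_norm, Complex.normSq_apply]
  have hre : ((1 : ℂ) + a * cexp (I * t)).re = 1 + a * Real.cos t := by
    rw [mul_comm I (t : ℂ)]
    simp [Complex.exp_ofReal_mul_I_re]
  have him : ((1 : ℂ) + a * cexp (I * t)).im = a * Real.sin t := by
    rw [mul_comm I (t : ℂ)]
    simp [Complex.exp_ofReal_mul_I_im]
  rw [hre, him]
  set q : ℝ := a / (1 + a) * (1 - a / (1 + a)) with hq
  have hq2 : (1 + a) ^ 2 * q = a := by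
    rw [hq]; field_simp; ring
  have he := Real.add_one_le_exp (((2 : ℕ) : ℝ) * -(q * (1 - Real.cos t)))
  have hs := Real.sin_sq_add_cos_sq t
  calc (1 + a * Real.cos t) * (1 + a * Real.cos t) + a * Real.sin t * (a * Real.sin t)
      = (1 + a) ^ 2 * (((2 : ℕ) : ℝ) * -(q * (1 - Real.cos t)) + 1) := by
        push_cast
        linear_combination a ^ 2 * hs - 2 * (1 - Real.cos t) * hq2 * (-1)
    _ ≤ _ := mul_le_mul_of_nonneg_left he (sq_nonneg _)

theorem far_fc_eq {r : ℕ} (hr : 1 ≤ r) (n : ℕ) (z : ℂ) :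
    fc r n z = ∏ i, (1 + (yy r n i : ℂ) * z) := by
  unfold fc
  rw [yy_prod hr n]
  unfold pr
  rw [map_prod]
  simp

theorem far_norm_le {r : ℕ} (hr : 1 ≤ r) (n : ℕ) {x : ℝ} (hx : 0 < x) (y : ℝ) :
    ‖fc r n (x * cexp (I * y))‖ ≤
      fr r n x * Real.exp (-(V r n x * (1 - Real.cos y))) := by
  rw [far_fc_eq hr, norm_prod, fr_eq hr]
  unfold V
  rw [Finset.sum_mul, ← Finset.sum_neg_distrib, Real.exp_sum, ← Finset.prod_mul_distrib]
  refine Finset.prod_le_prod (fun i _ => norm_nonneg _) fun i _ => ?_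
  have h := far_factor (mul_pos (yy_pos r n i) hx) y
  unfold pp
  refine le_trans (le_of_eq ?_) h
  congr 1
  push_cast
  ring

theorem far_R_eq (r n : ℕ) (x : ℝ) : R r n x = 1 + L r n x + x * (NN r n - L r n x) := by
  unfold R; ring

theorem far_R_ge {r : ℕ} (hr : 1 ≤ r) (n : ℕ) {x : ℝ} (hx : 0 < x) :
    (1 + x) * V r n x ≤ R r n x ∧ 1 + x ≤ R r n x := by
  have h1 := NN_sub_L_pos hr n x
  have h2 := V_nonneg r n hx
  have h3 := V_le_L r n hx
  rw [far_R_eq]
  constructor <;> nlinarith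

theorem far_D_le {r : ℕ} (hr : 1 ≤ r) (n : ℕ) {x : ℝ} (hx : 0 < x) :
    D r n x / R r n x ≤ 1 := by
  have h2 := V_nonneg r n hx
  have h3 := V_le_L r n hx
  rw [div_le_one (R_pos hr n hx), far_R_eq]
  unfold D
  nlinarith

theorem far_V_succ {r : ℕ} (hr : 1 ≤ r) (n : ℕ) {x : ℝ} (hx : 0 < x) :
    V r n x - 4 ≤ V r (n + 1) x := by
  rw [V_succ hr n hx]
  have hR := R_pos hr n hx
  have h1 := NN_sub_L_pos hr n x
  have h2 := V_nonneg r n hx
  have hD0 : 0 ≤ D r n x / R r n x := (div_pos (D_pos hr n hx) hR).le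
  have hD1 := far_D_le hr n hx
  have hg := (far_R_ge hr n hx).1
  have hk := abs_le.1 (abs_Ka_le r n hx)
  have h4 : -3 ≤ (x * (NN r n - L r n x) - 2 * x * V r n x + (1 - x) * Ka r n x)
      / R r n x := by
    rw [le_div_iff₀ hR]
    have h5 : -((1 + x) * V r n x) ≤ (1 - x) * Ka r n x := by
      rcases le_total x 1 with h | h
      · nlinarith
      · nlinarith
    have h6 : 0 ≤ x * (NN r n - L r n x) := mul_nonneg hx.le (by linarith)
    nlinarith
  have h7 : (D r n x / R r n x) ^ 2 ≤ 1 := by nlinarith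
  linarith

theorem far_V_add {r : ℕ} (hr : 1 ≤ r) (n : ℕ) {x : ℝ} (hx : 0 < x) (l : ℕ) :
    V r n x - 4 * l ≤ V r (n + l) x := by
  induction l with
  | zero => simp
  | succ l ih =>
    have h := far_V_succ hr (n + l) hx
    rw [← add_assoc]
    push_cast
    linarith

theorem far_R_succ {r : ℕ} (hr : 1 ≤ r) (n : ℕ) {x : ℝ} (hx : 0 < x) :
    R r (n + 1) x ≤ (r + 3) * R r n x := by
  have hR := R_pos hr n hx
  have hD0 : 0 ≤ D r n x / R r n x := (div_pos (D_pos hr n hx) hR).le
  have hD1 := far_D_le hr n hx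
  have hg := (far_R_ge hr n hx).2
  have h1 : R r (n + 1) x = R r n x + r * x + (1 - x) * (D r n x / R r n x) := by
    have h := L_succ hr n hx
    have hN : NN r (n + 1) = NN r n + r := by unfold NN; push_cast; ring
    unfold R at h ⊢
    rw [h, hN]
    ring
  have h2 : (1 - x) * (D r n x / R r n x) ≤ 1 := by nlinarith
  have h3 : (r : ℝ) * x ≤ r * R r n x :=
    mul_le_mul_of_nonneg_left (by linarith) (Nat.cast_nonneg r)
  rw [h1]
  nlinarith

theorem far_R_add {r : ℕ} (hr : 1 ≤ r) (n : ℕ) {x : ℝ} (hx : 0 < x) (l : ℕ) :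
    R r (n + l) x ≤ (r + 3) ^ l * R r n x := by
  induction l with
  | zero => simp
  | succ l ih =>
    have h := far_R_succ hr (n + l) hx
    rw [← add_assoc]
    refine h.trans ?_
    calc (r + 3 : ℝ) * R r (n + l) x ≤ (r + 3) * ((r + 3) ^ l * R r n x) :=
          mul_le_mul_of_nonneg_left ih (by positivity)
      _ = _ := by ring

theorem far_fr_add {r : ℕ} (hr : 1 ≤ r) (n : ℕ) {x : ℝ} (hx : 0 < x) (l : ℕ) :
    fr r (n + l) x ≤ (r + 3) ^ (l * l) * (fr r n x * R r n x ^ l) := by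
  induction l with
  | zero => simp
  | succ l ih =>
    have hR := R_pos hr n hx
    have hf := fr_pos hr n hx
    rw [← add_assoc, fr_succ hr (n + l) hx]
    calc fr r (n + l) x * R r (n + l) x
        ≤ ((r + 3) ^ (l * l) * (fr r n x * R r n x ^ l)) * ((r + 3) ^ l * R r n x) :=
          mul_le_mul ih (far_R_add hr n hx l) (R_pos hr _ hx).le (by positivity)
      _ = (r + 3) ^ (l * l + l) * (fr r n x * R r n x ^ (l + 1)) := by ring
      _ ≤ (r + 3) ^ ((l + 1) * (l + 1)) * (fr r n x * R r n x ^ (l + 1)) := by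
          refine mul_le_mul_of_nonneg_right (pow_le_pow_right₀ ?_ ?_) (by positivity)
          · linarith [Nat.cast_nonneg (α := ℝ) r]
          · nlinarith

theorem far_term {r : ℕ} (hr : 1 ≤ r) (n : ℕ) {x : ℝ} (hx : 0 < x) (l m : ℕ) (hl : l ≤ m)
    {y : ℝ} (hy1 : 1 / 8 ≤ |y|) (hy2 : |y| ≤ π) :
    ‖fc r (n + l) (x * cexp (I * y))‖ / (fr r n x * R r n x ^ l) ≤
      (r + 3) ^ (m * m) * Real.exp (8 * m) * Real.exp (-((1 - Real.cos (1 / 8)) * V r n x)) := by
  have hR := R_pos hr n hx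
  have hf := fr_pos hr n hx
  have hc : Real.cos y ≤ Real.cos (1 / 8) := by
    rw [← Real.cos_abs y]
    exact Real.cos_le_cos_of_nonneg_of_le_pi (by norm_num) hy2 hy1
  have hc2 : -1 ≤ Real.cos y := Real.neg_one_le_cos y
  have hc3 : Real.cos y ≤ 1 := Real.cos_le_one y
  have hV := far_V_add hr n hx l
  have hV0 := V_nonneg r n hx
  have hlm : (l : ℝ) ≤ m := by exact_mod_cast hl
  have hl0 : (0 : ℝ) ≤ l := Nat.cast_nonneg l
  rw [div_le_iff₀ (by positivity)]
  refine (far_norm_le hr (n + l) hx y).trans ?_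
  have h1 : -(V r (n + l) x * (1 - Real.cos y)) ≤
      8 * m + -((1 - Real.cos (1 / 8)) * V r n x) := by
    have h2 : (V r n x - 4 * l) * (1 - Real.cos y) ≤ V r (n + l) x * (1 - Real.cos y) :=
      mul_le_mul_of_nonneg_right hV (by linarith)
    nlinarith
  calc fr r (n + l) x * Real.exp (-(V r (n + l) x * (1 - Real.cos y)))
      ≤ ((r + 3) ^ (l * l) * (fr r n x * R r n x ^ l)) *
          (Real.exp (8 * m) * Real.exp (-((1 - Real.cos (1 / 8)) * V r n x))) := by
        rw [← Real.exp_add]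
        exact mul_le_mul (far_fr_add hr n hx l) (Real.exp_le_exp.2 h1) (Real.exp_pos _).le
          (by positivity)
    _ ≤ ((r + 3) ^ (m * m) * (fr r n x * R r n x ^ l)) *
          (Real.exp (8 * m) * Real.exp (-((1 - Real.cos (1 / 8)) * V r n x))) := by
        refine mul_le_mul_of_nonneg_right (mul_le_mul_of_nonneg_right
          (pow_le_pow_right₀ ?_ (Nat.mul_le_mul hl hl)) (by positivity)) (by positivity)
        linarith [Nat.cast_nonneg (α := ℝ) r]
    _ = _ := by ring

theorem far : BasSt → DelSt → FarSt := by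
  intro _ _ r m hr
  have hr1 : 1 ≤ r := by omega
  have hcos : Real.cos (1 / 8) < 1 := by
    have h := Real.cos_lt_cos_of_nonneg_of_le_pi (x := 0) (y := 1 / 8) le_rfl
      (by linarith [Real.pi_gt_three]) (by norm_num)
    rwa [Real.cos_zero] at h
  refine ⟨2 ^ m * ((r + 3) ^ (m * m) * Real.exp (8 * m)), 1 - Real.cos (1 / 8), by positivity,
    by linarith, ?_⟩
  intro n x hx _ i him y hy1 hy2
  have hR := R_pos hr1 n hx
  have hD := D_pos hr1 n hx
  have hf := fr_pos hr1 n hx
  unfold W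
  rw [norm_mul, norm_pow, Complex.norm_real, Real.norm_of_nonneg (by positivity)]
  set E : ℝ := Real.exp (-((1 - Real.cos (1 / 8)) * V r n x)) with hE
  set K : ℝ := (r + 3) ^ (m * m) * Real.exp (8 * m) with hK
  have hsum : ‖∑ l ∈ Finset.range (i + 1),
      (-1) ^ (i - l) * (i.choose l : ℂ) *
        (cexp (-(I * L r n x * y)) * fc r (n + l) (x * cexp (I * y)) /
          ((fr r n x * R r n x ^ l : ℝ) : ℂ))‖ ≤ 2 ^ i * (K * E) := by
    refine (norm_sum_le _ _).trans ?_
    have h2 : (2 : ℝ) ^ i = ∑ l ∈ Finset.range (i + 1), (i.choose l : ℝ) := by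
      exact_mod_cast (Nat.sum_range_choose i).symm
    rw [h2, Finset.sum_mul]
    refine Finset.sum_le_sum fun l hl => ?_
    have hl' : l ≤ m := by
      have := Finset.mem_range.1 hl
      omega
    rw [norm_mul, norm_mul, norm_pow, norm_neg, norm_one, one_pow, one_mul, Complex.norm_natCast,
      norm_div, norm_mul, Complex.norm_real,
      Real.norm_of_nonneg (show 0 ≤ fr r n x * R r n x ^ l by positivity)]
    have h3 : ‖cexp (-(I * L r n x * y))‖ = 1 := by
      rw [Complex.norm_exp]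
      simp
    rw [h3, one_mul]
    exact mul_le_mul_of_nonneg_left (far_term hr1 n hx l m hl' hy1 hy2) (Nat.cast_nonneg _)
  calc (R r n x / D r n x) ^ i * _ ≤ (R r n x / D r n x) ^ i * (2 ^ i * (K * E)) :=
        mul_le_mul_of_nonneg_left hsum (by positivity)
    _ ≤ (R r n x / D r n x) ^ i * (2 ^ m * (K * E)) := by
        refine mul_le_mul_of_nonneg_left (mul_le_mul_of_nonneg_right
          (pow_le_pow_right₀ (by norm_num) him.le) (by positivity)) (by positivity)
    _ = _ := by ring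

end Pool.Agent.H37.ATR
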