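import Pool.Agent.H37.ATR.Spec

/-!
FLO and FUP: a lower and an upper bound of the row polynomials on `(0, 1)`.
-/

set_option autoImplicit false

open Polynomial

namespace Pool.Agent.H37.ATR

open Pool.Agent.H73.TP

private theorem ff_ar_nonneg {r : ℕ} (hr : 1 ≤ r) (n k : ℕ) : 0 ≤ ar r n k := by
  rcases Nat.lt_or_ge n k with h | h
  · exact (rowP_zero r hr n k h).ge
  · exact (rowP_pos r hr n k h).le

private theorem ff_partial {r : ℕ} (hr : 1 ≤ r) (n N : ℕ) {x : ℝ} (hx : 0 < x) :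
    ∑ k ∈ Finset.range N, ar r n k * x ^ k ≤ fr r n x := by
  unfold fr
  have hd : (rowP r n).natDegree < N + ((rowP r n).natDegree + 1) := by omega
  rw [Polynomial.eval_eq_sum_range' hd x]
  apply Finset.sum_le_sum_of_subset_of_nonneg
  · intro k hk
    rw [Finset.mem_range] at hk ⊢
    omega
  · intro k _ _
    exact mul_nonneg (ff_ar_nonneg hr n k) (pow_nonneg hx.le k)

private theorem ff_fr_pos {r : ℕ} (hr : 1 ≤ r) (n : ℕ) {x : ℝ} (hx : 0 < x) : 0 < fr r n x := by
  have h := ff_partial hr n 1 hx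
  rw [Finset.sum_range_one, pow_zero, mul_one] at h
  exact lt_of_lt_of_le (rowP_pos r hr n 0 (Nat.zero_le n)) h

private theorem ff_binom (M l : ℕ) {x : ℝ} (hx : 0 < x) (hx1 : x < 1) :
    (1 - x) ^ (M + 1) * ((M + l).choose l : ℝ) * x ^ l ≤ 1 := by
  have h1 : ((M + l).choose l : ℝ) ≤ ((M + 1 + l).choose l : ℝ) := by
    exact_mod_cast Nat.choose_le_choose l (by omega)
  have h2 := add_pow x (1 - x) (M + 1 + l)
  have h3 : x + (1 - x) = 1 := by ring
  rw [h3, one_pow] at h2
  have hy : 0 < 1 - x := by linarith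
  have h4 : x ^ l * (1 - x) ^ (M + 1 + l - l) * ((M + 1 + l).choose l : ℝ) ≤ 1 := by
    have hmem : l ∈ Finset.range (M + 1 + l + 1) := Finset.mem_range.2 (by omega)
    have h5 := Finset.single_le_sum
      (f := fun i => x ^ i * (1 - x) ^ (M + 1 + l - i) * ((M + 1 + l).choose i : ℝ))
      (fun i _ => by positivity) hmem
    exact le_trans h5 (le_of_eq h2.symm)
  rw [Nat.add_sub_cancel] at h4
  calc (1 - x) ^ (M + 1) * ((M + l).choose l : ℝ) * x ^ l
      ≤ (1 - x) ^ (M + 1) * ((M + 1 + l).choose l : ℝ) * x ^ l := by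
        apply mul_le_mul_of_nonneg_right _ (pow_nonneg hx.le l)
        exact mul_le_mul_of_nonneg_left h1 (pow_nonneg hy.le _)
    _ = x ^ l * (1 - x) ^ (M + 1) * ((M + 1 + l).choose l : ℝ) := by ring
    _ ≤ 1 := h4

/-- FLO. -/
theorem flo : WwSt → FloSt := by
  intro hw r n N x hr hN hx hx1
  obtain ⟨-, hw2, -⟩ := hw r hr
  have hy : 0 < 1 - x := by linarith
  have h1 : (1 - x) ^ (r * (n + 1) + 1) * w r n N * x ^ (N - 1) ≤
      ∑ k ∈ Finset.range N, ar r n k * x ^ k := by
    unfold w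
    rw [Finset.mul_sum, Finset.sum_mul]
    refine Finset.sum_le_sum fun k hk => ?_
    rw [Finset.mem_range] at hk
    have hl : N - 1 = k + (N - 1 - k) := by omega
    have hb := ff_binom (r * (n + 1)) (N - 1 - k) hx hx1
    have ha := ff_ar_nonneg hr n k
    have hp : 0 ≤ ar r n k * x ^ k := mul_nonneg ha (pow_nonneg hx.le k)
    have e : x ^ (N - 1) = x ^ k * x ^ (N - 1 - k) := by rw [← pow_add, ← hl]
    calc (1 - x) ^ (r * (n + 1) + 1) *
          (ar r n k * ((r * (n + 1) + (N - 1 - k)).choose (N - 1 - k) : ℕ)) * x ^ (N - 1)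
        = ar r n k * x ^ k * ((1 - x) ^ (r * (n + 1) + 1) *
          ((r * (n + 1) + (N - 1 - k)).choose (N - 1 - k) : ℝ) * x ^ (N - 1 - k)) := by
          rw [e]; ring
      _ ≤ ar r n k * x ^ k * 1 := mul_le_mul_of_nonneg_left hb hp
      _ = ar r n k * x ^ k := mul_one _
  have h2 : (1 - x) ^ (r * (n + 1) + 1) * (N : ℝ) ^ (n + 1) * x ^ (N - 1) ≤
      (1 - x) ^ (r * (n + 1) + 1) * w r n N * x ^ (N - 1) := by
    apply mul_le_mul_of_nonneg_right _ (pow_nonneg hx.le _)
    exact mul_le_mul_of_nonneg_left (hw2 n N) (pow_nonneg hy.le _)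
  exact h2.trans (h1.trans (ff_partial hr n N hx))

/-- The functions `R_j`. -/
private noncomputable def ffR (r : ℕ) : ℕ → ℝ → ℝ
  | 0 => fun x => x / (1 - x)
  | j + 1 => fun x => x * fr r j x / (1 - x) ^ (r * (j + 1) + 1)

private noncomputable def ffW (r : ℕ) (x : ℝ) : ℝ :=
  Real.log x + ∑ i ∈ Finset.range (r - 1), (1 - x) ^ (i + 1) / ((i : ℝ) + 1)

private theorem ffR_nonneg {r : ℕ} (hr : 1 ≤ r) (j : ℕ) {x : ℝ} (hx : 0 < x) (hx1 : x < 1) :
    0 ≤ ffR r j x := by
  have hy : 0 < 1 - x := by linarith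
  cases j with
  | zero => exact (div_pos hx hy).le
  | succ j =>
    exact (div_pos (mul_pos hx (ff_fr_pos hr j hx)) (pow_pos hy _)).le

private theorem ff_rec (r n : ℕ) (x : ℝ) :
    fr r (n + 1) x = (1 + (r : ℝ) * (n + 1) * x) * fr r n x +
      (x - x ^ 2) * (derivative (rowP r n)).eval x := by
  unfold fr
  rw [rowP, opA]
  simp only [eval_add, eval_mul, eval_one, eval_C, eval_X, eval_sub, eval_pow]

private theorem ffW_deriv {r : ℕ} {x : ℝ} (hx : 0 < x) :
    HasDerivAt (ffW r) ((1 - x) ^ (r - 1) / x) x := by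
  unfold ffW
  have h1 : HasDerivAt (fun x : ℝ => Real.log x) x⁻¹ x := Real.hasDerivAt_log hx.ne'
  have h2 : ∀ i ∈ Finset.range (r - 1),
      HasDerivAt (fun x : ℝ => (1 - x) ^ (i + 1) / ((i : ℝ) + 1)) (-(1 - x) ^ i) x := by
    intro i _
    have h3 : HasDerivAt (fun x : ℝ => 1 - x) (-1) x := by
      simpa using (hasDerivAt_id x).const_sub 1
    have h4 := (h3.pow (i + 1)).div_const ((i : ℝ) + 1)
    have e : ((i + 1 : ℕ) : ℝ) * (1 - x) ^ (i + 1 - 1) * -1 / ((i : ℝ) + 1) = -(1 - x) ^ i := by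
      have : ((i : ℝ) + 1) ≠ 0 := by positivity
      rw [Nat.add_sub_cancel]
      push_cast
      field_simp
    rw [e] at h4
    exact h4
  have h5 := h1.add (HasDerivAt.fun_sum h2)
  have e : x⁻¹ + ∑ i ∈ Finset.range (r - 1), -(1 - x) ^ i = (1 - x) ^ (r - 1) / x := by
    rw [Finset.sum_neg_distrib]
    have hg := geom_sum_mul_neg (1 - x) (r - 1)
    have hg2 : (∑ i ∈ Finset.range (r - 1), (1 - x) ^ i) * x = 1 - (1 - x) ^ (r - 1) := by
      rw [← hg]; ring
    field_simp
    linarith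
  rw [e] at h5
  exact h5

private theorem ffR_deriv {r : ℕ} (hr : 1 ≤ r) (j : ℕ) {x : ℝ} (hx : 0 < x) (hx1 : x < 1) :
    HasDerivAt (ffR r j) ((1 - x) ^ (r - 1) / x * ffR r (j + 1) x) x := by
  have hy : 0 < 1 - x := by linarith
  have hyn : (1 - x) ≠ 0 := hy.ne'
  have h3 : HasDerivAt (fun x : ℝ => 1 - x) (-1) x := by
    simpa using (hasDerivAt_id x).const_sub 1
  obtain ⟨s, rfl⟩ : ∃ s, r = s + 1 := ⟨r - 1, by omega⟩
  rw [Nat.add_sub_cancel]
  cases j with
  | zero =>
    have h4 := (hasDerivAt_id x).div h3 hyn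
    have e : (1 * (1 - x) - id x * -1) / (1 - x) ^ 2 =
        (1 - x) ^ s / x * ffR (s + 1) (0 + 1) x := by
      have ef : fr (s + 1) 0 x = 1 := by unfold fr; rw [rowP]; exact eval_one
      show _ = (1 - x) ^ s / x * (x * fr (s + 1) 0 x / (1 - x) ^ ((s + 1) * (0 + 1) + 1))
      rw [ef]
      have e2 : (1 - x) ^ ((s + 1) * (0 + 1) + 1) = (1 - x) ^ s * (1 - x) ^ 2 := by
        rw [← pow_add]; congr 1; ring
      rw [e2]
      have : (1 - x) ^ s ≠ 0 := pow_ne_zero _ hyn
      simp only [id]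
      field_simp
      ring
    rw [e] at h4
    exact h4
  | succ j =>
    have h5 : HasDerivAt (fun x => fr (s + 1) j x) ((derivative (rowP (s + 1) j)).eval x) x :=
      (rowP (s + 1) j).hasDerivAt x
    have h6 := (((hasDerivAt_id x).mul h5).div (h3.pow ((s + 1) * (j + 1) + 1))
      (pow_ne_zero _ hyn))
    have e : ((1 * fr (s + 1) j x + id x * (derivative (rowP (s + 1) j)).eval x) *
          (1 - x) ^ ((s + 1) * (j + 1) + 1) -
          id x * fr (s + 1) j x * (((((s + 1) * (j + 1) + 1 : ℕ) : ℝ)) *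
            (1 - x) ^ ((s + 1) * (j + 1) + 1 - 1) * -1)) /
          ((1 - x) ^ ((s + 1) * (j + 1) + 1)) ^ 2 =
        (1 - x) ^ s / x * ffR (s + 1) (j + 1 + 1) x := by
      show _ = (1 - x) ^ s / x * (x * fr (s + 1) (j + 1) x /
        (1 - x) ^ ((s + 1) * (j + 1 + 1) + 1))
      rw [ff_rec, Nat.add_sub_cancel]
      set q : ℝ := (1 - x) ^ ((s + 1) * (j + 1)) with hq
      have hq0 : q ≠ 0 := pow_ne_zero _ hyn
      have hs0 : (1 - x) ^ s ≠ 0 := pow_ne_zero _ hyn
      have e2 : (1 - x) ^ ((s + 1) * (j + 1 + 1) + 1) = q * (1 - x) ^ s * (1 - x) ^ 2 := by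
        have e4 : (s + 1) * (j + 1 + 1) + 1 = (s + 1) * (j + 1) + s + 2 := by ring
        rw [hq, ← pow_add, ← pow_add, e4]
      have e3 : (1 - x) ^ ((s + 1) * (j + 1) + 1) = q * (1 - x) := by
        rw [hq, ← pow_succ]
      rw [e2, e3]
      simp only [id]
      push_cast
      field_simp
      ring
    exact HasDerivAt.congr_deriv h6 e

private theorem ff_taylor {r : ℕ} (hr : 1 ≤ r) (m : ℕ) : ∀ (j : ℕ) (x x' : ℝ), 0 < x → x ≤ x' →
    x' < 1 → ffR r (j + m) x * (ffW r x' - ffW r x) ^ m / (m.factorial : ℝ) ≤ ffR r j x' := by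
  induction m with
  | zero =>
    intro j x x' hx hxx hx1
    have hmono : MonotoneOn (ffR r j) (Set.Icc x x') := by
      apply monotoneOn_of_deriv_nonneg (convex_Icc x x')
      · intro t ht
        exact (ffR_deriv hr j (hx.trans_le ht.1) (ht.2.trans_lt hx1)).continuousAt.continuousWithinAt
      · intro t ht
        rw [interior_Icc] at ht
        exact (ffR_deriv hr j (hx.trans ht.1)
          (ht.2.trans hx1)).differentiableAt.differentiableWithinAt
      · intro t ht
        rw [interior_Icc] at ht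
        have ht0 : 0 < t := hx.trans ht.1
        have ht1 : t < 1 := ht.2.trans hx1
        have hy : 0 < 1 - t := by linarith
        rw [(ffR_deriv hr j ht0 ht1).deriv]
        exact mul_nonneg (div_nonneg (pow_nonneg hy.le _) ht0.le) (ffR_nonneg hr (j + 1) ht0 ht1)
    have := hmono (Set.left_mem_Icc.2 hxx) (Set.right_mem_Icc.2 hxx) hxx
    simpa using this
  | succ m ih =>
    intro j x x' hx hxx hx1
    set c : ℝ := ffR r (j + (m + 1)) x with hc
    set g : ℝ → ℝ := fun t => ffR r j t -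
      c * (ffW r t - ffW r x) ^ (m + 1) / ((m + 1).factorial : ℝ) with hg
    have hder : ∀ t, x ≤ t → t < 1 → HasDerivAt g ((1 - t) ^ (r - 1) / t *
        (ffR r (j + 1) t - c * (ffW r t - ffW r x) ^ m / (m.factorial : ℝ))) t := by
      intro t ht ht1
      have ht0 : 0 < t := hx.trans_le ht
      have h1 := ffR_deriv hr j ht0 ht1
      have h2 := (((((ffW_deriv (r := r) ht0).sub_const (ffW r x)).pow (m + 1)).const_mul c).div_const
        ((m + 1).factorial : ℝ))
      have h3 := h1.sub h2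
      have e : (1 - t) ^ (r - 1) / t * ffR r (j + 1) t -
          c * (((m + 1 : ℕ) : ℝ) * (ffW r t - ffW r x) ^ (m + 1 - 1) * ((1 - t) ^ (r - 1) / t)) /
            ((m + 1).factorial : ℝ) =
          (1 - t) ^ (r - 1) / t *
            (ffR r (j + 1) t - c * (ffW r t - ffW r x) ^ m / (m.factorial : ℝ)) := by
        rw [Nat.add_sub_cancel, Nat.factorial_succ]
        have hm : ((m.factorial : ℕ) : ℝ) ≠ 0 := by exact_mod_cast m.factorial_ne_zero
        have hm1 : ((m : ℝ) + 1) ≠ 0 := by positivity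
        push_cast
        field_simp
      rw [e] at h3
      exact h3
    have hmono : MonotoneOn g (Set.Icc x x') := by
      apply monotoneOn_of_deriv_nonneg (convex_Icc x x')
      · intro t ht
        exact (hder t ht.1 (ht.2.trans_lt hx1)).continuousAt.continuousWithinAt
      · intro t ht
        rw [interior_Icc] at ht
        exact (hder t ht.1.le (ht.2.trans hx1)).differentiableAt.differentiableWithinAt
      · intro t ht
        rw [interior_Icc] at ht
        have ht0 : 0 < t := hx.trans ht.1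
        have ht1 : t < 1 := ht.2.trans hx1
        have hy : 0 < 1 - t := by linarith
        rw [(hder t ht.1.le ht1).deriv]
        have h4 := ih (j + 1) x t hx ht.1.le ht1
        have e : j + 1 + m = j + (m + 1) := by ring
        rw [e] at h4
        exact mul_nonneg (div_nonneg (pow_nonneg hy.le _) ht0.le) (sub_nonneg.2 h4)
    have h5 := hmono (Set.left_mem_Icc.2 hxx) (Set.right_mem_Icc.2 hxx) hxx
    have h6 : 0 ≤ g x := by
      rw [hg]
      simp only [sub_self]
      rw [zero_pow (Nat.succ_ne_zero m), mul_zero, zero_div, sub_zero]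
      exact ffR_nonneg hr j hx (hxx.trans_lt hx1)
    have h7 : 0 ≤ g x' := h6.trans h5
    rw [hg] at h7
    simp only at h7
    linarith

private theorem ff_P_bounds (r : ℕ) {x : ℝ} (hx : 0 < x) (hx1 : x < 1) :
    0 ≤ ∑ i ∈ Finset.range (r - 1), (1 - x) ^ (i + 1) / ((i : ℝ) + 1) ∧
    ∑ i ∈ Finset.range (r - 1), (1 - x) ^ (i + 1) / ((i : ℝ) + 1) ≤ ((r - 1 : ℕ) : ℝ) := by
  have hy : 0 < 1 - x := by linarith
  constructor
  · exact Finset.sum_nonneg fun i _ => by positivity
  · calc ∑ i ∈ Finset.range (r - 1), (1 - x) ^ (i + 1) / ((i : ℝ) + 1)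
        ≤ ∑ i ∈ Finset.range (r - 1), (1 : ℝ) := by
          refine Finset.sum_le_sum fun i _ => ?_
          rw [div_le_one (by positivity)]
          have h1 : (1 - x) ^ (i + 1) ≤ 1 := pow_le_one₀ hy.le (by linarith)
          have h2 : (0 : ℝ) ≤ i := Nat.cast_nonneg i
          linarith
      _ = ((r - 1 : ℕ) : ℝ) := by
          rw [Finset.sum_const, Finset.card_range, nsmul_eq_mul, mul_one]

/-- FUP. -/
theorem fup : FupSt := by
  intro r hr
  have hr1 : (1 : ℝ) ≤ r := by exact_mod_cast hr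
  refine ⟨r, hr1, ?_⟩
  intro n x hx hlog
  have hlx : Real.log (1 / x) = -Real.log x := by rw [one_div, Real.log_inv]
  have hlog2 : Real.log 2 ≤ 1 := by
    have := Real.log_two_lt_d9
    linarith
  have hxhalf : x ≤ 1 / 2 := by
    rw [← Real.log_le_log_iff hx (by norm_num)]
    have : Real.log (1 / 2) = -Real.log 2 := by rw [one_div, Real.log_inv]
    rw [this]
    rw [hlx] at hlog
    linarith
  have hx1 : x < 1 := by linarith
  have hy : 0 < 1 - x := by linarith
  have hT := ff_taylor hr (n + 1) 0 x (1 / 2) hx hxhalf (by norm_num)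
  have hR0 : ffR r 0 (1 / 2) = 1 := by
    show (1 / 2 : ℝ) / (1 - 1 / 2) = 1
    norm_num
  rw [hR0, Nat.zero_add] at hT
  have hW : Real.log (1 / x) - r ≤ ffW r (1 / 2) - ffW r x := by
    unfold ffW
    have h1 := (ff_P_bounds r (x := 1 / 2) (by norm_num) (by norm_num)).1
    have h2 := (ff_P_bounds r hx hx1).2
    have h3 : Real.log (1 / 2) = -Real.log 2 := by rw [one_div, Real.log_inv]
    have h4 : ((r - 1 : ℕ) : ℝ) = r - 1 := by
      rw [Nat.cast_sub hr]; norm_num
    rw [h4] at h2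
    rw [hlx, h3]
    linarith
  have hpos : 0 < Real.log (1 / x) - r := by linarith
  have hfac : (0 : ℝ) < (n + 1).factorial := by exact_mod_cast (n + 1).factorial_pos
  have hRn := ffR_nonneg hr (n + 1) hx hx1
  have h1 : ffR r (n + 1) x * (Real.log (1 / x) - r) ^ (n + 1) ≤ (n + 1).factorial := by
    rw [div_le_one hfac] at hT
    refine le_trans ?_ hT
    apply mul_le_mul_of_nonneg_left _ hRn
    exact pow_le_pow_left₀ hpos.le hW (n + 1)
  have h2 : x * fr r n x ≤ ffR r (n + 1) x := by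
    show x * fr r n x ≤ x * fr r n x / (1 - x) ^ (r * (n + 1) + 1)
    have hxf : 0 ≤ x * fr r n x := mul_nonneg hx.le (ff_fr_pos hr n hx).le
    rw [le_div_iff₀ (pow_pos hy _)]
    calc x * fr r n x * (1 - x) ^ (r * (n + 1) + 1) ≤ x * fr r n x * 1 := by
          apply mul_le_mul_of_nonneg_left _ hxf
          exact pow_le_one₀ hy.le (by linarith)
      _ = x * fr r n x := mul_one _
  have hpp : 0 < (Real.log (1 / x) - r) ^ (n + 1) := pow_pos hpos _
  rw [le_div_iff₀ (mul_pos hx hpp)]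
  calc fr r n x * (x * (Real.log (1 / x) - r) ^ (n + 1))
      = x * fr r n x * (Real.log (1 / x) - r) ^ (n + 1) := by ring
    _ ≤ ffR r (n + 1) x * (Real.log (1 / x) - r) ^ (n + 1) :=
        mul_le_mul_of_nonneg_right h2 hpp.le
    _ ≤ (n + 1).factorial := h1

end Pool.Agent.H37.ATR
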