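import Pool.Agent.H37.ATR.Spec

/-!
# PHI: structure of the functions `W` near `y = 0` (induction and Taylor coefficients)
-/

set_option autoImplicit false

open MeasureTheory Filter Complex Polynomial
open scoped Topology Real

namespace Pool.Agent.H37.ATR

/-- Taylor coefficient at `0`. -/
private noncomputable def indT (l : ℕ) (f : ℂ → ℂ) : ℂ :=
  (l.factorial : ℂ)⁻¹ * iteratedDeriv l f 0

private theorem indT_norm {f : ℂ → ℂ} (hf : DifferentiableOn ℂ f (Metric.ball 0 1))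
    {s C : ℝ} (hs : 0 < s) (hs1 : s < 1) (hC : ∀ z : ℂ, ‖z‖ = s → ‖f z‖ ≤ C) (l : ℕ) :
    ‖indT l f‖ ≤ C / s ^ l := by
  have h1 : DiffContOnCl ℂ f (Metric.ball 0 s) :=
    hf.diffContOnCl_ball (Metric.closedBall_subset_ball hs1)
  have h2 := Complex.norm_iteratedDeriv_le_of_forall_mem_sphere_norm_le (C := C) l hs h1
    (fun z hz => hC z (by simpa using hz))
  have hl : (0 : ℝ) < l.factorial := by exact_mod_cast l.factorial_pos
  unfold indT
  rw [norm_mul, norm_inv, Complex.norm_natCast]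
  calc ((l.factorial : ℝ))⁻¹ * ‖iteratedDeriv l f 0‖
      ≤ ((l.factorial : ℝ))⁻¹ * (l.factorial * C / s ^ l) := by gcongr
    _ = C / s ^ l := by field_simp

private theorem indT_sub {f g : ℂ → ℂ} (hf : DifferentiableOn ℂ f (Metric.ball 0 1))
    (hg : DifferentiableOn ℂ g (Metric.ball 0 1)) (l : ℕ) :
    indT l (f - g) = indT l f - indT l g := by
  have h0 : Metric.ball (0 : ℂ) 1 ∈ 𝓝 (0 : ℂ) := Metric.ball_mem_nhds _ one_pos
  unfold indT
  rw [iteratedDeriv_sub (hf.analyticAt h0).contDiffAt (hg.analyticAt h0).contDiffAt]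
  ring

private theorem indT_pow (l i : ℕ) :
    indT l (fun z : ℂ => z ^ i) = if l = i then 1 else 0 := by
  unfold indT
  rw [iteratedDeriv_fun_pow_zero]
  split_ifs with h
  · subst h
    exact inv_mul_cancel₀ (by exact_mod_cast l.factorial_ne_zero)
  · simp

private theorem indT_zero {g : ℂ → ℂ} (hg : DifferentiableOn ℂ g (Metric.ball 0 1))
    {C : ℝ} {i : ℕ} (hC : ∀ z : ℂ, ‖z‖ ≤ 1 / 2 → ‖g z‖ ≤ C * ‖z‖ ^ (i + 1)) {l : ℕ}
    (hl : l ≤ i) : indT l g = 0 := by
  by_contra hne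
  have hpos : 0 < ‖indT l g‖ := norm_pos_iff.2 hne
  set t := ‖indT l g‖ with ht
  set s : ℝ := min (1 / 2) (t / (2 * (|C| + 1))) with hs
  have hC1 : 0 < |C| + 1 := by positivity
  have hs0 : 0 < s := lt_min (by norm_num) (by positivity)
  have hs2 : s ≤ 1 / 2 := min_le_left _ _
  have hs3 : s ≤ t / (2 * (|C| + 1)) := min_le_right _ _
  have h1 := indT_norm hg hs0 (by linarith) (C := C * s ^ (i + 1))
    (fun z hz => by have := hC z (by rw [hz]; exact hs2); rwa [hz] at this) l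
  have h2 : C * s ^ (i + 1) / s ^ l ≤ |C| * s := by
    have e : s ^ (i + 1) = s ^ l * (s ^ (i - l) * s) := by
      rw [← pow_succ, ← pow_add]; congr 1; omega
    have e2 : C * s ^ (i + 1) / s ^ l = C * (s ^ (i - l) * s) := by
      rw [e]; field_simp
    rw [e2]
    have h3 : s ^ (i - l) ≤ 1 := pow_le_one₀ hs0.le (by linarith)
    calc C * (s ^ (i - l) * s) ≤ |C| * (s ^ (i - l) * s) := by
          gcongr; exact le_abs_self C
      _ ≤ |C| * (1 * s) := by gcongr
      _ = |C| * s := by ring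
  have h4 : |C| * s ≤ (|C| + 1) * (t / (2 * (|C| + 1))) := by
    gcongr; linarith
  have h5 : (|C| + 1) * (t / (2 * (|C| + 1))) = t / 2 := by field_simp
  linarith

private theorem indT_taylor {f : ℂ → ℂ} (hf : DifferentiableOn ℂ f (Metric.ball 0 1))
    {C : ℝ} (hC : ∀ z : ℂ, ‖z‖ ≤ 1 / 4 → ‖f z‖ ≤ C) (m : ℕ) :
    ∃ ρ : ℂ → ℂ, ∀ ζ : ℂ, ‖ζ‖ ≤ 1 / 8 → ‖ρ ζ‖ ≤ 2 * C * 4 ^ m ∧
      f ζ = ∑ l ∈ Finset.range m, indT l f * ζ ^ l + ζ ^ m * ρ ζ := by
  have hC0 : 0 ≤ C := le_trans (norm_nonneg _) (hC 0 (by simp))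
  refine ⟨fun ζ => ∑' l : ℕ, indT (l + m) f * ζ ^ l, fun ζ hζ => ?_⟩
  have hb : ∀ l : ℕ, ‖indT (l + m) f * ζ ^ l‖ ≤ C * 4 ^ m * (1 / 2 : ℝ) ^ l := by
    intro l
    have h1 := indT_norm hf (s := 1 / 4) (by norm_num) (by norm_num)
      (fun z hz => hC z hz.le) (l + m)
    have h2 : C / (1 / 4 : ℝ) ^ (l + m) = C * 4 ^ m * 4 ^ l := by
      rw [one_div, inv_pow, div_inv_eq_mul, pow_add]; ring
    rw [norm_mul, norm_pow]
    calc ‖indT (l + m) f‖ * ‖ζ‖ ^ l ≤ (C * 4 ^ m * 4 ^ l) * (1 / 8 : ℝ) ^ l := by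
          rw [← h2]; gcongr
      _ = C * 4 ^ m * (1 / 2 : ℝ) ^ l := by
          rw [mul_assoc (C * 4 ^ m), ← mul_pow]; norm_num
  have hg : HasSum (fun l : ℕ => C * 4 ^ m * (1 / 2 : ℝ) ^ l) (C * 4 ^ m * 2) :=
    hasSum_geometric_two.mul_left _
  constructor
  · have := tsum_of_norm_bounded hg hb
    calc _ ≤ C * 4 ^ m * 2 := this
      _ = 2 * C * 4 ^ m := by ring
  · have hz : ζ ∈ Metric.ball (0 : ℂ) 1 := by
      rw [mem_ball_zero_iff]; linarith
    have h1 := Complex.hasSum_taylorSeries_on_ball hf hz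
    have h2 : HasSum (fun n : ℕ => indT n f * ζ ^ n) (f ζ) := by
      have he : (fun n : ℕ => indT n f * ζ ^ n)
          = fun n : ℕ => (n.factorial : ℂ)⁻¹ • (ζ - 0) ^ n • iteratedDeriv n f 0 := by
        funext n
        simp only [indT, smul_eq_mul, sub_zero]
        ring
      rw [he]
      exact h1
    have h3 := h2.summable.sum_add_tsum_nat_add m
    rw [h2.tsum_eq] at h3
    rw [← h3]
    congr 1
    rw [← tsum_mul_left]
    refine tsum_congr fun l => ?_
    rw [pow_add]; ring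

private theorem ind_pow_sub (a b : ℂ) (s : ℝ) (ha : ‖a‖ ≤ 2 * s) (hb : ‖b‖ ≤ s)
    (hab : ‖a - b‖ ≤ 2 * s ^ 2) (i : ℕ) :
    ‖a ^ i - b ^ i‖ ≤ i * 2 ^ i * s ^ (i + 1) := by
  have hs : 0 ≤ s := le_trans (norm_nonneg _) hb
  induction i with
  | zero => simp
  | succ i ih =>
    have e : a ^ (i + 1) - b ^ (i + 1) = a * (a ^ i - b ^ i) + (a - b) * b ^ i := by ring
    rw [e]
    refine (norm_add_le _ _).trans ?_
    rw [norm_mul, norm_mul, norm_pow]
    have h1 : ‖a‖ * ‖a ^ i - b ^ i‖ ≤ 2 * s * (i * 2 ^ i * s ^ (i + 1)) := by gcongr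
    have h2 : ‖a - b‖ * ‖b‖ ^ i ≤ 2 * s ^ 2 * s ^ i := by gcongr
    have h3 : (2 : ℝ) ≤ 2 ^ (i + 1) := by
      have : (1 : ℝ) ≤ 2 ^ i := one_le_pow₀ (by norm_num)
      rw [pow_succ]; linarith
    have h4 : 2 * s ^ 2 * s ^ i ≤ 2 ^ (i + 1) * (s ^ 2 * s ^ i) := by
      have : 0 ≤ s ^ 2 * s ^ i := by positivity
      nlinarith
    push_cast
    calc ‖a‖ * ‖a ^ i - b ^ i‖ + ‖a - b‖ * ‖b‖ ^ i
        ≤ 2 * s * (i * 2 ^ i * s ^ (i + 1)) + 2 ^ (i + 1) * (s ^ 2 * s ^ i) := by linarith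
      _ = ((i : ℝ) + 1) * 2 ^ (i + 1) * s ^ (i + 1 + 1) := by ring

private theorem ind_Ph_zero (hrec : RecSt) {r n : ℕ} {x : ℝ} (hr : 1 ≤ r) (hx : 0 < x)
    (hR : 0 < R r n x) (hD : 0 < D r n x) {ζ : ℂ} (hζ : ‖ζ‖ < 1) : Ph r n x 0 ζ = 1 := by
  have h := (hrec r n x hr hx hR hD).1 ζ hζ
  simp [Ph, h]

private theorem ind_main (hrec : RecSt) (hom : OmSt) (hdel : DelSt) (r m : ℕ) (hr : 2 ≤ r)
    (hm : 0 < m) : ∀ i : ℕ, i ≤ m → ∃ C : ℝ, 1 ≤ C ∧ ∀ (n : ℕ) (x : ℝ), 0 < x →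
      1 ≤ V r n x → ∀ j ≤ i, ∀ ζ : ℂ, ‖ζ‖ ≤ 1 / 2 - (i : ℝ) / (4 * m) →
        ‖Ph r n x j ζ‖ ≤ C ∧
        ‖Ph r n x j ζ - Ph r n x 1 ζ ^ j‖ ≤ C * (1 / V r n x + 1 / (n + 1)) := by
  have hr1 : 1 ≤ r := by omega
  have hm' : (0 : ℝ) < m := by exact_mod_cast hm
  intro i
  induction i with
  | zero =>
    intro _
    refine ⟨1, le_rfl, fun n x hx hV j hj ζ hζ => ?_⟩
    obtain rfl : j = 0 := by omega
    obtain ⟨hR, hD, -⟩ := hdel r n x hr hx hV
    have hz : ‖ζ‖ < 1 := by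
      have : ‖ζ‖ ≤ 1 / 2 := by simpa using hζ
      linarith
    rw [ind_Ph_zero hrec hr1 hx hR hD hz]
    have : 0 ≤ 1 / V r n x + 1 / ((n : ℝ) + 1) := by
      have : 0 < V r n x := by linarith
      positivity
    simpa using this
  | succ i ih =>
    intro hi
    obtain ⟨C, hC1, hC⟩ := ih (by omega)
    set K : ℝ := 1 + 4 * m * (r * (r + 1)) + 24 * m * (r + 1) with hK
    have hK1 : 1 ≤ K := by
      have h1 : (0 : ℝ) ≤ 4 * m * (r * (r + 1)) := by positivity
      have h2 : (0 : ℝ) ≤ 24 * m * (r + 1) := by positivity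
      linarith
    have hCK : C ≤ C * K := le_mul_of_one_le_right (by linarith) hK1
    refine ⟨1 + 2 * (C * K), by linarith, fun n x hx hV j hj ζ hζ => ?_⟩
    obtain ⟨hR, hD, hd1, hd2, hd3, -, -⟩ := hdel r n x hr hx hV
    set d : ℝ := 1 / V r n x + 1 / ((n : ℝ) + 1) with hd
    have hV0 : 0 < V r n x := by linarith
    have hd0 : 0 ≤ d := by positivity
    have hd2' : d ≤ 2 := by
      have h1 : 1 / V r n x ≤ 1 := by rw [div_le_one hV0]; exact hV
      have h2 : 1 / ((n : ℝ) + 1) ≤ 1 := by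
        rw [div_le_one (by positivity)]; have : (0 : ℝ) ≤ n := n.cast_nonneg; linarith
      linarith
    have hmi : (i : ℝ) + 1 ≤ m := by exact_mod_cast hi
    have hr2 : ((i + 1 : ℕ) : ℝ) / (4 * m) = (i : ℝ) / (4 * m) + 1 / (4 * m) := by
      push_cast; ring
    have h4m : 0 < 1 / (4 * (m : ℝ)) := by positivity
    rcases Nat.lt_or_ge i j with hij | hij
    · obtain rfl : j = i + 1 := by omega
      have hζ1 : ‖ζ‖ ≤ 1 / 2 - (i : ℝ) / (4 * m) := by rw [hr2] at hζ; linarith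
      have hi0 : 0 ≤ (i : ℝ) / (4 * m) := by positivity
      have hζ2 : ‖ζ‖ ≤ 1 / 2 := by linarith
      obtain ⟨-, hrc⟩ := hrec r n x hr1 hx hR hD
      obtain ⟨hdiff, hr3⟩ := hrc i
      have hr4 := hr3 ζ (by linarith)
      obtain ⟨hb1, hb2⟩ := hC n x hx hV i le_rfl ζ hζ1
      obtain ⟨hb3, -⟩ := hC n x hx hV (i - 1) (by omega) ζ hζ1
      -- derivative
      have hder : ‖deriv (Ph r n x i) ζ‖ ≤ C / (1 / (4 * (m : ℝ))) := by
        refine Complex.norm_deriv_le_of_forall_mem_sphere_norm_le h4m ?_ ?_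
        · refine hdiff.diffContOnCl_ball ?_
          intro z hz
          rw [Metric.mem_closedBall, dist_eq_norm] at hz
          rw [mem_ball_zero_iff]
          have : ‖z‖ ≤ ‖z - ζ‖ + ‖ζ‖ := by
            have := norm_add_le (z - ζ) ζ
            simpa using this
          rw [hr2] at hζ
          linarith
        · intro z hz
          rw [mem_sphere_iff_norm] at hz
          refine (hC n x hx hV i le_rfl z ?_).1
          have : ‖z‖ ≤ ‖z - ζ‖ + ‖ζ‖ := by
            have := norm_add_le (z - ζ) ζ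
            simpa using this
          rw [hr2] at hζ
          linarith
      have hder' : ‖deriv (Ph r n x i) ζ‖ ≤ 4 * m * C := by
        refine hder.trans (le_of_eq ?_)
        field_simp
      -- Phi_1
      have hom1 := hom r n x hr hx hR hD ζ hζ2
      have hp1 : ‖Ph r n x 1 ζ‖ ≤ 1 := by
        have h1 : ‖Ph r n x 1 ζ‖ ≤ ‖Ph r n x 1 ζ - ζ‖ + ‖ζ‖ := by
          have := norm_add_le (Ph r n x 1 ζ - ζ) ζ
          simpa using this
        have h2 : ‖ζ‖ ^ 2 ≤ (1 / 2) ^ 2 := by gcongr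
        nlinarith
      have h1z : ‖(1 : ℂ) + ζ‖ ≤ 2 := by
        have := norm_add_le (1 : ℂ) ζ
        rw [norm_one] at this
        linarith
      set a : ℂ := ((r * x / D r n x : ℝ) : ℂ) with ha
      set c : ℂ := ((r * x * R r n x / D r n x ^ 2 : ℝ) : ℂ) with hc
      have hna : ‖a‖ ≤ r * (r + 1) * d := by
        rw [ha, Complex.norm_real, Real.norm_eq_abs, abs_of_nonneg (by positivity)]
        calc r * x / D r n x = r * (x / D r n x) := by ring
          _ ≤ r * ((r + 1) * d) := by gcongr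
          _ = r * (r + 1) * d := by ring
      have hnc : ‖c‖ ≤ r * (r + 1) * d := by
        rw [hc, Complex.norm_real, Real.norm_eq_abs, abs_of_nonneg (by positivity)]
        calc r * x * R r n x / D r n x ^ 2 = r * (x * R r n x / D r n x ^ 2) := by ring
          _ ≤ r * ((r + 1) * d) := by gcongr
          _ = r * (r + 1) * d := by ring
      have hnb : ‖((1 : ℂ) - x - x * ζ) / ((D r n x : ℝ) : ℂ)‖ ≤ 3 * (r + 1) * d := by
        rw [norm_div, Complex.norm_real, Real.norm_eq_abs, abs_of_pos hD]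
        have h1 : ‖(1 : ℂ) - x - x * ζ‖ ≤ 1 + 2 * x := by
          have e1 : ‖(1 : ℂ) - x - x * ζ‖ ≤ ‖(1 : ℂ)‖ + ‖(x : ℂ)‖ + ‖(x : ℂ) * ζ‖ := by
            refine (norm_sub_le _ _).trans ?_
            gcongr
            exact norm_sub_le _ _
          rw [norm_one, norm_mul, Complex.norm_real, Real.norm_eq_abs, abs_of_pos hx] at e1
          nlinarith
        calc ‖(1 : ℂ) - x - x * ζ‖ / D r n x ≤ (1 + 2 * x) / D r n x := by gcongr
          _ = 1 / D r n x + 2 * (x / D r n x) := by ring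
          _ ≤ (r + 1) * d + 2 * ((r + 1) * d) := by gcongr
          _ = 3 * (r + 1) * d := by ring
      have hkey : ‖Ph r n x (i + 1) ζ - Ph r n x 1 ζ ^ (i + 1)‖ ≤ C * K * d := by
        have e : Ph r n x (i + 1) ζ - Ph r n x 1 ζ ^ (i + 1)
            = Ph r n x 1 ζ * (Ph r n x i ζ - Ph r n x 1 ζ ^ i)
              + (i : ℂ) * a * (1 + ζ) * Ph r n x i ζ
              + ((1 : ℂ) - x - x * ζ) / ((D r n x : ℝ) : ℂ) * (1 + ζ) * deriv (Ph r n x i) ζ
              + (i : ℂ) * c * (1 + ζ) * Ph r n x (i - 1) ζ := by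
          rw [hr4]; ring
        rw [e]
        have hnn : ‖(i : ℂ)‖ ≤ m := by
          rw [Complex.norm_natCast]; linarith
        have t1 : ‖Ph r n x 1 ζ * (Ph r n x i ζ - Ph r n x 1 ζ ^ i)‖ ≤ 1 * (C * d) := by
          rw [norm_mul]; gcongr
        have t2 : ‖(i : ℂ) * a * (1 + ζ) * Ph r n x i ζ‖
            ≤ m * (r * (r + 1) * d) * 2 * C := by
          rw [norm_mul, norm_mul, norm_mul]; gcongr
        have t3 : ‖((1 : ℂ) - x - x * ζ) / ((D r n x : ℝ) : ℂ) * (1 + ζ)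
            * deriv (Ph r n x i) ζ‖ ≤ 3 * (r + 1) * d * 2 * (4 * m * C) := by
          rw [norm_mul, norm_mul]; gcongr
        have t4 : ‖(i : ℂ) * c * (1 + ζ) * Ph r n x (i - 1) ζ‖
            ≤ m * (r * (r + 1) * d) * 2 * C := by
          rw [norm_mul, norm_mul, norm_mul]; gcongr
        refine (norm_add_le _ _).trans ?_
        refine (add_le_add_left (norm_add_le _ _) _).trans ?_
        refine (add_le_add_left (add_le_add_left (norm_add_le _ _) _) _).trans ?_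
        calc _ ≤ 1 * (C * d) + m * (r * (r + 1) * d) * 2 * C
              + 3 * (r + 1) * d * 2 * (4 * m * C) + m * (r * (r + 1) * d) * 2 * C := by
              gcongr
          _ = C * K * d := by rw [hK]; ring
      constructor
      · have h1 : ‖Ph r n x (i + 1) ζ‖ ≤ ‖Ph r n x (i + 1) ζ - Ph r n x 1 ζ ^ (i + 1)‖
            + ‖Ph r n x 1 ζ ^ (i + 1)‖ := by
          have := norm_add_le (Ph r n x (i + 1) ζ - Ph r n x 1 ζ ^ (i + 1))
            (Ph r n x 1 ζ ^ (i + 1))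
          simpa using this
        have h2 : ‖Ph r n x 1 ζ ^ (i + 1)‖ ≤ 1 := by
          rw [norm_pow]; exact pow_le_one₀ (norm_nonneg _) hp1
        have h3 : C * K * d ≤ C * K * 2 := by
          have : 0 ≤ C * K := by nlinarith
          gcongr
        linarith
      · refine hkey.trans ?_
        gcongr
        have : 0 ≤ C * K := by nlinarith
        linarith
    · have hζ1 : ‖ζ‖ ≤ 1 / 2 - (i : ℝ) / (4 * m) := by rw [hr2] at hζ; linarith
      obtain ⟨hb1, hb2⟩ := hC n x hx hV j hij ζ hζ1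
      have hCC : C ≤ 1 + 2 * (C * K) := by linarith
      refine ⟨hb1.trans hCC, hb2.trans ?_⟩
      gcongr

private theorem ind_W (hrec : RecSt) {r n : ℕ} {x : ℝ} (hr : 1 ≤ r) (hx : 0 < x)
    (hR : 0 < R r n x) (hD : 0 < D r n x) (hf : fr r n x ≠ 0) (i : ℕ) {y : ℝ}
    (hy : ‖cexp (I * y) - 1‖ < 1) :
    W r n x i y = A r n x y * Ph r n x i (cexp (I * y) - 1) := by
  have h := (hrec r n x hr hx hR hD).1 _ hy
  have e : (x : ℂ) * (1 + (cexp (I * y) - 1)) = x * cexp (I * y) := by ring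
  rw [e] at h
  unfold W A Ph
  rw [e]
  rw [mul_left_comm]
  congr 1
  rw [Finset.mul_sum]
  refine Finset.sum_congr rfl fun l _ => ?_
  have hf' : ((fr r n x : ℝ) : ℂ) ≠ 0 := by exact_mod_cast hf
  have hRl : ((R r n x ^ l : ℝ) : ℂ) ≠ 0 := by exact_mod_cast (pow_pos hR l).ne'
  push_cast
  push_cast at hRl
  field_simp

/-- PHI. -/
theorem ind : BasSt → RecSt → OmSt → DelSt → PhiSt := by
  intro hbas hrec hom hdel r m hr
  have hr1 : 1 ≤ r := by omega
  rcases Nat.eq_zero_or_pos m with hm | hm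
  · subst hm
    exact ⟨1, one_pos, fun n x _ _ i hi => absurd hi (Nat.not_lt_zero _)⟩
  obtain ⟨C, hC1, hC⟩ := ind_main hrec hom hdel r m hr hm m le_rfl
  have hm' : (0 : ℝ) < m := by exact_mod_cast hm
  have hrad : 1 / 2 - (m : ℝ) / (4 * m) = 1 / 4 := by field_simp; norm_num
  rw [hrad] at hC
  have h4 : (1 : ℝ) ≤ 4 ^ m := one_le_pow₀ (by norm_num)
  refine ⟨2 * C * 4 ^ m, by positivity, fun n x hx hV i hi => ?_⟩
  obtain ⟨hR, hD, -⟩ := hdel r n x hr hx hV
  obtain ⟨-, hrc⟩ := hrec r n x hr1 hx hR hD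
  have hdi := (hrc i).1
  have hd1 := (hrc 1).1
  have hfr : fr r n x ≠ 0 := (hbas r n x hr1 hx).2.1.ne'
  set d : ℝ := 1 / V r n x + 1 / ((n : ℝ) + 1) with hd
  have hV0 : 0 < V r n x := by linarith
  have hd0 : 0 ≤ d := by positivity
  obtain ⟨ρ, hρ⟩ := indT_taylor hdi (C := C) (fun z hz => (hC n x hx hV i hi.le z hz).1) m
  have hpw : ∀ l : ℕ, l ≤ m → C / (1 / 4 : ℝ) ^ l ≤ C * 4 ^ m := by
    intro l hl
    have : C / (1 / 4 : ℝ) ^ l = C * 4 ^ l := by
      rw [one_div, inv_pow, div_inv_eq_mul]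
    rw [this]
    gcongr
    norm_num
  have hC4 : C * 4 ^ m ≤ 2 * C * 4 ^ m := by
    have : 0 ≤ C * 4 ^ m := by positivity
    linarith
  refine ⟨fun l => if l < m then indT l (Ph r n x i) else 0,
    fun y => ρ (cexp (I * y) - 1), ?_, ?_, ?_⟩
  · intro l
    dsimp only
    split_ifs with hl
    · refine (indT_norm hdi (s := 1 / 4) (by norm_num) (by norm_num)
        (fun z hz => (hC n x hx hV i hi.le z hz.le).1) l).trans ?_
      exact (hpw l hl.le).trans hC4
    · rw [norm_zero]; positivity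
  · intro l hl
    dsimp only
    rw [if_pos (lt_of_le_of_lt hl hi)]
    have hp := hd1.pow i
    have e1 : indT l (Ph r n x i - Ph r n x 1 ^ i)
        = indT l (Ph r n x i) - indT l (Ph r n x 1 ^ i) := indT_sub hdi hp l
    have hid : DifferentiableOn ℂ (fun z : ℂ => z ^ i) (Metric.ball 0 1) :=
      (differentiable_id.pow i).differentiableOn
    have e2 : indT l (Ph r n x 1 ^ i - fun z : ℂ => z ^ i)
        = indT l (Ph r n x 1 ^ i) - indT l (fun z : ℂ => z ^ i) := indT_sub hp hid l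
    have e3 : indT l (Ph r n x 1 ^ i - fun z : ℂ => z ^ i) = 0 := by
      refine indT_zero (hp.sub hid) (C := i * 2 ^ i) (i := i) (fun z hz => ?_) hl
      have ho := hom r n x hr hx hR hD z hz
      have hn : ‖Ph r n x 1 z‖ ≤ 2 * ‖z‖ := by
        have h1 : ‖Ph r n x 1 z‖ ≤ ‖Ph r n x 1 z - z‖ + ‖z‖ := by
          have := norm_add_le (Ph r n x 1 z - z) z
          simpa using this
        have h0 := norm_nonneg z
        nlinarith
      have := ind_pow_sub (Ph r n x 1 z) z ‖z‖ hn le_rfl ho i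
      simpa using this
    rw [e3, indT_pow] at e2
    have e4 : indT l (Ph r n x i) - (if l = i then 1 else 0)
        = indT l (Ph r n x i - Ph r n x 1 ^ i) := by
      rw [e1]
      linear_combination (-1 : ℂ) * e2
    rw [e4]
    refine (indT_norm (hdi.sub hp) (s := 1 / 4) (C := C * d) (by norm_num) (by norm_num)
      (fun z hz => ?_) l).trans ?_
    · have := (hC n x hx hV i hi.le z hz.le).2
      rw [hd]
      exact this
    · have h1 : C * d / (1 / 4 : ℝ) ^ l = C / (1 / 4 : ℝ) ^ l * d := by ring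
      rw [h1]
      gcongr
      exact (hpw l (le_trans hl hi.le)).trans hC4
  · intro y hy
    have hn : ‖cexp (I * y) - 1‖ ≤ 1 / 8 := by
      have := Real.norm_exp_I_mul_ofReal_sub_one_le (x := y)
      rw [Real.norm_eq_abs] at this
      linarith
    obtain ⟨h1, h2⟩ := hρ _ hn
    refine ⟨h1, ?_⟩
    rw [ind_W hrec hr1 hx hR hD hfr i (by linarith), h2]
    congr 2
    refine Finset.sum_congr rfl fun l hl => ?_
    dsimp only
    rw [if_pos (Finset.mem_range.1 hl)]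

end Pool.Agent.H37.ATR
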