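import Pool.Agent.H37.ATR.Spec

/-!
# Asymptotic total positivity of the `r`-th order Eulerian triangles: solid minors near the
left edge
-/

set_option autoImplicit false

open Filter Topology Finset

namespace Pool.Agent.H37.ATR

open Pool.Agent.H73.TP

private theorem left_prod {ι : Type*} (s : Finset ι) (a b : ι → ℝ) (R δ : ℝ) (hR : 1 ≤ R)
    (ha : ∀ i ∈ s, |a i| ≤ R) (hb : ∀ i ∈ s, |b i| ≤ R) (hab : ∀ i ∈ s, |a i - b i| ≤ δ) :
    |∏ i ∈ s, a i - ∏ i ∈ s, b i| ≤ s.card * R ^ s.card * δ := by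
  classical
  induction s using Finset.induction_on with
  | empty => simp
  | insert i s hi ih =>
    have hai := ha i (mem_insert_self i s)
    have hδi := hab i (mem_insert_self i s)
    have hδ : 0 ≤ δ := (abs_nonneg _).trans hδi
    have ih' := ih (fun j hj => ha j (mem_insert_of_mem hj))
      (fun j hj => hb j (mem_insert_of_mem hj)) (fun j hj => hab j (mem_insert_of_mem hj))
    have hPb : |∏ j ∈ s, b j| ≤ R ^ s.card := by
      rw [abs_prod]
      have h := prod_le_prod (s := s) (f := fun j => |b j|) (g := fun _ => R)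
        (fun j _ => abs_nonneg _) (fun j hj => hb j (mem_insert_of_mem hj))
      rwa [prod_const] at h
    have hR0 : 0 ≤ R := by linarith
    have hRc : 0 ≤ R ^ s.card := pow_nonneg hR0 _
    rw [prod_insert hi, prod_insert hi, card_insert_of_notMem hi]
    have e : a i * ∏ j ∈ s, a j - b i * ∏ j ∈ s, b j =
        a i * (∏ j ∈ s, a j - ∏ j ∈ s, b j) + (a i - b i) * ∏ j ∈ s, b j := by ring
    rw [e]
    have h1 : |a i * (∏ j ∈ s, a j - ∏ j ∈ s, b j)| ≤ R * (s.card * R ^ s.card * δ) := by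
      rw [abs_mul]
      exact mul_le_mul hai ih' (abs_nonneg _) hR0
    have h2 : |(a i - b i) * ∏ j ∈ s, b j| ≤ δ * R ^ s.card := by
      rw [abs_mul]
      exact mul_le_mul hδi hPb (abs_nonneg _) hδ
    have h3 : δ * R ^ s.card ≤ R * (R ^ s.card * δ) := by
      have h4 : 0 ≤ R ^ s.card * δ := mul_nonneg hRc hδ
      nlinarith
    calc |a i * (∏ j ∈ s, a j - ∏ j ∈ s, b j) + (a i - b i) * ∏ j ∈ s, b j|
        ≤ R * (s.card * R ^ s.card * δ) + δ * R ^ s.card := (abs_add_le _ _).trans (by linarith)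
      _ ≤ R * (s.card * R ^ s.card * δ) + R * (R ^ s.card * δ) := by linarith
      _ = ((s.card + 1 : ℕ) : ℝ) * R ^ (s.card + 1) * δ := by push_cast; ring

private theorem left_det {m : ℕ} (B V : Matrix (Fin m) (Fin m) ℝ) (R δ : ℝ) (hR : 1 ≤ R)
    (hB : ∀ i j, |B i j| ≤ R) (hV : ∀ i j, |V i j| ≤ R) (hBV : ∀ i j, |B i j - V i j| ≤ δ) :
    |B.det - V.det| ≤ m.factorial * (m * R ^ m * δ) := by
  rw [Matrix.det_apply', Matrix.det_apply', ← sum_sub_distrib]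
  refine (abs_sum_le_sum_abs _ _).trans ?_
  have hterm : ∀ σ ∈ (univ : Finset (Equiv.Perm (Fin m))),
      |((Equiv.Perm.sign σ : ℤ) : ℝ) * ∏ i, B (σ i) i -
        ((Equiv.Perm.sign σ : ℤ) : ℝ) * ∏ i, V (σ i) i| ≤ m * R ^ m * δ := by
    intro σ _
    rw [← mul_sub, abs_mul]
    have hs : |((Equiv.Perm.sign σ : ℤ) : ℝ)| = 1 := by
      rcases Int.units_eq_one_or (Equiv.Perm.sign σ) with h | h <;> rw [h] <;> simp
    rw [hs, one_mul]
    have h := left_prod (univ : Finset (Fin m)) (fun i => B (σ i) i) (fun i => V (σ i) i) R δ hR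
      (fun i _ => hB _ _) (fun i _ => hV _ _) (fun i _ => hBV _ _)
    simpa using h
  refine (sum_le_sum hterm).trans ?_
  rw [sum_const, card_univ, Fintype.card_perm, Fintype.card_fin, nsmul_eq_mul]

private theorem left_vdm (m : ℕ) (x : ℝ) :
    1 ≤ Matrix.det (Matrix.of fun i j : Fin m => (x + (j : ℕ)) ^ (i : ℕ)) := by
  have e : (Matrix.of fun i j : Fin m => (x + ((j : ℕ) : ℝ)) ^ (i : ℕ)) =
      (Matrix.vandermonde fun j : Fin m => x + ((j : ℕ) : ℝ)).transpose := by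
    ext i j
    simp [Matrix.vandermonde]
  rw [e, Matrix.det_transpose, Matrix.det_vandermonde]
  have h : ∀ i ∈ (univ : Finset (Fin m)), (1 : ℝ) ≤ ∏ j ∈ Ioi i,
      ((x + ((j : ℕ) : ℝ)) - (x + ((i : ℕ) : ℝ))) := by
    intro i _
    have h1 : ∏ _j ∈ Ioi i, (1 : ℝ) ≤ ∏ j ∈ Ioi i,
        ((x + ((j : ℕ) : ℝ)) - (x + ((i : ℕ) : ℝ))) := by
      refine prod_le_prod (fun _ _ => zero_le_one) fun j hj => ?_
      have hij : (i : ℕ) + 1 ≤ (j : ℕ) := Fin.lt_def.mp (mem_Ioi.mp hj)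
      have hij' : ((i : ℕ) : ℝ) + 1 ≤ ((j : ℕ) : ℝ) := by exact_mod_cast hij
      linarith
    simpa using h1
  have h2 : ∏ _i : Fin m, (1 : ℝ) ≤ ∏ i : Fin m, ∏ j ∈ Ioi i,
      ((x + ((j : ℕ) : ℝ)) - (x + ((i : ℕ) : ℝ))) :=
    prod_le_prod (fun _ _ => zero_le_one) h
  simpa using h2

private theorem left_ar_nonneg {r : ℕ} (hr : 1 ≤ r) (n k : ℕ) : 0 ≤ ar r n k := by
  unfold ar
  rcases le_or_gt k n with h | h
  · exact (rowP_pos r hr n k h).le
  · exact (rowP_zero r hr n k h).ge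

private theorem left_ch1 (a : ℕ) : ∀ l : ℕ, (a + l).choose l ≤ (a + 1) ^ l
  | 0 => by simp
  | l + 1 => by
    have h1 : (a + l + 1) * (a + l).choose l = (a + l + 1).choose (l + 1) * (l + 1) :=
      Nat.add_one_mul_choose_eq (a + l) l
    have ih := left_ch1 a l
    have h2 : a + l + 1 ≤ (a + 1) * (l + 1) := by nlinarith
    have h3 : (a + l + 1).choose (l + 1) * (l + 1) ≤ (a + 1) ^ (l + 1) * (l + 1) := by
      rw [← h1]
      calc (a + l + 1) * (a + l).choose l ≤ ((a + 1) * (l + 1)) * (a + 1) ^ l :=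
            Nat.mul_le_mul h2 ih
        _ = (a + 1) ^ (l + 1) * (l + 1) := by ring
    have h4 := Nat.le_of_mul_le_mul_right h3 (Nat.succ_pos l)
    rwa [add_assoc] at h4

private theorem left_ch2 {r : ℕ} (hr : 1 ≤ r) (l : ℕ) : (l + r - 2).choose l ≤ r ^ l := by
  obtain ⟨s, rfl⟩ : ∃ s, r = s + 1 := ⟨r - 1, by omega⟩
  rcases l with _ | l
  · simp
  · have e : l + 1 + (s + 1) - 2 = s + l := by omega
    rw [e]
    calc (s + l).choose (l + 1) ≤ (s + (l + 1)).choose (l + 1) :=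
          Nat.choose_le_choose _ (by omega)
      _ ≤ (s + 1) ^ (l + 1) := left_ch1 s (l + 1)

private theorem left_geo {q : ℝ} (h0 : 0 ≤ q) (h2 : q ≤ 1 / 2) (k : ℕ) :
    ∑ l ∈ range k, q ^ (l + 1) ≤ 2 * q := by
  have h : ∀ k : ℕ, ∑ l ∈ range k, q ^ (l + 1) ≤ 2 * q * (1 - (1 / 2) ^ k) := by
    intro k
    induction k with
    | zero => simp
    | succ k ih =>
      rw [sum_range_succ]
      have h3 : q ^ k ≤ (1 / 2) ^ k := pow_le_pow_left₀ h0 h2 k
      have h4 : q ^ (k + 1) ≤ (1 / 2) ^ k * q := by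
        rw [pow_succ]
        exact mul_le_mul_of_nonneg_right h3 h0
      have e : 2 * q * (1 - (1 / 2 : ℝ) ^ (k + 1)) = 2 * q * (1 - (1 / 2) ^ k) + (1 / 2) ^ k * q := by
        rw [pow_succ]; ring
      rw [e]
      linarith
  refine (h k).trans ?_
  have h5 : (0 : ℝ) ≤ (1 / 2) ^ k := by positivity
  nlinarith

private theorem left_pow {t : ℝ} (h0 : 0 ≤ t) (h1 : t ≤ 1) (i : ℕ) :
    (1 + t) ^ i ≤ 1 + (2 ^ i - 1) * t := by
  induction i with
  | zero => simp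
  | succ i ih =>
    have h2 : (1 : ℝ) ≤ 2 ^ i := one_le_pow₀ (by norm_num)
    have h3 := mul_le_mul_of_nonneg_right ih (show 0 ≤ 1 + t by linarith)
    rw [← pow_succ] at h3
    have h4 : t * t ≤ t := by nlinarith
    have h5 : (2 ^ i - 1) * (t * t) ≤ (2 ^ i - 1) * t := mul_le_mul_of_nonneg_left h4 (by linarith)
    have e : (1 + (2 ^ i - 1) * t) * (1 + t) = 1 + 2 ^ i * t + (2 ^ i - 1) * (t * t) := by ring
    rw [e] at h3
    have e2 : 1 + ((2 : ℝ) ^ (i + 1) - 1) * t = 1 + 2 ^ i * t + (2 ^ i - 1) * t := by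
      rw [pow_succ]; ring
    rw [e2]
    linarith

private theorem left_wpos (hW : WwSt) {r : ℕ} (hr : 1 ≤ r) (n : ℕ) {N : ℕ} (hN : 1 ≤ N) :
    0 < w r n N := by
  have h := (hW r hr).2.1 n N
  have h1 : (0 : ℝ) < (N : ℝ) := by exact_mod_cast hN
  exact lt_of_lt_of_le (pow_pos h1 _) h

private theorem left_mono (hW : WwSt) {r : ℕ} (hr : 1 ≤ r) (n : ℕ) {N M : ℕ} (hN : 1 ≤ N)
    (hNM : N ≤ M) : w r n N / (N : ℝ) ^ (n + 1) ≤ w r n M / (M : ℝ) ^ (n + 1) := by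
  induction M, hNM using Nat.le_induction with
  | base => exact le_rfl
  | succ M hM ih =>
    refine ih.trans ?_
    have h := (hW r hr).2.2 n M (hN.trans hM)
    push_cast
    exact h

private theorem left_wle (hW : WwSt) {r : ℕ} (hr : 1 ≤ r) (n : ℕ) {M l : ℕ} (hl : l < M) {Q : ℝ}
    (hQ : (M : ℝ) ≤ Q) :
    w r n (M - l) ≤ w r n M * Real.exp (-(((n : ℝ) + 1) / Q)) ^ l := by
  have hN : 1 ≤ M - l := by omega
  have hNr : (0 : ℝ) < ((M - l : ℕ) : ℝ) := by exact_mod_cast hN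
  have hM1 : 1 ≤ M := by omega
  have hMr : (0 : ℝ) < (M : ℝ) := by exact_mod_cast hM1
  have hQ0 : 0 < Q := lt_of_lt_of_le hMr hQ
  have h := left_mono hW hr n hN (Nat.sub_le M l)
  rw [div_le_div_iff₀ (pow_pos hNr _) (pow_pos hMr _)] at h
  have hcast : ((M - l : ℕ) : ℝ) = (M : ℝ) - l := by
    rw [Nat.cast_sub hl.le]
  have h1 : ((M - l : ℕ) : ℝ) ≤ (M : ℝ) * Real.exp (-((l : ℝ) / Q)) := by
    have h2 : 1 - (l : ℝ) / M ≤ Real.exp (-((l : ℝ) / Q)) := by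
      have h3 := Real.add_one_le_exp (-((l : ℝ) / M))
      have h4 : Real.exp (-((l : ℝ) / M)) ≤ Real.exp (-((l : ℝ) / Q)) := by
        apply Real.exp_le_exp.mpr
        apply neg_le_neg
        exact div_le_div_of_nonneg_left (Nat.cast_nonneg l) hMr hQ
      linarith
    have h5 := mul_le_mul_of_nonneg_left h2 hMr.le
    have h6 : (M : ℝ) * (1 - (l : ℝ) / M) = (M : ℝ) - l := by
      rw [mul_sub, mul_one, mul_div_cancel₀ _ hMr.ne']
    rw [hcast]
    linarith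
  have h7 := pow_le_pow_left₀ hNr.le h1 (n + 1)
  rw [mul_pow, ← Real.exp_nat_mul] at h7
  have e : Real.exp (((n + 1 : ℕ) : ℝ) * -((l : ℝ) / Q)) =
      Real.exp (-(((n : ℝ) + 1) / Q)) ^ l := by
    rw [← Real.exp_nat_mul]
    congr 1
    push_cast
    ring
  rw [e] at h7
  have hwM := (left_wpos hW hr n hM1).le
  have h8 : w r n (M - l) * (M : ℝ) ^ (n + 1) ≤
      (w r n M * Real.exp (-(((n : ℝ) + 1) / Q)) ^ l) * (M : ℝ) ^ (n + 1) := by
    refine h.trans ?_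
    calc w r n M * ((M - l : ℕ) : ℝ) ^ (n + 1)
        ≤ w r n M * ((M : ℝ) ^ (n + 1) * Real.exp (-(((n : ℝ) + 1) / Q)) ^ l) :=
          mul_le_mul_of_nonneg_left h7 hwM
      _ = _ := by ring
  exact le_of_mul_le_mul_right h8 (pow_pos hMr _)

private theorem left_a_le {r : ℕ} (hr : 1 ≤ r) (n j : ℕ) : ar r n j ≤ w r n (j + 1) := by
  unfold w
  rw [sum_range_succ]
  have h1 : 0 ≤ ∑ k ∈ range j, ar r n k *
      ((r * (n + 1) + (j + 1 - 1 - k)).choose (j + 1 - 1 - k) : ℕ) :=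
    sum_nonneg fun k _ => mul_nonneg (left_ar_nonneg hr n k) (Nat.cast_nonneg _)
  have e : ((r * (n + 1) + (j + 1 - 1 - j)).choose (j + 1 - 1 - j) : ℕ) = 1 := by
    have e1 : j + 1 - 1 - j = 0 := by omega
    rw [e1, Nat.choose_zero_right]
  rw [e, Nat.cast_one, mul_one]
  linarith

private theorem left_le_a (hW : WwSt) {r : ℕ} (hr : 1 ≤ r) (n j : ℕ) {Q q : ℝ}
    (hQ : ((j + 1 : ℕ) : ℝ) ≤ Q)
    (hq : ((r : ℝ) * ((n : ℝ) + 1) + 1) * Real.exp (-(((n : ℝ) + 1) / Q)) ≤ q) (hq2 : q ≤ 1 / 2) :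
    w r n (j + 1) * (1 - 2 * q) ≤ ar r n j := by
  have hw0 := (left_wpos hW hr n (Nat.succ_pos j)).le
  rw [Nat.succ_eq_add_one] at hw0
  set e : ℝ := Real.exp (-(((n : ℝ) + 1) / Q)) with he
  set q' : ℝ := ((r : ℝ) * ((n : ℝ) + 1) + 1) * e with hq'
  have he0 : 0 ≤ e := Real.exp_nonneg _
  have hc0 : (0 : ℝ) ≤ (r : ℝ) * ((n : ℝ) + 1) + 1 := by positivity
  have hq'0 : 0 ≤ q' := mul_nonneg hc0 he0
  have hsum : ∑ k ∈ range j, ar r n k *
      ((r * (n + 1) + (j + 1 - 1 - k)).choose (j + 1 - 1 - k) : ℕ) ≤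
      w r n (j + 1) * (2 * q') := by
    rw [← sum_range_reflect]
    have hterm : ∀ l ∈ range j, ar r n (j - 1 - l) *
        (((r * (n + 1) + (j + 1 - 1 - (j - 1 - l))).choose (j + 1 - 1 - (j - 1 - l)) : ℕ) : ℝ) ≤
        w r n (j + 1) * q' ^ (l + 1) := by
      intro l hl
      have hlj : l < j := mem_range.mp hl
      have e1 : j + 1 - 1 - (j - 1 - l) = l + 1 := by omega
      rw [e1]
      have h1 : ar r n (j - 1 - l) ≤ w r n (j - 1 - l + 1) := left_a_le hr n _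
      have e2 : j - 1 - l + 1 = (j + 1) - (l + 1) := by omega
      rw [e2] at h1
      have h2 := left_wle hW hr n (M := j + 1) (l := l + 1) (by omega) hQ
      have h3 : (((r * (n + 1) + (l + 1)).choose (l + 1) : ℕ) : ℝ) ≤
          ((r : ℝ) * ((n : ℝ) + 1) + 1) ^ (l + 1) := by
        have h4 := left_ch1 (r * (n + 1)) (l + 1)
        have h5 : (((r * (n + 1) + (l + 1)).choose (l + 1) : ℕ) : ℝ) ≤
            (((r * (n + 1) + 1) ^ (l + 1) : ℕ) : ℝ) := by exact_mod_cast h4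
        push_cast at h5
        exact h5
      calc ar r n (j - 1 - l) * (((r * (n + 1) + (l + 1)).choose (l + 1) : ℕ) : ℝ)
          ≤ (w r n (j + 1) * e ^ (l + 1)) * ((r : ℝ) * ((n : ℝ) + 1) + 1) ^ (l + 1) :=
            mul_le_mul (h1.trans h2) h3 (Nat.cast_nonneg _)
              (mul_nonneg hw0 (pow_nonneg he0 _))
        _ = w r n (j + 1) * q' ^ (l + 1) := by rw [hq', mul_pow]; ring
    refine (sum_le_sum hterm).trans ?_
    rw [← mul_sum]
    exact mul_le_mul_of_nonneg_left (left_geo hq'0 (hq.trans hq2) j) hw0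
  have hw : w r n (j + 1) = ∑ k ∈ range j, ar r n k *
      ((r * (n + 1) + (j + 1 - 1 - k)).choose (j + 1 - 1 - k) : ℕ) + ar r n j := by
    conv_lhs => unfold w
    rw [sum_range_succ]
    have e1 : j + 1 - 1 - j = 0 := by omega
    rw [e1, Nat.choose_zero_right, Nat.cast_one, mul_one]
  have h6 : w r n (j + 1) * (2 * q') ≤ w r n (j + 1) * (2 * q) :=
    mul_le_mul_of_nonneg_left (by linarith) hw0
  have e3 : w r n (j + 1) * (1 - 2 * q) = w r n (j + 1) - w r n (j + 1) * (2 * q) := by ring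
  rw [e3]
  linarith

private theorem left_step (hW : WwSt) {r : ℕ} (hr : 1 ≤ r) (n N : ℕ) (hN : 1 ≤ N) {Q q : ℝ}
    (hQ : (N : ℝ) ≤ Q) (hq : (r : ℝ) * Real.exp (-(((n : ℝ) + 1) / Q)) ≤ q) (hq2 : q ≤ 1 / 2) :
    (N : ℝ) * w r n N ≤ w r (n + 1) N ∧ w r (n + 1) N ≤ (N : ℝ) * w r n N * (1 + 2 * q) := by
  have hw0 := (left_wpos hW hr n hN).le
  obtain ⟨N', rfl⟩ : ∃ N', N = N' + 1 := ⟨N - 1, by omega⟩
  have hrec := (hW r hr).1 n (N' + 1)
  rw [sum_range_succ'] at hrec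
  have e0 : (((0 + r - 2).choose 0 : ℕ) : ℝ) * (((N' + 1 - 0 : ℕ)) : ℝ) * w r n (N' + 1 - 0) =
      ((N' + 1 : ℕ) : ℝ) * w r n (N' + 1) := by
    rw [Nat.choose_zero_right, Nat.sub_zero, Nat.cast_one, one_mul]
  rw [e0] at hrec
  set e : ℝ := Real.exp (-(((n : ℝ) + 1) / Q)) with he
  set q' : ℝ := (r : ℝ) * e with hq'
  have he0 : 0 ≤ e := Real.exp_nonneg _
  have hq'0 : 0 ≤ q' := mul_nonneg (Nat.cast_nonneg _) he0
  have hNr : (0 : ℝ) ≤ ((N' + 1 : ℕ) : ℝ) := Nat.cast_nonneg _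
  have hnn : 0 ≤ ∑ l ∈ range N', (((l + 1 + r - 2).choose (l + 1) : ℕ) : ℝ) *
      ((N' + 1 - (l + 1) : ℕ) : ℝ) * w r n (N' + 1 - (l + 1)) := by
    refine sum_nonneg fun l hl => ?_
    have hl' := mem_range.mp hl
    exact mul_nonneg (mul_nonneg (Nat.cast_nonneg _) (Nat.cast_nonneg _))
      (left_wpos hW hr n (by omega)).le
  have hup : ∑ l ∈ range N', (((l + 1 + r - 2).choose (l + 1) : ℕ) : ℝ) *
      ((N' + 1 - (l + 1) : ℕ) : ℝ) * w r n (N' + 1 - (l + 1)) ≤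
      ((N' + 1 : ℕ) : ℝ) * w r n (N' + 1) * (2 * q') := by
    have hterm : ∀ l ∈ range N', (((l + 1 + r - 2).choose (l + 1) : ℕ) : ℝ) *
        ((N' + 1 - (l + 1) : ℕ) : ℝ) * w r n (N' + 1 - (l + 1)) ≤
        ((N' + 1 : ℕ) : ℝ) * w r n (N' + 1) * q' ^ (l + 1) := by
      intro l hl
      have hl' := mem_range.mp hl
      have h1 := left_wle hW hr n (M := N' + 1) (l := l + 1) (by omega) hQ
      have h2 : (((l + 1 + r - 2).choose (l + 1) : ℕ) : ℝ) ≤ (r : ℝ) ^ (l + 1) := by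
        exact_mod_cast left_ch2 hr (l + 1)
      have h3 : ((N' + 1 - (l + 1) : ℕ) : ℝ) ≤ ((N' + 1 : ℕ) : ℝ) := by
        exact_mod_cast Nat.sub_le _ _
      have h4 : (((l + 1 + r - 2).choose (l + 1) : ℕ) : ℝ) * ((N' + 1 - (l + 1) : ℕ) : ℝ) ≤
          (r : ℝ) ^ (l + 1) * ((N' + 1 : ℕ) : ℝ) :=
        mul_le_mul h2 h3 (Nat.cast_nonneg _) (by positivity)
      calc (((l + 1 + r - 2).choose (l + 1) : ℕ) : ℝ) *
            ((N' + 1 - (l + 1) : ℕ) : ℝ) * w r n (N' + 1 - (l + 1))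
          ≤ (r : ℝ) ^ (l + 1) * ((N' + 1 : ℕ) : ℝ) * (w r n (N' + 1) * e ^ (l + 1)) :=
            mul_le_mul h4 h1 (left_wpos hW hr n (by omega)).le (by positivity)
        _ = _ := by rw [hq', mul_pow]; ring
    refine (sum_le_sum hterm).trans ?_
    rw [← mul_sum]
    exact mul_le_mul_of_nonneg_left (left_geo hq'0 (hq.trans hq2) N') (mul_nonneg hNr hw0)
  have h6 : ((N' + 1 : ℕ) : ℝ) * w r n (N' + 1) * (2 * q') ≤
      ((N' + 1 : ℕ) : ℝ) * w r n (N' + 1) * (2 * q) :=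
    mul_le_mul_of_nonneg_left (by linarith) (mul_nonneg hNr hw0)
  refine ⟨?_, ?_⟩
  · rw [hrec]; linarith
  · rw [hrec]
    have e3 : ((N' + 1 : ℕ) : ℝ) * w r n (N' + 1) * (1 + 2 * q) =
        ((N' + 1 : ℕ) : ℝ) * w r n (N' + 1) * (2 * q) + ((N' + 1 : ℕ) : ℝ) * w r n (N' + 1) := by
      ring
    rw [e3]
    linarith

private theorem left_exp_le {n i : ℕ} {Q : ℝ} (hQ : 0 < Q) :
    Real.exp (-((((n + i : ℕ) : ℝ) + 1) / Q)) ≤ Real.exp (-(((n : ℝ) + 1) / Q)) := by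
  apply Real.exp_le_exp.mpr
  apply neg_le_neg
  apply div_le_div_of_nonneg_right _ hQ.le
  push_cast
  have : (0 : ℝ) ≤ (i : ℝ) := Nat.cast_nonneg i
  linarith

private theorem left_iter (hW : WwSt) {r : ℕ} (hr : 1 ≤ r) (n N : ℕ) (hN : 1 ≤ N) {Q q : ℝ}
    (hQ : (N : ℝ) ≤ Q) (hq0 : 0 ≤ q)
    (hq : (r : ℝ) * Real.exp (-(((n : ℝ) + 1) / Q)) ≤ q) (hq2 : q ≤ 1 / 2) (i : ℕ) :
    (N : ℝ) ^ i * w r n N ≤ w r (n + i) N ∧
      w r (n + i) N ≤ (N : ℝ) ^ i * w r n N * (1 + 2 * q) ^ i := by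
  have hNr : (0 : ℝ) < (N : ℝ) := by exact_mod_cast hN
  have hQ0 : 0 < Q := lt_of_lt_of_le hNr hQ
  induction i with
  | zero => simp
  | succ i ih =>
    have hqi : (r : ℝ) * Real.exp (-((((n + i : ℕ) : ℝ) + 1) / Q)) ≤ q :=
      (mul_le_mul_of_nonneg_left (left_exp_le hQ0) (Nat.cast_nonneg _)).trans hq
    obtain ⟨h1, h2⟩ := left_step hW hr (n + i) N hN hQ hqi hq2
    rw [← add_assoc]
    refine ⟨?_, ?_⟩
    · calc (N : ℝ) ^ (i + 1) * w r n N = (N : ℝ) * ((N : ℝ) ^ i * w r n N) := by ring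
        _ ≤ (N : ℝ) * w r (n + i) N := mul_le_mul_of_nonneg_left ih.1 hNr.le
        _ ≤ _ := h1
    · calc w r (n + i + 1) N ≤ (N : ℝ) * w r (n + i) N * (1 + 2 * q) := h2
        _ ≤ (N : ℝ) * ((N : ℝ) ^ i * w r n N * (1 + 2 * q) ^ i) * (1 + 2 * q) := by
          refine mul_le_mul_of_nonneg_right (mul_le_mul_of_nonneg_left ih.2 hNr.le) ?_
          linarith
        _ = _ := by ring

private theorem left_key (hW : WwSt) {r m n k : ℕ} (hr : 1 ≤ r) (hm : 1 ≤ m) {q : ℝ}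
    (hq : ((r : ℝ) * ((n : ℝ) + m + 1) + 1) * Real.exp (-(((n : ℝ) + 1) / ((k : ℝ) + m))) ≤ q)
    (hlt : (m.factorial : ℝ) * (m * (2 ^ m * ((k : ℝ) + m) ^ m) ^ m *
      (((k : ℝ) + m) ^ m * 2 ^ m * (2 * q))) < 1) :
    0 < sol r m n k := by
  have hm' : (1 : ℝ) ≤ m := by exact_mod_cast hm
  have hk0 : (0 : ℝ) ≤ k := Nat.cast_nonneg k
  have hkm : (1 : ℝ) ≤ (k : ℝ) + m := by linarith
  have hkm0 : (0 : ℝ) < (k : ℝ) + m := by linarith
  have hq0 : 0 ≤ q := le_trans (by positivity) hq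
  have h2m : (1 : ℝ) ≤ 2 ^ m := one_le_pow₀ (by norm_num)
  have hQm : (1 : ℝ) ≤ ((k : ℝ) + m) ^ m := one_le_pow₀ hkm
  have hR1 : (1 : ℝ) ≤ 2 ^ m * ((k : ℝ) + m) ^ m := one_le_mul_of_one_le_of_one_le h2m hQm
  have hq2 : q ≤ 1 / 2 := by
    have hf : (1 : ℝ) ≤ m.factorial := by exact_mod_cast Nat.factorial_pos m
    have hF : (1 : ℝ) ≤ (m.factorial : ℝ) * (m * (2 ^ m * ((k : ℝ) + m) ^ m) ^ m *
        (((k : ℝ) + m) ^ m * 2 ^ m)) :=
      one_le_mul_of_one_le_of_one_le hf (one_le_mul_of_one_le_of_one_le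
        (one_le_mul_of_one_le_of_one_le hm' (one_le_pow₀ hR1))
        (one_le_mul_of_one_le_of_one_le hQm h2m))
    have h1 : 1 * (2 * q) ≤ (m.factorial : ℝ) * (m * (2 ^ m * ((k : ℝ) + m) ^ m) ^ m *
        (((k : ℝ) + m) ^ m * 2 ^ m)) * (2 * q) :=
      mul_le_mul_of_nonneg_right hF (by linarith)
    have h2 : (m.factorial : ℝ) * (m * (2 ^ m * ((k : ℝ) + m) ^ m) ^ m *
        (((k : ℝ) + m) ^ m * 2 ^ m)) * (2 * q) = (m.factorial : ℝ) *
        (m * (2 ^ m * ((k : ℝ) + m) ^ m) ^ m * (((k : ℝ) + m) ^ m * 2 ^ m * (2 * q))) := by ring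
    rw [h2] at h1
    linarith
  set x : ℝ := (k : ℝ) + 1 with hx
  have hxj : ∀ j : Fin m, (0 : ℝ) < x + ((j : ℕ) : ℝ) := fun j => by positivity
  have hxjle : ∀ j : Fin m, x + ((j : ℕ) : ℝ) ≤ (k : ℝ) + m := by
    intro j
    have h1 : (j : ℕ) + 1 ≤ m := j.2
    have h2 : ((j : ℕ) : ℝ) + 1 ≤ m := by exact_mod_cast h1
    rw [hx]
    linarith
  have hcast : ∀ j : Fin m, ((k + (j : ℕ) + 1 : ℕ) : ℝ) = x + ((j : ℕ) : ℝ) := by
    intro j; rw [hx]; push_cast; ring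
  have hre : (r : ℝ) * Real.exp (-(((n : ℝ) + 1) / ((k : ℝ) + m))) ≤ q := by
    refine le_trans ?_ hq
    refine mul_le_mul_of_nonneg_right ?_ (Real.exp_nonneg _)
    have hr0 : (0 : ℝ) ≤ r := Nat.cast_nonneg r
    have hn0 : (0 : ℝ) ≤ n := Nat.cast_nonneg n
    nlinarith
  have hwp : ∀ j : Fin m, 0 < w r n (k + (j : ℕ) + 1) := fun j =>
    left_wpos hW hr n (Nat.succ_pos _)
  set B : Matrix (Fin m) (Fin m) ℝ :=
    Matrix.of fun i j => ar r (n + (i : ℕ)) (k + (j : ℕ)) / w r n (k + (j : ℕ) + 1) with hB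
  set V : Matrix (Fin m) (Fin m) ℝ := Matrix.of fun i j => (x + ((j : ℕ) : ℝ)) ^ (i : ℕ) with hV
  have hsol : sol r m n k = (∏ j : Fin m, w r n (k + (j : ℕ) + 1)) * B.det := by
    rw [← Matrix.det_mul_row]
    unfold sol
    congr 1
    ext i j
    simp only [Matrix.of_apply, hB]
    rw [mul_div_cancel₀]
    exact (hwp j).ne'
  have hprod : 0 < ∏ j : Fin m, w r n (k + (j : ℕ) + 1) := prod_pos fun j _ => hwp j
  rw [hsol]
  refine mul_pos hprod ?_
  have hV0 : ∀ i j, 0 ≤ V i j := fun i j => by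
    simp only [hV, Matrix.of_apply]
    exact pow_nonneg (hxj j).le _
  have hVle : ∀ i j, V i j ≤ ((k : ℝ) + m) ^ m := by
    intro i j
    simp only [hV, Matrix.of_apply]
    exact (pow_le_pow_left₀ (hxj j).le (hxjle j) _).trans (pow_le_pow_right₀ hkm i.2.le)
  have hit : ∀ i j : Fin m, V i j * w r n (k + (j : ℕ) + 1) ≤ w r (n + (i : ℕ)) (k + (j : ℕ) + 1) ∧
      w r (n + (i : ℕ)) (k + (j : ℕ) + 1) ≤ V i j * w r n (k + (j : ℕ) + 1) *
        (1 + 2 * q) ^ (i : ℕ) := by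
    intro i j
    have h := left_iter hW hr n (k + (j : ℕ) + 1) (Nat.succ_pos _) (Q := (k : ℝ) + m) (q := q)
      (by rw [hcast]; exact hxjle j) hq0 hre hq2 (i : ℕ)
    rw [hcast] at h
    simpa only [hV, Matrix.of_apply] using h
  have hpw : ∀ i : Fin m, (1 + 2 * q) ^ (i : ℕ) ≤ 1 + (2 ^ m - 1) * (2 * q) := by
    intro i
    refine (left_pow (t := 2 * q) (by linarith) (by linarith) (i : ℕ)).trans ?_
    have h1 : (2 : ℝ) ^ (i : ℕ) ≤ 2 ^ m := pow_le_pow_right₀ (by norm_num) i.2.le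
    nlinarith
  have hBup : ∀ i j, B i j ≤ V i j * (1 + (2 ^ m - 1) * (2 * q)) := by
    intro i j
    have h1 : B i j = ar r (n + (i : ℕ)) (k + (j : ℕ)) / w r n (k + (j : ℕ) + 1) := by
      simp only [hB, Matrix.of_apply]
    rw [h1, div_le_iff₀ (hwp j)]
    calc ar r (n + (i : ℕ)) (k + (j : ℕ)) ≤ w r (n + (i : ℕ)) (k + (j : ℕ) + 1) :=
          left_a_le hr _ _
      _ ≤ V i j * w r n (k + (j : ℕ) + 1) * (1 + 2 * q) ^ (i : ℕ) := (hit i j).2
      _ ≤ V i j * w r n (k + (j : ℕ) + 1) * (1 + (2 ^ m - 1) * (2 * q)) :=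
          mul_le_mul_of_nonneg_left (hpw i) (mul_nonneg (hV0 i j) (hwp j).le)
      _ = _ := by ring
  have hBlo : ∀ i j, V i j * (1 - 2 * q) ≤ B i j := by
    intro i j
    have h1 : B i j = ar r (n + (i : ℕ)) (k + (j : ℕ)) / w r n (k + (j : ℕ) + 1) := by
      simp only [hB, Matrix.of_apply]
    rw [h1, le_div_iff₀ (hwp j)]
    have hqi : ((r : ℝ) * (((n + (i : ℕ) : ℕ) : ℝ) + 1) + 1) *
        Real.exp (-((((n + (i : ℕ) : ℕ) : ℝ) + 1) / ((k : ℝ) + m))) ≤ q := by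
      refine le_trans ?_ hq
      refine mul_le_mul ?_ (left_exp_le hkm0) (Real.exp_nonneg _) (by positivity)
      have hr0 : (0 : ℝ) ≤ r := Nat.cast_nonneg r
      have hi : ((i : ℕ) : ℝ) ≤ m := by exact_mod_cast i.2.le
      push_cast
      have h2 : (r : ℝ) * ((n : ℝ) + ((i : ℕ) : ℝ) + 1) ≤ (r : ℝ) * ((n : ℝ) + m + 1) :=
        mul_le_mul_of_nonneg_left (by linarith) hr0
      linarith
    have h3 := left_le_a hW hr (n + (i : ℕ)) (k + (j : ℕ)) (Q := (k : ℝ) + m) (q := q)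
      (by rw [hcast]; exact hxjle j) hqi hq2
    refine le_trans ?_ h3
    calc V i j * (1 - 2 * q) * w r n (k + (j : ℕ) + 1)
        = V i j * w r n (k + (j : ℕ) + 1) * (1 - 2 * q) := by ring
      _ ≤ _ := mul_le_mul_of_nonneg_right (hit i j).1 (by linarith)
  have hB0 : ∀ i j, 0 ≤ B i j := fun i j =>
    le_trans (mul_nonneg (hV0 i j) (by linarith)) (hBlo i j)
  have hBle : ∀ i j, B i j ≤ 2 ^ m * ((k : ℝ) + m) ^ m := by
    intro i j
    refine (hBup i j).trans ?_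
    have h1 : 1 + ((2 : ℝ) ^ m - 1) * (2 * q) ≤ 2 ^ m := by nlinarith
    calc V i j * (1 + (2 ^ m - 1) * (2 * q)) ≤ ((k : ℝ) + m) ^ m * 2 ^ m :=
          mul_le_mul (hVle i j) h1 (by nlinarith) (by positivity)
      _ = _ := by ring
  have hdiff : ∀ i j, |B i j - V i j| ≤ ((k : ℝ) + m) ^ m * 2 ^ m * (2 * q) := by
    intro i j
    have h1 := hBup i j
    have h2 := hBlo i j
    have h3 : V i j * ((2 ^ m - 1) * (2 * q)) ≤ ((k : ℝ) + m) ^ m * 2 ^ m * (2 * q) := by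
      calc V i j * ((2 ^ m - 1) * (2 * q)) ≤ ((k : ℝ) + m) ^ m * (2 ^ m * (2 * q)) := by
            refine mul_le_mul (hVle i j) ?_ (mul_nonneg (by linarith) (by linarith)) (by positivity)
            nlinarith
        _ = _ := by ring
    have h4 : V i j * (2 * q) ≤ ((k : ℝ) + m) ^ m * 2 ^ m * (2 * q) := by
      calc V i j * (2 * q) ≤ ((k : ℝ) + m) ^ m * (2 ^ m * (2 * q)) := by
            refine mul_le_mul (hVle i j) ?_ (by linarith) (by positivity)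
            nlinarith
        _ = _ := by ring
    rw [abs_le]
    constructor
    · have e1 : V i j * (1 - 2 * q) = V i j - V i j * (2 * q) := by ring
      rw [e1] at h2
      linarith
    · have e1 : V i j * (1 + (2 ^ m - 1) * (2 * q)) = V i j + V i j * ((2 ^ m - 1) * (2 * q)) := by
        ring
      rw [e1] at h1
      linarith
  have hmain := left_det B V (2 ^ m * ((k : ℝ) + m) ^ m) (((k : ℝ) + m) ^ m * 2 ^ m * (2 * q)) hR1
    (fun i j => by rw [abs_of_nonneg (hB0 i j)]; exact hBle i j)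
    (fun i j => by
      rw [abs_of_nonneg (hV0 i j)]
      refine (hVle i j).trans ?_
      nlinarith)
    hdiff
  have hv : 1 ≤ V.det := left_vdm m x
  have h1 : |B.det - V.det| < 1 := lt_of_le_of_lt hmain hlt
  have h2 := (abs_lt.mp h1).1
  linarith

/-- LEFT. -/
theorem left : WwSt → LeftSt := by
  intro hW r m hr
  rcases Nat.eq_zero_or_pos m with rfl | hm
  · exact ⟨1, one_pos, 0, fun n _ k _ => by simp [sol]⟩
  have hm' : (1 : ℝ) ≤ m := by exact_mod_cast hm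
  set p : ℕ := m * m + m + 2 with hp
  have hp2 : (2 : ℝ) ≤ p := by
    have : 2 ≤ p := by rw [hp]; omega
    exact_mod_cast this
  set c : ℝ := (r : ℝ) * (m + 2) + 1 with hc
  have hc0 : 0 < c := by positivity
  set X : ℝ := (m.factorial : ℝ) * (m * (2 ^ m) ^ m * (2 ^ m * (2 * c))) with hX
  have hX0 : 0 < X := by
    have : (0 : ℝ) < m.factorial := by exact_mod_cast Nat.factorial_pos m
    positivity
  obtain ⟨N1, hN1⟩ := exists_nat_gt (max X ((4 * p * m) ^ 2))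
  refine ⟨2 * p, by linarith, max N1 3, fun n hn k hk => ?_⟩
  have hnN : N1 ≤ n := (le_max_left _ _).trans hn
  have hn3 : 3 ≤ n := (le_max_right _ _).trans hn
  have hn3' : (3 : ℝ) ≤ n := by exact_mod_cast hn3
  have hn0 : (0 : ℝ) < n := by linarith
  have hnX : X < n := lt_of_lt_of_le (lt_of_le_of_lt (le_max_left _ _) hN1) (by exact_mod_cast hnN)
  have hn4 : ((4 : ℝ) * p * m) ^ 2 < n :=
    lt_of_lt_of_le (lt_of_le_of_lt (le_max_right _ _) hN1) (by exact_mod_cast hnN)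
  have hlog1 : 1 ≤ Real.log n := by
    have h1 : Real.exp 1 ≤ n := by
      have := Real.exp_one_lt_d9
      linarith
    have h2 := Real.log_le_log (Real.exp_pos 1) h1
    rwa [Real.log_exp] at h2
  have hlog0 : 0 < Real.log n := by linarith
  -- `m ≤ n / (2 p log n)`
  have hmle : (m : ℝ) ≤ n / (2 * p * Real.log n) := by
    rw [le_div_iff₀ (by positivity)]
    set y : ℝ := √(n : ℝ) with hy
    have hy0 : 0 < y := Real.sqrt_pos.mpr hn0
    have hyy : y * y = n := Real.mul_self_sqrt hn0.le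
    have h1 : Real.log n ≤ 2 * y := by
      have h2 : Real.log n = 2 * Real.log y := by
        rw [← hyy, Real.log_mul hy0.ne' hy0.ne']; ring
      have h3 := Real.log_le_sub_one_of_pos hy0
      rw [h2]; linarith
    have h4 : (4 : ℝ) * p * m ≤ y := by
      rw [hy]
      exact Real.le_sqrt_of_sq_le hn4.le
    calc (m : ℝ) * (2 * p * Real.log n) ≤ (m : ℝ) * (2 * p * (2 * y)) := by
          refine mul_le_mul_of_nonneg_left (mul_le_mul_of_nonneg_left h1 (by positivity)) ?_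
          linarith
      _ = (4 * p * m) * y := by ring
      _ ≤ y * y := mul_le_mul_of_nonneg_right h4 hy0.le
      _ = n := hyy
  have hkm : (k : ℝ) + m ≤ n / (p * Real.log n) := by
    have e : (n : ℝ) / (p * Real.log n) = n / (2 * p * Real.log n) + n / (2 * p * Real.log n) := by
      field_simp
      ring
    rw [e]
    exact add_le_add hk hmle
  have hk0 : (0 : ℝ) ≤ k := Nat.cast_nonneg k
  have hkm1 : (1 : ℝ) ≤ (k : ℝ) + m := by linarith
  have hkm0 : (0 : ℝ) < (k : ℝ) + m := by linarith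
  have hkm2 : ((k : ℝ) + m) * (p * Real.log n) ≤ n := by
    rwa [le_div_iff₀ (by positivity)] at hkm
  have hkmn : (k : ℝ) + m ≤ n := by
    have h1 : 1 ≤ (p : ℝ) * Real.log n := by nlinarith
    calc (k : ℝ) + m = ((k : ℝ) + m) * 1 := (mul_one _).symm
      _ ≤ ((k : ℝ) + m) * (p * Real.log n) := mul_le_mul_of_nonneg_left h1 hkm0.le
      _ ≤ n := hkm2
  have hexp : Real.exp (-(((n : ℝ) + 1) / ((k : ℝ) + m))) ≤ ((n : ℝ) ^ p)⁻¹ := by
    have e : ((n : ℝ) ^ p)⁻¹ = Real.exp (-((p : ℝ) * Real.log n)) := by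
      rw [Real.exp_neg, mul_comm, Real.exp_mul, Real.exp_log hn0, Real.rpow_natCast]
    rw [e]
    apply Real.exp_le_exp.mpr
    apply neg_le_neg
    rw [le_div_iff₀ hkm0]
    linarith
  have hfac : (r : ℝ) * ((n : ℝ) + m + 1) + 1 ≤ c * n := by
    have hr0 : (0 : ℝ) ≤ r := Nat.cast_nonneg r
    have h1 : (n : ℝ) + m + 1 ≤ (m + 2) * n := by nlinarith
    have h2 := mul_le_mul_of_nonneg_left h1 hr0
    rw [hc]
    calc (r : ℝ) * ((n : ℝ) + m + 1) + 1 ≤ (r : ℝ) * ((m + 2) * n) + n := by linarith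
      _ = _ := by ring
  refine left_key hW hr hm (q := c * n * ((n : ℝ) ^ p)⁻¹) ?_ ?_
  · exact mul_le_mul hfac hexp (Real.exp_nonneg _) (by positivity)
  have hpw : (2 ^ m * ((k : ℝ) + m) ^ m) ^ m ≤ (2 ^ m * (n : ℝ) ^ m) ^ m := by
    refine pow_le_pow_left₀ (by positivity) (mul_le_mul_of_nonneg_left ?_ (by positivity)) m
    exact pow_le_pow_left₀ hkm0.le hkmn m
  have hpw2 : ((k : ℝ) + m) ^ m * 2 ^ m * (2 * (c * n * ((n : ℝ) ^ p)⁻¹)) ≤
      (n : ℝ) ^ m * 2 ^ m * (2 * (c * n * ((n : ℝ) ^ p)⁻¹)) := by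
    refine mul_le_mul_of_nonneg_right (mul_le_mul_of_nonneg_right ?_ (by positivity)) (by positivity)
    exact pow_le_pow_left₀ hkm0.le hkmn m
  have hfin : (m.factorial : ℝ) * (m * (2 ^ m * (n : ℝ) ^ m) ^ m *
      ((n : ℝ) ^ m * 2 ^ m * (2 * (c * n * ((n : ℝ) ^ p)⁻¹)))) = X / n := by
    rw [hX, hp]
    field_simp
    ring
  calc (m.factorial : ℝ) * (m * (2 ^ m * ((k : ℝ) + m) ^ m) ^ m *
        (((k : ℝ) + m) ^ m * 2 ^ m * (2 * (c * n * ((n : ℝ) ^ p)⁻¹))))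
      ≤ (m.factorial : ℝ) * (m * (2 ^ m * (n : ℝ) ^ m) ^ m *
        ((n : ℝ) ^ m * 2 ^ m * (2 * (c * n * ((n : ℝ) ^ p)⁻¹)))) := by
        refine mul_le_mul_of_nonneg_left ?_ (Nat.cast_nonneg _)
        refine mul_le_mul (mul_le_mul_of_nonneg_left hpw (by linarith)) hpw2 (by positivity)
          (by positivity)
    _ = X / n := hfin
    _ < 1 := by rwa [div_lt_one hn0]

end Pool.Agent.H37.ATR
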