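import Pool.Agent.H37.ATR.Spec

/-!
# MOM and ABS: the centered characteristic function near zero and its Gaussian moments
-/

set_option autoImplicit false

open MeasureTheory Filter Complex Polynomial
open scoped Topology Real

namespace Pool.Agent.H37.ATR

open Pool.Agent.H73.TP

/-! ### Taylor bounds -/

private lemma mom_step (g g' : ℝ → ℂ) (B b : ℝ → ℝ) (hg : ∀ x, HasDerivAt g (g' x) x)
    (hB : ∀ x, HasDerivAt B (b x) x) (h0 : ‖g 0‖ ≤ B 0) (hb : ∀ x, 0 ≤ x → ‖g' x‖ ≤ b x)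
    (x : ℝ) (hx : 0 ≤ x) : ‖g x‖ ≤ B x := by
  have h := image_norm_le_of_norm_deriv_right_le_deriv_boundary (f := g) (f' := g') (a := 0)
    (b := x) (fun y _ => (hg y).continuousAt.continuousWithinAt)
    (fun y _ => (hg y).hasDerivWithinAt) h0 hB (fun y hy => hb y hy.1)
  exact h ⟨hx, le_refl x⟩

private lemma mom_step2 (g g' : ℝ → ℂ) (B b : ℝ → ℝ) (hg : ∀ x, HasDerivAt g (g' x) x)
    (hB : ∀ x, HasDerivAt B (b x) x) (h0 : ‖g 0‖ ≤ B 0) (hb : ∀ x, ‖g' x‖ ≤ b |x|)
    (x : ℝ) : ‖g x‖ ≤ B |x| := by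
  rcases le_total 0 x with hx | hx
  · rw [abs_of_nonneg hx]
    refine mom_step g g' B b hg hB h0 (fun y hy => ?_) x hx
    have := hb y
    rwa [abs_of_nonneg hy] at this
  · have h := mom_step (fun y => g (-y)) (fun y => -g' (-y)) B b ?_ hB (by simpa using h0) ?_
      (-x) (by linarith)
    · rw [abs_of_nonpos hx]
      simpa using h
    · intro y
      have h1 := (hg (-y)).scomp y (hasDerivAt_neg y)
      simpa [Function.comp_def] using h1
    · intro y hy
      have := hb (-y)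
      rw [abs_neg, abs_of_nonneg hy] at this
      rwa [norm_neg]

private lemma mom_tay1 (x : ℝ) : ‖cexp (-(I * x)) - 1‖ ≤ |x| := by
  have h := Real.norm_exp_I_mul_ofReal_sub_one_le (x := -x)
  simpa using h

private lemma mom_dexp (x : ℝ) :
    HasDerivAt (fun x : ℝ => cexp (-(I * x))) (-I * cexp (-(I * x))) x := by
  have h1 : HasDerivAt (fun z : ℂ => cexp (-(I * z))) (cexp (-(I * x)) * (-(I * 1))) (x : ℂ) :=
    (((hasDerivAt_id (x : ℂ)).const_mul I).neg).cexp
  have h2 := h1.comp_ofReal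
  convert h2 using 1
  ring

private lemma mom_tay2 (x : ℝ) : ‖cexp (-(I * x)) - 1 + I * x‖ ≤ |x| ^ 2 / 2 := by
  have h := mom_step2 (fun x : ℝ => cexp (-(I * x)) - 1 + I * x)
    (fun x : ℝ => -I * cexp (-(I * x)) + I * 1) (fun x => x ^ 2 / 2) (fun x => x) ?_ ?_ ?_ ?_ x
  · exact h
  · intro y
    have h1 := (mom_dexp y).sub_const 1
    have h2 : HasDerivAt (fun x : ℝ => I * (x : ℂ)) (I * 1) y :=
      (ofRealCLM.hasDerivAt (x := y)).const_mul I
    exact h1.add h2
  · intro y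
    have h1 := (hasDerivAt_pow 2 y).div_const 2
    exact h1.congr_deriv (by simp)
  · simp
  · intro y
    have h1 : -I * cexp (-(I * y)) + I * 1 = -I * (cexp (-(I * y)) - 1) := by ring
    rw [h1, norm_mul, norm_neg, norm_I, one_mul]
    exact mom_tay1 y

private lemma mom_tay3 (x : ℝ) :
    ‖cexp (-(I * x)) - 1 + I * x + (x : ℂ) ^ 2 / 2‖ ≤ |x| ^ 3 / 6 := by
  have h := mom_step2 (fun x : ℝ => cexp (-(I * x)) - 1 + I * x + (x : ℂ) ^ 2 / 2)
    (fun x : ℝ => -I * cexp (-(I * x)) + I * 1 + (x : ℂ)) (fun x => x ^ 3 / 6)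
    (fun x => x ^ 2 / 2) ?_ ?_ ?_ ?_ x
  · exact h
  · intro y
    have h1 := (mom_dexp y).sub_const 1
    have h2 : HasDerivAt (fun x : ℝ => I * (x : ℂ)) (I * 1) y :=
      (ofRealCLM.hasDerivAt (x := y)).const_mul I
    have h3 : HasDerivAt (fun x : ℝ => (x : ℂ) ^ 2 / 2) (y : ℂ) y := by
      have h4 : HasDerivAt (fun z : ℂ => z ^ 2 / 2) (((2 : ℕ) : ℂ) * (y : ℂ) ^ (2 - 1) / 2) (y : ℂ) :=
        (hasDerivAt_pow 2 (y : ℂ)).div_const 2
      have h5 := h4.comp_ofReal
      convert h5 using 1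
      simp
    exact (h1.add h2).add h3
  · intro y
    have h1 := (hasDerivAt_pow 3 y).div_const 6
    refine h1.congr_deriv ?_
    push_cast
    ring
  · simp
  · intro y
    have h1 : -I * cexp (-(I * y)) + I * 1 + (y : ℂ) =
        -I * (cexp (-(I * y)) - 1 + I * y) := by
      linear_combination (y : ℂ) * I_sq
    rw [h1, norm_mul, norm_neg, norm_I, one_mul]
    exact mom_tay2 y

/-! ### One factor -/

/-- The characteristic function of a centered Bernoulli variable. -/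
private noncomputable def momfa (p y : ℝ) : ℂ :=
  cexp (-(I * ((p * y : ℝ) : ℂ))) * (1 - p + p * cexp (I * y))

private theorem momfa_norm_eq (p y : ℝ) :
    ‖momfa p y‖ ^ 2 = 1 - 2 * (p * (1 - p) * (1 - Real.cos y)) := by
  have h1 : ‖cexp (-(I * ((p * y : ℝ) : ℂ)))‖ = 1 := by
    have : -(I * ((p * y : ℝ) : ℂ)) = ((-(p * y) : ℝ) : ℂ) * I := by push_cast; ring
    rw [this, norm_exp_ofReal_mul_I]
  have h2 : (1 - p + p * cexp (I * y) : ℂ) =
      ((1 - p + p * Real.cos y : ℝ) : ℂ) + ((p * Real.sin y : ℝ) : ℂ) * I := by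
    rw [mul_comm I (y : ℂ), exp_mul_I, ← ofReal_cos, ← ofReal_sin]
    push_cast
    ring
  rw [momfa, norm_mul, h1, one_mul, h2, ← normSq_eq_norm_sq, normSq_add_mul_I]
  have h3 := Real.sin_sq_add_cos_sq y
  linear_combination p ^ 2 * h3

private theorem momfa_norm (p y : ℝ) :
    ‖momfa p y‖ ≤ Real.exp (-(p * (1 - p) * (1 - Real.cos y))) := by
  have h := momfa_norm_eq p y
  have h1 : ‖momfa p y‖ ^ 2 ≤ Real.exp (-(p * (1 - p) * (1 - Real.cos y))) ^ 2 := by
    rw [← Real.exp_nat_mul, h]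
    have h2 := Real.add_one_le_exp (((2 : ℕ) : ℝ) * -(p * (1 - p) * (1 - Real.cos y)))
    refine le_trans (le_of_eq ?_) h2
    push_cast
    ring
  exact le_of_sq_le_sq h1 (Real.exp_pos _).le

private theorem momfa_norm_one (p y : ℝ) (hp0 : 0 ≤ p) (hp1 : p ≤ 1) : ‖momfa p y‖ ≤ 1 := by
  refine (momfa_norm p y).trans ?_
  rw [Real.exp_le_one_iff]
  have h1 : 0 ≤ 1 - Real.cos y := by linarith [Real.cos_le_one y]
  have h2 : 0 ≤ 1 - p := by linarith
  have : 0 ≤ p * (1 - p) * (1 - Real.cos y) := by positivity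
  linarith

private theorem momfa_sub (p y : ℝ) (hp0 : 0 ≤ p) (hp1 : p ≤ 1) (hy : |y| ≤ 1) :
    ‖momfa p y - (Real.exp (-(p * (1 - p) * y ^ 2 / 2)) : ℂ)‖ ≤ p * (1 - p) * |y| ^ 3 := by
  have hq0 : 0 ≤ p * (1 - p) := mul_nonneg hp0 (by linarith)
  have hq1 : p * (1 - p) ≤ 1 / 4 := by nlinarith [sq_nonneg (p - 1 / 2)]
  have hy0 := abs_nonneg y
  have hy2 : y ^ 2 ≤ 1 := by
    rw [← sq_abs]
    exact pow_le_one₀ hy0 hy
  have e : momfa p y = (1 - p) * cexp (-(I * ((p * y : ℝ) : ℂ))) +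
      p * cexp (-(I * ((-((1 - p) * y) : ℝ) : ℂ))) := by
    have e1 : cexp (-(I * ((-((1 - p) * y) : ℝ) : ℂ))) =
        cexp (-(I * ((p * y : ℝ) : ℂ))) * cexp (I * y) := by
      rw [← Complex.exp_add]
      congr 1
      push_cast
      ring
    rw [momfa, e1]
    ring
  have h1 := mom_tay3 (p * y)
  have h2 := mom_tay3 (-((1 - p) * y))
  have h3 : ‖momfa p y - ((1 - p * (1 - p) * y ^ 2 / 2 : ℝ) : ℂ)‖ ≤
      p * (1 - p) * |y| ^ 3 / 6 := by
    have e2 : momfa p y - ((1 - p * (1 - p) * y ^ 2 / 2 : ℝ) : ℂ) =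
        ((1 - p : ℝ) : ℂ) * (cexp (-(I * ((p * y : ℝ) : ℂ))) - 1 + I * ((p * y : ℝ) : ℂ)
          + ((p * y : ℝ) : ℂ) ^ 2 / 2) +
        (p : ℂ) * (cexp (-(I * ((-((1 - p) * y) : ℝ) : ℂ))) - 1
          + I * ((-((1 - p) * y) : ℝ) : ℂ) + ((-((1 - p) * y) : ℝ) : ℂ) ^ 2 / 2) := by
      rw [e]
      push_cast
      ring
    rw [e2]
    refine (norm_add_le _ _).trans ?_
    rw [norm_mul, norm_mul, norm_real, norm_real, Real.norm_of_nonneg hp0,
      Real.norm_of_nonneg (by linarith : (0 : ℝ) ≤ 1 - p)]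
    rw [abs_mul, abs_of_nonneg hp0] at h1
    rw [abs_neg, abs_mul, abs_of_nonneg (by linarith : (0 : ℝ) ≤ 1 - p)] at h2
    have h4 := mul_le_mul_of_nonneg_left h1 (by linarith : (0 : ℝ) ≤ 1 - p)
    have h5 := mul_le_mul_of_nonneg_left h2 hp0
    have h6 : (1 - p) * ((p * |y|) ^ 3 / 6) + p * (((1 - p) * |y|) ^ 3 / 6) =
        p * (1 - p) * |y| ^ 3 / 6 * (1 - 2 * (p * (1 - p))) := by ring
    have h7 : p * (1 - p) * |y| ^ 3 / 6 * (1 - 2 * (p * (1 - p))) ≤
        p * (1 - p) * |y| ^ 3 / 6 * 1 := by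
      refine mul_le_mul_of_nonneg_left (by linarith) ?_
      positivity
    linarith
  have h4 : ‖((1 - p * (1 - p) * y ^ 2 / 2 : ℝ) : ℂ) -
      (Real.exp (-(p * (1 - p) * y ^ 2 / 2)) : ℂ)‖ ≤ p * (1 - p) * |y| ^ 3 / 16 := by
    rw [← ofReal_sub, norm_real, Real.norm_eq_abs]
    set u := p * (1 - p) * y ^ 2 / 2 with hu
    have hu0 : 0 ≤ u := by positivity
    have hu1 : u ≤ 1 := by nlinarith
    have h5 := Real.abs_exp_sub_one_sub_id_le (x := -u) (by rw [abs_neg, abs_of_nonneg hu0]; exact hu1)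
    have h6 : |1 - u - Real.exp (-u)| = |Real.exp (-u) - 1 - -u| := by
      rw [← abs_neg]
      congr 1
      ring
    rw [h6]
    refine h5.trans ?_
    have h7 : (-u) ^ 2 = (p * (1 - p) * |y| ^ 3) * (p * (1 - p) * |y| / 4) := by
      rw [hu]
      have : y ^ 2 = |y| ^ 2 := (sq_abs y).symm
      rw [this]
      ring
    rw [h7]
    have h8 : p * (1 - p) * |y| / 4 ≤ 1 / 16 := by nlinarith
    have h9 : 0 ≤ p * (1 - p) * |y| ^ 3 := by positivity
    nlinarith
  have h5 : momfa p y - (Real.exp (-(p * (1 - p) * y ^ 2 / 2)) : ℂ) =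
      (momfa p y - ((1 - p * (1 - p) * y ^ 2 / 2 : ℝ) : ℂ)) +
      (((1 - p * (1 - p) * y ^ 2 / 2 : ℝ) : ℂ) - (Real.exp (-(p * (1 - p) * y ^ 2 / 2)) : ℂ)) := by
    ring
  rw [h5]
  refine (norm_add_le _ _).trans ?_
  have h9 : 0 ≤ p * (1 - p) * |y| ^ 3 := by positivity
  linarith

/-! ### The product -/

private theorem mom_pp (r n : ℕ) (x : ℝ) (hx : 0 < x) (i : Fin n) :
    0 < pp r n x i ∧ pp r n x i < 1 := by
  have h := mul_pos (yy_pos r n i) hx
  unfold pp
  constructor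
  · positivity
  · rw [div_lt_one (by linarith)]
    linarith

/-- The complex row polynomial as a product. -/
theorem mom_fc (r n : ℕ) (z : ℂ) (hr : 1 ≤ r) : fc r n z = ∏ i, (1 + (yy r n i : ℂ) * z) := by
  unfold fc
  rw [yy_prod hr n, pr, map_prod]
  refine Finset.prod_congr rfl fun i _ => ?_
  simp

/-- The real row polynomial as a product. -/
theorem mom_fr (r n : ℕ) (x : ℝ) (hr : 1 ≤ r) : fr r n x = ∏ i, (1 + yy r n i * x) := by
  unfold fr
  rw [yy_prod hr n, pr, eval_prod]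
  refine Finset.prod_congr rfl fun i _ => ?_
  simp

private theorem mom_A_prod (r n : ℕ) (x y : ℝ) (hr : 1 ≤ r) (hx : 0 < x) :
    A r n x y = ∏ i, momfa (pp r n x i) y := by
  have h1 : cexp (-(I * L r n x * y)) = ∏ i, cexp (-(I * ((pp r n x i * y : ℝ) : ℂ))) := by
    rw [← Complex.exp_sum]
    congr 1
    rw [Finset.sum_neg_distrib, ← Finset.mul_sum, L]
    push_cast
    rw [← Finset.sum_mul]
    ring
  rw [A, h1, mom_fc r n _ hr, mom_fr r n x hr, ofReal_prod, ← Finset.prod_mul_distrib,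
    ← Finset.prod_div_distrib]
  refine Finset.prod_congr rfl fun i _ => ?_
  have h2 : (0 : ℝ) < 1 + yy r n i * x := by
    have := mul_pos (yy_pos r n i) hx
    linarith
  have h3 : (1 + (yy r n i : ℂ) * x) ≠ 0 := by exact_mod_cast h2.ne'
  rw [momfa, mul_div_assoc]
  congr 1
  rw [pp]
  push_cast
  field_simp
  ring

theorem mom_V_nonneg (r n : ℕ) (x : ℝ) (hx : 0 < x) : 0 ≤ V r n x := by
  unfold V
  refine Finset.sum_nonneg fun i _ => ?_
  obtain ⟨h1, h2⟩ := mom_pp r n x hx i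
  exact mul_nonneg h1.le (by linarith)

/-- Bound of the centered characteristic function. -/
theorem A_norm_le (r n : ℕ) (x y : ℝ) (hr : 1 ≤ r) (hx : 0 < x) :
    ‖A r n x y‖ ≤ Real.exp (-(V r n x * (1 - Real.cos y))) := by
  rw [mom_A_prod r n x y hr hx, norm_prod]
  have h : Real.exp (-(V r n x * (1 - Real.cos y))) =
      ∏ i, Real.exp (-(pp r n x i * (1 - pp r n x i) * (1 - Real.cos y))) := by
    rw [← Real.exp_sum, V, Finset.sum_mul, ← Finset.sum_neg_distrib]
  rw [h]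
  exact Finset.prod_le_prod (fun i _ => norm_nonneg _) (fun i _ => momfa_norm _ _)

/-- The same bound for the row polynomial. -/
theorem fc_norm_le (r n : ℕ) (x y : ℝ) (hr : 1 ≤ r) (hx : 0 < x) :
    ‖fc r n (x * cexp (I * y))‖ ≤ fr r n x * Real.exp (-(V r n x * (1 - Real.cos y))) := by
  have hf : 0 < fr r n x := by
    rw [mom_fr r n x hr]
    refine Finset.prod_pos fun i _ => ?_
    have := mul_pos (yy_pos r n i) hx
    linarith
  have h := A_norm_le r n x y hr hx
  have h1 : ‖cexp (-(I * L r n x * y))‖ = 1 := by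
    have : -(I * (L r n x : ℂ) * (y : ℂ)) = ((-(L r n x * y) : ℝ) : ℂ) * I := by push_cast; ring
    rw [this, norm_exp_ofReal_mul_I]
  rw [A, norm_div, norm_mul, h1, one_mul, norm_real, Real.norm_of_nonneg hf.le,
    div_le_iff₀ hf] at h
  linarith

theorem A_norm_le_one (r n : ℕ) (x y : ℝ) (hr : 1 ≤ r) (hx : 0 < x) : ‖A r n x y‖ ≤ 1 := by
  refine (A_norm_le r n x y hr hx).trans ?_
  rw [Real.exp_le_one_iff]
  have h1 : 0 ≤ 1 - Real.cos y := by linarith [Real.cos_le_one y]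
  have h2 := mom_V_nonneg r n x hx
  have : 0 ≤ V r n x * (1 - Real.cos y) := by positivity
  linarith

/-- Gaussian form of the bound. -/
theorem A_norm_le_sq (r n : ℕ) (x y : ℝ) (hr : 1 ≤ r) (hx : 0 < x) (hy : |y| ≤ π) :
    ‖A r n x y‖ ≤ Real.exp (-(2 / π ^ 2 * (V r n x * y ^ 2))) := by
  refine (A_norm_le r n x y hr hx).trans ?_
  apply Real.exp_le_exp.2
  have h1 := Real.cos_le_one_sub_mul_cos_sq hy
  have h2 := mom_V_nonneg r n x hx
  have h3 : V r n x * (2 / π ^ 2 * y ^ 2) ≤ V r n x * (1 - Real.cos y) :=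
    mul_le_mul_of_nonneg_left (by linarith) h2
  have h4 : 2 / π ^ 2 * (V r n x * y ^ 2) = V r n x * (2 / π ^ 2 * y ^ 2) := by ring
  rw [h4]
  linarith

private theorem mom_prod_sub {ι : Type*} (s : Finset ι) (a b : ι → ℂ) (ha : ∀ i, ‖a i‖ ≤ 1)
    (hb : ∀ i, ‖b i‖ ≤ 1) : ‖∏ i ∈ s, a i - ∏ i ∈ s, b i‖ ≤ ∑ i ∈ s, ‖a i - b i‖ := by
  classical
  induction s using Finset.induction_on with
  | empty => simp
  | insert i s hi ih =>
    rw [Finset.prod_insert hi, Finset.prod_insert hi, Finset.sum_insert hi]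
    have h : a i * ∏ j ∈ s, a j - b i * ∏ j ∈ s, b j =
        (a i - b i) * ∏ j ∈ s, a j + b i * (∏ j ∈ s, a j - ∏ j ∈ s, b j) := by ring
    have h1 : ‖∏ j ∈ s, a j‖ ≤ 1 := by
      rw [norm_prod]
      exact Finset.prod_le_one (fun _ _ => norm_nonneg _) (fun j _ => ha j)
    rw [h]
    refine (norm_add_le _ _).trans ?_
    rw [norm_mul, norm_mul]
    have h2 : ‖a i - b i‖ * ‖∏ j ∈ s, a j‖ ≤ ‖a i - b i‖ * 1 :=
      mul_le_mul_of_nonneg_left h1 (norm_nonneg _)
    have h3 : ‖b i‖ * ‖∏ j ∈ s, a j - ∏ j ∈ s, b j‖ ≤ 1 * ∑ j ∈ s, ‖a j - b j‖ :=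
      mul_le_mul (hb i) ih (norm_nonneg _) zero_le_one
    linarith

private theorem mom_A_sub (r n : ℕ) (x y : ℝ) (hr : 1 ≤ r) (hx : 0 < x) (hy : |y| ≤ 1) :
    ‖A r n x y - (Real.exp (-(V r n x * y ^ 2 / 2)) : ℂ)‖ ≤ V r n x * |y| ^ 3 := by
  have h : (Real.exp (-(V r n x * y ^ 2 / 2)) : ℂ) =
      ∏ i, (Real.exp (-(pp r n x i * (1 - pp r n x i) * y ^ 2 / 2)) : ℂ) := by
    rw [← ofReal_prod, ← Real.exp_sum]
    congr 2
    rw [V, Finset.sum_neg_distrib, ← Finset.sum_div, ← Finset.sum_mul]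
  rw [h, mom_A_prod r n x y hr hx]
  refine (mom_prod_sub Finset.univ _ _
    (fun i => momfa_norm_one _ y (mom_pp r n x hx i).1.le (mom_pp r n x hx i).2.le)
    (fun i => ?_)).trans ?_
  · rw [norm_real, Real.norm_of_nonneg (Real.exp_pos _).le, Real.exp_le_one_iff]
    obtain ⟨h1, h2⟩ := mom_pp r n x hx i
    have : 0 ≤ pp r n x i * (1 - pp r n x i) := mul_nonneg h1.le (by linarith)
    have : 0 ≤ pp r n x i * (1 - pp r n x i) * y ^ 2 := mul_nonneg this (sq_nonneg _)
    linarith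
  · rw [V, Finset.sum_mul]
    exact Finset.sum_le_sum fun i _ =>
      momfa_sub _ y (mom_pp r n x hx i).1.le (mom_pp r n x hx i).2.le hy

theorem mom_A_cont (r n : ℕ) (x : ℝ) (hr : 1 ≤ r) (hx : 0 < x) :
    Continuous (fun y : ℝ => A r n x y) := by
  have h : (fun y : ℝ => A r n x y) = fun y : ℝ => ∏ i, momfa (pp r n x i) y :=
    funext fun y => mom_A_prod r n x y hr hx
  rw [h]
  unfold momfa
  fun_prop

private theorem mom_gauss_int (c : ℝ) (hc : 0 < c) (n : ℕ) :
    Integrable (fun v : ℝ => |v| ^ n * Real.exp (-c * v ^ 2)) := by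
  have h1 := (integrable_rpow_mul_exp_neg_mul_sq (b := c) hc (s := n)
    (by have : (0 : ℝ) ≤ n := n.cast_nonneg
        linarith)).norm
  refine h1.congr (Eventually.of_forall fun v => ?_)
  simp only [Real.rpow_natCast, norm_mul, norm_pow, Real.norm_eq_abs, Real.abs_exp]

/-- ABS. -/
theorem absS : AbsSt := by
  intro p
  have hc : (0 : ℝ) < 2 / π ^ 2 := by positivity
  have hint := mom_gauss_int (2 / π ^ 2) hc p
  have hnn : ∀ v : ℝ, 0 ≤ |v| ^ p * Real.exp (-(2 / π ^ 2) * v ^ 2) := fun v => by positivity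
  refine ⟨(∫ v : ℝ, |v| ^ p * Real.exp (-(2 / π ^ 2) * v ^ 2)) + 1, ?_, ?_⟩
  · have := integral_nonneg (μ := volume) (f := fun v : ℝ => |v| ^ p * Real.exp (-(2 / π ^ 2) * v ^ 2)) hnn
    linarith
  intro r n x hr hx hV
  refine ⟨mom_A_cont r n x hr hx, fun y => A_norm_le_one r n x y hr hx, ?_⟩
  set t := √(V r n x) with ht
  have ht0 : 0 < t := Real.sqrt_pos.2 hV
  have ht2 : t ^ 2 = V r n x := Real.sq_sqrt hV.le
  have hcont := mom_A_cont r n x hr hx
  have h1 : t ^ (p + 1) * ∫ y in (-(1 / 8) : ℝ)..(1 / 8), ‖A r n x y‖ * |y| ^ p =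
      ∫ v in (-(1 / 8) * t : ℝ)..(1 / 8 * t), ‖A r n x (v / t)‖ * |v| ^ p := by
    have h2 := intervalIntegral.integral_comp_div (a := -(1 / 8) * t) (b := 1 / 8 * t)
      (fun y : ℝ => ‖A r n x y‖ * |y| ^ p) ht0.ne'
    rw [mul_div_cancel_right₀ _ ht0.ne', mul_div_cancel_right₀ _ ht0.ne', smul_eq_mul] at h2
    rw [pow_succ, mul_assoc, ← h2, ← intervalIntegral.integral_const_mul]
    refine intervalIntegral.integral_congr fun v _ => ?_
    show t ^ p * (‖A r n x (v / t)‖ * |v / t| ^ p) = ‖A r n x (v / t)‖ * |v| ^ p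
    rw [abs_div, abs_of_pos ht0, div_pow]
    field_simp
  rw [h1]
  have hle : -(1 / 8) * t ≤ 1 / 8 * t := by nlinarith
  have h3 : ∫ v in (-(1 / 8) * t : ℝ)..(1 / 8 * t), ‖A r n x (v / t)‖ * |v| ^ p ≤
      ∫ v in (-(1 / 8) * t : ℝ)..(1 / 8 * t), |v| ^ p * Real.exp (-(2 / π ^ 2) * v ^ 2) := by
    refine intervalIntegral.integral_mono_on hle
      (Continuous.intervalIntegrable ?_ _ _) (Continuous.intervalIntegrable (by fun_prop) _ _) ?_
    · have : Continuous fun v : ℝ => A r n x (v / t) := hcont.comp (continuous_id.div_const t)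
      exact this.norm.mul (by fun_prop)
    · intro v hv
      have hvt : |v / t| ≤ 1 / 8 := by
        rw [abs_div, abs_of_pos ht0, div_le_iff₀ ht0, abs_le]
        constructor
        · linarith [hv.1]
        · exact hv.2
      have h4 := A_norm_le_sq r n x (v / t) hr hx (by linarith [Real.pi_gt_three])
      have h5 : 2 / π ^ 2 * (V r n x * (v / t) ^ 2) = 2 / π ^ 2 * v ^ 2 := by
        rw [← ht2, div_pow]
        field_simp
      rw [h5] at h4
      rw [mul_comm]
      refine mul_le_mul_of_nonneg_left ?_ (by positivity)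
      rw [neg_mul]
      exact h4
  have h6 : ∫ v in (-(1 / 8) * t : ℝ)..(1 / 8 * t), |v| ^ p * Real.exp (-(2 / π ^ 2) * v ^ 2) ≤
      ∫ v : ℝ, |v| ^ p * Real.exp (-(2 / π ^ 2) * v ^ 2) := by
    rw [intervalIntegral.integral_of_le hle]
    exact setIntegral_le_integral hint (Eventually.of_forall hnn)
  linarith

/-! ### The limit -/

/-- The rescaled integrand. -/
private noncomputable def momlf (r n : ℕ) (x : ℝ) (p j : ℕ) (t v : ℝ) : ℂ :=
  A r n x (v / t) * ((t : ℂ) * (cexp (I * (v / t : ℝ)) - 1)) ^ p *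
    ((t : ℂ) * (cexp (-(I * (v / t : ℝ))) - 1)) ^ j

private theorem mom_scale (r n : ℕ) (x : ℝ) (p j : ℕ) (t : ℝ) (ht : 0 < t) :
    ((t ^ (p + j + 1) : ℝ) : ℂ) * ∫ y in (-(1 / 8) : ℝ)..(1 / 8), A r n x y *
      (cexp (I * y) - 1) ^ p * (cexp (-(I * y)) - 1) ^ j =
    ∫ v : ℝ, (Set.Ioc (-(1 / 8) * t) (1 / 8 * t)).indicator (momlf r n x p j t) v := by
  have h1 : ∀ v : ℝ, momlf r n x p j t v = ((t ^ (p + j) : ℝ) : ℂ) *
      ((fun y : ℝ => A r n x y * (cexp (I * y) - 1) ^ p * (cexp (-(I * y)) - 1) ^ j) (v / t)) := by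
    intro v
    simp only [momlf]
    rw [mul_pow (t : ℂ), mul_pow (t : ℂ)]
    push_cast
    ring
  have h2 := intervalIntegral.integral_comp_div (a := -(1 / 8) * t) (b := 1 / 8 * t)
    (fun y : ℝ => A r n x y * (cexp (I * y) - 1) ^ p * (cexp (-(I * y)) - 1) ^ j) ht.ne'
  rw [mul_div_cancel_right₀ _ ht.ne', mul_div_cancel_right₀ _ ht.ne', real_smul] at h2
  have hle : -(1 / 8) * t ≤ 1 / 8 * t := by nlinarith
  rw [integral_indicator measurableSet_Ioc, ← intervalIntegral.integral_of_le hle]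
  simp_rw [h1]
  rw [intervalIntegral.integral_const_mul, h2]
  push_cast
  ring

private theorem mom_norm_lf (r n : ℕ) (x : ℝ) (p j : ℕ) (t v : ℝ) (ht : 0 < t) :
    ‖momlf r n x p j t v‖ ≤ ‖A r n x (v / t)‖ * |v| ^ (p + j) := by
  have h1 : ‖(t : ℂ) * (cexp (I * (v / t : ℝ)) - 1)‖ ≤ |v| := by
    rw [norm_mul, norm_real, Real.norm_eq_abs, abs_of_pos ht]
    calc t * ‖cexp (I * (v / t : ℝ)) - 1‖ ≤ t * |v / t| := by
          gcongr
          exact Real.norm_exp_I_mul_ofReal_sub_one_le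
      _ = |v| := by
          rw [abs_div, abs_of_pos ht]
          field_simp
  have h2 : ‖(t : ℂ) * (cexp (-(I * (v / t : ℝ))) - 1)‖ ≤ |v| := by
    rw [norm_mul, norm_real, Real.norm_eq_abs, abs_of_pos ht]
    calc t * ‖cexp (-(I * (v / t : ℝ))) - 1‖ ≤ t * |v / t| := by
          gcongr
          exact mom_tay1 _
      _ = |v| := by
          rw [abs_div, abs_of_pos ht]
          field_simp
  unfold momlf
  rw [norm_mul, norm_mul, norm_pow, norm_pow, pow_add, ← mul_assoc]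
  gcongr

private theorem mom_point (r : ℕ) (hr : 1 ≤ r) (n : ℕ → ℕ) (x : ℕ → ℝ) (hx : ∀ l, 0 < x l)
    (t : ℕ → ℝ) (hT : Tendsto t atTop atTop) (hsq : ∀ l, t l ^ 2 = V r (n l) (x l))
    (p j : ℕ) (v : ℝ) :
    Tendsto (fun l => momlf r (n l) (x l) p j (t l) v) atTop
      (𝓝 (cexp (-(v ^ 2 / 2)) * (I * v) ^ p * (-(I * v)) ^ j)) := by
  have hinv : Tendsto (fun l => (t l)⁻¹) atTop (𝓝 0) := tendsto_inv_atTop_zero.comp hT
  have hpos : ∀ᶠ l in atTop, 0 < t l := hT.eventually_gt_atTop 0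
  have h1 : Tendsto (fun l => A r (n l) (x l) (v / t l)) atTop (𝓝 (cexp (-(v ^ 2 / 2)))) := by
    have hd : Tendsto (fun l => A r (n l) (x l) (v / t l) - cexp (-(v ^ 2 / 2))) atTop (𝓝 0) := by
      have hz : Tendsto (fun l => |v| ^ 3 * (t l)⁻¹) atTop (𝓝 0) := by
        simpa using hinv.const_mul (|v| ^ 3)
      refine squeeze_zero_norm' ?_ hz
      filter_upwards [hpos, hT.eventually_ge_atTop |v|] with l hl hl2
      have hy : |v / t l| ≤ 1 := by
        rw [abs_div, abs_of_pos hl, div_le_one hl]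
        exact hl2
      have h3 := mom_A_sub r (n l) (x l) (v / t l) hr (hx l) hy
      have e1 : V r (n l) (x l) * (v / t l) ^ 2 = v ^ 2 := by
        rw [← hsq l, div_pow]
        field_simp
      have e2 : V r (n l) (x l) * |v / t l| ^ 3 = |v| ^ 3 * (t l)⁻¹ := by
        rw [← hsq l, abs_div, abs_of_pos hl, div_pow]
        field_simp
      have e3 : ((Real.exp (-(V r (n l) (x l) * (v / t l) ^ 2 / 2)) : ℝ) : ℂ) =
          cexp (-(v ^ 2 / 2)) := by
        rw [e1]
        push_cast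
        rfl
      rw [e3, e2] at h3
      exact h3
    have := hd.add_const (cexp (-(v ^ 2 / 2)))
    simpa using this
  have h3 : Tendsto (fun l => (t l : ℂ) * (cexp (I * (v / t l : ℝ)) - 1)) atTop
      (𝓝 (I * v)) := by
    have hd : Tendsto (fun l => (t l : ℂ) * (cexp (I * (v / t l : ℝ)) - 1) - I * v) atTop
        (𝓝 0) := by
      have hz : Tendsto (fun l => v ^ 2 * (t l)⁻¹) atTop (𝓝 0) := by
        simpa using hinv.const_mul (v ^ 2)
      refine squeeze_zero_norm' ?_ hz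
      filter_upwards [hpos, hT.eventually_ge_atTop |v|] with l hl hl2
      have h4 : (t l : ℂ) ≠ 0 := by exact_mod_cast hl.ne'
      have e : (t l : ℂ) * (cexp (I * (v / t l : ℝ)) - 1) - I * v =
          (t l : ℂ) * (cexp (I * (v / t l : ℝ)) - 1 - I * (v / t l : ℝ)) := by
        push_cast
        field_simp
      have hn : ‖I * ((v / t l : ℝ) : ℂ)‖ = |v| / t l := by
        rw [norm_mul, norm_I, one_mul, norm_real, Real.norm_eq_abs, abs_div, abs_of_pos hl]
      have h5 := norm_exp_sub_one_sub_id_le (x := I * ((v / t l : ℝ) : ℂ)) (by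
        rw [hn, div_le_one hl]
        exact hl2)
      rw [e, norm_mul, norm_real, Real.norm_eq_abs, abs_of_pos hl]
      calc t l * _ ≤ t l * (‖I * ((v / t l : ℝ) : ℂ)‖ ^ 2) := by gcongr
        _ = v ^ 2 * (t l)⁻¹ := by
            rw [hn, div_pow, sq_abs]
            field_simp
    have := hd.add_const (I * (v : ℂ))
    simpa using this
  have h2 : Tendsto (fun l => (t l : ℂ) * (cexp (-(I * (v / t l : ℝ))) - 1)) atTop
      (𝓝 (-(I * v))) := by
    have hd : Tendsto (fun l => (t l : ℂ) * (cexp (-(I * (v / t l : ℝ))) - 1) - -(I * v)) atTop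
        (𝓝 0) := by
      have hz : Tendsto (fun l => v ^ 2 * (t l)⁻¹) atTop (𝓝 0) := by
        simpa using hinv.const_mul (v ^ 2)
      refine squeeze_zero_norm' ?_ hz
      filter_upwards [hpos] with l hl
      have h4 : (t l : ℂ) ≠ 0 := by exact_mod_cast hl.ne'
      have e : (t l : ℂ) * (cexp (-(I * (v / t l : ℝ))) - 1) - -(I * v) =
          (t l : ℂ) * (cexp (-(I * (v / t l : ℝ))) - 1 + I * (v / t l : ℝ)) := by
        push_cast
        field_simp
        ring
      have h5 := mom_tay2 (v / t l)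
      rw [e, norm_mul, norm_real, Real.norm_eq_abs, abs_of_pos hl]
      calc t l * _ ≤ t l * (|v / t l| ^ 2 / 2) := by gcongr
        _ ≤ t l * (|v / t l| ^ 2) := by
            refine mul_le_mul_of_nonneg_left ?_ hl.le
            have : 0 ≤ |v / t l| ^ 2 := by positivity
            linarith
        _ = v ^ 2 * (t l)⁻¹ := by
            rw [abs_div, abs_of_pos hl, div_pow, sq_abs]
            field_simp
    have := hd.add_const (-(I * (v : ℂ)))
    simpa using this
  exact (h1.mul (h3.pow p)).mul (h2.pow j)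

/-- MOM. -/
theorem mom : MomSt := by
  intro r hr n x hx hV p j
  set t : ℕ → ℝ := fun l => √(V r (n l) (x l)) with ht
  have hT : Tendsto t atTop atTop := Real.tendsto_sqrt_atTop.comp hV
  have hsq : ∀ l, t l ^ 2 = V r (n l) (x l) := fun l =>
    Real.sq_sqrt (mom_V_nonneg r (n l) (x l) (hx l))
  have hc : (0 : ℝ) < 2 / π ^ 2 := by positivity
  have key : Tendsto (fun l => ∫ v : ℝ, (Set.Ioc (-(1 / 8) * t l) (1 / 8 * t l)).indicator
      (momlf r (n l) (x l) p j (t l)) v) atTop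
      (𝓝 (∫ v : ℝ, cexp (-(v ^ 2 / 2)) * (I * v) ^ p * (-(I * v)) ^ j)) := by
    refine tendsto_integral_filter_of_dominated_convergence
      (fun v : ℝ => |v| ^ (p + j) * Real.exp (-(2 / π ^ 2) * v ^ 2)) ?_ ?_
      (mom_gauss_int _ hc (p + j)) ?_
    · refine Eventually.of_forall fun l => ?_
      refine AEStronglyMeasurable.indicator ?_ measurableSet_Ioc
      refine Continuous.aestronglyMeasurable ?_
      have h1 : Continuous fun v : ℝ => A r (n l) (x l) (v / t l) :=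
        (mom_A_cont r (n l) (x l) hr (hx l)).comp (continuous_id.div_const (t l))
      unfold momlf
      fun_prop
    · filter_upwards [hT.eventually_gt_atTop 0] with l hl
      refine Eventually.of_forall fun v => ?_
      have hnn : 0 ≤ |v| ^ (p + j) * Real.exp (-(2 / π ^ 2) * v ^ 2) := by positivity
      by_cases hv : v ∈ Set.Ioc (-(1 / 8) * t l) (1 / 8 * t l)
      · rw [Set.indicator_of_mem hv]
        refine (mom_norm_lf r (n l) (x l) p j (t l) v hl).trans ?_
        have hvt : |v / t l| ≤ 1 / 8 := by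
          rw [abs_div, abs_of_pos hl, div_le_iff₀ hl, abs_le]
          constructor
          · linarith [hv.1]
          · exact hv.2
        have h4 := A_norm_le_sq r (n l) (x l) (v / t l) hr (hx l)
          (by linarith [Real.pi_gt_three])
        have h5 : 2 / π ^ 2 * (V r (n l) (x l) * (v / t l) ^ 2) = 2 / π ^ 2 * v ^ 2 := by
          rw [← hsq l, div_pow]
          field_simp
        rw [h5] at h4
        rw [mul_comm]
        refine mul_le_mul_of_nonneg_left ?_ (by positivity)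
        rw [neg_mul]
        exact h4
      · rw [Set.indicator_of_notMem hv, norm_zero]
        exact hnn
    · refine Eventually.of_forall fun v => ?_
      refine (mom_point r hr n x hx t hT hsq p j v).congr' ?_
      filter_upwards [hT.eventually_ge_atTop (8 * |v| + 1)] with l hl
      rw [Set.indicator_of_mem]
      have h1 := le_abs_self v
      have h2 := neg_abs_le v
      constructor
      · linarith
      · linarith
  have hlim : (∫ v : ℝ, cexp (-(v ^ 2 / 2)) * (I * v) ^ p * (-(I * v)) ^ j) =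
      I ^ p * (-I) ^ j * (∫ v : ℝ, v ^ (p + j) * Real.exp (-(v ^ 2 / 2)) : ℝ) := by
    rw [← integral_complex_ofReal, ← integral_const_mul]
    congr 1
    funext v
    push_cast
    rw [show (-(I * (v : ℂ))) = (-I) * v by ring, mul_pow, mul_pow, pow_add]
    ring
  rw [hlim] at key
  refine key.congr' ?_
  filter_upwards [hT.eventually_gt_atTop 0] with l hl
  exact (mom_scale r (n l) (x l) p j (t l) hl).symm

end Pool.Agent.H37.ATR
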