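import Pool.Agent.H37.ATR.Spec

/-!
# OM and DEL: `Phi_1 = zeta + O(zeta^2)` and the small parameters
-/

set_option autoImplicit false

open MeasureTheory Filter Complex Polynomial
open scoped Topology Real

namespace Pool.Agent.H37.ATR

open Pool.Agent.H73.TP

private lemma om_pp_nonneg (r n : ℕ) {x : ℝ} (hx : 0 < x) (i : Fin n) : 0 ≤ pp r n x i := by
  have := yy_pos r n i
  unfold pp
  positivity

private lemma om_pp_le (r n : ℕ) {x : ℝ} (hx : 0 < x) (i : Fin n) : pp r n x i ≤ 1 := by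
  have := yy_pos r n i
  unfold pp
  rw [div_le_one (by positivity)]
  linarith

private lemma om_L_nonneg (r n : ℕ) {x : ℝ} (hx : 0 < x) : 0 ≤ L r n x :=
  Finset.sum_nonneg fun i _ => om_pp_nonneg r n hx i

private lemma om_V_nonneg (r n : ℕ) {x : ℝ} (hx : 0 < x) : 0 ≤ V r n x :=
  Finset.sum_nonneg fun i _ => mul_nonneg (om_pp_nonneg r n hx i)
    (by linarith [om_pp_le r n hx i])

private lemma om_sum_le (n : ℕ) (g : Fin n → ℝ) (h : ∀ i, g i ≤ 1) : ∑ i, g i ≤ n := by
  calc ∑ i, g i ≤ ∑ _i : Fin n, (1 : ℝ) := Finset.sum_le_sum fun i _ => h i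
    _ = n := by simp

private lemma om_LV (r n : ℕ) {x : ℝ} (hx : 0 < x) : L r n x + V r n x ≤ n := by
  unfold L V
  rw [← Finset.sum_add_distrib]
  refine om_sum_le n _ fun i => ?_
  nlinarith [om_pp_nonneg r n hx i, om_pp_le r n hx i, sq_nonneg (1 - pp r n x i)]

private lemma om_V_le (r n : ℕ) {x : ℝ} (hx : 0 < x) : 4 * V r n x ≤ n := by
  unfold V
  rw [Finset.mul_sum]
  refine om_sum_le n _ fun i => ?_
  nlinarith [sq_nonneg (1 - 2 * pp r n x i)]

/-- The sum in the remainder. -/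
private lemma om_S_le (r n : ℕ) {x : ℝ} (hr : 1 ≤ r) (hx : 0 < x) :
    ∑ i, pp r n x i * (1 - pp r n x i) * ((1 - x) * pp r n x i + x) ≤ D r n x := by
  have hr1 : (1 : ℝ) ≤ r := by exact_mod_cast hr
  have hN : (n : ℝ) ≤ NN r n := by
    unfold NN
    nlinarith [Nat.cast_nonneg (α := ℝ) n]
  have h1 : ∑ i : Fin n, (pp r n x i + pp r n x i * (1 - pp r n x i)
      + pp r n x i * (1 - pp r n x i) ^ 2) ≤ (n : ℝ) := by
    refine om_sum_le n _ fun i => ?_
    have h := pow_nonneg (sub_nonneg.2 (om_pp_le r n hx i)) 3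
    nlinarith [h]
  have h2 : 0 ≤ ∑ i : Fin n, pp r n x i * (1 - pp r n x i) ^ 2 :=
    Finset.sum_nonneg fun i _ => mul_nonneg (om_pp_nonneg r n hx i) (sq_nonneg _)
  have h3 : D r n x - ∑ i, pp r n x i * (1 - pp r n x i) * ((1 - x) * pp r n x i + x)
      = x * (NN r n - ∑ i : Fin n, (pp r n x i + pp r n x i * (1 - pp r n x i)
        + pp r n x i * (1 - pp r n x i) ^ 2))
        + ∑ i : Fin n, pp r n x i * (1 - pp r n x i) ^ 2 := by
    have h4 : ∑ i : Fin n, pp r n x i * (1 - pp r n x i) * ((1 - x) * pp r n x i + x)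
        = V r n x - (1 - x) * ∑ i : Fin n, pp r n x i * (1 - pp r n x i) ^ 2 := by
      unfold V
      rw [Finset.mul_sum, ← Finset.sum_sub_distrib]
      refine Finset.sum_congr rfl fun i _ => ?_
      ring
    have h5 : ∑ i : Fin n, (pp r n x i + pp r n x i * (1 - pp r n x i)
        + pp r n x i * (1 - pp r n x i) ^ 2) = L r n x + V r n x
          + ∑ i : Fin n, pp r n x i * (1 - pp r n x i) ^ 2 := by
      unfold L V
      rw [Finset.sum_add_distrib, Finset.sum_add_distrib]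
    rw [h4, h5]
    unfold D
    ring
  have h6 : 0 ≤ x * (NN r n - ∑ i : Fin n, (pp r n x i + pp r n x i * (1 - pp r n x i)
        + pp r n x i * (1 - pp r n x i) ^ 2)) := mul_nonneg hx.le (by linarith)
  linarith

private lemma om_fc_prod (r n : ℕ) (hr : 1 ≤ r) (z : ℂ) :
    fc r n z = ∏ i, (1 + (yy r n i : ℂ) * z) := by
  unfold fc
  rw [yy_prod hr n]
  unfold pr
  rw [map_prod]
  refine Finset.prod_congr rfl fun i _ => ?_
  simp

private lemma om_fc_succ (r n : ℕ) (hr : 1 ≤ r) (z : ℂ) (h : ∀ i, 1 + (yy r n i : ℂ) * z ≠ 0) :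
    fc r (n + 1) z = fc r n z * (1 + (NN r n : ℂ) * z
      + (1 - z) * ∑ i, (yy r n i : ℂ) * z / (1 + (yy r n i : ℂ) * z)) := by
  have h1 : (aeval z (derivative (rowP r n)) : ℂ)
      = fc r n z * ∑ i, (yy r n i : ℂ) / (1 + (yy r n i : ℂ) * z) := by
    rw [yy_prod hr n, pr_deriv, map_sum, Finset.mul_sum]
    refine Finset.sum_congr rfl fun i hi => ?_
    have h2 : fc r n z = (1 + (yy r n i : ℂ) * z)
        * aeval z (pr (yy r n) (Finset.univ.erase i)) := by
      unfold fc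
      conv_lhs => rw [yy_prod hr n, pr_erase (yy r n) hi]
      rw [map_mul]
      simp
    have h3 := h i
    have h7 : (aeval z (C (yy r n i)) : ℂ) = (yy r n i : ℂ) := by simp
    rw [map_mul, h2, h7]
    field_simp
  have h4 : fc r (n + 1) z = (1 + (NN r n : ℂ) * z) * fc r n z
      + (z - z ^ 2) * aeval z (derivative (rowP r n)) := by
    have h5 : rowP r (n + 1) = opA ((r : ℝ) * (n + 1)) (rowP r n) := rfl
    unfold fc
    rw [h5]
    unfold opA
    rw [map_add, map_mul, map_mul]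
    simp [NN]
  rw [h4, h1]
  have h6 : (1 - z) * ∑ i, (yy r n i : ℂ) * z / (1 + (yy r n i : ℂ) * z)
      = (z - z ^ 2) * ∑ i, (yy r n i : ℂ) / (1 + (yy r n i : ℂ) * z) := by
    rw [Finset.mul_sum, Finset.mul_sum]
    refine Finset.sum_congr rfl fun i _ => ?_
    ring
  rw [h6]
  ring

private lemma om_one_add (p : ℝ) (hp0 : 0 ≤ p) (hp1 : p ≤ 1) (ζ : ℂ) (h : ‖ζ‖ ≤ 1 / 2) :
    1 / 2 ≤ ‖1 + (p : ℂ) * ζ‖ := by
  have h1 : ‖(p : ℂ) * ζ‖ ≤ 1 / 2 := by
    rw [norm_mul, Complex.norm_real, Real.norm_of_nonneg hp0]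
    nlinarith [norm_nonneg ζ]
  have h2 : ‖(1 : ℂ)‖ - ‖(p : ℂ) * ζ‖ ≤ ‖1 + (p : ℂ) * ζ‖ := by
    have := norm_sub_norm_le (1 : ℂ) (-((p : ℂ) * ζ))
    rwa [norm_neg, sub_neg_eq_add] at this
  rw [norm_one] at h2
  linarith

theorem om : OmSt := by
  intro r n x hr hx hR hD ζ hζ
  have hr1 : 1 ≤ r := by omega
  have hp0 := om_pp_nonneg r n hx
  have hp1 := om_pp_le r n hx
  set p : Fin n → ℝ := pp r n x with hp
  have hne : ∀ i, 1 + (p i : ℂ) * ζ ≠ 0 := by
    intro i h0
    have h1 := om_one_add (p i) (hp0 i) (hp1 i) ζ hζ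
    rw [h0, norm_zero] at h1
    linarith
  have hfac : ∀ i, 1 + (yy r n i : ℂ) * (x * (1 + ζ))
      = ((1 + yy r n i * x : ℝ) : ℂ) * (1 + (p i : ℂ) * ζ) := by
    intro i
    have h1 : (1 + yy r n i * x : ℝ) ≠ 0 := by
      have := yy_pos r n i
      positivity
    have h2 : (1 + yy r n i * x) * p i = yy r n i * x := by
      rw [hp]
      unfold pp
      field_simp
    have h3 : ((1 + yy r n i * x : ℝ) : ℂ) * (p i : ℂ) = ((yy r n i * x : ℝ) : ℂ) := by
      exact_mod_cast h2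
    push_cast at h3 ⊢
    linear_combination (-ζ) * h3
  have hyne : ∀ i, ((1 + yy r n i * x : ℝ) : ℂ) ≠ 0 := by
    intro i
    have := yy_pos r n i
    exact_mod_cast (by positivity : (0 : ℝ) < 1 + yy r n i * x).ne'
  have hne2 : ∀ i, 1 + (yy r n i : ℂ) * (x * (1 + ζ)) ≠ 0 := by
    intro i
    rw [hfac i]
    exact mul_ne_zero (hyne i) (hne i)
  have hfc : fc r n (x * (1 + ζ)) ≠ 0 := by
    rw [om_fc_prod r n hr1]
    exact Finset.prod_ne_zero_iff.2 fun i _ => hne2 i
  have hterm : ∀ i, (yy r n i : ℂ) * (x * (1 + ζ)) / (1 + (yy r n i : ℂ) * (x * (1 + ζ)))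
      = (p i : ℂ) + (p i : ℂ) * (1 - (p i : ℂ)) * ζ / (1 + (p i : ℂ) * ζ) := by
    intro i
    have h2 : (1 + yy r n i * x) * p i = yy r n i * x := by
      have h1 : (1 + yy r n i * x : ℝ) ≠ 0 := by
        have := yy_pos r n i
        positivity
      rw [hp]
      unfold pp
      field_simp
    have h3 : ((1 + yy r n i * x : ℝ) : ℂ) * (p i : ℂ) = (yy r n i : ℂ) * x := by
      exact_mod_cast h2
    rw [hfac i, ← mul_assoc, ← h3]
    have h4 := hyne i
    have h5 := hne i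
    rw [mul_assoc, mul_div_mul_left _ _ h4]
    field_simp
    ring
  set T : ℂ := ∑ i, (p i : ℂ) * (1 - (p i : ℂ)) / (1 + (p i : ℂ) * ζ) with hT
  have hratio : fc r (n + 1) (x * (1 + ζ)) / fc r n (x * (1 + ζ))
      = 1 + (NN r n : ℂ) * (x * (1 + ζ)) + (1 - x * (1 + ζ)) * ((L r n x : ℂ) + ζ * T) := by
    rw [om_fc_succ r n hr1 _ hne2, mul_div_cancel_left₀ _ hfc]
    congr 2
    rw [Finset.sum_congr rfl fun i _ => hterm i, Finset.sum_add_distrib, hT, Finset.mul_sum]
    congr 1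
    · unfold L
      push_cast
      rfl
    · refine Finset.sum_congr rfl fun i _ => ?_
      ring
  have hVT : T - (V r n x : ℂ) = -ζ * ∑ i, (p i : ℂ) * (1 - (p i : ℂ)) * (p i : ℂ)
      / (1 + (p i : ℂ) * ζ) := by
    rw [hT]
    unfold V
    push_cast
    rw [← Finset.sum_sub_distrib, Finset.mul_sum]
    refine Finset.sum_congr rfl fun i _ => ?_
    have h5 := hne i
    field_simp
    ring
  have hmain : Ph r n x 1 ζ - ζ = -(ζ ^ 2 / (D r n x : ℂ)) * ∑ i, (p i : ℂ) * (1 - (p i : ℂ))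
      * ((1 - (x : ℂ)) * (p i : ℂ) + x) / (1 + (p i : ℂ) * ζ) := by
    have hD' : (D r n x : ℂ) ≠ 0 := by exact_mod_cast hD.ne'
    have hR' : (R r n x : ℂ) ≠ 0 := by exact_mod_cast hR.ne'
    have h1 : Ph r n x 1 ζ = (fc r (n + 1) (x * (1 + ζ)) / fc r n (x * (1 + ζ))
        - (R r n x : ℂ)) / (D r n x : ℂ) := by
      unfold Ph
      rw [Finset.sum_range_succ, Finset.sum_range_succ, Finset.sum_range_zero]
      simp only [Nat.sub_zero, pow_one, Nat.choose_zero_right, Nat.cast_one, mul_one, add_zero,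
        pow_zero, zero_add, Nat.sub_self, Nat.choose_self, one_mul, Complex.ofReal_one,
        Complex.ofReal_div]
      field_simp
      ring
    have h2 : ∑ i, (p i : ℂ) * (1 - (p i : ℂ)) * ((1 - (x : ℂ)) * (p i : ℂ) + x)
        / (1 + (p i : ℂ) * ζ) = (1 - (x : ℂ)) * (∑ i, (p i : ℂ) * (1 - (p i : ℂ)) * (p i : ℂ)
          / (1 + (p i : ℂ) * ζ)) + x * T := by
      rw [hT, Finset.mul_sum, Finset.mul_sum, ← Finset.sum_add_distrib]
      refine Finset.sum_congr rfl fun i _ => ?_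
      ring
    rw [h1, h2, hratio]
    set U : ℂ := ∑ i, (p i : ℂ) * (1 - (p i : ℂ)) * (p i : ℂ) / (1 + (p i : ℂ) * ζ) with hU
    have h3 : T = (V r n x : ℂ) - ζ * U := by
      linear_combination hVT
    have h4 : (R r n x : ℂ) = 1 + (NN r n : ℂ) * x + (1 - x) * (L r n x : ℂ) := by
      unfold R
      push_cast
      ring
    have h5 : (D r n x : ℂ) = x * ((NN r n : ℂ) - L r n x) + (1 - x) * (V r n x : ℂ) := by
      unfold D
      push_cast
      ring
    rw [h4]
    field_simp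
    rw [h5, h3]
    ring
  rw [hmain, norm_mul, norm_neg, norm_div, norm_pow, Complex.norm_real, Real.norm_of_nonneg hD.le]
  have hsum : ‖∑ i, (p i : ℂ) * (1 - (p i : ℂ)) * ((1 - (x : ℂ)) * (p i : ℂ) + x)
      / (1 + (p i : ℂ) * ζ)‖ ≤ 2 * D r n x := by
    calc _ ≤ ∑ i, ‖(p i : ℂ) * (1 - (p i : ℂ)) * ((1 - (x : ℂ)) * (p i : ℂ) + x)
          / (1 + (p i : ℂ) * ζ)‖ := norm_sum_le _ _
      _ ≤ ∑ i, 2 * (p i * (1 - p i) * ((1 - x) * p i + x)) := by
        refine Finset.sum_le_sum fun i _ => ?_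
        have h1 : 0 ≤ p i * (1 - p i) * ((1 - x) * p i + x) := by
          have h2 : 0 ≤ (1 - x) * p i + x := by nlinarith [hp0 i, hp1 i]
          exact mul_nonneg (mul_nonneg (hp0 i) (sub_nonneg.2 (hp1 i))) h2
        have h3 : (p i : ℂ) * (1 - (p i : ℂ)) * ((1 - (x : ℂ)) * (p i : ℂ) + x)
            = ((p i * (1 - p i) * ((1 - x) * p i + x) : ℝ) : ℂ) := by
          push_cast
          ring
        rw [h3, norm_div, Complex.norm_real, Real.norm_of_nonneg h1]
        have h4 := om_one_add (p i) (hp0 i) (hp1 i) ζ hζ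
        rw [div_le_iff₀ (by linarith)]
        nlinarith
      _ ≤ 2 * D r n x := by
        rw [← Finset.mul_sum]
        have := om_S_le r n hr1 hx
        linarith
  calc ‖ζ‖ ^ 2 / D r n x * _ ≤ ‖ζ‖ ^ 2 / D r n x * (2 * D r n x) :=
        mul_le_mul_of_nonneg_left hsum (by positivity)
    _ = 2 * ‖ζ‖ ^ 2 := by
      field_simp

theorem del : BasSt → DelSt := by
  intro _ r n x hr hx hV
  have hr2 : (2 : ℝ) ≤ r := by exact_mod_cast hr
  have hn0 : (0 : ℝ) ≤ n := Nat.cast_nonneg n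
  have hL := om_L_nonneg r n hx
  have hLV := om_LV r n hx
  have hV4 := om_V_le r n hx
  have hNN : NN r n = r * (n + 1) := rfl
  have hD1 : V r n x + x * (n + 2) ≤ D r n x := by
    have h1 : D r n x = V r n x + x * (NN r n - L r n x - V r n x) := by
      unfold D
      ring
    rw [h1]
    have h2 : (n : ℝ) + 2 ≤ NN r n - L r n x - V r n x := by
      rw [hNN]
      nlinarith
    nlinarith
  have hDV : V r n x ≤ D r n x := by nlinarith
  have hDx : x * (n + 2) ≤ D r n x := by linarith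
  have hD : 0 < D r n x := by linarith
  have hR1 : R r n x = 1 + L r n x + x * (NN r n - L r n x) := by
    unfold R
    ring
  have hR2 : R r n x ≤ (n + 1) + x * (r * (n + 1)) := by
    rw [hR1, hNN]
    nlinarith
  have hR : 0 < R r n x := by
    rw [hR1]
    have : 0 ≤ NN r n - L r n x := by
      rw [hNN]
      nlinarith
    nlinarith [mul_nonneg hx.le this]
  have hVp : 0 < V r n x := by linarith
  have hn1 : (0 : ℝ) < n + 1 := by linarith
  have hA : 0 ≤ 1 / V r n x := by positivity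
  have hB : (0 : ℝ) ≤ 1 / ((n : ℝ) + 1) := by positivity
  have hx1 : x / D r n x ≤ 1 / (n + 1) := by
    rw [div_le_div_iff₀ hD hn1]
    nlinarith
  have hd1 : 1 / D r n x ≤ 1 / V r n x := one_div_le_one_div_of_le hVp hDV
  have hRD : R r n x / D r n x ≤ (n + 1) / V r n x + 2 := by
    have h1 : x * (NN r n - L r n x) ≤ 2 * D r n x := by
      have h2 : D r n x = x * (NN r n - L r n x) + (1 - x) * V r n x := rfl
      nlinarith
    have h3 : (1 + L r n x) / D r n x ≤ (n + 1) / V r n x := by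
      rw [div_le_div_iff₀ hD hVp]
      nlinarith
    have h4 : R r n x / D r n x = (1 + L r n x) / D r n x
        + x * (NN r n - L r n x) / D r n x := by
      rw [hR1, add_div]
    have h5 : x * (NN r n - L r n x) / D r n x ≤ 2 := by
      rw [div_le_iff₀ hD]
      exact h1
    linarith
  refine ⟨hR, hD, ?_, ?_, ?_, ?_, ?_⟩
  · nlinarith
  · nlinarith
  · have h1 : x * R r n x / D r n x ^ 2 = (x / D r n x) * (R r n x / D r n x) := by
      field_simp
    have h2 : 0 ≤ R r n x / D r n x := by positivity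
    have h3 : (x / D r n x) * (R r n x / D r n x) ≤ 1 / (n + 1) * ((n + 1) / V r n x + 2) :=
      mul_le_mul hx1 hRD h2 hB
    have h4 : 1 / ((n : ℝ) + 1) * ((n + 1) / V r n x + 2) = 1 / V r n x + 2 * (1 / (n + 1)) := by
      field_simp
    rw [h1]
    nlinarith
  · intro hx2
    rw [div_le_iff₀ hD]
    nlinarith
  · rw [div_le_iff₀ hD]
    have a1 : (n : ℝ) + 1 ≤ (n + 1) * D r n x := by nlinarith
    have a2 : x * (r * (n + 1)) ≤ r * D r n x := by nlinarith
    have a3 : (r : ℝ) * D r n x ≤ r * (n + 1) * D r n x := by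
      have : 0 ≤ (r : ℝ) * n * D r n x := by positivity
      nlinarith
    nlinarith

end Pool.Agent.H37.ATR
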