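import Mathlib
import Pool.Agent.H73.TP.Two
import Pool.Agent.H53.ATP.Spec

/-!
# Asymptotic total positivity of the `r`-th order Eulerian triangles: definitions and statements
-/

set_option autoImplicit false

open MeasureTheory Filter Complex Polynomial
open scoped Topology Real

namespace Pool.Agent.H37.ATR

open Pool.Agent.H73.TP

/-- `ar r n k` is the entry `E (n + 1, k)` of the triangle of order `r`. -/
noncomputable def ar (r n k : ℕ) : ℝ := (rowP r n).coeff k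

/-- Solid minor: rows `n, ..., n+m-1` and columns `k, ..., k+m-1` of the array `ar r`. -/
noncomputable def sol (r m n k : ℕ) : ℝ :=
  Matrix.det (Matrix.of fun i j : Fin m => ar r (n + i) (k + j))

/-- The row polynomial as a real function. -/
noncomputable def fr (r n : ℕ) (x : ℝ) : ℝ := (rowP r n).eval x

/-- The row polynomial as a complex function. -/
noncomputable def fc (r n : ℕ) (z : ℂ) : ℂ := Polynomial.aeval z (rowP r n)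

/-- The numbers `y i > 0` with `rowP r n = ∏ (1 + y i X)`. -/
noncomputable def yy (r n : ℕ) : Fin n → ℝ :=
  if h : 1 ≤ r then (rowP_prod r h n).choose else fun _ => 1

theorem yy_pos (r n : ℕ) (i : Fin n) : 0 < yy r n i := by
  unfold yy
  split_ifs with h
  · exact (rowP_prod r h n).choose_spec.1 i
  · exact one_pos

theorem yy_prod {r : ℕ} (h : 1 ≤ r) (n : ℕ) : rowP r n = pr (yy r n) Finset.univ := by
  unfold yy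
  rw [dif_pos h]
  exact (rowP_prod r h n).choose_spec.2

/-- Probabilities. -/
noncomputable def pp (r n : ℕ) (x : ℝ) (i : Fin n) : ℝ := yy r n i * x / (1 + yy r n i * x)

/-- Mean `x f' / f`. -/
noncomputable def L (r n : ℕ) (x : ℝ) : ℝ := ∑ i, pp r n x i

/-- Variance. -/
noncomputable def V (r n : ℕ) (x : ℝ) : ℝ := ∑ i, pp r n x i * (1 - pp r n x i)

/-- Third cumulant. -/
noncomputable def Ka (r n : ℕ) (x : ℝ) : ℝ :=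
  ∑ i, pp r n x i * (1 - pp r n x i) * (1 - 2 * pp r n x i)

/-- `N = r (n + 1)`. -/
noncomputable def NN (r n : ℕ) : ℝ := (r : ℝ) * ((n : ℝ) + 1)

/-- `R = f_(n+1) / f_n` at `x`. -/
noncomputable def R (r n : ℕ) (x : ℝ) : ℝ := 1 + NN r n * x + (1 - x) * L r n x

/-- `D = x R'`. -/
noncomputable def D (r n : ℕ) (x : ℝ) : ℝ := x * (NN r n - L r n x) + (1 - x) * V r n x

/-! ### BAS: recursions -/

/-- BAS. -/
def BasSt : Prop := ∀ (r n : ℕ) (x : ℝ), 1 ≤ r → 0 < x →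
  fr r (n + 1) x = fr r n x * R r n x ∧
  0 < fr r n x ∧ 0 < R r n x ∧ 0 < D r n x ∧
  L r (n + 1) x = L r n x + D r n x / R r n x ∧
  V r (n + 1) x = V r n x
    + (x * (NN r n - L r n x) - 2 * x * V r n x + (1 - x) * Ka r n x) / R r n x
    - (D r n x / R r n x) ^ 2

/-- MON: `L` is monotone, the variance varies slowly. -/
def MonSt : Prop := ∀ (r n : ℕ) (x x' : ℝ), 0 < x → x ≤ x' →
  L r n x ≤ L r n x' ∧
  x / x' * V r n x ≤ V r n x' ∧ V r n x' ≤ x' / x * V r n x ∧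
  L r n x' - L r n x ≤ (x' / x - 1) * V r n x ∧
  L r n x' - L r n x ≤ (x' / x - 1) * V r n x'

/-- EXI: existence of the saddle point. -/
def ExiSt : Prop := ∀ (r n k : ℕ), 1 ≤ k → k < n → ∃ x : ℝ, 0 < x ∧ L r n x = k

/-! ### Lower bounds for the variance -/

/-- VR1: `x ≥ 1`: two-sided bound of `n - L`, lower bounds of `V`; `K = 8 (r+1) (1 + log (n+1))`. -/
def Vr1St : Prop := ∀ (r n : ℕ) (x : ℝ), 2 ≤ r → 0 < x →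
  (1 ≤ x → (n : ℝ) / (2 * (r + 1) * x) ≤ n - L r n x) ∧
  (n - L r n x ≤ (n + 1) * (1 + Real.log (n + 1)) / x) ∧
  (1 ≤ n → 8 * (r + 1) * (1 + Real.log (n + 1)) ≤ x → (n + 1) / (8 * (r + 1) * x) ≤ V r n x) ∧
  (1 ≤ n → x ≤ 8 * (r + 1) * (1 + Real.log (n + 1)) →
    (n + 1) * x / (8 * (r + 1) * (8 * (r + 1) * (1 + Real.log (n + 1))) ^ 2) ≤ V r n x)

/-- VR2: `∑ (1 - p)^2 = n - L - V ≤ C (n+1)^2 / x^2`. -/
def Vr2St : Prop := ∀ r : ℕ, 2 ≤ r → ∃ C : ℝ, 0 < C ∧ ∀ (n : ℕ) (x : ℝ), 1 ≤ x →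
  n - L r n x - V r n x ≤ C * (n + 1) ^ 2 / x ^ 2

/-- VR: the variance is large on the right. -/
def VrSt : Prop := ∀ r : ℕ, 2 ≤ r → ∀ B : ℝ, ∃ c0 : ℝ, ∃ N0 : ℕ, ∀ n, N0 ≤ n → ∀ x : ℝ,
  1 / 2 ≤ x → c0 ≤ n - L r n x → B ≤ V r n x

/-- `w r n N` is the coefficient of `X^N` in `X f_n / (1 - X)^(r(n+1)+1)`. -/
noncomputable def w (r n N : ℕ) : ℝ :=
  ∑ k ∈ Finset.range N, ar r n k * ((r * (n + 1) + (N - 1 - k)).choose (N - 1 - k) : ℕ)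

/-- WW: properties of `w`. -/
def WwSt : Prop := ∀ r : ℕ, 1 ≤ r →
  (∀ n N : ℕ, w r (n + 1) N =
    ∑ l ∈ Finset.range N, ((l + r - 2).choose l : ℕ) * ((N - l : ℕ) : ℝ) * w r n (N - l)) ∧
  (∀ n N : ℕ, (N : ℝ) ^ (n + 1) ≤ w r n N) ∧
  (∀ n N : ℕ, 1 ≤ N → w r n N / (N : ℝ) ^ (n + 1) ≤ w r n (N + 1) / ((N : ℝ) + 1) ^ (n + 1))

/-- FLO: lower bound of `f_n`. -/
def FloSt : Prop := ∀ (r n N : ℕ) (x : ℝ), 1 ≤ r → 1 ≤ N → 0 < x → x < 1 →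
  (1 - x) ^ (r * (n + 1) + 1) * (N : ℝ) ^ (n + 1) * x ^ (N - 1) ≤ fr r n x

/-- FUP: upper bound of `f_n`. -/
def FupSt : Prop := ∀ r : ℕ, 1 ≤ r → ∃ C : ℝ, 1 ≤ C ∧ ∀ (n : ℕ) (x : ℝ), 0 < x →
  2 * C ≤ Real.log (1 / x) →
  fr r n x ≤ (n + 1).factorial / (x * (Real.log (1 / x) - C) ^ (n + 1))

/-- VL: the variance is large on the left. -/
def VlSt : Prop := ∀ r : ℕ, 2 ≤ r → ∀ C : ℝ, 0 < C → ∃ N0 : ℕ, ∀ n, N0 ≤ n → ∀ x : ℝ,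
  0 < x → x ≤ 1 / 2 → n / (C * Real.log n) ≤ L r n x → √(n : ℝ) ≤ V r n x

/-! ### The edges -/

/-- LEFT. -/
def LeftSt : Prop := ∀ r m : ℕ, 1 ≤ r → ∃ C : ℝ, 0 < C ∧ ∃ N0 : ℕ, ∀ n, N0 ≤ n → ∀ k : ℕ,
  (k : ℝ) ≤ n / (C * Real.log n) → 0 < sol r m n k

/-- RIGHT. -/
def RightSt : Prop := ∀ r m c0 : ℕ, 2 ≤ r → ∃ N0 : ℕ, ∀ n, N0 ≤ n → ∀ k : ℕ, k ≤ n →
  n - k ≤ c0 → 0 < sol r m n k

/-! ### The middle -/

/-- MID. -/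
def MidSt : Prop := ∀ r m : ℕ, 2 ≤ r → ∃ B : ℝ, ∃ N0 : ℕ, ∀ n, N0 ≤ n → ∀ k : ℕ, k ≤ n →
  ∀ x : ℝ, 0 < x → L r n x = k → B ≤ V r n x → (1 / 2 ≤ x ∨ √(n : ℝ) ≤ V r n x) →
  0 < sol r m n k

/-- The characteristic function, centered. -/
noncomputable def A (r n : ℕ) (x y : ℝ) : ℂ :=
  cexp (-(I * L r n x * y)) * fc r n (x * cexp (I * y)) / (fr r n x : ℂ)

/-- Differences of the normalised rows. -/
noncomputable def W (r n : ℕ) (x : ℝ) (i : ℕ) (y : ℝ) : ℂ :=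
  ((R r n x / D r n x : ℝ) : ℂ) ^ i * ∑ l ∈ Finset.range (i + 1),
    (-1) ^ (i - l) * (i.choose l : ℂ) *
      (cexp (-(I * L r n x * y)) * fc r (n + l) (x * cexp (I * y)) /
        ((fr r n x * R r n x ^ l : ℝ) : ℂ))

/-- The matrix. -/
noncomputable def H (r n : ℕ) (x : ℝ) (i j : ℕ) : ℂ :=
  (1 / (2 * π) : ℝ) * ∫ y in (-π)..π, W r n x i y * (cexp (-(I * y)) - 1) ^ j

/-- DET: Cauchy's formula and binomial row and column operations. -/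
def DetSt : Prop := ∀ (r m n k : ℕ) (x : ℝ), 1 ≤ r → 0 < x → L r n x = k → 0 < R r n x →
  0 < D r n x → 0 < fr r n x →
  Matrix.det (Matrix.of fun i j : Fin m => H r n x i j) =
    ((∏ i : Fin m, x ^ (k + (i : ℕ)) / (fr r n x * D r n x ^ (i : ℕ)) : ℝ) : ℂ)
      * ((sol r m n k : ℝ) : ℂ)

/-- `Phi_i` as a function of `zeta`, `z = x (1 + zeta)`. -/
noncomputable def Ph (r n : ℕ) (x : ℝ) (i : ℕ) (ζ : ℂ) : ℂ :=
  ((R r n x / D r n x : ℝ) : ℂ) ^ i * ∑ l ∈ Finset.range (i + 1),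
    (-1) ^ (i - l) * (i.choose l : ℂ) *
      (fc r (n + l) (x * (1 + ζ)) / (fc r n (x * (1 + ζ)) * ((R r n x ^ l : ℝ) : ℂ)))

/-- REC: the recursion of the `Phi_i`. -/
def RecSt : Prop := ∀ (r n : ℕ) (x : ℝ), 1 ≤ r → 0 < x → 0 < R r n x → 0 < D r n x →
  (∀ ζ : ℂ, ‖ζ‖ < 1 → fc r n (x * (1 + ζ)) ≠ 0) ∧
  ∀ i : ℕ, DifferentiableOn ℂ (Ph r n x i) (Metric.ball 0 1) ∧
    ∀ ζ : ℂ, ‖ζ‖ < 1 → Ph r n x (i + 1) ζ =
      (Ph r n x 1 ζ + i * ((r * x / D r n x : ℝ) : ℂ) * (1 + ζ)) * Ph r n x i ζ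
      + ((1 : ℂ) - x - x * ζ) / ((D r n x : ℝ) : ℂ) * (1 + ζ) * deriv (Ph r n x i) ζ
      + i * ((r * x * R r n x / D r n x ^ 2 : ℝ) : ℂ) * (1 + ζ) * Ph r n x (i - 1) ζ

/-- OM: `Phi_1 = zeta + O(zeta^2)`. -/
def OmSt : Prop := ∀ (r n : ℕ) (x : ℝ), 2 ≤ r → 0 < x → 0 < R r n x → 0 < D r n x →
  ∀ ζ : ℂ, ‖ζ‖ ≤ 1 / 2 → ‖Ph r n x 1 ζ - ζ‖ ≤ 2 * ‖ζ‖ ^ 2

/-- DEL: the small parameters. -/
def DelSt : Prop := ∀ (r n : ℕ) (x : ℝ), 2 ≤ r → 0 < x → 1 ≤ V r n x →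
  0 < R r n x ∧ 0 < D r n x ∧
  1 / D r n x ≤ (r + 1) * (1 / V r n x + 1 / (n + 1)) ∧
  x / D r n x ≤ (r + 1) * (1 / V r n x + 1 / (n + 1)) ∧
  x * R r n x / D r n x ^ 2 ≤ (r + 1) * (1 / V r n x + 1 / (n + 1)) ∧
  (1 / 2 ≤ x → R r n x / D r n x ≤ 2 * (r + 1)) ∧
  R r n x / D r n x ≤ (r + 1) * (n + 1)

/-- PHI: structure of `W` near `y = 0`. -/
def PhiSt : Prop := ∀ r m : ℕ, 2 ≤ r → ∃ C : ℝ, 0 < C ∧ ∀ (n : ℕ) (x : ℝ), 0 < x →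
  1 ≤ V r n x → ∀ i < m, ∃ (T : ℕ → ℂ) (ρ : ℝ → ℂ),
    (∀ l, ‖T l‖ ≤ C) ∧
    (∀ l ≤ i, ‖T l - (if l = i then 1 else 0)‖ ≤ C * (1 / V r n x + 1 / (n + 1))) ∧
    ∀ y : ℝ, |y| ≤ 1 / 8 → ‖ρ y‖ ≤ C ∧
      W r n x i y = A r n x y * (∑ l ∈ Finset.range m, T l * (cexp (I * y) - 1) ^ l
        + (cexp (I * y) - 1) ^ m * ρ y)

/-- MOM: Gaussian moments. -/
def MomSt : Prop := ∀ r : ℕ, 1 ≤ r → ∀ (n : ℕ → ℕ) (x : ℕ → ℝ), (∀ l, 0 < x l) →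
  Tendsto (fun l => V r (n l) (x l)) atTop atTop → ∀ p j : ℕ,
  Tendsto (fun l => ((√(V r (n l) (x l)) ^ (p + j + 1) : ℝ) : ℂ) *
      ∫ y in (-(1 / 8) : ℝ)..(1 / 8), A r (n l) (x l) y * (cexp (I * y) - 1) ^ p
        * (cexp (-(I * y)) - 1) ^ j) atTop
    (𝓝 (I ^ p * (-I) ^ j * (∫ v : ℝ, v ^ (p + j) * Real.exp (-(v ^ 2 / 2)) : ℝ)))

/-- ABS: absolute moments. -/
def AbsSt : Prop := ∀ p : ℕ, ∃ C : ℝ, 0 < C ∧ ∀ (r n : ℕ) (x : ℝ), 1 ≤ r → 0 < x →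
  0 < V r n x →
  Continuous (fun y : ℝ => A r n x y) ∧
  (∀ y : ℝ, ‖A r n x y‖ ≤ 1) ∧
  √(V r n x) ^ (p + 1) * ∫ y in (-(1 / 8) : ℝ)..(1 / 8), ‖A r n x y‖ * |y| ^ p ≤ C

/-- FAR: the part away from `y = 0`. -/
def FarSt : Prop := ∀ r m : ℕ, 2 ≤ r → ∃ C c : ℝ, 0 < C ∧ 0 < c ∧ ∀ (n : ℕ) (x : ℝ), 0 < x →
  1 ≤ V r n x → ∀ i < m, ∀ y : ℝ, 1 / 8 ≤ |y| → |y| ≤ π →
    ‖W r n x i y‖ ≤ C * (R r n x / D r n x) ^ i * Real.exp (-(c * V r n x))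

/-! ### Glue -/

/-- All solid minors of large rows are positive, `r ≥ 2`. -/
def SolSt : Prop := ∀ r m : ℕ, 2 ≤ r → ∃ N0 : ℕ, ∀ n, N0 ≤ n → ∀ k ≤ n, 0 < sol r m n k

end Pool.Agent.H37.ATR
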