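import Mathlib
import Pool.Agent.H37.ATR.Spec

/-!
# ATR, piece REC: the recursion of the normalised row differences
-/

set_option autoImplicit false

open MeasureTheory Filter Complex Polynomial
open scoped Topology Real

namespace Pool.Agent.H37.ATR

open Pool.Agent.H73.TP

/-! ### Finite differences -/

private theorem rec_sum (f : ℕ → ℂ) (i : ℕ) :
    ∑ l ∈ Finset.range (i + 1), (-1) ^ (i - l) * (i.choose l : ℂ) * f l =
      (fwdDiff 1)^[i] f 0 := by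
  rw [fwdDiff_iter_eq_sum_shift]
  refine Finset.sum_congr rfl fun l _ => ?_
  simp [zsmul_eq_mul]

private theorem rec_leibniz (f : ℕ → ℂ) (i : ℕ) : ∀ m : ℕ,
    (fwdDiff 1)^[i + 1] (fun l : ℕ => (l : ℂ) * f l) m =
      m * (fwdDiff 1)^[i + 1] f m + (i + 1) * (fwdDiff 1)^[i] f (m + 1) := by
  induction i with
  | zero =>
    intro m
    simp only [zero_add, Function.iterate_one, Function.iterate_zero, id_eq, fwdDiff]
    push_cast
    ring
  | succ i ih =>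
    intro m
    rw [Function.iterate_succ_apply' (fwdDiff 1) (i + 1) (fun l : ℕ => (l : ℂ) * f l),
      Function.iterate_succ_apply' (fwdDiff 1) (i + 1) f]
    have h1 : ∀ g : ℕ → ℂ, fwdDiff 1 g m = g (m + 1) - g m := fun g => rfl
    rw [h1, h1, ih (m + 1), ih m]
    have h2 : (fwdDiff 1)^[i + 1] f (m + 1) =
        (fwdDiff 1)^[i] f (m + 1 + 1) - (fwdDiff 1)^[i] f (m + 1) := by
      rw [Function.iterate_succ_apply']
      rfl
    rw [h2]
    push_cast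
    ring

private theorem rec_leibniz0 (f : ℕ → ℂ) (i : ℕ) :
    (fwdDiff 1)^[i] (fun l : ℕ => (l : ℂ) * f l) 0 =
      i * ((fwdDiff 1)^[i] f 0 + (fwdDiff 1)^[i - 1] f 0) := by
  cases i with
  | zero => simp
  | succ i =>
    rw [rec_leibniz, Nat.add_sub_cancel]
    have h2 : (fwdDiff 1)^[i + 1] f 0 =
        (fwdDiff 1)^[i] f (0 + 1) - (fwdDiff 1)^[i] f 0 := by
      rw [Function.iterate_succ_apply']
      rfl
    rw [h2]
    push_cast
    ring

private theorem rec_lin (f g h : ℕ → ℂ) (u a b : ℂ) (i : ℕ) :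
    (fwdDiff 1)^[i] (fun l : ℕ => u * f l + a * g l + b * h l) 0 =
      u * (fwdDiff 1)^[i] f 0 + a * (fwdDiff 1)^[i] g 0 + b * (fwdDiff 1)^[i] h 0 := by
  rw [← rec_sum, ← rec_sum, ← rec_sum, ← rec_sum, Finset.mul_sum, Finset.mul_sum,
    Finset.mul_sum, ← Finset.sum_add_distrib, ← Finset.sum_add_distrib]
  refine Finset.sum_congr rfl fun l _ => ?_
  ring

private theorem rec_diff (q dq : ℕ → ℂ) (u a b : ℂ)
    (h : ∀ l : ℕ, q (l + 1) = (u + l * a) * q l + b * dq l) (i : ℕ) :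
    (fwdDiff 1)^[i + 1] q 0 = (u - 1) * (fwdDiff 1)^[i] q 0 +
      a * (i * ((fwdDiff 1)^[i] q 0 + (fwdDiff 1)^[i - 1] q 0)) + b * (fwdDiff 1)^[i] dq 0 := by
  rw [Function.iterate_succ_apply]
  have h1 : fwdDiff 1 q = fun l : ℕ => (u - 1) * q l + a * ((l : ℂ) * q l) + b * dq l := by
    funext l
    show q (l + 1) - q l = _
    rw [h l]
    ring
  rw [h1, rec_lin q (fun l : ℕ => (l : ℂ) * q l) dq, rec_leibniz0]

/-! ### The functions `Q_l` -/

private theorem rec_fc_eq_prod {r : ℕ} (h : 1 ≤ r) (n : ℕ) (z : ℂ) :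
    fc r n z = ∏ i, (1 + (yy r n i : ℂ) * z) := by
  unfold fc
  rw [yy_prod h n, pr, map_prod]
  refine Finset.prod_congr rfl fun i _ => ?_
  simp

private theorem rec_fc_ne {r : ℕ} (h : 1 ≤ r) (n : ℕ) {z : ℂ} (hz : 0 ≤ z.re) :
    fc r n z ≠ 0 := by
  rw [rec_fc_eq_prod h]
  refine Finset.prod_ne_zero_iff.2 fun i _ h0 => ?_
  have h1 := congrArg Complex.re h0
  have h2 := yy_pos r n i
  simp at h1
  nlinarith [mul_nonneg h2.le hz]

private theorem rec_re {x : ℝ} (hx : 0 < x) {ζ : ℂ} (hζ : ‖ζ‖ < 1) :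
    0 ≤ ((x : ℂ) * (1 + ζ)).re := by
  have h1 : |ζ.re| ≤ ‖ζ‖ := Complex.abs_re_le_norm ζ
  have h2 : -1 < ζ.re := by linarith [(abs_le.1 h1).1]
  simp
  exact mul_nonneg hx.le (by linarith)

private theorem rec_fc_succ (r n : ℕ) (z : ℂ) :
    fc r (n + 1) z = (1 + (NN r n : ℂ) * z) * fc r n z +
      z * (1 - z) * aeval z (derivative (rowP r n)) := by
  unfold fc
  rw [rowP, opA]
  simp only [map_add, map_mul, map_sub, map_one, map_natCast, map_pow, aeval_X, NN]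
  push_cast
  ring

private noncomputable def recQ (r n : ℕ) (x : ℝ) (l : ℕ) (ζ : ℂ) : ℂ :=
  fc r (n + l) (x * (1 + ζ)) / (fc r n (x * (1 + ζ)) * ((R r n x ^ l : ℝ) : ℂ))

private theorem rec_hasDeriv_fc (r n : ℕ) (x : ℝ) (ζ : ℂ) :
    HasDerivAt (fun ζ : ℂ => fc r n (x * (1 + ζ)))
      (aeval ((x : ℂ) * (1 + ζ)) (derivative (rowP r n)) * x) ζ := by
  have h1 : HasDerivAt (fun ζ : ℂ => (x : ℂ) * (1 + ζ)) x ζ := by
    have := ((hasDerivAt_id ζ).const_add 1).const_mul (x : ℂ)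
    simpa using this
  have h2 := (rowP r n).hasDerivAt_aeval ((x : ℂ) * (1 + ζ))
  exact h2.comp ζ h1

private theorem rec_hasDeriv_Q {r n : ℕ} {x : ℝ} (hr : 1 ≤ r) (hx : 0 < x) (hR : 0 < R r n x)
    (l : ℕ) {ζ : ℂ} (hζ : ‖ζ‖ < 1) :
    HasDerivAt (recQ r n x l)
      ((aeval ((x : ℂ) * (1 + ζ)) (derivative (rowP r (n + l))) * x *
          (fc r n (x * (1 + ζ)) * ((R r n x ^ l : ℝ) : ℂ)) -
        fc r (n + l) (x * (1 + ζ)) *
          (aeval ((x : ℂ) * (1 + ζ)) (derivative (rowP r n)) * x * ((R r n x ^ l : ℝ) : ℂ))) /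
        (fc r n (x * (1 + ζ)) * ((R r n x ^ l : ℝ) : ℂ)) ^ 2) ζ := by
  have hne := rec_fc_ne hr n (rec_re hx hζ)
  have hRl : ((R r n x ^ l : ℝ) : ℂ) ≠ 0 := by
    exact_mod_cast (pow_pos hR l).ne'
  exact (rec_hasDeriv_fc r (n + l) x ζ).div
    ((rec_hasDeriv_fc r n x ζ).mul_const ((R r n x ^ l : ℝ) : ℂ)) (mul_ne_zero hne hRl)

private theorem rec_Q_succ {r n : ℕ} {x : ℝ} (hr : 1 ≤ r) (hx : 0 < x) (hR : 0 < R r n x)
    (l : ℕ) {ζ : ℂ} (hζ : ‖ζ‖ < 1) :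
    recQ r n x (l + 1) ζ = (recQ r n x 1 ζ + l * ((r : ℂ) * x * (1 + ζ) / (R r n x : ℂ))) *
      recQ r n x l ζ + ((1 - x * (1 + ζ)) / (R r n x : ℂ) * (1 + ζ)) * deriv (recQ r n x l) ζ := by
  rw [(rec_hasDeriv_Q hr hx hR l hζ).deriv]
  have hne := rec_fc_ne hr n (rec_re hx hζ)
  have hR0 : (R r n x : ℂ) ≠ 0 := by exact_mod_cast hR.ne'
  unfold recQ
  rw [show n + (l + 1) = n + l + 1 from rfl, rec_fc_succ r (n + l), rec_fc_succ r n]
  simp only [NN]
  push_cast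
  field_simp
  ring

private theorem rec_Ph (r n : ℕ) (x : ℝ) (i : ℕ) (ζ : ℂ) :
    Ph r n x i ζ = ((R r n x / D r n x : ℝ) : ℂ) ^ i *
      (fwdDiff 1)^[i] (fun l => recQ r n x l ζ) 0 := by
  rw [← rec_sum]
  rfl

private theorem rec_hasDeriv_Ph {r n : ℕ} {x : ℝ} (hr : 1 ≤ r) (hx : 0 < x) (hR : 0 < R r n x)
    (i : ℕ) {ζ : ℂ} (hζ : ‖ζ‖ < 1) :
    HasDerivAt (Ph r n x i) (((R r n x / D r n x : ℝ) : ℂ) ^ i *
      (fwdDiff 1)^[i] (fun l => deriv (recQ r n x l) ζ) 0) ζ := by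
  rw [← rec_sum]
  have h1 : Ph r n x i = fun ζ => ((R r n x / D r n x : ℝ) : ℂ) ^ i *
      ∑ l ∈ Finset.range (i + 1), (-1) ^ (i - l) * (i.choose l : ℂ) * recQ r n x l ζ := rfl
  rw [h1]
  refine HasDerivAt.const_mul _ (HasDerivAt.fun_sum fun l _ => ?_)
  have h2 := rec_hasDeriv_Q hr hx hR l hζ
  rw [h2.deriv]
  exact h2.const_mul _

/-- REC. -/
theorem recS : RecSt := by
  intro r n x hr hx hR hD
  refine ⟨fun ζ hζ => rec_fc_ne hr n (rec_re hx hζ), fun i => ⟨fun ζ hζ => ?_, fun ζ hζ => ?_⟩⟩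
  · have h1 : ‖ζ‖ < 1 := by simpa using hζ
    exact (rec_hasDeriv_Ph hr hx hR i h1).differentiableAt.differentiableWithinAt
  · have hne := rec_fc_ne hr n (rec_re hx hζ)
    have hR0 : (R r n x : ℂ) ≠ 0 := by exact_mod_cast hR.ne'
    have hD0 : (D r n x : ℂ) ≠ 0 := by exact_mod_cast hD.ne'
    have h0 : recQ r n x 0 ζ = 1 := by
      unfold recQ
      simp [hne]
    have hd := rec_diff (fun l => recQ r n x l ζ) (fun l => deriv (recQ r n x l) ζ)
      (recQ r n x 1 ζ) ((r : ℂ) * x * (1 + ζ) / (R r n x : ℂ))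
      ((1 - x * (1 + ζ)) / (R r n x : ℂ) * (1 + ζ)) (fun l => rec_Q_succ hr hx hR l hζ) i
    have h1 : Ph r n x 1 ζ = ((R r n x / D r n x : ℝ) : ℂ) * (recQ r n x 1 ζ - 1) := by
      rw [rec_Ph]
      simp [fwdDiff, h0]
    rw [rec_Ph r n x (i + 1), hd, (rec_hasDeriv_Ph hr hx hR i hζ).deriv, h1, rec_Ph r n x i]
    have hκ : ((R r n x / D r n x : ℝ) : ℂ) = (R r n x : ℂ) / (D r n x : ℂ) := by push_cast; rfl
    cases i with
    | zero =>
      simp only [Nat.cast_zero, zero_mul, mul_zero, add_zero, pow_zero, one_mul, zero_add, pow_one]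
      rw [hκ]
      field_simp
      ring
    | succ i =>
      rw [Nat.add_sub_cancel, rec_Ph r n x i, pow_succ _ (i + 1), pow_succ _ i]
      generalize ((R r n x / D r n x : ℝ) : ℂ) ^ i = t
      generalize (fwdDiff 1)^[i + 1] (fun l => recQ r n x l ζ) 0 = A1
      generalize (fwdDiff 1)^[i + 1] (fun l => deriv (recQ r n x l) ζ) 0 = A2
      generalize (fwdDiff 1)^[i] (fun l => recQ r n x l ζ) 0 = A3
      rw [hκ]
      push_cast
      field_simp
      ring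

end Pool.Agent.H37.ATR
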