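import Pool.Agent.H37.ATR.Spec

/-!
# RIGHT: the right edge of the triangle of order `r`

For a fixed distance `c` from the right end, `v n c = E(n+1,n-c)/E(n+1,n)` is asymptotic to
`v n 1 ^ c / c!`; the scaled matrices tend to `1/(c+i-j)!`, whose determinant is a Vandermonde
determinant up to positive factors.
-/

set_option autoImplicit false

open Filter Polynomial Finset Asymptotics
open scoped Topology Nat

namespace Pool.Agent.H37.ATR

open Pool.Agent.H73.TP

/-! ### The recursion from the right end -/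

/-- Entries counted from the right end. -/
noncomputable def rb (r n c : ℕ) : ℝ := if c ≤ n then ar r n (n - c) else 0

/-- The factor `(r - 1) (n + 1) + 1`. -/
noncomputable def rs (r n : ℕ) : ℝ := ((r : ℝ) - 1) * (n + 1) + 1

theorem rb_succ_zero (r n : ℕ) (hr : 1 ≤ r) : rb r (n + 1) 0 = rs r n * rb r n 0 := by
  have h0 : (rowP r n).coeff (n + 1) = 0 := rowP_zero r hr n (n + 1) (Nat.lt_succ_self n)
  simp only [rb, Nat.zero_le, if_true, Nat.sub_zero, ar, rs]
  rw [rowP, opA_coeff_succ, h0]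
  ring

theorem rb_succ_succ (r n c : ℕ) : rb r (n + 1) (c + 1) =
    (rs r n + (c + 1)) * rb r n (c + 1) + ((n : ℝ) + 1 - c) * rb r n c := by
  rcases Nat.lt_trichotomy c n with hc | hc | hc
  · obtain ⟨d, rfl⟩ : ∃ d, n = c + 1 + d := ⟨n - (c + 1), by omega⟩
    have e1 : c + 1 + d + 1 - (c + 1) = d + 1 := by omega
    have e2 : c + 1 + d - (c + 1) = d := by omega
    have e3 : c + 1 + d - c = d + 1 := by omega
    rw [rb, if_pos (by omega), rb, if_pos (by omega), rb, if_pos (by omega), e1, e2, e3]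
    simp only [ar, rs]
    rw [rowP, opA_coeff_succ]
    push_cast
    ring
  · subst hc
    rw [rb, if_pos le_rfl, rb, if_neg (by omega), rb, if_pos le_rfl]
    simp only [ar, Nat.sub_self]
    rw [rowP, opA_coeff_zero]
    ring
  · rw [rb, if_neg (by omega), rb, if_neg (by omega), rb, if_neg (by omega)]
    ring

theorem rb_pos (r n c : ℕ) (hr : 1 ≤ r) (hc : c ≤ n) : 0 < rb r n c := by
  rw [rb, if_pos hc]
  exact rowP_pos r hr n (n - c) (by omega)

/-- The matrix entries in terms of `rb`. -/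
theorem ar_rb (r n c i j : ℕ) (hr : 1 ≤ r) (hc : c ≤ n) :
    ar r (n + i) (n - c + j) = if j ≤ c + i then rb r (n + i) (c + i - j) else 0 := by
  by_cases h : j ≤ c + i
  · rw [if_pos h, rb, if_pos (by omega)]
    congr 1
    omega
  · rw [if_neg h]
    exact rowP_zero r hr _ _ (by omega)

/-! ### Analysis of the recursion -/

/-- The hypotheses of the recursion of the first column from the right. -/
structure RHyp (s Λ : ℕ → ℝ) (ρ : ℝ) : Prop where
  rho : 0 < ρ
  lo : ∀ n : ℕ, (n : ℝ) + 2 ≤ s n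
  hi : ∀ n : ℕ, s n ≤ ρ * (n + 1)
  z : Λ 0 = 0
  st : ∀ n : ℕ, Λ (n + 1) = (1 + 1 / s n) * Λ n + (n + 1) / s n

namespace RHyp

variable {s Λ : ℕ → ℝ} {ρ : ℝ} (H : RHyp s Λ ρ)

include H

theorem spos (n : ℕ) : 0 < s n := by
  have := H.lo n
  have h2 : (0 : ℝ) ≤ n := Nat.cast_nonneg n
  linarith

theorem nonneg : ∀ n, 0 ≤ Λ n
  | 0 => H.z.ge
  | n + 1 => by
    rw [H.st n]
    have := nonneg n
    have := H.spos n
    positivity

theorem b_le (n : ℕ) : ((n : ℝ) + 1) / s n ≤ 1 := by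
  rw [div_le_one (H.spos n)]
  linarith [H.lo n]

theorem b_ge (n : ℕ) : 1 / ρ ≤ ((n : ℝ) + 1) / s n := by
  rw [div_le_div_iff₀ H.rho (H.spos n)]
  linarith [H.hi n]

theorem ppos (n : ℕ) : 0 < ∏ l ∈ range n, (1 + 1 / s l) :=
  prod_pos fun l _ => by have := H.spos l; positivity

theorem one_le_p : ∀ n, 1 ≤ ∏ l ∈ range n, (1 + 1 / s l)
  | 0 => by simp
  | n + 1 => by
    rw [prod_range_succ]
    have h1 := one_le_p n
    have h2 : 0 ≤ 1 / s n := by have := H.spos n; positivity
    nlinarith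

theorem p_le : ∀ n : ℕ, ∏ l ∈ range n, (1 + 1 / s l) ≤ ((n : ℝ) + 2) / 2
  | 0 => by simp
  | n + 1 => by
    rw [prod_range_succ]
    have h1 := p_le n
    have h2 : 1 / s n ≤ 1 / ((n : ℝ) + 2) :=
      one_div_le_one_div_of_le (by positivity) (H.lo n)
    have h3 := H.ppos n
    calc (∏ l ∈ range n, (1 + 1 / s l)) * (1 + 1 / s n)
        ≤ (((n : ℝ) + 2) / 2) * (1 + 1 / ((n : ℝ) + 2)) := by
          have h4 : 0 ≤ 1 / s n := by have := H.spos n; positivity
          apply mul_le_mul h1 (by linarith) (by linarith) (by positivity)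
      _ = (((n + 1 : ℕ) : ℝ) + 2) / 2 := by
          push_cast
          field_simp
          ring

theorem ratio_sum : ∀ n : ℕ, Λ n / ∏ l ∈ range n, (1 + 1 / s l) =
    ∑ i ∈ range n, (((i : ℝ) + 1) / s i) / ∏ l ∈ range (i + 1), (1 + 1 / s l)
  | 0 => by simp [H.z]
  | n + 1 => by
    rw [sum_range_succ, ← ratio_sum n, H.st n, prod_range_succ]
    have h1 := H.ppos n
    have h2 := H.spos n
    have h3 : 0 < 1 + 1 / s n := by positivity
    rw [add_div, mul_comm (1 + 1 / s n) (Λ n), mul_div_mul_right _ _ h3.ne']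

theorem ratio_tendsto :
    Tendsto (fun n => Λ n / ∏ l ∈ range n, (1 + 1 / s l)) atTop atTop := by
  have h0 : Tendsto (fun n => 2 / (3 * ρ) * ∑ i ∈ range n, (1 / ((i : ℝ) + 1))) atTop atTop :=
    Real.tendsto_sum_range_one_div_nat_succ_atTop.const_mul_atTop
      (by have := H.rho; positivity)
  refine tendsto_atTop_mono (fun n => ?_) h0
  rw [H.ratio_sum n, mul_sum]
  refine sum_le_sum fun i _ => ?_
  have h1 := H.ppos (i + 1)
  have h2 := H.p_le (i + 1)
  have h3 := H.b_ge i
  have h4 := H.rho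
  have hi : (0 : ℝ) ≤ i := Nat.cast_nonneg i
  rw [le_div_iff₀ h1]
  calc 2 / (3 * ρ) * (1 / ((i : ℝ) + 1)) * ∏ l ∈ range (i + 1), (1 + 1 / s l)
      ≤ 2 / (3 * ρ) * (1 / ((i : ℝ) + 1)) * ((((i + 1 : ℕ) : ℝ) + 2) / 2) := by
        apply mul_le_mul_of_nonneg_left h2 (by positivity)
    _ ≤ 1 / ρ := by
        push_cast
        rw [div_mul_div_comm, div_mul_div_comm, div_le_div_iff₀ (by positivity) h4]
        nlinarith [mul_nonneg h4.le hi]
    _ ≤ _ := h3

theorem tendsto_L : Tendsto Λ atTop atTop := by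
  refine tendsto_atTop_mono (fun n => ?_) H.ratio_tendsto
  rw [div_le_iff₀ (H.ppos n)]
  have h1 := H.one_le_p n
  have h2 := H.nonneg n
  nlinarith

theorem L_le : ∀ n : ℕ, Λ n ≤ ((n : ℝ) + 2) * ∑ i ∈ range n, (1 / ((i : ℝ) + 1))
  | 0 => by simp [H.z]
  | n + 1 => by
    rw [H.st n, sum_range_succ]
    have h1 := L_le n
    have h2 : 1 / s n ≤ 1 / ((n : ℝ) + 2) :=
      one_div_le_one_div_of_le (by positivity) (H.lo n)
    have h3 := H.b_le n
    have h4 := H.nonneg n
    have hn : (0 : ℝ) ≤ n := Nat.cast_nonneg n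
    set S := ∑ i ∈ range n, (1 / ((i : ℝ) + 1)) with hS
    calc (1 + 1 / s n) * Λ n + ((n : ℝ) + 1) / s n
        ≤ (1 + 1 / ((n : ℝ) + 2)) * (((n : ℝ) + 2) * S) + 1 := by
          have h5 : (1 + 1 / s n) * Λ n ≤ (1 + 1 / ((n : ℝ) + 2)) * (((n : ℝ) + 2) * S) :=
            mul_le_mul (by linarith) h1 h4 (by positivity)
          linarith
      _ = ((n : ℝ) + 3) * S + 1 := by field_simp; ring
      _ ≤ ((((n + 1 : ℕ) : ℝ)) + 2) * (S + 1 / ((n : ℝ) + 1)) := by
          push_cast
          have h6 : 1 ≤ ((n : ℝ) + 3) * (1 / ((n : ℝ) + 1)) := by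
            rw [mul_one_div, le_div_iff₀ (by positivity)]
            linarith
          nlinarith

theorem tendsto_quot : Tendsto (fun n => Λ n / s n ^ 2) atTop (𝓝 0) := by
  have h0 : Tendsto (fun n : ℕ => ((n : ℝ)⁻¹ * ∑ i ∈ range n, (1 / ((i : ℝ) + 1)))) atTop
      (𝓝 0) := tendsto_one_div_add_atTop_nhds_zero_nat.cesaro
  refine squeeze_zero' (Eventually.of_forall fun n => ?_)
    ((eventually_ge_atTop 1).mono fun n hn => ?_) h0
  · have := H.nonneg n
    positivity
  · have hn' : (1 : ℝ) ≤ n := by exact_mod_cast hn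
    have h1 := H.L_le n
    have h2 := H.lo n
    have h3 : 0 ≤ ∑ i ∈ range n, (1 / ((i : ℝ) + 1)) := sum_nonneg fun i _ => by positivity
    have h4 := H.spos n
    rw [inv_mul_eq_div, div_le_div_iff₀ (by positivity) (by linarith)]
    calc Λ n * n ≤ (((n : ℝ) + 2) * ∑ i ∈ range n, (1 / ((i : ℝ) + 1))) * (n + 2) := by
          apply mul_le_mul h1 (by linarith) (by linarith) (by positivity)
      _ = (∑ i ∈ range n, (1 / ((i : ℝ) + 1))) * ((n : ℝ) + 2) ^ 2 := by ring
      _ ≤ _ := by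
          apply mul_le_mul_of_nonneg_left _ h3
          exact pow_le_pow_left₀ (by positivity) h2 2

theorem tendsto_inv_s : Tendsto (fun n => 1 / s n) atTop (𝓝 0) := by
  have h0 : Tendsto (fun n : ℕ => 1 / ((n : ℝ) + 1)) atTop (𝓝 0) :=
    tendsto_one_div_add_atTop_nhds_zero_nat
  refine squeeze_zero (fun n => ?_) (fun n => ?_) h0
  · have := H.spos n
    positivity
  · exact one_div_le_one_div_of_le (by positivity) (by linarith [H.lo n])

theorem tendsto_inv_L : Tendsto (fun n => 1 / Λ n) atTop (𝓝 0) := by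
  refine H.tendsto_L.inv_tendsto_atTop.congr fun n => ?_
  rw [Pi.inv_apply, one_div]

theorem tendsto_b_div : Tendsto (fun n : ℕ => ((n : ℝ) + 1) / s n / Λ n) atTop (𝓝 0) := by
  refine squeeze_zero' (Eventually.of_forall fun n => ?_)
    ((H.tendsto_L.eventually_ge_atTop 1).mono fun n hn => ?_) H.tendsto_inv_L
  · have := H.spos n
    have := H.nonneg n
    positivity
  · exact div_le_div_of_nonneg_right (H.b_le n) (by linarith)

theorem tendsto_succ : Tendsto (fun n => Λ (n + 1) / Λ n) atTop (𝓝 1) := by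
  have h1 : Tendsto (fun n : ℕ => 1 + 1 / s n + ((n : ℝ) + 1) / s n / Λ n) atTop
      (𝓝 (1 + 0 + 0)) := (tendsto_const_nhds.add H.tendsto_inv_s).add H.tendsto_b_div
  rw [add_zero, add_zero] at h1
  refine h1.congr' ((H.tendsto_L.eventually_ge_atTop 1).mono fun n hn => ?_)
  have h2 : 0 < Λ n := by linarith
  show _ = Λ (n + 1) / Λ n
  rw [H.st n, add_div ((1 + 1 / s n) * Λ n) _ (Λ n), mul_div_assoc, div_self h2.ne', mul_one]

theorem tendsto_add : ∀ i : ℕ, Tendsto (fun n => Λ (n + i) / Λ n) atTop (𝓝 1)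
  | 0 => by
    refine tendsto_const_nhds.congr' ((H.tendsto_L.eventually_ge_atTop 1).mono fun n hn => ?_)
    have h2 : 0 < Λ n := by linarith
    show _ = Λ (n + 0) / Λ n
    rw [add_zero, div_self h2.ne']
  | i + 1 => by
    have h1 := (H.tendsto_succ.comp (tendsto_add_atTop_nat i)).mul (tendsto_add i)
    rw [mul_one] at h1
    refine h1.congr' ((((tendsto_add_atTop_iff_nat i).2 H.tendsto_L).eventually_ge_atTop 1).mono
      fun n hn => ?_)
    have h2 : 0 < Λ (n + i) := by linarith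
    simp only [Function.comp_apply]
    rw [div_mul_div_cancel₀ h2.ne', add_assoc]

end RHyp

/-- Second order bound for a power. -/
theorem pow_bound (d : ℕ) : ∃ K : ℝ, 0 ≤ K ∧ ∀ ε : ℝ, 0 ≤ ε → ε ≤ 1 →
    1 + d * ε ≤ (1 + ε) ^ d ∧ (1 + ε) ^ d ≤ 1 + d * ε + K * ε ^ 2 := by
  induction d with
  | zero => exact ⟨0, le_rfl, fun ε _ _ => by simp⟩
  | succ d ih =>
    obtain ⟨K, hK, h⟩ := ih
    refine ⟨d + 2 * K, by positivity, fun ε h0 h1 => ?_⟩
    obtain ⟨ha, hb⟩ := h ε h0 h1
    have hd : (0 : ℝ) ≤ d := Nat.cast_nonneg d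
    push_cast
    rw [pow_succ]
    have hε2 : 0 ≤ ε ^ 2 := sq_nonneg ε
    constructor
    · calc 1 + ((d : ℝ) + 1) * ε ≤ (1 + d * ε) * (1 + ε) := by nlinarith [mul_nonneg hd hε2]
        _ ≤ _ := mul_le_mul_of_nonneg_right ha (by linarith)
    · calc (1 + ε) ^ d * (1 + ε) ≤ (1 + d * ε + K * ε ^ 2) * (1 + ε) :=
          mul_le_mul_of_nonneg_right hb (by linarith)
        _ = 1 + ((d : ℝ) + 1) * ε + (d * ε ^ 2 + K * ε ^ 2 + K * ε ^ 2 * ε) := by ring
        _ ≤ 1 + ((d : ℝ) + 1) * ε + (d * ε ^ 2 + K * ε ^ 2 + K * ε ^ 2 * 1) := by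
          have : K * ε ^ 2 * ε ≤ K * ε ^ 2 * 1 :=
            mul_le_mul_of_nonneg_left h1 (mul_nonneg hK hε2)
          linarith
        _ = _ := by ring

/-- The induction step: if `v n c` is asymptotic to `Λ n ^ c / c!` then the same holds for
`c + 1`. -/
theorem step {s Λ : ℕ → ℝ} {ρ : ℝ} (H : RHyp s Λ ρ) (c : ℕ) (x y : ℕ → ℝ) (hy0 : y 0 = 0)
    (hy : ∀ n : ℕ, y (n + 1) = (1 + ((c : ℝ) + 1) / s n) * y n
      + (((n : ℝ) + 1 - c) / s n) * x n)
    (hx : x ~[atTop] fun n => Λ n ^ c / c !) :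
    y ~[atTop] fun n => Λ n ^ (c + 1) / (c + 1)! := by
  set z : ℕ → ℝ := fun n => Λ n ^ (c + 1) / (c + 1)! with hz
  set q : ℕ → ℝ := fun n => 1 + ((c : ℝ) + 1) / s n with hq
  set g : ℕ → ℝ := fun n => (((n : ℝ) + 1 - c) / s n) * x n with hg
  set h : ℕ → ℝ := fun n => z (n + 1) - q n * z n with hh
  set u : ℕ → ℝ := fun n => (((n : ℝ) + 1) / s n) * (Λ n ^ c / c !) with hu
  set Q : ℕ → ℝ := fun n => ∏ l ∈ range n, q l with hQ
  have hqpos : ∀ n, 0 < q n := fun n => by have := H.spos n; positivity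
  have hQpos : ∀ n, 0 < Q n := fun n => prod_pos fun l _ => hqpos l
  have hQs : ∀ n, Q (n + 1) = Q n * q n := fun n => prod_range_succ _ _
  have hfac : ((c + 1)! : ℝ) = (c + 1) * c ! := by rw [Nat.factorial_succ]; push_cast; ring
  have hcf : (0 : ℝ) < c ! := by exact_mod_cast Nat.factorial_pos c
  have hcf1 : (0 : ℝ) < (c + 1)! := by exact_mod_cast Nat.factorial_pos (c + 1)
  have hev : ∀ᶠ n in atTop, 1 ≤ Λ n := H.tendsto_L.eventually_ge_atTop 1
  -- the increments of `z` are nonnegative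
  have hh0 : ∀ n, 0 ≤ h n := by
    intro n
    have h1 := H.spos n
    have h2 := H.nonneg n
    have h3 : (1 + 1 / s n) * Λ n ≤ Λ (n + 1) := by
      rw [H.st n]
      have : 0 ≤ ((n : ℝ) + 1) / s n := by positivity
      linarith
    have h4 : ((1 + 1 / s n) * Λ n) ^ (c + 1) ≤ Λ (n + 1) ^ (c + 1) :=
      pow_le_pow_left₀ (by positivity) h3 _
    have h5 : 1 + ((c + 1 : ℕ) : ℝ) * (1 / s n) ≤ (1 + 1 / s n) ^ (c + 1) :=
      one_add_mul_le_pow (by have : 0 ≤ 1 / s n := by positivity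
                             linarith) _
    rw [mul_pow] at h4
    have h6 : (1 + ((c + 1 : ℕ) : ℝ) * (1 / s n)) * Λ n ^ (c + 1) ≤ Λ (n + 1) ^ (c + 1) :=
      (mul_le_mul_of_nonneg_right h5 (by positivity)).trans h4
    have h7 : q n * z n = (1 + ((c + 1 : ℕ) : ℝ) * (1 / s n)) * Λ n ^ (c + 1) / (c + 1)! := by
      simp only [hq, hz]
      push_cast
      ring
    simp only [hh]
    rw [h7, sub_nonneg]
    exact div_le_div_of_nonneg_right h6 hcf1.le
  -- `g ~ u`
  have hgu : g ~[atTop] u := by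
    have h1 : (fun n : ℕ => ((n : ℝ) + 1 - c) / s n) ~[atTop]
        fun n : ℕ => ((n : ℝ) + 1) / s n := by
      refine isEquivalent_of_tendsto_one ?_
      have h2 : Tendsto (fun n : ℕ => 1 - (c : ℝ) * (1 / ((n : ℝ) + 1))) atTop
          (𝓝 (1 - c * 0)) :=
        tendsto_const_nhds.sub (tendsto_one_div_add_atTop_nhds_zero_nat.const_mul _)
      rw [mul_zero, sub_zero] at h2
      refine h2.congr fun n => ?_
      have := H.spos n
      simp only [Pi.div_apply]
      have hn : (0 : ℝ) < (n : ℝ) + 1 := by positivity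
      field_simp
    exact h1.mul hx
  -- `h ~ u`
  have hhu : h ~[atTop] u := by
    obtain ⟨K, hK, hb⟩ := pow_bound (c + 1)
    have hlim : Tendsto (fun n => K * ρ * (2 * (Λ n / s n ^ 2 + 1 / Λ n))) atTop (𝓝 0) := by
      have := ((H.tendsto_quot.add H.tendsto_inv_L).const_mul 2).const_mul (K * ρ)
      simpa using this
    refine isEquivalent_of_tendsto_one ?_
    have hmain : ∀ᶠ n in atTop, ‖(h / u) n - 1‖ ≤ K * ρ * (2 * (Λ n / s n ^ 2 + 1 / Λ n)) := by
      filter_upwards [H.tendsto_L.eventually_ge_atTop 2] with n hn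
      have hs := H.spos n
      have hs2 : 2 ≤ s n := by
        have := H.lo n
        have h2 : (0 : ℝ) ≤ n := Nat.cast_nonneg n
        linarith
      have hL : 0 < Λ n := by linarith
      have hρ := H.rho
      set b : ℝ := ((n : ℝ) + 1) / s n with hbdef
      have hb1 : b ≤ 1 := H.b_le n
      have hb2 : 1 / ρ ≤ b := H.b_ge n
      have hb0 : 0 < b := lt_of_lt_of_le (by positivity) hb2
      set ε : ℝ := 1 / s n + b / Λ n with hε
      have hε0 : 0 ≤ ε := by positivity
      have hε1 : ε ≤ 1 := by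
        have e1 : 1 / s n ≤ 1 / 2 := one_div_le_one_div_of_le (by norm_num) hs2
        have e2 : b / Λ n ≤ 1 / 2 := by
          rw [div_le_div_iff₀ hL (by norm_num)]
          linarith
        linarith
      obtain ⟨hlo, hup⟩ := hb ε hε0 hε1
      have hzn : Λ (n + 1) = (1 + ε) * Λ n := by
        have e0 : Λ (n + 1) = (1 + 1 / s n) * Λ n + b := H.st n
        rw [e0, hε]
        field_simp
        ring
      have hval : (h / u) n = 1 + ((1 + ε) ^ (c + 1) - 1 - ((c + 1 : ℕ) : ℝ) * ε) * Λ n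
          / (((c : ℝ) + 1) * b) := by
        simp only [Pi.div_apply, hh, hz, hq, hu, ← hbdef]
        rw [hzn, mul_pow, hfac]
        have hne : ((c : ℝ) + 1) ≠ 0 := by positivity
        have hε' : ((c + 1 : ℕ) : ℝ) * ε = ((c : ℝ) + 1) / s n + ((c : ℝ) + 1) * b / Λ n := by
          rw [hε]
          push_cast
          field_simp
        rw [hε', pow_succ (Λ n) c]
        field_simp
        ring
      rw [hval, add_sub_cancel_left, Real.norm_eq_abs, abs_of_nonneg]
      · have e3 : ((1 + ε) ^ (c + 1) - 1 - ((c + 1 : ℕ) : ℝ) * ε) ≤ K * ε ^ 2 := by linarith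
        have e4 : ε ^ 2 ≤ 2 * ((1 / s n) ^ 2 + (b / Λ n) ^ 2) := by
          rw [hε]
          nlinarith [sq_nonneg (1 / s n - b / Λ n)]
        have e5 : (b / Λ n) ^ 2 * Λ n ≤ 1 / Λ n := by
          have : (b / Λ n) ^ 2 * Λ n = b ^ 2 / Λ n := by
            field_simp
          rw [this]
          exact div_le_div_of_nonneg_right (by nlinarith) hL.le
        have e6 : ε ^ 2 * Λ n ≤ 2 * (Λ n / s n ^ 2 + 1 / Λ n) := by
          calc ε ^ 2 * Λ n ≤ 2 * ((1 / s n) ^ 2 + (b / Λ n) ^ 2) * Λ n :=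
                mul_le_mul_of_nonneg_right e4 hL.le
            _ = 2 * (Λ n / s n ^ 2 + (b / Λ n) ^ 2 * Λ n) := by field_simp
            _ ≤ _ := by linarith
        have e7 : 1 / (((c : ℝ) + 1) * b) ≤ ρ := by
          rw [div_le_iff₀ (by positivity)]
          have hc0 : (0 : ℝ) ≤ c := Nat.cast_nonneg c
          have e8 : 1 ≤ ρ * b := by
            have := mul_le_mul_of_nonneg_left hb2 hρ.le
            rwa [mul_one_div_cancel hρ.ne'] at this
          have e9 : 0 ≤ (c : ℝ) * (ρ * b) := by positivity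
          nlinarith
        calc ((1 + ε) ^ (c + 1) - 1 - ((c + 1 : ℕ) : ℝ) * ε) * Λ n / (((c : ℝ) + 1) * b)
            ≤ (K * ε ^ 2) * Λ n / (((c : ℝ) + 1) * b) := by
              apply div_le_div_of_nonneg_right _ (by positivity)
              exact mul_le_mul_of_nonneg_right e3 hL.le
          _ = K * (ε ^ 2 * Λ n) * (1 / (((c : ℝ) + 1) * b)) := by ring
          _ ≤ K * (2 * (Λ n / s n ^ 2 + 1 / Λ n)) * ρ := by
              apply mul_le_mul _ e7 (by positivity) (by positivity)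
              exact mul_le_mul_of_nonneg_left e6 hK
          _ = _ := by ring
      · have e3 : 0 ≤ ((1 + ε) ^ (c + 1) - 1 - ((c + 1 : ℕ) : ℝ) * ε) := by linarith
        positivity
    have h1 : Tendsto (fun n => (h / u) n - 1) atTop (𝓝 0) :=
      squeeze_zero_norm' hmain hlim
    have h2 := h1.add_const 1
    rw [zero_add] at h2
    exact h2.congr fun n => sub_add_cancel _ _
  have hgh : (fun n => g n - h n) =o[atTop] h := (hgu.trans hhu.symm)
  -- sums
  have hF : (fun n => (g n - h n) * (Q (n + 1))⁻¹) =o[atTop] fun n => h n * (Q (n + 1))⁻¹ :=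
    hgh.mul_isBigO (isBigO_refl _ _)
  have hsumz : ∀ n, z n / Q n = ∑ l ∈ range n, h l * (Q (l + 1))⁻¹ := by
    intro n
    induction n with
    | zero => simp [hz, H.z]
    | succ n ih =>
      rw [sum_range_succ, ← ih]
      have e1 := hQpos n
      have e2 := hqpos n
      have e3 : z (n + 1) = q n * z n + h n := by simp only [hh]; ring
      rw [e3, hQs]
      field_simp
  have hsumy : ∀ n, y n / Q n = ∑ l ∈ range n, g l * (Q (l + 1))⁻¹ := by
    intro n
    induction n with
    | zero => simp [hy0]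
    | succ n ih =>
      rw [sum_range_succ, ← ih]
      have e1 := hQpos n
      have e2 := hqpos n
      have e3 : y (n + 1) = q n * y n + g n := hy n
      rw [e3, hQs]
      field_simp
  have hdiv : Tendsto (fun n => ∑ l ∈ range n, h l * (Q (l + 1))⁻¹) atTop atTop := by
    have h1 : Tendsto (fun n => (Λ n / ∏ l ∈ range n, (1 + 1 / s l)) ^ (c + 1) *
        (1 / ((c + 1)! : ℝ))) atTop atTop :=
      ((tendsto_pow_atTop (Nat.succ_ne_zero c)).comp H.ratio_tendsto).atTop_mul_const
        (by positivity)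
    refine tendsto_atTop_mono (fun n => ?_) h1
    rw [← hsumz n]
    have e1 : Q n ≤ (∏ l ∈ range n, (1 + 1 / s l)) ^ (c + 1) := by
      rw [← prod_pow]
      refine prod_le_prod (fun l _ => (hqpos l).le) fun l _ => ?_
      have := H.spos l
      have e2 : 1 + ((c + 1 : ℕ) : ℝ) * (1 / s l) ≤ (1 + 1 / s l) ^ (c + 1) :=
        one_add_mul_le_pow (by have : 0 ≤ 1 / s l := by positivity
                               linarith) _
      refine le_trans (le_of_eq ?_) e2
      simp only [hq]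
      push_cast
      ring
    have e3 := H.nonneg n
    have e4 := H.ppos n
    have e5 := hQpos n
    simp only [hz]
    rw [div_pow, div_mul_div_comm, mul_one, div_div, mul_comm ((c + 1)! : ℝ) (Q n)]
    apply div_le_div_of_nonneg_left (by positivity) (by positivity)
    exact mul_le_mul_of_nonneg_right e1 hcf1.le
  have hS := hF.sum_range (fun n => mul_nonneg (hh0 n) (inv_nonneg.2 (hQpos _).le)) hdiv
  have hS2 : (fun n => (y n - z n) / Q n) =o[atTop] fun n => z n / Q n := by
    refine (hS.congr (fun n => ?_) fun n => ?_)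
    · rw [sub_div, hsumy n, hsumz n, ← sum_sub_distrib]
      exact sum_congr rfl fun l _ => by ring
    · exact (hsumz n).symm
  have hS3 := hS2.mul_isBigO (isBigO_refl Q atTop)
  refine (hS3.congr (fun n => ?_) fun n => ?_)
  · have := hQpos n
    simp only [Pi.sub_apply]
    field_simp
  · have := hQpos n
    simp only [hz]
    field_simp

/-! ### The columns from the right -/

/-- Normalised entries. -/
noncomputable def rv (r n c : ℕ) : ℝ := rb r n c / rb r n 0

theorem rs_lo (r n : ℕ) (hr : 2 ≤ r) : (n : ℝ) + 2 ≤ rs r n := by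
  have h1 : (2 : ℝ) ≤ r := by exact_mod_cast hr
  have h2 : (0 : ℝ) ≤ n := Nat.cast_nonneg n
  unfold rs
  nlinarith

theorem rs_hi (r n : ℕ) : rs r n ≤ r * ((n : ℝ) + 1) := by
  have h2 : (0 : ℝ) ≤ n := Nat.cast_nonneg n
  unfold rs
  nlinarith

theorem rv_zero (r n : ℕ) (hr : 1 ≤ r) : rv r n 0 = 1 :=
  div_self (rb_pos r n 0 hr (Nat.zero_le n)).ne'

theorem rv_start (r c : ℕ) : rv r 0 (c + 1) = 0 := by
  rw [rv, rb, if_neg (by omega), zero_div]

theorem rv_succ (r n c : ℕ) (hr : 2 ≤ r) : rv r (n + 1) (c + 1) =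
    (1 + ((c : ℝ) + 1) / rs r n) * rv r n (c + 1) + (((n : ℝ) + 1 - c) / rs r n) * rv r n c := by
  have h1 : 0 < rs r n := by
    have := rs_lo r n hr
    have h2 : (0 : ℝ) ≤ n := Nat.cast_nonneg n
    linarith
  have h2 := rb_pos r n 0 (by omega) (Nat.zero_le n)
  rw [rv, rv, rv, rb_succ_succ, rb_succ_zero r n (by omega)]
  field_simp

theorem rhyp (r : ℕ) (hr : 2 ≤ r) : RHyp (rs r) (fun n => rv r n 1) r where
  rho := by exact_mod_cast (by omega : 0 < r)
  lo n := rs_lo r n hr
  hi n := rs_hi r n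
  z := rv_start r 0
  st n := by
    have h := rv_succ r n 0 hr
    rw [rv_zero r n (by omega)] at h
    rw [h]
    push_cast
    ring

theorem rv_equiv (r : ℕ) (hr : 2 ≤ r) : ∀ c : ℕ,
    (fun n => rv r n c) ~[atTop] fun n => rv r n 1 ^ c / c !
  | 0 => by
    have h : (fun n => rv r n 0) = fun n => rv r n 1 ^ 0 / 0 ! := by
      funext n
      rw [rv_zero r n (by omega)]
      simp
    rw [h]
  | c + 1 => step (rhyp r hr) c (fun n => rv r n c) (fun n => rv r n (c + 1)) (rv_start r c)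
      (fun n => rv_succ r n c hr) (rv_equiv r hr c)

/-- The limit of the scaled entries. -/
theorem rv_tendsto (r c i : ℕ) (hr : 2 ≤ r) :
    Tendsto (fun n => rv r (n + i) c / rv r n 1 ^ c) atTop (𝓝 (1 / c !)) := by
  have H := rhyp r hr
  have hcf : (0 : ℝ) < c ! := by exact_mod_cast Nat.factorial_pos c
  have h1 : Tendsto (fun n => rv r n c / rv r n 1 ^ c) atTop (𝓝 (1 / c !)) := by
    have h2 : ∀ᶠ n in atTop, rv r n 1 ^ c / (c ! : ℝ) ≠ 0 :=
      (H.tendsto_L.eventually_ge_atTop 1).mono fun n hn => by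
        have : (0 : ℝ) < rv r n 1 := by linarith
        positivity
    have h3 := (isEquivalent_iff_tendsto_one h2).1 (rv_equiv r hr c)
    have h4 := h3.mul_const (1 / (c ! : ℝ))
    rw [one_mul] at h4
    refine h4.congr fun n => ?_
    simp only [Pi.div_apply]
    by_cases h0 : rv r n 1 ^ c = 0
    · rw [h0]; simp
    · field_simp
  have h5 := h1.comp (tendsto_add_atTop_nat i)
  have h6 := h5.mul ((H.tendsto_add i).pow c)
  rw [one_pow, mul_one] at h6
  refine h6.congr' (((((tendsto_add_atTop_iff_nat i).2 H.tendsto_L).eventually_ge_atTop 1).and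
    (H.tendsto_L.eventually_ge_atTop 1)).mono fun n hn => ?_)
  have h7 : (0 : ℝ) < rv r (n + i) 1 := by linarith [hn.1]
  have h8 : (0 : ℝ) < rv r n 1 := by linarith [hn.2]
  simp only [Function.comp_apply]
  rw [div_pow]
  field_simp

/-- The limit matrix. -/
noncomputable def Lm (m c : ℕ) : Matrix (Fin m) (Fin m) ℝ :=
  Matrix.of fun i j : Fin m => (1 / ((c + i)! : ℝ)) * (((c + i).descFactorial j : ℕ) : ℝ)

theorem Lm_det_pos (m c : ℕ) : 0 < (Lm m c).det := by
  have h1 : (Lm m c).det = (∏ i : Fin m, (1 / ((c + i)! : ℝ))) *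
      (Matrix.vandermonde fun i : Fin m => (((c + i : ℕ)) : ℝ)).det := by
    rw [Matrix.det_eval_matrixOfPolynomials_eq_det_vandermonde
      (fun i : Fin m => (((c + i : ℕ)) : ℝ)) (fun j : Fin m => descPochhammer ℝ j)
      (fun j => descPochhammer_natDegree ℝ j) (fun j => monic_descPochhammer ℝ j)]
    rw [← Matrix.det_mul_column]
    congr 1
    ext i j
    simp only [Lm, Matrix.of_apply, descPochhammer_eval_eq_descFactorial]
  rw [h1]
  refine mul_pos (prod_pos fun i _ => by
    have : (0 : ℝ) < (c + i)! := by exact_mod_cast Nat.factorial_pos _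
    positivity) ?_
  rw [Matrix.det_vandermonde]
  refine prod_pos fun i _ => prod_pos fun j hj => ?_
  have : (i : ℕ) < j := by
    have := mem_Ioi.1 hj
    exact this
  push_cast
  have : (i : ℝ) < (j : ℝ) := by exact_mod_cast this
  linarith

/-- The scaled matrix. -/
noncomputable def Sm (r m c n : ℕ) : Matrix (Fin m) (Fin m) ℝ :=
  Matrix.of fun i j : Fin m =>
    if (j : ℕ) ≤ c + i then rv r (n + i) (c + i - j) / rv r n 1 ^ (c + i - j) else 0

theorem Sm_tendsto (r m c : ℕ) (hr : 2 ≤ r) :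
    Tendsto (fun n => (Sm r m c n).det) atTop (𝓝 (Lm m c).det) := by
  have h : Tendsto (fun n => Sm r m c n) atTop (𝓝 (Lm m c)) := by
    refine tendsto_pi_nhds.2 fun i => tendsto_pi_nhds.2 fun j => ?_
    by_cases hj : (j : ℕ) ≤ c + i
    · have h1 := rv_tendsto r (c + i - j) i hr
      have h2 : Lm m c i j = 1 / ((c + i - j : ℕ)! : ℝ) := by
        have e1 := Nat.factorial_mul_descFactorial hj
        have e2 : ((c + i - j : ℕ)! : ℝ) * (((c + i).descFactorial j : ℕ) : ℝ) = ((c + i)! : ℝ) := by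
          exact_mod_cast e1
        have e3 : (0 : ℝ) < ((c + i - j : ℕ)! : ℝ) := by exact_mod_cast Nat.factorial_pos _
        have e4 : (0 : ℝ) < ((c + i)! : ℝ) := by exact_mod_cast Nat.factorial_pos _
        simp only [Lm, Matrix.of_apply]
        rw [one_div_mul_eq_div, div_eq_div_iff e4.ne' e3.ne', one_mul, mul_comm]
        exact e2
      rw [h2]
      refine h1.congr fun n => ?_
      simp only [Sm, Matrix.of_apply]
      rw [if_pos hj]
    · have h2 : Lm m c i j = 0 := by
        simp only [Lm, Matrix.of_apply]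
        rw [Nat.descFactorial_of_lt (by omega)]
        simp
      rw [h2]
      refine tendsto_const_nhds.congr fun n => ?_
      simp only [Sm, Matrix.of_apply]
      rw [if_neg hj]
  exact (Continuous.matrix_det continuous_id).continuousAt.tendsto.comp h

theorem sol_eq (r m c n : ℕ) (hr : 2 ≤ r) (hc : c ≤ n) (hL : 0 < rv r n 1) :
    sol r m n (n - c) = (∏ i : Fin m, (rb r (n + i) 0 * rv r n 1 ^ (c + (i : ℕ)))) *
      ((∏ j : Fin m, (1 / rv r n 1 ^ (j : ℕ))) * (Sm r m c n).det) := by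
  rw [← Matrix.det_mul_row, ← Matrix.det_mul_column, sol]
  congr 1
  ext i j
  simp only [Matrix.of_apply, Sm]
  rw [ar_rb r n c i j (by omega) hc]
  by_cases hj : (j : ℕ) ≤ c + i
  · rw [if_pos hj, if_pos hj]
    have h1 := rb_pos r (n + i) 0 (by omega) (Nat.zero_le _)
    have h2 : rv r n 1 ^ (c + (i : ℕ)) = rv r n 1 ^ (c + (i : ℕ) - j) * rv r n 1 ^ (j : ℕ) := by
      rw [← pow_add]
      congr 1
      omega
    have h3 : rb r (n + i) (c + i - j) = rb r (n + i) 0 * rv r (n + i) (c + i - j) := by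
      rw [rv]
      field_simp
    rw [h2, h3]
    field_simp
  · rw [if_neg hj, if_neg hj]
    ring

theorem right : RightSt := by
  intro r m c0 hr
  have H := rhyp r hr
  have h1 : ∀ᶠ n in atTop, ∀ c ∈ range (c0 + 1), 0 < (Sm r m c n).det := by
    rw [eventually_all_finset]
    intro c _
    exact (Sm_tendsto r m c hr).eventually_const_lt (Lm_det_pos m c)
  have h2 := H.tendsto_L.eventually_ge_atTop 1
  obtain ⟨N0, hN⟩ := eventually_atTop.1 (h1.and h2)
  refine ⟨N0, fun n hn k hk hkc => ?_⟩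
  obtain ⟨h3, h4⟩ := hN n hn
  have h5 := h3 (n - k) (mem_range.2 (by omega))
  have h6 : (0 : ℝ) < rv r n 1 := by linarith
  have h7 : k = n - (n - k) := by omega
  rw [h7, sol_eq r m (n - k) n hr (by omega) h6]
  refine mul_pos (prod_pos fun i _ => ?_) (mul_pos (prod_pos fun j _ => by positivity) h5)
  have := rb_pos r (n + i) 0 (by omega) (Nat.zero_le _)
  positivity

end Pool.Agent.H37.ATR
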