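import Pool.Agent.H37.ATR.Spec

/-!
# VL: the variance is large on the left
-/

set_option autoImplicit false

open Polynomial

namespace Pool.Agent.H37.ATR

open Pool.Agent.H73.TP

/-- Concavity of the logarithm. -/
private theorem vl_conc {p t : ℝ} (hp0 : 0 ≤ p) (hp1 : p ≤ 1) (ht : 0 < t) :
    p * Real.log t ≤ Real.log (1 - p + p * t) := by
  have h := strictConcaveOn_log_Ioi.concaveOn.2 (Set.mem_Ioi.2 one_pos) (Set.mem_Ioi.2 ht)
    (sub_nonneg.2 hp1) hp0 (by ring)
  simpa [smul_eq_mul] using h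

private theorem vl_log_fr {r : ℕ} (hr : 1 ≤ r) (n : ℕ) {x : ℝ} (hx : 0 < x) :
    Real.log (fr r n x) = ∑ i, Real.log (1 + yy r n i * x) := by
  have h1 : fr r n x = ∏ i, (1 + yy r n i * x) := by
    rw [fr, yy_prod hr, pr, eval_prod]
    simp
  rw [h1, Real.log_prod]
  intro i _
  have := mul_pos (yy_pos r n i) hx
  positivity

/-- `L (x) log (x'/x) ≤ log f (x') - log f (x)` for all positive `x`, `x'`. -/
theorem vl_mvt {r : ℕ} (hr : 1 ≤ r) (n : ℕ) {x x' : ℝ} (hx : 0 < x) (hx' : 0 < x') :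
    L r n x * Real.log (x' / x) ≤ Real.log (fr r n x') - Real.log (fr r n x) := by
  rw [vl_log_fr hr n hx, vl_log_fr hr n hx', ← Finset.sum_sub_distrib, L, Finset.sum_mul]
  refine Finset.sum_le_sum fun i _ => ?_
  have hy := yy_pos r n i
  have h1 : 0 < 1 + yy r n i * x := by positivity
  have h2 : 0 < 1 + yy r n i * x' := by positivity
  have hp0 : 0 ≤ pp r n x i := by unfold pp; positivity
  have hp1 : pp r n x i ≤ 1 := by
    unfold pp
    rw [div_le_one h1]
    linarith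
  have h3 := vl_conc hp0 hp1 (div_pos hx' hx)
  have h4 : 1 - pp r n x i + pp r n x i * (x' / x) = (1 + yy r n i * x') / (1 + yy r n i * x) := by
    unfold pp
    field_simp
    ring
  rw [h4, Real.log_div h2.ne' h1.ne'] at h3
  exact h3

private theorem vl_log_one_sub {x : ℝ} (hx : 0 ≤ x) (hx2 : x ≤ 1 / 2) :
    -(2 * x) ≤ Real.log (1 - x) := by
  have h1 : 0 < 1 - x := by linarith
  have h2 := Real.one_sub_inv_le_log_of_pos h1
  have h3 : -(2 * x) ≤ 1 - (1 - x)⁻¹ := by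
    have : (1 - x)⁻¹ ≤ 1 + 2 * x := by
      rw [inv_le_comm₀ h1 (by positivity), inv_le_iff_one_le_mul₀ (by positivity)]
      nlinarith
    linarith
  linarith

/-- Lower bound of `log f`. -/
private theorem vl_lo (hFlo : FloSt) {r : ℕ} (hr : 1 ≤ r) (n : ℕ) {x : ℝ} (hx : 0 < x)
    (hx2 : x ≤ 1 / 2) :
    ((n : ℝ) + 1) * (Real.log (n + 1) - 1 - Real.log (Real.log (1 / x)))
      - 2 * (r * (n + 1) + 1) * x ≤ Real.log (fr r n x) := by
  have hx1 : x < 1 := by linarith
  have hlx : Real.log (1 / x) = -Real.log x := by rw [one_div, Real.log_inv]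
  have hl : 0 < Real.log (1 / x) := by
    rw [hlx]
    have := Real.log_neg hx hx1
    linarith
  set l := Real.log (1 / x) with hldef
  have hn : (0 : ℝ) < (n : ℝ) + 1 := by positivity
  have hq : 0 < ((n : ℝ) + 1) / l := by positivity
  set N := ⌈((n : ℝ) + 1) / l⌉₊ with hN
  have hN1 : 1 ≤ N := Nat.one_le_iff_ne_zero.2 (by rw [hN]; exact (Nat.ceil_pos.2 hq).ne')
  have hN2 : ((n : ℝ) + 1) / l ≤ N := Nat.le_ceil _
  have hN3 : (N : ℝ) < ((n : ℝ) + 1) / l + 1 := Nat.ceil_lt_add_one hq.le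
  have hNp : (0 : ℝ) < N := by exact_mod_cast hN1
  have h1x : 0 < 1 - x := by linarith
  have hF := hFlo r n N x hr hN1 hx hx1
  have hpos : 0 < (1 - x) ^ (r * (n + 1) + 1) * (N : ℝ) ^ (n + 1) * x ^ (N - 1) := by positivity
  have hlog := Real.log_le_log hpos hF
  rw [Real.log_mul (by positivity) (by positivity), Real.log_mul (by positivity) (by positivity),
    Real.log_pow, Real.log_pow, Real.log_pow] at hlog
  push_cast [Nat.cast_sub hN1] at hlog
  have h2 := vl_log_one_sub hx.le hx2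
  have h3 : Real.log (n + 1) - Real.log l ≤ Real.log N := by
    rw [← Real.log_div hn.ne' hl.ne']
    exact Real.log_le_log hq hN2
  have h4 : ((N : ℝ) - 1) * Real.log x = -(((N : ℝ) - 1) * l) := by rw [hlx]; ring
  have h5 : ((N : ℝ) - 1) * l ≤ n + 1 := by
    have : (N : ℝ) - 1 ≤ ((n : ℝ) + 1) / l := by linarith
    calc ((N : ℝ) - 1) * l ≤ ((n : ℝ) + 1) / l * l := by gcongr
      _ = n + 1 := by field_simp
  have h6 : ((r : ℝ) * (n + 1) + 1) * -(2 * x) ≤ ((r : ℝ) * (n + 1) + 1) * Real.log (1 - x) :=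
    mul_le_mul_of_nonneg_left h2 (by positivity)
  have h7 : ((n : ℝ) + 1) * (Real.log (n + 1) - Real.log l) ≤ ((n : ℝ) + 1) * Real.log N :=
    mul_le_mul_of_nonneg_left h3 hn.le
  rw [h4] at hlog
  linarith [h5, h6, h7, hlog]

private theorem vl_fact (m : ℕ) (hm : 1 ≤ m) :
    Real.log (m.factorial : ℝ) ≤ m * Real.log m - m + Real.log m + 1 := by
  induction m, hm using Nat.le_induction with
  | base => simp
  | succ m hm ih =>
    have hm0 : (0 : ℝ) < m := by exact_mod_cast hm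
    have hm1 : (0 : ℝ) < (m : ℝ) + 1 := by positivity
    rw [Nat.factorial_succ]
    push_cast
    rw [Real.log_mul hm1.ne' (by positivity)]
    have h1 := Real.one_sub_inv_le_log_of_pos (show 0 < ((m : ℝ) + 1) / m by positivity)
    rw [Real.log_div hm1.ne' hm0.ne'] at h1
    have h2 : 1 - (((m : ℝ) + 1) / m)⁻¹ = 1 / (m + 1) := by
      field_simp
      ring
    rw [h2] at h1
    have h3 : 1 ≤ ((m : ℝ) + 1) * (Real.log (m + 1) - Real.log m) := by
      calc (1 : ℝ) = ((m : ℝ) + 1) * (1 / (m + 1)) := by field_simp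
        _ ≤ _ := mul_le_mul_of_nonneg_left h1 hm1.le
    linarith

/-- Upper bound of `log f`. -/
private theorem vl_up {r n : ℕ} {x Cf : ℝ} (hx : 0 < x) (hC : 1 ≤ Cf)
    (hl : 2 * Cf ≤ Real.log (1 / x)) (hpos : 0 < fr r n x)
    (hF : fr r n x ≤ (n + 1).factorial / (x * (Real.log (1 / x) - Cf) ^ (n + 1))) :
    Real.log (fr r n x) ≤ ((n : ℝ) + 1) * (Real.log (n + 1) - 1 - Real.log (Real.log (1 / x)))
      + (Real.log (n + 1) + 1 + Real.log (1 / x)) + (n + 1) * (2 * Cf / Real.log (1 / x)) := by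
  have hlx : Real.log (1 / x) = -Real.log x := by rw [one_div, Real.log_inv]
  set l := Real.log (1 / x) with hldef
  have hl0 : 0 < l := by linarith
  have hlC : 0 < l - Cf := by linarith
  have hf : (0 : ℝ) < (n + 1).factorial := by exact_mod_cast Nat.factorial_pos _
  have hlog := Real.log_le_log hpos hF
  rw [Real.log_div hf.ne' (by positivity), Real.log_mul hx.ne' (by positivity),
    Real.log_pow] at hlog
  have h1 := vl_fact (n + 1) (by omega)
  push_cast at h1 hlog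
  have h2 : Real.log (l - Cf) = Real.log l + Real.log (1 - Cf / l) := by
    rw [← Real.log_mul hl0.ne']
    · congr 1
      field_simp
    · have : Cf / l ≤ 1 / 2 := by
        rw [div_le_iff₀ hl0]
        linarith
      intro h
      linarith
  have h3 : -(2 * (Cf / l)) ≤ Real.log (1 - Cf / l) := by
    apply vl_log_one_sub (by positivity)
    rw [div_le_iff₀ hl0]
    linarith
  have h4 : ((n : ℝ) + 1) * (Real.log l - 2 * (Cf / l)) ≤ ((n : ℝ) + 1) * Real.log (l - Cf) := by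
    apply mul_le_mul_of_nonneg_left _ (by positivity)
    rw [h2]
    linarith
  have h5 : Real.log x = -l := by rw [hlx]; ring
  rw [h5] at hlog
  have h6 : ((n : ℝ) + 1) * (2 * Cf / l) = ((n : ℝ) + 1) * (2 * (Cf / l)) := by ring
  rw [h6]
  linarith

/-- Large `n`. -/
private theorem vl_big (K M : ℝ) (hM : 0 ≤ M) : ∃ N0 : ℕ, ∀ n : ℕ, N0 ≤ n →
    K ≤ Real.log n ∧ 1 ≤ Real.log n ∧ (3 : ℝ) ≤ n ∧
    M * Real.log n ^ 2 ≤ Real.exp (Real.log n / 8) ∧ Real.exp (Real.log n / 8) ^ 8 = n ∧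
    Real.log (n + 1) ≤ Real.log n + 1 := by
  set T := max (max K 2) (3072 * M) with hT
  refine ⟨⌈Real.exp T⌉₊, fun n hn => ?_⟩
  have h1 : Real.exp T ≤ n := (Nat.le_ceil _).trans (by exact_mod_cast hn)
  have hn0 : (0 : ℝ) < n := lt_of_lt_of_le (Real.exp_pos _) h1
  have h2 : T ≤ Real.log n := by
    rw [Real.le_log_iff_exp_le hn0]
    exact h1
  have hK : K ≤ Real.log n := le_trans (le_trans (le_max_left _ _) (le_max_left _ _)) h2
  have h22 : 2 ≤ Real.log n := le_trans (le_trans (le_max_right _ _) (le_max_left _ _)) h2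
  have h3 : 3072 * M ≤ Real.log n := le_trans (le_max_right _ _) h2
  have hexp : Real.exp (Real.log n) = n := Real.exp_log hn0
  refine ⟨hK, by linarith, ?_, ?_, ?_, ?_⟩
  · have := Real.add_one_le_exp (Real.log n)
    rw [hexp] at this
    linarith
  · have h4 := Real.pow_div_factorial_le_exp (Real.log n / 8) (by linarith) 3
    refine le_trans ?_ h4
    have h5 : (Real.log n / 8) ^ 3 / ((3 : ℕ).factorial : ℝ) = Real.log n / 3072 * Real.log n ^ 2 := by
      rw [show ((3 : ℕ).factorial : ℝ) = 6 by norm_num [Nat.factorial]]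
      ring
    rw [h5]
    apply mul_le_mul_of_nonneg_right _ (by positivity)
    linarith
  · rw [← Real.exp_nat_mul]
    push_cast
    rw [show (8 : ℝ) * (Real.log n / 8) = Real.log n by ring, hexp]
  · have h6 : Real.log ((n + 1 : ℝ) / n) ≤ (n + 1 : ℝ) / n - 1 :=
      Real.log_le_sub_one_of_pos (by positivity)
    rw [Real.log_div (by positivity) hn0.ne'] at h6
    have h7 : (n + 1 : ℝ) / n - 1 ≤ 1 := by
      have h8 : (n + 1 : ℝ) / n - 1 = 1 / n := by
        field_simp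
        ring
      rw [h8, div_le_one hn0]
      have := Real.add_one_le_exp (Real.log n)
      rw [hexp] at this
      linarith
    linarith

/-- Two-sided bound of `log f`. -/
private theorem vl_two (hBas : BasSt) (hFlo : FloSt) (hFup : FupSt) {r : ℕ} (hr : 1 ≤ r)
    (A : ℝ) (hA : 0 ≤ A) : ∃ E : ℝ, 0 < E ∧ ∃ N0 : ℕ, ∀ n : ℕ, N0 ≤ n → ∀ x : ℝ, 0 < x →
      Real.log n / 8 ≤ Real.log (1 / x) → Real.log (1 / x) ≤ A * Real.log n →
      ((n : ℝ) + 1) * (Real.log (n + 1) - 1 - Real.log (Real.log (1 / x)))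
        - E * n / Real.log n ≤ Real.log (fr r n x) ∧
      Real.log (fr r n x) ≤
        ((n : ℝ) + 1) * (Real.log (n + 1) - 1 - Real.log (Real.log (1 / x)))
          + E * n / Real.log n := by
  obtain ⟨Cf, hCf, hup⟩ := hFup r hr
  obtain ⟨N0, hN0⟩ := vl_big (16 * Cf) (3 + A) (by linarith)
  refine ⟨4 * (r + 1) + 32 * Cf + 1, by positivity, N0, fun n hn x hx h1 h2 => ?_⟩
  obtain ⟨hK, hL1, hn3, hs, hs8, hln⟩ := hN0 n hn
  have hfpos := (hBas r n x hr hx).2.1
  have hCf0 : 0 < Cf := by linarith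
  have hlx : Real.log (1 / x) = -Real.log x := by rw [one_div, Real.log_inv]
  set Λ := Real.log n with hΛ
  set l := Real.log (1 / x) with hl
  set s := Real.exp (Λ / 8) with hsd
  have hl2 : 2 * Cf ≤ l := by linarith
  have hs1 : 3 ≤ s := by nlinarith
  have hxs : x ≤ 1 / s := by
    have : x = Real.exp (-l) := by
      rw [hlx, neg_neg, Real.exp_log hx]
    rw [this, hsd, one_div, ← Real.exp_neg]
    exact Real.exp_le_exp.2 (by linarith)
  have hΛs : Λ ≤ s := by nlinarith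
  have hΛ0 : 0 < Λ := by linarith
  have hx2 : x ≤ 1 / 2 := by
    refine hxs.trans ?_
    apply one_div_le_one_div_of_le (by norm_num)
    linarith
  constructor
  · have h3 := vl_lo hFlo hr n hx hx2
    rw [← hl] at h3
    have h4 : 2 * ((r : ℝ) * (n + 1) + 1) * x ≤ (4 * (r + 1) + 32 * Cf + 1) * n / Λ := by
      have h5 : x ≤ 1 / Λ := hxs.trans (one_div_le_one_div_of_le hΛ0 hΛs)
      have hr0 : (0 : ℝ) ≤ r := by positivity
      have h6 : 2 * ((r : ℝ) * (n + 1) + 1) ≤ (4 * (r + 1) + 32 * Cf + 1) * n := by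
        nlinarith [mul_nonneg hr0 (show (0 : ℝ) ≤ (n : ℝ) - 1 by linarith),
          mul_nonneg (show (0 : ℝ) ≤ Cf by linarith) (show (0 : ℝ) ≤ (n : ℝ) by linarith)]
      calc 2 * ((r : ℝ) * (n + 1) + 1) * x ≤ (4 * (r + 1) + 32 * Cf + 1) * n * (1 / Λ) :=
            mul_le_mul h6 h5 hx.le (by positivity)
        _ = _ := by ring
    linarith
  · have h3 := vl_up (r := r) (n := n) hx hCf (by rw [← hl]; exact hl2) hfpos
      (hup n x hx (by rw [← hl]; exact hl2))
    rw [← hl] at h3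
    have h4 : Real.log (n + 1) + 1 + l ≤ n / Λ := by
      have h5 : Real.log (n + 1) + 1 + l ≤ (3 + A) * Λ := by nlinarith
      refine h5.trans ?_
      rw [le_div_iff₀ hΛ0]
      have h6 : s ≤ s ^ 8 := by
        calc s = s ^ 1 := by ring
          _ ≤ s ^ 8 := pow_le_pow_right₀ (by linarith) (by norm_num)
      calc (3 + A) * Λ * Λ = (3 + A) * Λ ^ 2 := by ring
        _ ≤ s := hs
        _ ≤ s ^ 8 := h6
        _ = n := hs8
    have h5 : ((n : ℝ) + 1) * (2 * Cf / l) ≤ 32 * Cf * n / Λ := by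
      have hl0 : 0 < l := by linarith
      have h6 : 2 * Cf / l ≤ 16 * Cf / Λ := by
        rw [div_le_div_iff₀ (by linarith) hΛ0]
        nlinarith
      calc ((n : ℝ) + 1) * (2 * Cf / l) ≤ (2 * n) * (16 * Cf / Λ) := by
            apply mul_le_mul (by linarith) h6 (by positivity) (by positivity)
        _ = _ := by ring
    have h7 : (4 * ((r : ℝ) + 1) + 32 * Cf + 1) * n / Λ
        = 4 * (r + 1) * n / Λ + 32 * Cf * n / Λ + n / Λ := by ring
    have h8 : 0 ≤ 4 * ((r : ℝ) + 1) * n / Λ := by positivity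
    rw [h7]
    linarith

/-- The range `x ≥ n^(-1/4)`. -/
private theorem vl_caseA (hVr : Vr1St) {r n : ℕ} (hr : 2 ≤ r) {x : ℝ} (hx : 0 < x)
    (hx2 : x ≤ 1 / 2) (hL1 : 1 ≤ Real.log n) (hn3 : (3 : ℝ) ≤ n)
    (hs : 4608 * ((r : ℝ) + 1) ^ 3 * Real.log n ^ 2 ≤ Real.exp (Real.log n / 8))
    (hs8 : Real.exp (Real.log n / 8) ^ 8 = n) (hln : Real.log (n + 1) ≤ Real.log n + 1)
    (hl : Real.log (1 / x) ≤ Real.log n / 4) : √(n : ℝ) ≤ V r n x := by
  have hlx : Real.log (1 / x) = -Real.log x := by rw [one_div, Real.log_inv]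
  have hlog0 : 0 ≤ Real.log ((n : ℝ) + 1) := Real.log_nonneg (by linarith)
  have h4 := (hVr r n x hr hx).2.2.2 (by exact_mod_cast (by linarith : (1 : ℝ) ≤ n))
    (by nlinarith [show (0 : ℝ) ≤ (r : ℝ) by positivity])
  set Λ := Real.log n with hΛ
  set s := Real.exp (Λ / 8) with hsd
  set ρ := (r : ℝ) + 1 with hρ
  have hρ1 : 1 ≤ ρ := by rw [hρ]; have : (0 : ℝ) ≤ r := by positivity
                         linarith
  refine le_trans ?_ h4
  have hs1 : 1 ≤ s := by
    rw [hsd]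
    exact Real.one_le_exp (by linarith)
  have hsq : √(n : ℝ) = s ^ 4 := by
    rw [← hs8, show s ^ 8 = (s ^ 4) ^ 2 by ring, Real.sqrt_sq (by positivity)]
  have hxs : 1 / s ^ 2 ≤ x := by
    have : x = Real.exp (-Real.log (1 / x)) := by
      rw [hlx, neg_neg, Real.exp_log hx]
    rw [this, hsd, one_div, ← Real.exp_nat_mul, ← Real.exp_neg]
    exact Real.exp_le_exp.2 (by push_cast; linarith)
  rw [hsq, le_div_iff₀ (by positivity)]
  have h1 : 1 + Real.log ((n : ℝ) + 1) ≤ 3 * Λ := by linarith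
  have h2 : s ^ 4 * (8 * ρ * (8 * ρ * (1 + Real.log ((n : ℝ) + 1))) ^ 2)
      ≤ s ^ 4 * (8 * ρ * (8 * ρ * (3 * Λ)) ^ 2) := by gcongr
  have h3 : s ^ 4 * (8 * ρ * (8 * ρ * (3 * Λ)) ^ 2) = s ^ 4 * (4608 * ρ ^ 3 * Λ ^ 2) := by ring
  have h5 : s ^ 4 * (4608 * ρ ^ 3 * Λ ^ 2) ≤ s ^ 4 * s := by gcongr
  have h6 : s ^ 4 * s ≤ s ^ 8 * (1 / s ^ 2) := by
    have : s ^ 8 * (1 / s ^ 2) = s ^ 4 * s ^ 2 := by
      field_simp
    rw [this]
    have : s ≤ s ^ 2 := by nlinarith
    gcongr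
  have h7 : s ^ 8 * (1 / s ^ 2) ≤ ((n : ℝ) + 1) * x := by
    rw [hs8]
    apply mul_le_mul _ hxs (by positivity) (by positivity)
    linarith
  linarith

/-- VL. -/
theorem vl : BasSt → MonSt → Vr1St → FloSt → FupSt → VlSt := by
  intro hBas hMon hVr hFlo hFup r hr C hC
  set B := max C 1 with hB
  have hB1 : 1 ≤ B := le_max_right _ _
  have hBC : C ≤ B := le_max_left _ _
  have hr1 : 1 ≤ r := by omega
  obtain ⟨E, hE, N1, hN1⟩ := vl_two hBas hFlo hFup hr1 (2 * B + 1) (by linarith)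
  obtain ⟨N2, hN2⟩ := vl_big (8 * B * E + 2048 * (2 * B + 1) ^ 2 * E)
    (4608 * ((r : ℝ) + 1) ^ 3 + 33 * (2 * B + 1) ^ 2) (by positivity)
  refine ⟨max N1 N2, fun n hn x hx hx2 hL => ?_⟩
  obtain ⟨hK, hL1, hn3, hs, hs8, hln⟩ := hN2 n (le_trans (le_max_right _ _) hn)
  have hF := hN1 n (le_trans (le_max_left _ _) hn)
  have hsA : 4608 * ((r : ℝ) + 1) ^ 3 * Real.log n ^ 2 ≤ Real.exp (Real.log n / 8) := by
    refine le_trans ?_ hs
    have : 0 ≤ 33 * (2 * B + 1) ^ 2 * Real.log n ^ 2 := by positivity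
    nlinarith
  rcases le_or_gt (Real.log (1 / x)) (Real.log n / 4) with hl4 | hl4
  · exact vl_caseA hVr hr hx hx2 hL1 hn3 hsA hs8 hln hl4
  have hn0 : (0 : ℝ) < n := by linarith
  set Λ := Real.log n with hΛ
  have hΛ0 : 0 < Λ := by linarith
  set s := Real.exp (Λ / 8) with hsd
  have hK1 : 8 * B * E ≤ Λ := by
    have : 0 ≤ 2048 * (2 * B + 1) ^ 2 * E := by positivity
    linarith
  have hK2 : 2048 * (2 * B + 1) ^ 2 * E ≤ Λ := by
    have : 0 ≤ 8 * B * E := by positivity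
    linarith
  have hlx : Real.log (1 / x) = -Real.log x := by rw [one_div, Real.log_inv]
  have hlogexp : ∀ a : ℝ, Real.log (1 / Real.exp (-a)) = a := by
    intro a
    rw [one_div, Real.log_inv, Real.log_exp, neg_neg]
  -- first step: `x ≥ n^(-(2B+1))`
  have hstep : Real.log (1 / x) ≤ (2 * B + 1) * Λ := by
    by_contra hcon
    push Not at hcon
    have hxe : x = Real.exp (-Real.log (1 / x)) := by
      rw [hlx, neg_neg, Real.exp_log hx]
    have hxx : x ≤ Real.exp (-((2 * B + 1) * Λ)) := by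
      rw [hxe]
      exact Real.exp_le_exp.2 (by linarith)
    have hM := (hMon r n x _ hx hxx).1
    have h1 := hF _ (Real.exp_pos (-((2 * B + 1) * Λ))) (by rw [hlogexp]; nlinarith)
      (by rw [hlogexp])
    have h2 := hF _ (Real.exp_pos (-(2 * B * Λ))) (by rw [hlogexp]; nlinarith)
      (by rw [hlogexp]; nlinarith)
    rw [hlogexp] at h1 h2
    have h3 := vl_mvt hr1 n (Real.exp_pos (-((2 * B + 1) * Λ))) (Real.exp_pos (-(2 * B * Λ)))
    rw [← Real.exp_sub, Real.log_exp,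
      show -(2 * B * Λ) - -((2 * B + 1) * Λ) = Λ by ring] at h3
    have h4 : Real.log ((2 * B + 1) * Λ) - Real.log (2 * B * Λ) ≤ 1 / (2 * B) := by
      rw [← Real.log_div (by positivity) (by positivity)]
      have h5 := Real.log_le_sub_one_of_pos
        (show 0 < (2 * B + 1) * Λ / (2 * B * Λ) by positivity)
      refine h5.trans (le_of_eq ?_)
      field_simp
      ring
    have h5 : ((n : ℝ) + 1) * (Real.log ((2 * B + 1) * Λ) - Real.log (2 * B * Λ))
        ≤ ((n : ℝ) + 1) * (1 / (2 * B)) := mul_le_mul_of_nonneg_left h4 (by positivity)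
    have h6 : L r n x * Λ ≤ ((n : ℝ) + 1) * (1 / (2 * B)) + 2 * (E * n / Λ) := by
      have h7 : L r n x * Λ ≤ L r n (Real.exp (-((2 * B + 1) * Λ))) * Λ :=
        mul_le_mul_of_nonneg_right hM hΛ0.le
      linarith [h1.1, h2.2]
    have h7 : (n : ℝ) / B ≤ L r n x * Λ := by
      have h8 : (n : ℝ) / (B * Λ) ≤ L r n x := by
        refine le_trans ?_ hL
        apply div_le_div_of_nonneg_left hn0.le (by positivity)
        exact mul_le_mul_of_nonneg_right hBC hΛ0.le
      calc (n : ℝ) / B = n / (B * Λ) * Λ := by field_simp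
        _ ≤ _ := mul_le_mul_of_nonneg_right h8 hΛ0.le
    have h8 : E * n / Λ ≤ n / (8 * B) := by
      rw [div_le_div_iff₀ hΛ0 (by positivity)]
      nlinarith
    have h9 : (n : ℝ) / B ≤ ((n : ℝ) + 1) * (1 / (2 * B)) + 2 * (n / (8 * B)) := by linarith
    have h10 : ((n : ℝ) + 1) * (1 / (2 * B)) + 2 * (n / (8 * B)) = (3 * n + 2) / 4 / B := by
      field_simp
      ring
    rw [h10, div_le_div_iff_of_pos_right (by linarith)] at h9
    linarith
  -- second step
  set l := Real.log (1 / x) with hl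
  set h := Λ / 16 with hh
  have hh0 : 0 < h := by positivity
  have hl0 : 0 < l := by linarith
  set x1 := x * Real.exp h with hx1
  set x2 := x * Real.exp (2 * h) with hx2'
  have hx1p : 0 < x1 := by positivity
  have hx2p : 0 < x2 := by positivity
  have hl1 : Real.log (1 / x1) = l - h := by
    rw [one_div, Real.log_inv, hx1, Real.log_mul hx.ne' (Real.exp_pos _).ne', Real.log_exp, hlx]
    ring
  have hl2 : Real.log (1 / x2) = l - 2 * h := by
    rw [one_div, Real.log_inv, hx2', Real.log_mul hx.ne' (Real.exp_pos _).ne', Real.log_exp, hlx]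
    ring
  have hh8 : Λ / 8 = 2 * h := by rw [hh]; ring
  have hh4 : Λ / 4 = 4 * h := by rw [hh]; ring
  rw [hh4] at hl4
  have hF0 := hF x hx (by rw [← hl, hh8]; linarith) hstep
  have hF1 := hF x1 hx1p (by rw [hl1, hh8]; linarith) (by rw [hl1]; linarith)
  have hF2 := hF x2 hx2p (by rw [hl2, hh8]; linarith) (by rw [hl2]; linarith)
  rw [hl1] at hF1
  rw [hl2] at hF2
  rw [← hl] at hF0
  have hm1 := vl_mvt hr1 n hx hx1p
  have hm2 := vl_mvt hr1 n hx2p hx1p
  have e1 : Real.log (x1 / x) = h := by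
    rw [hx1, mul_div_cancel_left₀ _ hx.ne', Real.log_exp]
  have e2 : Real.log (x1 / x2) = -h := by
    rw [hx1, hx2', mul_div_mul_left _ _ hx.ne', ← Real.exp_sub, Real.log_exp]
    ring
  rw [e1] at hm1
  rw [e2] at hm2
  have hlh : 0 < l - 2 * h := by linarith
  have hlh1 : 0 < l - h := by linarith
  have hconv : h ^ 2 / (l - h) ^ 2 ≤ 2 * Real.log (l - h) - Real.log (l - 2 * h) - Real.log l := by
    have h1 : Real.log ((l - 2 * h) * l / (l - h) ^ 2) ≤ (l - 2 * h) * l / (l - h) ^ 2 - 1 :=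
      Real.log_le_sub_one_of_pos (by positivity)
    rw [Real.log_div (by positivity) (by positivity), Real.log_mul hlh.ne' hl0.ne',
      Real.log_pow] at h1
    push_cast at h1
    have h2 : (l - 2 * h) * l / (l - h) ^ 2 - 1 = -(h ^ 2 / (l - h) ^ 2) := by
      field_simp
      ring
    rw [h2] at h1
    linarith
  have hC1 : 1 / (256 * (2 * B + 1) ^ 2) ≤ h ^ 2 / (l - h) ^ 2 := by
    rw [div_le_div_iff₀ (by positivity) (by positivity)]
    have h1 : l - h ≤ (2 * B + 1) * Λ := by linarith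
    have h2 : (l - h) ^ 2 ≤ ((2 * B + 1) * Λ) ^ 2 := by gcongr
    have h3 : h ^ 2 * (256 * (2 * B + 1) ^ 2) = ((2 * B + 1) * Λ) ^ 2 := by
      rw [hh]
      ring
    rw [h3]
    linarith
  have hsec : ((n : ℝ) + 1) * (1 / (256 * (2 * B + 1) ^ 2)) - 4 * (E * n / Λ)
      ≤ (L r n x2 - L r n x) * h := by
    have h1 : ((n : ℝ) + 1) * (1 / (256 * (2 * B + 1) ^ 2)) ≤ ((n : ℝ) + 1)
        * (2 * Real.log (l - h) - Real.log (l - 2 * h) - Real.log l) :=
      mul_le_mul_of_nonneg_left (hC1.trans hconv) (by positivity)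
    linarith [hF0.1, hF0.2, hF1.1, hF1.2, hF2.1, hF2.2]
  have hEn : 4 * (E * n / Λ) ≤ n * (1 / (512 * (2 * B + 1) ^ 2)) := by
    have h1 : 4 * (E * n / Λ) = n * (4 * E / Λ) := by ring
    rw [h1]
    apply mul_le_mul_of_nonneg_left _ hn0.le
    rw [div_le_div_iff₀ hΛ0 (by positivity)]
    linarith
  have hlow : (n : ℝ) * (1 / (512 * (2 * B + 1) ^ 2)) ≤ (L r n x2 - L r n x) * h := by
    have h1 : ((n : ℝ) + 1) * (1 / (256 * (2 * B + 1) ^ 2))
        = n * (1 / (512 * (2 * B + 1) ^ 2)) * 2 + 1 / (256 * (2 * B + 1) ^ 2) := by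
      field_simp
      ring
    have h2 : 0 ≤ 1 / (256 * (2 * B + 1) ^ 2) := by positivity
    linarith
  have hxx2 : x ≤ x2 := by
    rw [hx2']
    have : 1 ≤ Real.exp (2 * h) := Real.one_le_exp (by linarith)
    nlinarith
  have hMon4 := (hMon r n x x2 hx hxx2).2.2.2.1
  have hratio : x2 / x = s := by
    rw [hx2', mul_div_cancel_left₀ _ hx.ne', hsd, hh8]
  rw [hratio] at hMon4
  have hs1 : 1 ≤ s := by
    rw [hsd]
    exact Real.one_le_exp (by linarith)
  have hsq : √(n : ℝ) = s ^ 4 := by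
    rw [← hs8, show s ^ 8 = (s ^ 4) ^ 2 by ring, Real.sqrt_sq (by positivity)]
  rw [hsq]
  by_contra hcon
  push Not at hcon
  have h1 : (s - 1) * V r n x ≤ s ^ 5 := by
    calc (s - 1) * V r n x ≤ (s - 1) * s ^ 4 :=
          mul_le_mul_of_nonneg_left hcon.le (by linarith)
      _ = s ^ 5 - s ^ 4 := by ring
      _ ≤ s ^ 5 := by linarith [show 0 ≤ s ^ 4 by positivity]
  have h2 : (L r n x2 - L r n x) * h ≤ s ^ 5 * h :=
    mul_le_mul_of_nonneg_right (hMon4.trans h1) hh0.le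
  have h3 : s ^ 8 * (1 / (512 * (2 * B + 1) ^ 2)) ≤ s ^ 5 * h := by
    rw [hs8]
    linarith
  have h4 : s ^ 3 ≤ 32 * (2 * B + 1) ^ 2 * Λ := by
    have h5 : s ^ 8 * (1 / (512 * (2 * B + 1) ^ 2)) = s ^ 5 * (s ^ 3 / (512 * (2 * B + 1) ^ 2)) := by
      ring
    rw [h5] at h3
    have h6 := le_of_mul_le_mul_left h3 (by positivity)
    rw [div_le_iff₀ (by positivity), hh] at h6
    linarith
  have h5 : s ≤ s ^ 3 := by
    calc s = s ^ 1 := by ring
      _ ≤ s ^ 3 := pow_le_pow_right₀ hs1 (by norm_num)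
  have h6 : 33 * (2 * B + 1) ^ 2 * Λ ^ 2 ≤ s := by
    refine le_trans ?_ hs
    have : 0 ≤ 4608 * ((r : ℝ) + 1) ^ 3 * Λ ^ 2 := by positivity
    linarith
  have h7 : 33 * (2 * B + 1) ^ 2 * Λ ≤ 33 * (2 * B + 1) ^ 2 * Λ ^ 2 := by
    apply mul_le_mul_of_nonneg_left _ (by positivity)
    nlinarith
  have h8 : 0 < (2 * B + 1) ^ 2 * Λ := by positivity
  linarith

end Pool.Agent.H37.ATR
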