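import Pool.Agent.H37.ATR.Spec

/-!
# VR: the variance is large on the right
-/

set_option autoImplicit false

namespace Pool.Agent.H37.ATR

private theorem one_add_log_le {t : ℝ} (ht : 0 < t) : 1 + Real.log (t ^ 4) ≤ 4 * t := by
  rw [Real.log_pow]
  have h := Real.log_le_sub_one_of_pos ht
  push_cast
  linarith

theorem vr : Vr1St → Vr2St → VrSt := by
  intro h1 h2 r hr B
  obtain ⟨C, hC, h2⟩ := h2 r hr
  set B' : ℝ := max B 1 with hB'
  have hB1 : 1 ≤ B' := le_max_right _ _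
  have hBB : B ≤ B' := le_max_left _ _
  have hB0 : 0 < B' := by linarith
  have hr0 : (0 : ℝ) < (r : ℝ) + 1 := by positivity
  set E : ℝ := 8 * ((r : ℝ) + 1) with hE
  have hE0 : 0 < E := by positivity
  refine ⟨B' + C * (E * B') ^ 2, ⌈(32 * E ^ 3 * B') ^ 2⌉₊ + 1, fun n hn x hx hc => ?_⟩
  have hx0 : 0 < x := by linarith
  have hn1 : 1 ≤ n := by omega
  have hnR : (32 * E ^ 3 * B') ^ 2 ≤ (n : ℝ) + 1 := by
    have h3 := Nat.le_ceil ((32 * E ^ 3 * B') ^ 2)
    have h4 : ((⌈(32 * E ^ 3 * B') ^ 2⌉₊ + 1 : ℕ) : ℝ) ≤ (n : ℝ) := by exact_mod_cast hn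
    push_cast at h4
    linarith
  have hy0 : (0 : ℝ) < (n : ℝ) + 1 := by positivity
  set t : ℝ := √√((n : ℝ) + 1) with ht
  have ht0 : 0 < t := by rw [ht]; positivity
  have ht2 : t ^ 2 = √((n : ℝ) + 1) := by rw [ht]; exact Real.sq_sqrt (Real.sqrt_nonneg _)
  have ht4 : t ^ 4 = (n : ℝ) + 1 := by
    have : t ^ 4 = (t ^ 2) ^ 2 := by ring
    rw [this, ht2]; exact Real.sq_sqrt hy0.le
  have hbig : 32 * E ^ 3 * B' ≤ t ^ 2 := by
    rw [ht2]
    exact Real.le_sqrt_of_sq_le hnR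
  have hlog0 : 0 ≤ Real.log ((n : ℝ) + 1) := Real.log_nonneg (by
    have : (0 : ℝ) ≤ n := Nat.cast_nonneg n
    linarith)
  have hlog : 1 + Real.log ((n : ℝ) + 1) ≤ 4 * t := by
    have := one_add_log_le ht0
    rwa [ht4] at this
  set Kn : ℝ := 8 * ((r : ℝ) + 1) * (1 + Real.log ((n : ℝ) + 1)) with hK
  have hKE : Kn = E * (1 + Real.log ((n : ℝ) + 1)) := by rw [hK, hE]
  have hK0 : 0 < Kn := by rw [hKE]; positivity
  have hKt : Kn ≤ E * (4 * t) := by
    rw [hKE]; exact mul_le_mul_of_nonneg_left hlog hE0.le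
  have hE1 : 1 ≤ E := by
    rw [hE]
    have : (0 : ℝ) ≤ r := Nat.cast_nonneg r
    linarith
  have hK1 : 1 ≤ Kn := by
    rw [hKE]
    nlinarith
  obtain ⟨-, -, h13, h14⟩ := h1 r n x hr hx0
  apply hBB.trans
  rcases le_total x Kn with hxK | hxK
  · -- left part
    have h14 := h14 hn1 hxK
    refine le_trans ?_ h14
    rw [← hK, ← hE, le_div_iff₀ (by positivity)]
    have h5 : Kn ^ 2 ≤ (E * (4 * t)) ^ 2 := pow_le_pow_left₀ hK0.le hKt 2
    have h6 : B' * (E * Kn ^ 2) ≤ B' * (E * (E * (4 * t)) ^ 2) := by gcongr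
    have h7 : B' * (E * (E * (4 * t)) ^ 2) = 32 * E ^ 3 * B' * t ^ 2 / 2 := by ring
    have h8 : 32 * E ^ 3 * B' * t ^ 2 ≤ t ^ 2 * t ^ 2 := by gcongr
    have h9 : t ^ 2 * t ^ 2 = (n : ℝ) + 1 := by rw [← ht4]; ring
    have h10 : ((n : ℝ) + 1) / 2 ≤ ((n : ℝ) + 1) * x := by nlinarith
    linarith
  · rcases le_total x (((n : ℝ) + 1) / (E * B')) with hxn | hxn
    · have h13 := h13 hn1 hxK
      refine le_trans ?_ h13
      rw [← hE, le_div_iff₀ (by positivity)]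
      rw [le_div_iff₀ (by positivity)] at hxn
      linarith [hxn, mul_comm x (E * B'), show B' * (E * x) = x * (E * B') by ring]
    · have hx1 : 1 ≤ x := hK1.trans hxK
      have h22 := h2 n x hx1
      have h5 : ((n : ℝ) + 1) / x ≤ E * B' := by
        rw [div_le_iff₀ (by positivity)] at hxn
        rw [div_le_iff₀ hx0]
        linarith [mul_comm x (E * B')]
      have h6 : C * ((n : ℝ) + 1) ^ 2 / x ^ 2 ≤ C * (E * B') ^ 2 := by
        have : C * ((n : ℝ) + 1) ^ 2 / x ^ 2 = C * (((n : ℝ) + 1) / x) ^ 2 := by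
          rw [div_pow]; ring
        rw [this]
        have h0 : 0 ≤ ((n : ℝ) + 1) / x := by positivity
        gcongr
      linarith

end Pool.Agent.H37.ATR
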