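import Pool.Agent.H37.ATR.Spec

/-!
# VR1: two-sided bound of `n - L`, lower bounds of the variance
-/

set_option autoImplicit false

namespace Pool.Agent.H37.ATR

private theorem vr1_pp_pos (r n : ℕ) {x : ℝ} (hx : 0 < x) (i : Fin n) : 0 < pp r n x i := by
  unfold pp
  have := yy_pos r n i
  positivity

private theorem vr1_pp_lt (r n : ℕ) {x : ℝ} (hx : 0 < x) (i : Fin n) : pp r n x i < 1 := by
  unfold pp
  have := yy_pos r n i
  rw [div_lt_one (by positivity)]
  linarith

private theorem vr1_basic (r n : ℕ) {x : ℝ} (hx : 0 < x) :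
    0 ≤ L r n x ∧ 0 ≤ V r n x ∧ V r n x ≤ n - L r n x := by
  refine ⟨?_, ?_, ?_⟩
  · exact Finset.sum_nonneg fun i _ => (vr1_pp_pos r n hx i).le
  · refine Finset.sum_nonneg fun i _ => ?_
    have h1 := vr1_pp_pos r n hx i
    have h2 := vr1_pp_lt r n hx i
    exact mul_nonneg h1.le (by linarith)
  · have h1 : (n : ℝ) = ∑ i : Fin n, (1 : ℝ) := by simp
    unfold V L
    rw [h1, ← Finset.sum_sub_distrib]
    refine Finset.sum_le_sum fun i _ => ?_
    have h1 := vr1_pp_pos r n hx i
    have h2 := vr1_pp_lt r n hx i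
    nlinarith

private theorem vr1_inc (r n : ℕ) (x : ℝ) :
    R r n x - D r n x = 1 + L r n x + (x - 1) * V r n x := by
  unfold R D
  ring

private theorem vr1_step (hB : BasSt) {r n : ℕ} (hr : 2 ≤ r) {x : ℝ} (hx : 0 < x) :
    ((n + 1 : ℕ) : ℝ) - L r (n + 1) x =
      (n - L r n x) + (1 + L r n x + (x - 1) * V r n x) / R r n x := by
  obtain ⟨-, -, hR, -, h5, -⟩ := hB r n x (by omega) hx
  rw [h5, ← vr1_inc, sub_div, div_self hR.ne']
  push_cast
  ring

private theorem vr1_one (hB : BasSt) {r : ℕ} (hr : 2 ≤ r) {x : ℝ} (hx : 1 ≤ x) (n : ℕ) :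
    (n : ℝ) / (2 * (r + 1) * x) ≤ n - L r n x := by
  have hx0 : 0 < x := by linarith
  have hr' : (2 : ℝ) ≤ r := by exact_mod_cast hr
  induction n with
  | zero => simp [L]
  | succ n ih =>
    obtain ⟨hL, hV, hVc⟩ := vr1_basic r n hx0
    rw [vr1_step hB hr hx0]
    obtain ⟨-, -, hR, -, -, -⟩ := hB r n x (by omega) hx0
    have hn : (0 : ℝ) ≤ n := Nat.cast_nonneg n
    have hnum : 0 ≤ (x - 1) * V r n x := mul_nonneg (by linarith) hV
    have hR2 : R r n x ≤ (r + 1) * (n + 1) * x := by
      unfold R NN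
      have h1 : (1 - x) * L r n x ≤ 0 := mul_nonpos_of_nonpos_of_nonneg (by linarith) hL
      nlinarith
    by_cases hc : (n : ℝ) - L r n x ≤ n / 2
    · have h1 : 1 / (2 * ((r : ℝ) + 1) * x) ≤
          (1 + L r n x + (x - 1) * V r n x) / R r n x := by
        rw [div_le_div_iff₀ (by positivity) hR]
        have h2 : ((n : ℝ) + 1) / 2 ≤ 1 + L r n x + (x - 1) * V r n x := by linarith
        calc 1 * R r n x ≤ (r + 1) * (n + 1) * x := by linarith
          _ = (((n : ℝ) + 1) / 2) * (2 * (r + 1) * x) := by ring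
          _ ≤ _ := mul_le_mul_of_nonneg_right h2 (by positivity)
      calc ((n + 1 : ℕ) : ℝ) / (2 * (r + 1) * x) = (n : ℝ) / (2 * (r + 1) * x)
            + 1 / (2 * (r + 1) * x) := by push_cast; ring
        _ ≤ _ := add_le_add ih h1
    · rw [not_le] at hc
      have hn1 : 1 ≤ n := by
        rcases Nat.eq_zero_or_pos n with h | h
        · subst h
          simp [L] at hc
        · exact h
      have hn1' : (1 : ℝ) ≤ n := by exact_mod_cast hn1
      have h1 : 0 ≤ (1 + L r n x + (x - 1) * V r n x) / R r n x := by positivity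
      have h2 : ((n + 1 : ℕ) : ℝ) / (2 * (r + 1) * x) ≤ n / 2 := by
        rw [div_le_div_iff₀ (by positivity) (by norm_num)]
        push_cast
        nlinarith [mul_le_mul hn1' hx (by norm_num) (by linarith),
          mul_nonneg hn (sub_nonneg.mpr hx), mul_nonneg (mul_nonneg hn hx0.le) (sub_nonneg.mpr hr')]
      linarith

private theorem vr1_two (hB : BasSt) {r : ℕ} (hr : 2 ≤ r) {x : ℝ} (hx0 : 0 < x) (n : ℕ) :
    (n : ℝ) - L r n x ≤ (n + 1) * (1 + Real.log (n + 1)) / x := by
  have hr' : (2 : ℝ) ≤ r := by exact_mod_cast hr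
  induction n with
  | zero =>
    simp only [L]
    simp
    exact hx0.le
  | succ n ih =>
    obtain ⟨hL, hV, hVc⟩ := vr1_basic r n hx0
    obtain ⟨-, -, hR, hD, -, -⟩ := hB r n x (by omega) hx0
    have hn : (0 : ℝ) ≤ n := Nat.cast_nonneg n
    have hc0 : 0 ≤ (n : ℝ) - L r n x := hV.trans hVc
    have hinc : (1 + L r n x + (x - 1) * V r n x) / R r n x ≤
        1 / x + (n - L r n x) / (n + 1) := by
      by_cases hx1 : 1 ≤ x
      · have hR2 : x * (n + 2) ≤ R r n x := by
          unfold R NN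
          have h1 : (2 : ℝ) * (n + 1) ≤ r * (n + 1) := by nlinarith
          have h2 : x * (2 * (n + 1)) ≤ x * (r * (n + 1)) := mul_le_mul_of_nonneg_left h1 hx0.le
          have h3 : x * (n + 2) ≤ x * (2 * (n + 1)) - x * L r n x := by
            rw [← mul_sub]
            exact mul_le_mul_of_nonneg_left (by linarith) hx0.le
          nlinarith
        have hnum : 1 + L r n x + (x - 1) * V r n x ≤ (n + 1) + (x - 1) * (n - L r n x) := by
          have := mul_le_mul_of_nonneg_left hVc (sub_nonneg.mpr hx1)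
          linarith
        have hnum0 : 0 ≤ (n + 1 : ℝ) + (x - 1) * (n - L r n x) := by
          have := mul_nonneg (sub_nonneg.mpr hx1) hc0
          linarith
        calc (1 + L r n x + (x - 1) * V r n x) / R r n x
            ≤ ((n + 1) + (x - 1) * (n - L r n x)) / R r n x :=
              div_le_div_of_nonneg_right hnum hR.le
          _ ≤ ((n + 1) + (x - 1) * (n - L r n x)) / (x * (n + 1)) := by
              apply div_le_div_of_nonneg_left hnum0 (by positivity)
              refine le_trans ?_ hR2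
              exact mul_le_mul_of_nonneg_left (by linarith) hx0.le
          _ ≤ ((n + 1) + x * (n - L r n x)) / (x * (n + 1)) := by
              apply div_le_div_of_nonneg_right _ (by positivity)
              linarith
          _ = 1 / x + (n - L r n x) / (n + 1) := by
              field_simp
      · rw [not_le] at hx1
        have h1 : (1 + L r n x + (x - 1) * V r n x) / R r n x ≤ 1 := by
          rw [← vr1_inc, div_le_one hR]
          linarith
        have h2 : 1 ≤ 1 / x := by
          rw [le_div_iff₀ hx0]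
          linarith
        have h3 : 0 ≤ ((n : ℝ) - L r n x) / (n + 1) := by positivity
        linarith
    rw [vr1_step hB hr hx0]
    have hlog : Real.log (n + 1) + 1 / (n + 2) ≤ Real.log (n + 2) := by
      have h1 : Real.log ((n + 2) / (n + 1) : ℝ) = Real.log (n + 2) - Real.log (n + 1) :=
        Real.log_div (by positivity) (by positivity)
      have h2 := Real.one_sub_inv_le_log_of_pos (show (0 : ℝ) < (n + 2) / (n + 1) by positivity)
      have h3 : 1 - ((n + 2) / (n + 1) : ℝ)⁻¹ = 1 / (n + 2) := by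
        field_simp
        ring
      linarith
    have e1 : (((n + 1 : ℕ) : ℝ) + 1) = n + 2 := by push_cast; ring
    rw [e1]
    have e2 : ((n : ℝ) - L r n x) + (n - L r n x) / (n + 1) =
        (n - L r n x) * ((n + 2) / (n + 1)) := by
      field_simp
      ring
    have e3 : ((n : ℝ) - L r n x) * ((n + 2) / (n + 1)) ≤
        ((n + 1) * (1 + Real.log (n + 1)) / x) * ((n + 2) / (n + 1)) :=
      mul_le_mul_of_nonneg_right ih (by positivity)
    have e4 : ((n + 1) * (1 + Real.log (n + 1)) / x) * ((n + 2) / (n + 1)) + 1 / x =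
        (n + 2) * (1 + (Real.log (n + 1) + 1 / (n + 2))) / x := by
      field_simp
      ring
    calc ((n : ℝ) - L r n x) + (1 + L r n x + (x - 1) * V r n x) / R r n x
        ≤ (n - L r n x) + (1 / x + (n - L r n x) / (n + 1)) := by linarith
      _ ≤ ((n + 1) * (1 + Real.log (n + 1)) / x) * ((n + 2) / (n + 1)) + 1 / x := by linarith
      _ = (n + 2) * (1 + (Real.log (n + 1) + 1 / (n + 2))) / x := e4
      _ ≤ (n + 2) * (1 + Real.log (n + 2)) / x := by
          apply div_le_div_of_nonneg_right _ hx0.le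
          exact mul_le_mul_of_nonneg_left (by linarith) (by positivity)

private theorem vr1_three (hB : BasSt) (hM : MonSt) {r n : ℕ} (hr : 2 ≤ r) {x : ℝ}
    (hn : 1 ≤ n) (hx : 8 * (r + 1) * (1 + Real.log (n + 1)) ≤ x) :
    (n + 1) / (8 * (r + 1) * x) ≤ V r n x := by
  have hn' : (1 : ℝ) ≤ n := by exact_mod_cast hn
  have hr' : (2 : ℝ) ≤ r := by exact_mod_cast hr
  have hlog : 0 ≤ Real.log ((n : ℝ) + 1) := Real.log_nonneg (by linarith)
  obtain ⟨lg, hlg⟩ : ∃ lg : ℝ, lg = 1 + Real.log (n + 1) := ⟨_, rfl⟩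
  have hlg1 : 1 ≤ lg := by rw [hlg]; linarith
  obtain ⟨K, hK⟩ : ∃ K : ℝ, K = 8 * (r + 1) * lg := ⟨_, rfl⟩
  rw [← hlg, ← hK] at hx
  have hK1 : 1 ≤ K := by rw [hK]; nlinarith
  have hK0 : 0 < K := by linarith
  have hx0 : 0 < x := by linarith
  have hxK : 1 ≤ x / K := by rw [le_div_iff₀ hK0]; linarith
  have hle : x / K ≤ x := div_le_self hx0.le hK1
  obtain ⟨-, -, -, -, h5⟩ := hM r n (x / K) x (by positivity) hle
  have e1 : x / (x / K) = K := by field_simp
  rw [e1] at h5
  have h1 := vr1_one hB hr hxK n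
  have h2 := vr1_two hB hr hx0 n
  rw [← hlg] at h2
  have e2 : (n : ℝ) / (2 * (r + 1) * (x / K)) = 4 * n * lg / x := by
    rw [hK]
    have : (0 : ℝ) < r + 1 := by linarith
    have : (0 : ℝ) < lg := by linarith
    field_simp
    ring
  rw [e2] at h1
  obtain ⟨-, hV, -⟩ := vr1_basic r n hx0
  have h3 : 4 * n * lg / x - (n + 1) * lg / x ≤ (K - 1) * V r n x := by linarith
  have h4 : (n + 1) * lg / x ≤ 4 * n * lg / x - (n + 1) * lg / x := by
    rw [← sub_div]
    apply div_le_div_of_nonneg_right _ hx0.le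
    nlinarith
  have h6 : (n + 1) * lg / x ≤ K * V r n x := by linarith
  have h7 : ((n : ℝ) + 1) / (8 * (r + 1) * x) = ((n + 1) * lg / x) / K := by
    rw [hK]
    have : (0 : ℝ) < r + 1 := by linarith
    have : (0 : ℝ) < lg := by linarith
    field_simp
  rw [h7, div_le_iff₀ hK0]
  linarith

theorem vr1 : BasSt → MonSt → Vr1St := by
  intro hB hM r n x hr hx
  refine ⟨fun h => vr1_one hB hr h n, vr1_two hB hr hx n,
    fun hn h => vr1_three hB hM hr hn h, fun hn h => ?_⟩
  have hn' : (1 : ℝ) ≤ n := by exact_mod_cast hn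
  have hr' : (2 : ℝ) ≤ r := by exact_mod_cast hr
  have hlog : 0 ≤ Real.log ((n : ℝ) + 1) := Real.log_nonneg (by linarith)
  have h3 := vr1_three hB hM (x := 8 * (r + 1) * (1 + Real.log (n + 1))) hr hn le_rfl
  obtain ⟨K, hK⟩ : ∃ K : ℝ, K = 8 * (r + 1) * (1 + Real.log (n + 1)) := ⟨_, rfl⟩
  rw [← hK] at h h3 ⊢
  have hK0 : 0 < K := lt_of_lt_of_le hx h
  obtain ⟨-, -, h4, -, -⟩ := hM r n x K hx h
  have h5 : (n + 1) / (8 * (r + 1) * K) ≤ K / x * V r n x := h3.trans h4
  have h6 : ((n : ℝ) + 1) * x / (8 * (r + 1) * K ^ 2) =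
      (x / K) * ((n + 1) / (8 * (r + 1) * K)) := by
    have : (0 : ℝ) < r + 1 := by linarith
    field_simp
  rw [h6]
  calc (x / K) * ((n + 1) / (8 * (r + 1) * K)) ≤ (x / K) * (K / x * V r n x) :=
        mul_le_mul_of_nonneg_left h5 (by positivity)
    _ = V r n x := by field_simp

end Pool.Agent.H37.ATR
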