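import Pool.Agent.H37.ATR.Spec

/-!
# ATR, piece VR2: `∑ (1 - p)^2 ≤ C (n+1)^2 / x^2` for `x ≥ 1`
-/

set_option autoImplicit false

namespace Pool.Agent.H37.ATR

private theorem vr2_pp (r n : ℕ) {x : ℝ} (hx : 0 < x) (i : Fin n) :
    0 < pp r n x i ∧ pp r n x i < 1 := by
  unfold pp
  have h := mul_pos (yy_pos r n i) hx
  constructor
  · exact div_pos h (by linarith)
  · rw [div_lt_one (by linarith)]
    linarith

private theorem vr2_nL (r n : ℕ) (x : ℝ) : (n : ℝ) - L r n x = ∑ i, (1 - pp r n x i) := by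
  unfold L
  rw [Finset.sum_sub_distrib]
  simp

private theorem vr2_S (r n : ℕ) (x : ℝ) :
    (n : ℝ) - L r n x - V r n x = ∑ i, (1 - pp r n x i) ^ 2 := by
  rw [vr2_nL]
  unfold V
  rw [← Finset.sum_sub_distrib]
  exact Finset.sum_congr rfl fun i _ => by ring

private theorem vr2_basic (r n : ℕ) {x : ℝ} (hx : 0 < x) :
    0 ≤ L r n x ∧ 0 ≤ V r n x ∧ V r n x ≤ n - L r n x ∧ 0 ≤ n - L r n x - V r n x ∧
      Ka r n x ≤ - V r n x + 2 * (n - L r n x - V r n x) := by
  have hp := fun i => vr2_pp r n hx i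
  refine ⟨?_, ?_, ?_, ?_, ?_⟩
  · exact Finset.sum_nonneg fun i _ => (hp i).1.le
  · exact Finset.sum_nonneg fun i _ => mul_nonneg (hp i).1.le (by linarith [(hp i).2])
  · rw [vr2_nL]
    refine Finset.sum_le_sum fun i _ => ?_
    nlinarith [(hp i).1, (hp i).2]
  · rw [vr2_S]
    exact Finset.sum_nonneg fun i _ => sq_nonneg _
  · rw [vr2_S]
    unfold Ka V
    rw [Finset.mul_sum, ← Finset.sum_neg_distrib, ← Finset.sum_add_distrib]
    refine Finset.sum_le_sum fun i _ => ?_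
    nlinarith [(hp i).1, (hp i).2, mul_nonneg (by linarith [(hp i).2] : 0 ≤ 1 - pp r n x i)
      (sq_nonneg (1 - pp r n x i))]

private theorem vr2_log (m : ℝ) (hm : 1 ≤ m) :
    2 * (1 + Real.log m) + (2 + Real.log m) ^ 2 ≤ 24 * √m := by
  have h0 : 0 < √m := Real.sqrt_pos.2 (by linarith)
  have hq0 : 0 < √(√m) := Real.sqrt_pos.2 h0
  have hq1 : 1 ≤ √(√m) := by
    rw [Real.one_le_sqrt, Real.one_le_sqrt]
    exact hm
  have hq2 : √(√m) ^ 2 = √m := Real.sq_sqrt h0.le
  have hq4 : √(√m) ^ 4 = m := by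
    rw [show (4 : ℕ) = 2 * 2 by norm_num, pow_mul, hq2, Real.sq_sqrt (by linarith)]
  have hlog : Real.log m ≤ 4 * (√(√m) - 1) := by
    conv_lhs => rw [← hq4]
    rw [Real.log_pow]
    push_cast
    have := Real.log_le_sub_one_of_pos hq0
    linarith
  have hlog0 : 0 ≤ Real.log m := Real.log_nonneg hm
  rw [← hq2]
  nlinarith [hlog, hlog0, hq1]

/-- One step. -/
private theorem vr2_step (hB : BasSt) (hV : Vr1St) (r n : ℕ) (hr : 2 ≤ r) {x : ℝ} (hx : 1 ≤ x) :
    x ^ 2 * (((n + 1 : ℕ) : ℝ) - L r (n + 1) x - V r (n + 1) x) ≤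
      ((n : ℝ) + 4) / (n + 2) * (x ^ 2 * (n - L r n x - V r n x)) + 24 * √((n : ℝ) + 1) := by
  have hx0 : 0 < x := by linarith
  obtain ⟨-, -, hR, hD, hL', hV'⟩ := hB r n x (by omega) hx0
  obtain ⟨hl0, hv0, hvc, hS0, hk⟩ := vr2_basic r n hx0
  have hv := (hV r n x hr hx0).2.1
  have hlog := vr2_log ((n : ℝ) + 1) (by linarith [(Nat.cast_nonneg n : (0 : ℝ) ≤ n)])
  have hn0 : (0 : ℝ) ≤ n := Nat.cast_nonneg n
  have hlog0 : 0 ≤ Real.log ((n : ℝ) + 1) := Real.log_nonneg (by linarith)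
  have hr' : (2 : ℝ) ≤ r := by exact_mod_cast hr
  have hRdef : R r n x = 1 + NN r n * x + (1 - x) * L r n x := rfl
  have hDdef : D r n x = x * (NN r n - L r n x) + (1 - x) * V r n x := rfl
  have hN : NN r n = (r : ℝ) * ((n : ℝ) + 1) := rfl
  set l := L r n x with hl
  set v := V r n x with hvd
  set k := Ka r n x with hkd
  set N := NN r n with hNd
  set R0 := R r n x with hR0
  set D0 := D r n x with hD0
  set lg := Real.log ((n : ℝ) + 1) with hlg
  have hNl : (n : ℝ) + 2 ≤ N - l := by nlinarith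
  have hRge : x * (n + 2) ≤ R0 := by
    rw [hRdef]
    nlinarith
  have hxn : 0 < x * ((n : ℝ) + 2) := by positivity
  -- the second term
  have hRD0 : 0 ≤ (R0 - D0) / R0 := by
    apply div_nonneg _ hR.le
    rw [hRdef, hDdef]
    nlinarith
  have hxv : x * v ≤ (n + 1) * (1 + lg) := by
    have h1 : v ≤ (n + 1) * (1 + lg) / x := hvc.trans hv
    rw [le_div_iff₀ hx0] at h1
    linarith
  have hRD : (R0 - D0) / R0 ≤ (2 + lg) / x := by
    rw [div_le_div_iff₀ hR hx0]
    have h1 : (R0 - D0) * x ≤ (2 + lg) * (x * (n + 2)) := by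
      have h2 : R0 - D0 = 1 + l + (x - 1) * v := by
        rw [hRdef, hDdef]
        ring
      have h3 : R0 - D0 ≤ (n + 1) + (n + 1) * (1 + lg) := by
        rw [h2]
        nlinarith
      have h4 : R0 - D0 ≤ (2 + lg) * (n + 2) := by nlinarith
      calc (R0 - D0) * x ≤ ((2 + lg) * (n + 2)) * x := by gcongr
        _ = (2 + lg) * (x * (n + 2)) := by ring
    calc (R0 - D0) * x ≤ (2 + lg) * (x * (n + 2)) := h1
      _ ≤ (2 + lg) * R0 := by gcongr
  have hsq : x ^ 2 * ((R0 - D0) / R0) ^ 2 ≤ (2 + lg) ^ 2 := by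
    have h1 : x * ((R0 - D0) / R0) ≤ 2 + lg := by
      rw [le_div_iff₀ hx0] at hRD
      linarith
    have h2 : 0 ≤ x * ((R0 - D0) / R0) := mul_nonneg hx0.le hRD0
    calc x ^ 2 * ((R0 - D0) / R0) ^ 2 = (x * ((R0 - D0) / R0)) ^ 2 := by ring
      _ ≤ (2 + lg) ^ 2 := by gcongr
  -- the first term
  have hth : D0 - (x * (N - l) - 2 * x * v + (1 - x) * k) ≤ 2 * v + 2 * x * (n - l - v) := by
    rw [hDdef]
    nlinarith [mul_le_mul_of_nonneg_left hk (by linarith : 0 ≤ x - 1)]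
  have hfirst : x ^ 2 * ((D0 - (x * (N - l) - 2 * x * v + (1 - x) * k)) / R0) ≤
      2 * (1 + lg) + 2 / (n + 2) * (x ^ 2 * (n - l - v)) := by
    have h1 : (D0 - (x * (N - l) - 2 * x * v + (1 - x) * k)) / R0 ≤
        (2 * v + 2 * x * (n - l - v)) / (x * (n + 2)) := by
      have h2 : 0 ≤ 2 * v + 2 * x * (n - l - v) := by positivity
      calc (D0 - (x * (N - l) - 2 * x * v + (1 - x) * k)) / R0
          ≤ (2 * v + 2 * x * (n - l - v)) / R0 := by gcongr
        _ ≤ (2 * v + 2 * x * (n - l - v)) / (x * (n + 2)) := by gcongr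
    calc x ^ 2 * ((D0 - (x * (N - l) - 2 * x * v + (1 - x) * k)) / R0)
        ≤ x ^ 2 * ((2 * v + 2 * x * (n - l - v)) / (x * (n + 2))) := by gcongr
      _ = 2 * (x * v) / (n + 2) + 2 / (n + 2) * (x ^ 2 * (n - l - v)) := by
          field_simp
      _ ≤ 2 * (1 + lg) + 2 / (n + 2) * (x ^ 2 * (n - l - v)) := by
          gcongr
          rw [div_le_iff₀ (by positivity)]
          nlinarith
  have hmain : x ^ 2 * (((n + 1 : ℕ) : ℝ) - L r (n + 1) x - V r (n + 1) x) =
      x ^ 2 * (n - l - v) + x ^ 2 * ((D0 - (x * (N - l) - 2 * x * v + (1 - x) * k)) / R0)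
        + x ^ 2 * ((R0 - D0) / R0) ^ 2 := by
    rw [hL', hV']
    push_cast
    field_simp
    ring
  have hfac : ((n : ℝ) + 4) / (n + 2) * (x ^ 2 * (n - l - v)) =
      x ^ 2 * (n - l - v) + 2 / (n + 2) * (x ^ 2 * (n - l - v)) := by
    field_simp
    ring
  rw [hmain, hfac]
  linarith

/-- VR2. -/
theorem vr2 : BasSt → Vr1St → Vr2St := by
  intro hB hV r hr
  refine ⟨288, by norm_num, fun n x hx => ?_⟩
  have hx0 : 0 < x := by linarith
  have key : ∀ n : ℕ, x ^ 2 * (n - L r n x - V r n x) ≤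
      ((n : ℝ) + 2) * (n + 3) * (48 * (1 - 1 / √((n : ℝ) + 1))) := by
    intro n
    induction n with
    | zero => simp [L, V]
    | succ n ih =>
      have h1 := vr2_step hB hV r n hr hx
      have hn0 : (0 : ℝ) ≤ n := Nat.cast_nonneg n
      set a := √((n : ℝ) + 1) with ha
      set b := √((n : ℝ) + 2) with hb
      have ha0 : 0 < a := Real.sqrt_pos.2 (by linarith)
      have hb0 : 0 < b := Real.sqrt_pos.2 (by linarith)
      have ha2 : a ^ 2 = n + 1 := Real.sq_sqrt (by linarith)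
      have hb2 : b ^ 2 = n + 2 := Real.sq_sqrt (by linarith)
      have hab : a ≤ b := Real.sqrt_le_sqrt (by linarith)
      have hcast : ((n + 1 : ℕ) : ℝ) = n + 1 := by push_cast; ring
      have hb' : √(((n + 1 : ℕ) : ℝ) + 1) = b := by
        rw [hcast, hb]
        congr 1
        ring
      rw [hb', hcast]
      rw [hcast] at h1
      refine h1.trans ?_
      have h2 : ((n : ℝ) + 4) / (n + 2) * (x ^ 2 * (n - L r n x - V r n x)) ≤
          ((n : ℝ) + 3) * (n + 4) * (48 * (1 - 1 / a)) := by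
        calc ((n : ℝ) + 4) / (n + 2) * (x ^ 2 * (n - L r n x - V r n x))
            ≤ ((n : ℝ) + 4) / (n + 2) * (((n : ℝ) + 2) * (n + 3) * (48 * (1 - 1 / a))) := by
              gcongr
          _ = ((n : ℝ) + 3) * (n + 4) * (48 * (1 - 1 / a)) := by
              field_simp
      have h3 : 24 * a ≤ ((n : ℝ) + 3) * (n + 4) * (48 * (1 / a - 1 / b)) := by
        have h4 : 1 / a - 1 / b = 1 / (a * b * (a + b)) := by
          have h5 : b ^ 2 - a ^ 2 = 1 := by rw [ha2, hb2]; ring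
          field_simp
          nlinarith
        have h6 : 1 / (2 * b ^ 3) ≤ 1 / (a * b * (a + b)) := by
          apply one_div_le_one_div_of_le (by positivity)
          nlinarith [mul_pos ha0 hb0, mul_nonneg (by linarith : 0 ≤ b - a) (by positivity : 0 ≤ b * (2 * b + a))]
        rw [h4]
        have h7 : b ^ 4 ≤ ((n : ℝ) + 3) * (n + 4) := by
          have : b ^ 4 = (b ^ 2) ^ 2 := by ring
          rw [this, hb2]
          nlinarith
        calc 24 * a ≤ 24 * b := by linarith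
          _ = b ^ 4 * (48 * (1 / (2 * b ^ 3))) := by
              field_simp
              ring
          _ ≤ ((n : ℝ) + 3) * (n + 4) * (48 * (1 / (a * b * (a + b)))) := by
              gcongr
      have h8 : ((n : ℝ) + 1 + 2) * ((n : ℝ) + 1 + 3) * (48 * (1 - 1 / b)) =
          ((n : ℝ) + 3) * (n + 4) * (48 * (1 - 1 / a))
            + ((n : ℝ) + 3) * (n + 4) * (48 * (1 / a - 1 / b)) := by
        ring
      rw [h8]
      linarith
  have h1 := key n
  have hn0 : (0 : ℝ) ≤ n := Nat.cast_nonneg n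
  rw [le_div_iff₀ (by positivity)]
  have h2 : ((n : ℝ) + 2) * (n + 3) * (48 * (1 - 1 / √((n : ℝ) + 1))) ≤
      ((n : ℝ) + 2) * (n + 3) * 48 := by
    have : 0 ≤ 1 / √((n : ℝ) + 1) := by positivity
    have h3 : 48 * (1 - 1 / √((n : ℝ) + 1)) ≤ 48 := by linarith
    gcongr
  nlinarith

end Pool.Agent.H37.ATR
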