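import Pool.Agent.H37.ATR.Spec

/-!
# Asymptotic total positivity: the numbers `w` (row WW)
-/

set_option autoImplicit false

namespace Pool.Agent.H37.ATR

open Pool.Agent.H73.TP

/-- the geometric series -/
noncomputable def wwU : PowerSeries ℝ := PowerSeries.mk 1

theorem wwU_mul : wwU * (1 - PowerSeries.X) = 1 := PowerSeries.mk_one_mul_one_sub_eq_one ℝ

theorem wwU_coeff (d j : ℕ) : PowerSeries.coeff j (wwU ^ (d + 1)) = ((d + j).choose j : ℕ) := by
  unfold wwU
  rw [PowerSeries.mk_one_pow_eq_mk_choose_add, PowerSeries.coeff_mk, Nat.choose_symm_add]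

theorem wwU_coeff' (r l : ℕ) (hr : 1 ≤ r) :
    PowerSeries.coeff l (wwU ^ (r - 1)) = ((l + r - 2).choose l : ℕ) := by
  rcases Nat.lt_or_ge 1 r with h | h
  · obtain ⟨s, rfl⟩ : ∃ s, r = s + 2 := ⟨r - 2, by omega⟩
    rw [show s + 2 - 1 = s + 1 by omega, wwU_coeff, show l + (s + 2) - 2 = s + l by omega]
  · obtain rfl : r = 1 := by omega
    rw [Nat.sub_self, pow_zero, PowerSeries.coeff_one]
    rcases l with _ | l
    · simp
    · rw [if_neg (by omega), show l + 1 + 1 - 2 = l by omega,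
        Nat.choose_eq_zero_of_lt (Nat.lt_succ_self l)]
      simp

/-- `X f_n / (1 - X)^(r (n + 1) + 1)` -/
noncomputable def wwS (r n : ℕ) : PowerSeries ℝ :=
  PowerSeries.X * ((rowP r n : PowerSeries ℝ) * wwU ^ (r * (n + 1) + 1))

theorem wwS_coeff (r n N : ℕ) : PowerSeries.coeff N (wwS r n) = w r n N := by
  unfold wwS w
  rcases N with _ | M
  · simp
  · rw [PowerSeries.coeff_succ_X_mul, PowerSeries.coeff_mul,
      Finset.Nat.sum_antidiagonal_eq_sum_range_succ_mk]
    refine Finset.sum_congr rfl fun k hk => ?_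
    rw [Polynomial.coeff_coe, wwU_coeff, Nat.add_sub_cancel]
    rfl

theorem wwU_deriv : PowerSeries.derivative ℝ wwU = wwU ^ 2 := by
  have h := congrArg (PowerSeries.derivative ℝ) wwU_mul
  have h1 : PowerSeries.derivative ℝ (1 : PowerSeries ℝ) = 0 := Derivation.map_one_eq_zero _
  rw [Derivation.leibniz, map_sub, h1, PowerSeries.derivative_X, smul_eq_mul, smul_eq_mul] at h
  linear_combination wwU * h - (PowerSeries.derivative ℝ wwU) * wwU_mul

theorem wwS_succ (r n : ℕ) (hr : 1 ≤ r) : wwS r (n + 1) =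
    PowerSeries.X * (wwU ^ (r - 1) * PowerSeries.derivative ℝ (wwS r n)) := by
  obtain ⟨s, rfl⟩ : ∃ s, r = s + 1 := ⟨r - 1, by omega⟩
  have hrow : (rowP (s + 1) (n + 1) : PowerSeries ℝ) =
      (1 + PowerSeries.C (((s + 1 : ℕ) : ℝ) * ((n : ℝ) + 1)) * PowerSeries.X) *
          (rowP (s + 1) n : PowerSeries ℝ) +
        (PowerSeries.X - PowerSeries.X ^ 2) *
          PowerSeries.derivative ℝ (rowP (s + 1) n : PowerSeries ℝ) := by
    rw [PowerSeries.derivative_coe]
    change ((opA _ (rowP (s + 1) n) : Polynomial ℝ) : PowerSeries ℝ) = _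
    unfold opA
    simp only [Polynomial.coe_add, Polynomial.coe_mul, Polynomial.coe_sub, Polynomial.coe_one,
      Polynomial.coe_X, Polynomial.coe_C, Polynomial.coe_pow]
  have hC : PowerSeries.C (((s + 1 : ℕ) : ℝ) * ((n : ℝ) + 1)) =
      (((s + 1) * (n + 1) : ℕ) : PowerSeries ℝ) := by
    push_cast
    simp
  rw [hC] at hrow
  have hd : PowerSeries.derivative ℝ (wwU ^ ((s + 1) * (n + 1) + 1)) =
      (((s + 1) * (n + 1) : ℕ) + 1 : PowerSeries ℝ) * wwU ^ ((s + 1) * (n + 1)) * wwU ^ 2 := by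
    rw [Derivation.leibniz_pow, wwU_deriv, Nat.add_sub_cancel, nsmul_eq_mul, smul_eq_mul]
    push_cast
    ring
  unfold wwS
  rw [hrow, Derivation.leibniz, Derivation.leibniz, hd, PowerSeries.derivative_X]
  simp only [smul_eq_mul, Nat.add_sub_cancel]
  have he : (s + 1) * (n + 1 + 1) + 1 = (s + 1) * (n + 1) + 1 + s + 1 := by ring
  rw [he]
  generalize (s + 1) * (n + 1) = d
  generalize (rowP (s + 1) n : PowerSeries ℝ) = f
  generalize PowerSeries.derivative ℝ f = f'
  linear_combination (PowerSeries.X * wwU ^ (d + s + 1) * (f + PowerSeries.X * f')) * wwU_mul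

theorem ww_rec (r n N : ℕ) (hr : 1 ≤ r) : w r (n + 1) N =
    ∑ l ∈ Finset.range N, ((l + r - 2).choose l : ℕ) * ((N - l : ℕ) : ℝ) * w r n (N - l) := by
  rw [← wwS_coeff, wwS_succ r n hr]
  rcases N with _ | M
  · simp
  · rw [PowerSeries.coeff_succ_X_mul, PowerSeries.coeff_mul,
      Finset.Nat.sum_antidiagonal_eq_sum_range_succ_mk]
    refine Finset.sum_congr rfl fun l hl => ?_
    have hl' : l ≤ M := Nat.lt_succ_iff.1 (Finset.mem_range.1 hl)
    rw [wwU_coeff' r l hr, PowerSeries.coeff_derivative, wwS_coeff,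
      show M + 1 - l = M - l + 1 by omega]
    push_cast
    ring

theorem ww_zero (r N : ℕ) : w r 0 (N + 1) = ((r + N).choose N : ℕ) := by
  rw [← wwS_coeff]
  unfold wwS
  rw [PowerSeries.coeff_succ_X_mul]
  have h : ((rowP r 0 : Polynomial ℝ) : PowerSeries ℝ) = 1 := by
    change ((1 : Polynomial ℝ) : PowerSeries ℝ) = 1
    exact Polynomial.coe_one
  rw [h, one_mul, show r * (0 + 1) + 1 = r + 1 by ring, wwU_coeff]

theorem ww_low (r : ℕ) (hr : 1 ≤ r) : ∀ n N : ℕ, (N : ℝ) ^ (n + 1) ≤ w r n N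
  | 0, 0 => by simp [w]
  | 0, N + 1 => by
    rw [ww_zero, zero_add, pow_one]
    have h : (1 + N).choose N ≤ (r + N).choose N := Nat.choose_le_choose N (by omega)
    have h2 : (1 + N).choose N = N + 1 := by
      rw [add_comm, Nat.choose_succ_self_right]
    rw [h2] at h
    exact_mod_cast h
  | n + 1, N => by
    rw [ww_rec r n N hr]
    rcases N with _ | M
    · simp
    · have h0 : ∀ l ∈ Finset.range (M + 1), 0 ≤ (((l + r - 2).choose l : ℕ) : ℝ) *
          ((M + 1 - l : ℕ) : ℝ) * w r n (M + 1 - l) := fun l _ =>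
        mul_nonneg (by positivity) ((by positivity : (0 : ℝ) ≤ ((M + 1 - l : ℕ) : ℝ) ^ (n + 1)).trans
          (ww_low r hr n _))
      refine le_trans ?_ (Finset.single_le_sum h0 (Finset.mem_range.2 (Nat.succ_pos M)))
      have h1 := ww_low r hr n (M + 1)
      rw [Nat.choose_zero_right, Nat.sub_zero, pow_succ]
      push_cast at h1 ⊢
      have h2 : (0 : ℝ) ≤ (M : ℝ) + 1 := by positivity
      nlinarith [mul_le_mul_of_nonneg_left h1 h2]

theorem ww_mono (r : ℕ) (hr : 1 ≤ r) : ∀ n N : ℕ, 1 ≤ N →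
    w r n N / (N : ℝ) ^ (n + 1) ≤ w r n (N + 1) / ((N : ℝ) + 1) ^ (n + 1)
  | 0, N, hN => by
    obtain ⟨M, rfl⟩ : ∃ M, N = M + 1 := ⟨N - 1, by omega⟩
    rw [ww_zero, ww_zero, zero_add, pow_one, pow_one]
    have h := Nat.add_one_mul_choose_eq (r + M) M
    have h2 : ((r + M + 1 : ℕ) : ℝ) * ((r + M).choose M : ℕ) =
        ((r + (M + 1)).choose (M + 1) : ℕ) * ((M + 1 : ℕ) : ℝ) := by exact_mod_cast h
    have h3 : (1 : ℝ) ≤ r := by exact_mod_cast hr
    have h4 : (0 : ℝ) ≤ ((r + M).choose M : ℕ) := by positivity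
    push_cast at h2 ⊢
    rw [div_le_div_iff₀ (by positivity) (by positivity)]
    have h5 : (0 : ℝ) < (M : ℝ) + 1 := by positivity
    nlinarith
  | n + 1, N, hN => by
    have key : ∀ N : ℕ, 1 ≤ N → w r (n + 1) N / (N : ℝ) ^ (n + 1 + 1) =
        ∑ l ∈ Finset.range N, (((l + r - 2).choose l : ℕ) : ℝ) *
          (((N - l : ℕ) : ℝ) / N) ^ (n + 2) * (w r n (N - l) / ((N - l : ℕ) : ℝ) ^ (n + 1)) := by
      intro N hN
      rw [ww_rec r n N hr, Finset.sum_div]
      refine Finset.sum_congr rfl fun l hl => ?_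
      have h1 : (0 : ℝ) < ((N - l : ℕ) : ℝ) := by
        have := Finset.mem_range.1 hl
        exact_mod_cast (by omega : 0 < N - l)
      have h2 : (0 : ℝ) < (N : ℝ) := by exact_mod_cast hN
      rw [div_pow]
      field_simp
      ring
    have e := key (N + 1) (by omega)
    push_cast at e
    rw [key N hN, e, Finset.sum_range_succ]
    have hN0 : (0 : ℝ) < (N : ℝ) := by exact_mod_cast hN
    have hw : ∀ M : ℕ, 0 ≤ w r n M := fun M =>
      (by positivity : (0 : ℝ) ≤ (M : ℝ) ^ (n + 1)).trans (ww_low r hr n M)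
    refine le_trans (Finset.sum_le_sum fun l hl => ?_) (le_add_of_nonneg_right ?_)
    · have hl' := Finset.mem_range.1 hl
      have h1 := ww_mono r hr n (N - l) (by omega)
      have e1 : N + 1 - l = N - l + 1 := by omega
      rw [e1]
      have h2 : (((N - l : ℕ) : ℝ)) = (N : ℝ) - l := by
        rw [Nat.cast_sub hl'.le]
      have h3 : (l : ℝ) ≤ N := by exact_mod_cast hl'.le
      have h4 : ((N - l : ℕ) : ℝ) / N ≤ ((N - l + 1 : ℕ) : ℝ) / ((N : ℝ) + 1) := by
        push_cast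
        rw [h2, div_le_div_iff₀ hN0 (by positivity)]
        have : (0 : ℝ) ≤ l := by positivity
        nlinarith
      have h5 : (((N - l : ℕ) : ℝ) / N) ^ (n + 2) ≤
          (((N - l + 1 : ℕ) : ℝ) / ((N : ℝ) + 1)) ^ (n + 2) :=
        pow_le_pow_left₀ (by positivity) h4 _
      have h6 : w r n (N - l) / ((N - l : ℕ) : ℝ) ^ (n + 1) ≤
          w r n (N - l + 1) / ((N - l + 1 : ℕ) : ℝ) ^ (n + 1) := by
        push_cast
        exact h1
      exact mul_le_mul (mul_le_mul_of_nonneg_left h5 (by positivity)) h6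
        (div_nonneg (hw _) (by positivity)) (by positivity)
    · exact mul_nonneg (by positivity) (div_nonneg (hw _) (by positivity))

theorem ww : WwSt := fun r hr => ⟨fun n N => ww_rec r n N hr, ww_low r hr, ww_mono r hr⟩

end Pool.Agent.H37.ATR
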