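import Pool.Agent.H37.ATR.Glue
import Pool.Agent.H47.ATR.MonExi
import Pool.Agent.H37.ATR.Vr1
import Pool.Agent.H37.ATR.Vr2
import Pool.Agent.H37.ATR.Vr
import Pool.Agent.H37.ATR.Ww
import Pool.Agent.H37.ATR.Left
import Pool.Agent.H37.ATR.FloFup
import Pool.Agent.H37.ATR.Vl
import Pool.Agent.H37.ATR.Right
import Pool.Agent.H37.ATR.DetP
import Pool.Agent.H37.ATR.RecP
import Pool.Agent.H37.ATR.Om
import Pool.Agent.H37.ATR.Ind
import Pool.Agent.H37.ATR.Mom
import Pool.Agent.H37.ATR.Far
import Pool.Agent.H37.ATR.Asm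
import Pool.Agent.H53.ATP.Han

/-!
# Asymptotic total positivity of the `r`-th order Eulerian triangles: assembly
-/

set_option autoImplicit false

namespace Pool.Agent.H37.ATR

/-- All solid minors of large rows are positive, `r ≥ 2`. -/
theorem sol_all : SolSt :=
  have h1 : Vr1St := vr1 bas Pool.Agent.H47.ATR.mon
  have h2 : Vr2St := vr2 bas h1
  have hphi : PhiSt := ind bas recS om (del bas)
  have hmid : MidSt := asm (del bas) bas det hphi mom absS (far bas (del bas))
    Pool.Agent.H53.ATP.han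
  have hvl : VlSt := vl bas Pool.Agent.H47.ATR.mon h1 (flo ww) fup
  sol_of Pool.Agent.H47.ATR.exi (vr h1 h2) hvl (left ww) right hmid

end Pool.Agent.H37.ATR
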