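import Pool.Agent.H37.ATR.Bas

/-!
# Asymptotic total positivity of the `r`-th order Eulerian triangles: glue
-/

set_option autoImplicit false

open MeasureTheory Filter Polynomial
open scoped Topology Real

namespace Pool.Agent.H37.ATR

open Pool.Agent.H73.TP

theorem glu_log_le (n : ℕ) (hn : 2 ≤ n) (C : ℝ) (hC : 0 < C) : 0 < n / (C * Real.log n) := by
  have h1 : (0 : ℝ) < n := by positivity
  have h2 : 0 < Real.log n := Real.log_pos (by exact_mod_cast hn)
  positivity

/-- All solid minors of large rows are positive. -/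
theorem sol_of (hexi : ExiSt) (hvr : VrSt) (hvl : VlSt) (hleft : LeftSt) (hright : RightSt)
    (hmid : MidSt) : SolSt := by
  intro r m hr
  obtain ⟨C, hC, N1, h1⟩ := hleft r m (by omega)
  obtain ⟨B, N2, h2⟩ := hmid r m hr
  obtain ⟨c0, N3, h3⟩ := hvr r hr B
  obtain ⟨N4, h4⟩ := hvl r hr C hC
  obtain ⟨c1, hc1⟩ := exists_nat_ge c0
  obtain ⟨N5, h5⟩ := hright r m (c1 + 1) hr
  obtain ⟨N6, h6⟩ := exists_nat_ge (max B 1 ^ 2)
  refine ⟨N1 + N2 + N3 + N4 + N5 + N6 + 2, fun n hn k hk => ?_⟩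
  by_cases hL : (k : ℝ) ≤ n / (C * Real.log n)
  · exact h1 n (by omega) k hL
  by_cases hR : n - k ≤ c1 + 1
  · exact h5 n (by omega) k hk hR
  push Not at hL hR
  have hk1 : 1 ≤ k := by
    rcases Nat.eq_zero_or_pos k with h0 | h0
    · rw [h0, Nat.cast_zero] at hL
      exact absurd hL (not_lt.2 (glu_log_le n (by omega) C hC).le)
    · exact h0
  obtain ⟨x, hx, hLx⟩ := hexi r n k hk1 (by omega)
  have hc : c0 ≤ n - L r n x := by
    rw [hLx]
    have h7 : c1 + k ≤ n := by omega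
    have h8 : ((c1 : ℝ) + k) ≤ n := by exact_mod_cast h7
    linarith
  rcases le_or_gt (1 / 2) x with hx2 | hx2
  · have hV := h3 n (by omega) x hx2 hc
    exact h2 n (by omega) k hk x hx hLx hV (Or.inl hx2)
  · have hV := h4 n (by omega) x hx hx2.le (by rw [hLx]; exact hL.le)
    have hB : B ≤ √(n : ℝ) := by
      have h9 : max B 1 ^ 2 ≤ (n : ℝ) := by
        refine h6.trans ?_
        exact_mod_cast (by omega : N6 ≤ n)
      calc B ≤ max B 1 := le_max_left _ _
        _ = √(max B 1 ^ 2) := (Real.sqrt_sq (le_trans zero_le_one (le_max_right _ _))).symm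
        _ ≤ √(n : ℝ) := Real.sqrt_le_sqrt h9
    exact h2 n (by omega) k hk x hx hLx (hB.trans hV) (Or.inr hV)

/-- All minors of order `≤ K` on rows `≥ N` of the triangle of order `r ≥ 2`. -/
theorem minors_of (hfek : Pool.Agent.H53.ATP.FekSt) (hsol : SolSt) (r : ℕ) (hr : 2 ≤ r)
    (K : ℕ) : ∃ N : ℕ, ∀ m, m ≤ K → ∀ f g : Fin m → ℕ, StrictMono f → StrictMono g →
      (∀ i, N ≤ f i) →
      0 ≤ Matrix.det (Matrix.of fun i j => ar r (f i) (g j)) ∧
      ((∀ i, g i ≤ f i) → 0 < Matrix.det (Matrix.of fun i j => ar r (f i) (g j))) := by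
  choose N0 hN0 using fun m => hsol r m hr
  refine ⟨(Finset.range (K + 1)).sup N0, ?_⟩
  refine hfek (ar r) K _ (fun n k hnk => rowP_zero r (by omega) n k hnk) ?_
  intro m hm n hn k hk
  refine hN0 m n ((Finset.le_sup (f := N0) (Finset.mem_range.2 (by omega))).trans hn) k hk

/-- The array `ar` is the Eulerian triangle. -/
theorem ar_eq (r : ℕ) (E : ℕ → ℕ → ℤ) (h00 : E 0 0 = 1) (h0 : ∀ k, E 0 (k + 1) = 0)
    (hc : ∀ n, E (n + 1) 0 = E n 0)
    (hs : ∀ n k : ℕ, E (n + 1) (k + 1) =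
      ((k : ℤ) + 2) * E n (k + 1) + ((r : ℤ) * (n : ℤ) - (k : ℤ)) * E n k) :
    ∀ n k, ((E (n + 1) k : ℤ) : ℝ) = ar r n k := by
  intro n
  induction n with
  | zero =>
    intro k
    rcases k with _ | k
    · rw [hc, h00]; simp [ar, rowP]
    · rw [hs, h0]
      rcases k with _ | k
      · simp [ar, rowP, coeff_one]
      · rw [h0]; simp [ar, rowP, coeff_one]
  | succ n ih =>
    intro k
    rcases k with _ | k
    · rw [hc, ih, ar, ar, rowP, opA_coeff_zero]
    · rw [hs, ar, rowP, opA_coeff_succ]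
      have h1 := ih (k + 1)
      have h2 := ih k
      unfold ar at h1 h2
      rw [← h1, ← h2]
      push_cast; ring

/-- Minors of the triangle of order `r ≥ 2`. -/
theorem euler_minors_of (hfek : Pool.Agent.H53.ATP.FekSt) (hsol : SolSt) (r : ℕ) (hr : 2 ≤ r)
    (K : ℕ) : ∃ N : ℕ, ∀ E : ℕ → ℕ → ℤ, E 0 0 = 1 → (∀ k : ℕ, E 0 (k + 1) = 0) →
      (∀ n : ℕ, E (n + 1) 0 = E n 0) →
      (∀ n k : ℕ, E (n + 1) (k + 1) =
        ((k : ℤ) + 2) * E n (k + 1) + ((r : ℤ) * (n : ℤ) - (k : ℤ)) * E n k) →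
      ∀ m : ℕ, m ≤ K → ∀ f g : Fin m → ℕ, StrictMono f → StrictMono g → (∀ i, N ≤ f i) →
        0 ≤ Matrix.det (Matrix.of fun i j => E (f i) (g j)) ∧
        ((∀ i, g i < f i) → 0 < Matrix.det (Matrix.of fun i j => E (f i) (g j))) := by
  obtain ⟨N, hN⟩ := minors_of hfek hsol r hr K
  refine ⟨N + 1, fun E h00 h0 hc hs m hm f g hf hg hfN => ?_⟩
  have hE := ar_eq r E h00 h0 hc hs
  have key := hN m hm (fun i => f i - 1) g
    (fun i j hij => by
      have h1 := hf hij
      have h2 := hfN i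
      show f i - 1 < f j - 1
      omega) hg (fun i => by
      have h2 := hfN i
      show N ≤ f i - 1
      omega)
  have hdet : ((Matrix.det (Matrix.of fun i j => E (f i) (g j)) : ℤ) : ℝ) =
      Matrix.det (Matrix.of fun i j => ar r (f i - 1) (g j)) := by
    have h3 := RingHom.map_det (Int.castRingHom ℝ) (Matrix.of fun i j => E (f i) (g j))
    have h4 : (Int.castRingHom ℝ) (Matrix.det (Matrix.of fun i j => E (f i) (g j))) =
        ((Matrix.det (Matrix.of fun i j => E (f i) (g j)) : ℤ) : ℝ) := rfl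
    rw [← h4, h3]
    congr 1
    ext i j
    have h5 := hfN i
    have h6 := hE (f i - 1) (g j)
    rw [show f i - 1 + 1 = f i by omega] at h6
    simpa using h6
  constructor
  · have := key.1
    rw [← hdet] at this
    exact_mod_cast this
  · intro hgf
    have := key.2 (fun i => by
      have h7 := hgf i
      show g i ≤ f i - 1
      omega)
    rw [← hdet] at this
    exact_mod_cast this

end Pool.Agent.H37.ATR
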