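import Mathlib

/-!
# The recursion of the `Phi_i`: bounds on shrinking discs
-/

set_option autoImplicit false

open Metric Set

namespace Pool.Agent.H37.ATR.IndH

/-- Radii. -/
noncomputable def rad (i : ℕ) : ℝ := 1 / 4 + 1 / (4 * ((i : ℝ) + 1))

theorem rad_gt (i : ℕ) : 1 / 4 < rad i := by
  unfold rad
  have : (0 : ℝ) < 1 / (4 * ((i : ℝ) + 1)) := by positivity
  linarith

theorem rad_le (i : ℕ) : rad i ≤ 1 / 2 := by
  unfold rad
  have : (1 : ℝ) / (4 * ((i : ℝ) + 1)) ≤ 1 / 4 := by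
    rw [div_le_div_iff₀ (by positivity) (by norm_num)]
    nlinarith [Nat.cast_nonneg (α := ℝ) i]
  linarith

theorem rad_sub (i : ℕ) : rad i - rad (i + 1) = 1 / (4 * ((i : ℝ) + 1) * ((i : ℝ) + 2)) := by
  unfold rad
  push_cast
  field_simp
  ring

/-- Bounds for a sequence of functions that satisfies the recursion of the `Phi_i`. -/
theorem rec_bound (c : ℝ) (hc : 0 ≤ c) : ∀ i : ℕ, ∃ C : ℝ, 0 < C ∧
    ∀ (Φ : ℕ → ℂ → ℂ) (a a2 : ℂ) (b : ℂ → ℂ) (d : ℝ), 0 ≤ d → d ≤ c →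
      ‖a‖ ≤ c * d → ‖a2‖ ≤ c * d → (∀ ζ : ℂ, ‖ζ‖ ≤ 1 / 2 → ‖b ζ‖ ≤ c * d) →
      (∀ j, DifferentiableOn ℂ (Φ j) (ball 0 1)) →
      (∀ ζ : ℂ, ‖ζ‖ ≤ 1 / 2 → Φ 0 ζ = 1) →
      (∀ ζ : ℂ, ‖ζ‖ ≤ 1 / 2 → ‖Φ 1 ζ‖ ≤ 1) →
      (∀ j : ℕ, ∀ ζ : ℂ, ‖ζ‖ ≤ 1 / 2 → Φ (j + 1) ζ =
        (Φ 1 ζ + j * a * (1 + ζ)) * Φ j ζ + b ζ * (1 + ζ) * deriv (Φ j) ζ
          + j * a2 * (1 + ζ) * Φ (j - 1) ζ) →
      ∀ j ≤ i, ∀ ζ : ℂ, ‖ζ‖ ≤ rad j → ‖Φ j ζ‖ ≤ C ∧ ‖Φ j ζ - Φ 1 ζ ^ j‖ ≤ C * d := by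
  intro i
  induction i with
  | zero =>
    refine ⟨1, one_pos, ?_⟩
    intro Φ a a2 b d hd _ _ _ _ _ h0 _ _ j hj ζ hζ
    obtain rfl : j = 0 := by omega
    have : ‖ζ‖ ≤ 1 / 2 := hζ.trans (rad_le 0)
    rw [h0 ζ this]
    simp only [norm_one, le_refl, pow_zero, sub_self, norm_zero, one_mul, true_and]
    exact hd
  | succ i ih =>
    obtain ⟨C, hC, H⟩ := ih
    set K : ℝ := 4 * ((i : ℝ) + 1) * ((i : ℝ) + 2) with hK
    have hK0 : 0 < K := by positivity
    set M : ℝ := c * (3 / 2) * (2 * i + K) with hM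
    have hM0 : 0 ≤ M := by positivity
    refine ⟨C * (1 + M + c * M), by positivity, ?_⟩
    intro Φ a a2 b d hd hdc ha ha2 hb hD h0 h1 hR j hj ζ hζ
    have HH := H Φ a a2 b d hd hdc ha ha2 hb hD h0 h1 hR
    have hle : C ≤ C * (1 + M + c * M) := by
      have : 0 ≤ C * (M + c * M) := by positivity
      nlinarith
    rcases Nat.lt_or_ge i j with hij | hij
    · obtain rfl : j = i + 1 := by omega
      have hr : rad (i + 1) < rad i := by
        have := rad_sub i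
        have h2 : (0 : ℝ) < 1 / (4 * ((i : ℝ) + 1) * ((i : ℝ) + 2)) := by positivity
        linarith
      have hζ2 : ‖ζ‖ ≤ 1 / 2 := hζ.trans (rad_le _)
      have hz1 : ‖(1 : ℂ) + ζ‖ ≤ 3 / 2 := by
        calc ‖(1 : ℂ) + ζ‖ ≤ ‖(1 : ℂ)‖ + ‖ζ‖ := norm_add_le _ _
          _ ≤ 3 / 2 := by rw [norm_one]; linarith
      have hder : ‖deriv (Φ i) ζ‖ ≤ C * K := by
        have hR0 : 0 < rad i - rad (i + 1) := by linarith
        have hsub : ∀ w : ℂ, dist w ζ ≤ rad i - rad (i + 1) → ‖w‖ ≤ rad i := by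
          intro w hw
          rw [dist_eq_norm] at hw
          calc ‖w‖ = ‖(w - ζ) + ζ‖ := by ring_nf
            _ ≤ ‖w - ζ‖ + ‖ζ‖ := norm_add_le _ _
            _ ≤ rad i := by linarith
        have hdc : DiffContOnCl ℂ (Φ i) (ball ζ (rad i - rad (i + 1))) := by
          refine DifferentiableOn.diffContOnCl ?_
          refine (hD i).mono ?_
          intro w hw
          have hw' := closure_ball_subset_closedBall hw
          rw [mem_closedBall] at hw'
          rw [mem_ball, dist_zero_right]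
          have := hsub w hw'
          have := rad_le i
          linarith
        have h := Complex.norm_deriv_le_of_forall_mem_sphere_norm_le hR0 hdc (C := C) (fun w hw => by
          rw [mem_sphere] at hw
          exact (HH i le_rfl w (hsub w hw.le)).1)
        rw [rad_sub] at h
        calc ‖deriv (Φ i) ζ‖ ≤ _ := h
          _ = C * K := by rw [hK]; field_simp
      have hi := HH i le_rfl ζ (by linarith)
      have hi1 : ‖(i : ℂ) * a2 * (1 + ζ) * Φ (i - 1) ζ‖ ≤ i * (c * d) * (3 / 2) * C := by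
        rcases Nat.eq_zero_or_pos i with rfl | hpos
        · simp
        · have h2 := (HH (i - 1) (by omega) ζ (by
            have : rad i ≤ rad (i - 1) := by
              obtain ⟨k, rfl⟩ : ∃ k, i = k + 1 := ⟨i - 1, by omega⟩
              have := rad_sub k
              have h2 : (0 : ℝ) < 1 / (4 * ((k : ℝ) + 1) * ((k : ℝ) + 2)) := by positivity
              simp only [Nat.add_sub_cancel]
              linarith
            linarith)).1
          rw [norm_mul, norm_mul, norm_mul, Complex.norm_natCast]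
          gcongr
      set E : ℂ := (i : ℂ) * a * (1 + ζ) * Φ i ζ + b ζ * (1 + ζ) * deriv (Φ i) ζ
          + i * a2 * (1 + ζ) * Φ (i - 1) ζ with hE
      have hEb : ‖E‖ ≤ d * (C * M) := by
        have e1 : ‖(i : ℂ) * a * (1 + ζ) * Φ i ζ‖ ≤ i * (c * d) * (3 / 2) * C := by
          rw [norm_mul, norm_mul, norm_mul, Complex.norm_natCast]
          have := hi.1
          gcongr
        have e2 : ‖b ζ * (1 + ζ) * deriv (Φ i) ζ‖ ≤ (c * d) * (3 / 2) * (C * K) := by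
          rw [norm_mul, norm_mul]
          have := hb ζ hζ2
          gcongr
        calc ‖E‖ ≤ ‖(i : ℂ) * a * (1 + ζ) * Φ i ζ‖ + ‖b ζ * (1 + ζ) * deriv (Φ i) ζ‖
              + ‖(i : ℂ) * a2 * (1 + ζ) * Φ (i - 1) ζ‖ := norm_add₃_le
          _ ≤ i * (c * d) * (3 / 2) * C + (c * d) * (3 / 2) * (C * K)
              + i * (c * d) * (3 / 2) * C := by gcongr
          _ = d * (C * M) := by rw [hM]; ring
      have hrec : Φ (i + 1) ζ = Φ 1 ζ * Φ i ζ + E := by
        rw [hR i ζ hζ2, hE]; ring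
      have h1' := h1 ζ hζ2
      constructor
      · calc ‖Φ (i + 1) ζ‖ = ‖Φ 1 ζ * Φ i ζ + E‖ := by rw [hrec]
          _ ≤ ‖Φ 1 ζ‖ * ‖Φ i ζ‖ + ‖E‖ := by
            rw [← norm_mul]; exact norm_add_le _ _
          _ ≤ 1 * C + c * (C * M) := by
            gcongr
            · exact hi.1
            · exact hEb.trans (by gcongr)
          _ ≤ C * (1 + M + c * M) := by nlinarith [mul_nonneg hC.le hM0]
      · calc ‖Φ (i + 1) ζ - Φ 1 ζ ^ (i + 1)‖ = ‖Φ 1 ζ * (Φ i ζ - Φ 1 ζ ^ i) + E‖ := by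
              rw [hrec, pow_succ]; ring_nf
          _ ≤ ‖Φ 1 ζ‖ * ‖Φ i ζ - Φ 1 ζ ^ i‖ + ‖E‖ := by
            rw [← norm_mul]; exact norm_add_le _ _
          _ ≤ 1 * (C * d) + d * (C * M) := by
            gcongr
            exact hi.2
          _ ≤ C * (1 + M + c * M) * d := by
            have : 0 ≤ C * (c * M) * d := by positivity
            nlinarith
    · have := HH j hij ζ hζ
      exact ⟨this.1.trans hle, this.2.trans (by gcongr)⟩

end Pool.Agent.H37.ATR.IndH
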