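import Mathlib

/-!
# Taylor expansion at `0` with remainder, by iterated `dslope`
-/

set_option autoImplicit false

open Metric Set

namespace Pool.Agent.H37.ATR.IndH

/-- Iterated `dslope` at `0`. -/
noncomputable def ds (l : ℕ) (f : ℂ → ℂ) : ℂ → ℂ := (fun g : ℂ → ℂ => dslope g 0)^[l] f

/-- Taylor coefficients at `0`. -/
noncomputable def tc (f : ℂ → ℂ) (l : ℕ) : ℂ := ds l f 0

theorem ds_zero (f : ℂ → ℂ) : ds 0 f = f := rfl

theorem ds_succ (l : ℕ) (f : ℂ → ℂ) : ds (l + 1) f = dslope (ds l f) 0 := by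
  simp only [ds, Function.iterate_succ_apply']

theorem ds_diff {f : ℂ → ℂ} {r : ℝ} (hr : 0 < r) (hf : DifferentiableOn ℂ f (ball 0 r)) (l : ℕ) :
    DifferentiableOn ℂ (ds l f) (ball 0 r) := by
  induction l with
  | zero => exact hf
  | succ l ih =>
    rw [ds_succ]
    exact (Complex.differentiableOn_dslope (ball_mem_nhds _ hr)).2 ih

theorem ds_bd {f : ℂ → ℂ} {r C : ℝ} (hr : 0 < r) (hC : 0 < C)
    (hf : DifferentiableOn ℂ f (ball 0 r)) (hb : ∀ z ∈ ball (0 : ℂ) r, ‖f z‖ ≤ C) (l : ℕ) :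
    ∀ z ∈ ball (0 : ℂ) r, ‖ds l f z‖ ≤ (3 / r) ^ l * C := by
  induction l with
  | zero => intro z hz; simpa [ds_zero] using hb z hz
  | succ l ih =>
    intro z hz
    rw [ds_succ]
    have hK : 0 < (3 / r) ^ l * C := by positivity
    have h := Complex.norm_dslope_le_div_of_mapsTo_ball (c := (0 : ℂ)) (R₁ := r)
      (R₂ := 3 * ((3 / r) ^ l * C)) (ds_diff hr hf l) (fun w hw => ?_) hz
    · calc _ ≤ _ := h
        _ = (3 / r) ^ (l + 1) * C := by rw [pow_succ]; ring
    · rw [mem_closedBall, dist_eq_norm]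
      have h1 := ih w hw
      have h2 := ih 0 (mem_ball_self hr)
      calc ‖ds l f w - ds l f 0‖ ≤ ‖ds l f w‖ + ‖ds l f 0‖ := norm_sub_le _ _
        _ ≤ 3 * ((3 / r) ^ l * C) := by linarith

theorem ds_step (f : ℂ → ℂ) (l : ℕ) (z : ℂ) : ds l f z = tc f l + z * ds (l + 1) f z := by
  have h := sub_smul_dslope (ds l f) 0 z
  rw [sub_zero, smul_eq_mul] at h
  rw [ds_succ, h, tc]; ring

theorem ds_eq (f : ℂ → ℂ) (l : ℕ) (z : ℂ) :
    f z = ∑ i ∈ Finset.range l, tc f i * z ^ i + z ^ l * ds l f z := by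
  induction l with
  | zero => simp [ds_zero]
  | succ l ih =>
    rw [Finset.sum_range_succ]
    calc f z = _ := ih
      _ = _ := by rw [ds_step f l z]; ring

theorem ds_sub {f g : ℂ → ℂ} {r : ℝ} (hr : 0 < r) (hf : DifferentiableOn ℂ f (ball 0 r))
    (hg : DifferentiableOn ℂ g (ball 0 r)) (l : ℕ) :
    ds l (fun z => f z - g z) = fun z => ds l f z - ds l g z := by
  induction l with
  | zero => rfl
  | succ l ih =>
    rw [ds_succ, ih, ds_succ, ds_succ]
    funext z
    have h1 := (ds_diff hr hf l).differentiableAt (ball_mem_nhds _ hr)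
    have h2 := (ds_diff hr hg l).differentiableAt (ball_mem_nhds _ hr)
    rcases eq_or_ne z 0 with rfl | hz
    · rw [dslope_same, dslope_same, dslope_same]
      exact deriv_sub h1 h2
    · rw [dslope_of_ne _ hz, dslope_of_ne _ hz, dslope_of_ne _ hz]
      simp only [slope, vsub_eq_sub, smul_eq_mul]
      ring

theorem tc_sub {f g : ℂ → ℂ} {r : ℝ} (hr : 0 < r) (hf : DifferentiableOn ℂ f (ball 0 r))
    (hg : DifferentiableOn ℂ g (ball 0 r)) (l : ℕ) :
    tc (fun z => f z - g z) l = tc f l - tc g l := by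
  unfold tc; rw [ds_sub hr hf hg]

theorem dslope_mul {g : ℂ → ℂ} {r : ℝ} (hr : 0 < r) (hg : DifferentiableOn ℂ g (ball 0 r)) :
    dslope (fun z => z * g z) 0 = g := by
  funext z
  rcases eq_or_ne z 0 with rfl | hz
  · rw [dslope_same]
    have h1 := hg.differentiableAt (ball_mem_nhds _ hr)
    have h2 := ((hasDerivAt_id (0 : ℂ)).mul h1.hasDerivAt).deriv
    have e : (fun z : ℂ => z * g z) = (id * g : ℂ → ℂ) := rfl
    rw [e, h2]; simp
  · rw [dslope_of_ne _ hz]
    simp only [slope, vsub_eq_sub, smul_eq_mul]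
    field_simp
    ring

theorem ds_pow_mul {k : ℂ → ℂ} {r : ℝ} (hr : 0 < r) (hk : DifferentiableOn ℂ k (ball 0 r))
    (i : ℕ) : ∀ l ≤ i, ds l (fun z => z ^ i * k z) = fun z => z ^ (i - l) * k z := by
  intro l
  induction l with
  | zero => intro _; simp [ds_zero]
  | succ l ih =>
    intro hl
    rw [ds_succ, ih (by omega)]
    have e : (fun z : ℂ => z ^ (i - l) * k z) = fun z => z * (z ^ (i - (l + 1)) * k z) := by
      funext z
      have : i - l = (i - (l + 1)) + 1 := by omega
      rw [this, pow_succ]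
      have : i - (i - (i - (l + 1) + 1) + 1) = i - (l + 1) := by omega
      ring
    rw [e]
    refine dslope_mul hr ?_
    exact ((differentiable_id.pow _).differentiableOn).mul hk

/-- Coefficients of the powers of a function `z + O(z^2)`. -/
theorem tc_pow {h : ℂ → ℂ} {r c : ℝ} (hr : 0 < r) (hh : DifferentiableOn ℂ h (ball 0 r))
    (hc : ∀ z ∈ ball (0 : ℂ) r, ‖h z - z‖ ≤ c * ‖z‖ ^ 2) (i l : ℕ) (hl : l ≤ i) :
    tc (fun z => h z ^ i) l = if l = i then 1 else 0 := by
  have h0 : h 0 = 0 := by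
    have := hc 0 (mem_ball_self hr)
    simpa using this
  have hd : deriv h 0 = 1 := by
    have h1 := (hh.differentiableAt (ball_mem_nhds _ hr)).hasDerivAt
    have h2 : HasDerivAt h 1 0 := by
      rw [hasDerivAt_iff_isLittleO]
      have : (fun z : ℂ => h z - h 0 - (z - 0) • (1 : ℂ)) =O[nhds 0] fun z : ℂ => (z - 0) ^ 2 := by
        refine Asymptotics.IsBigO.of_bound c ?_
        filter_upwards [ball_mem_nhds (0 : ℂ) hr] with z hz
        have := hc z hz
        simpa [h0] using this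
      refine this.trans_isLittleO ?_
      have := (Asymptotics.isLittleO_pow_id (𝕜 := ℂ) (n := 2) (by norm_num))
      simpa using this
    exact h1.unique h2
  have e : (fun z => h z ^ i) = fun z => z ^ i * (dslope h 0 z) ^ i := by
    funext z
    have := sub_smul_dslope h 0 z
    rw [sub_zero, smul_eq_mul, h0, sub_zero] at this
    rw [← mul_pow, this]
  have hk : DifferentiableOn ℂ (fun z => (dslope h 0 z) ^ i) (ball 0 r) :=
    ((Complex.differentiableOn_dslope (ball_mem_nhds _ hr)).2 hh).pow i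
  rw [tc, e, ds_pow_mul hr hk i l hl]
  split_ifs with hli
  · subst hli; simp [dslope_same, hd]
  · have : i - l ≠ 0 := by omega
    simp [this]

end Pool.Agent.H37.ATR.IndH
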